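import Mathlib

/-! Counting conditions at eleven points. -/

set_option autoImplicit false

namespace Pool.Agent.U11

theorem choose_two (a : ℕ) : 8 * ((a + 1).choose 2 : ℝ) = (2 * a + 1) ^ 2 - 1 := by
  have h1 : 2 * (a + 1).choose 2 = (a + 1) * a := by
    have := Nat.triangle_succ a
    rw [Nat.choose_two_right]
    have h2 : 2 ∣ (a + 1) * a := by
      rw [mul_comm]
      exact (Nat.even_mul_succ_self a).two_dvd
    exact Nat.mul_div_cancel' h2
  have h2 : 2 * ((a + 1).choose 2 : ℝ) = ((a : ℝ) + 1) * a := by exact_mod_cast h1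
  linear_combination 4 * h2

/-- the number of conditions is large enough -/
theorem count_le {ε : ℝ} (hε : 0 < ε) {w : Fin 11 → ℕ} {d : ℕ} (hd : 20 / ε ≤ d)
    (h : √11 * (2 * (d : ℝ) + 3) + ε ≤ 11 + 2 * ∑ i, (w i : ℝ)) :
    (d + 2).choose 2 ≤ ∑ i, (w i + 1).choose 2 := by
  have hs := Real.mul_self_sqrt (show (0 : ℝ) ≤ 11 by norm_num)
  have hs4 : √(11 : ℝ) < 3.32 := by
    rw [Real.sqrt_lt' (by norm_num)]; norm_num
  have hs0 : 0 < √(11 : ℝ) := by positivity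
  have h1 : (11 + 2 * ∑ i, (w i : ℝ)) ^ 2 ≤ 11 * ∑ i, (2 * (w i : ℝ) + 1) ^ 2 := by
    have h2 := sq_sum_le_card_mul_sum_sq (s := (Finset.univ : Finset (Fin 11)))
      (f := fun i => 2 * (w i : ℝ) + 1)
    rw [Finset.card_univ, Fintype.card_fin] at h2
    have h3 : ∑ i, (2 * (w i : ℝ) + 1) = 11 + 2 * ∑ i, (w i : ℝ) := by
      rw [Finset.sum_add_distrib, ← Finset.mul_sum]
      simp
      ring
    rw [h3] at h2
    push_cast at h2
    exact h2
  have h2 : ∑ i, (2 * (w i : ℝ) + 1) ^ 2 = 8 * (∑ i, ((w i + 1).choose 2 : ℝ)) + 11 := by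
    have h3 : ∀ i ∈ (Finset.univ : Finset (Fin 11)), (2 * (w i : ℝ) + 1) ^ 2 =
        8 * ((w i + 1).choose 2 : ℝ) + 1 := by
      intro i _
      have := choose_two (w i)
      linarith
    rw [Finset.sum_congr rfl h3, Finset.sum_add_distrib, ← Finset.mul_sum]
    simp
  have h3 : (√11 * (2 * (d : ℝ) + 3) + ε) ^ 2 ≤ (11 + 2 * ∑ i, (w i : ℝ)) ^ 2 := by
    apply pow_le_pow_left₀ _ h
    have : (0 : ℝ) ≤ d := Nat.cast_nonneg d
    positivity
  have h4 : 20 ≤ d * ε := by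
    rw [div_le_iff₀ hε] at hd
    exact hd
  have h5 := choose_two (d + 1)
  have hd0 : (0 : ℝ) ≤ d := Nat.cast_nonneg d
  have h6 : 110 ≤ 2 * √11 * (2 * (d : ℝ) + 3) * ε := by
    have hs3 : 3.3 < √(11 : ℝ) := by
      rw [Real.lt_sqrt (by norm_num)]; norm_num
    have h7 : 40 ≤ (2 * (d : ℝ) + 3) * ε := by nlinarith
    nlinarith
  have h7 : (√11 * (2 * (d : ℝ) + 3) + ε) ^ 2 =
      11 * (2 * (d : ℝ) + 3) ^ 2 + 2 * √11 * (2 * (d : ℝ) + 3) * ε + ε ^ 2 := by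
    linear_combination (2 * (d : ℝ) + 3) ^ 2 * hs
  have h8 : ((d + 2).choose 2 : ℝ) ≤ ∑ i, ((w i + 1).choose 2 : ℝ) := by
    push_cast at h5
    have e : d + 1 + 1 = d + 2 := rfl
    rw [e] at h5
    nlinarith [sq_nonneg ε]
  exact_mod_cast h8

end Pool.Agent.U11
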