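import Pool.Agent.U11.Irr3

/-! Eleven general points, arbitrary multiplicities: at most one curve, exact multiplicities. -/

set_option autoImplicit false

namespace Pool.Agent.U11

open MvPolynomial
open Pool.Agent.TH176.Nag Pool.Agent.TH603.Sur Pool.Agent.H932R3

/-- **arbitrary multiplicities at eleven general points** -/
theorem arb_one (w : Fin 11 → ℕ) :
    ∃ F : MvPolynomial (Fin 11 × Fin 2) ℚ, F ≠ 0 ∧ ∀ {L : Type} [Field L] [CharZero L]
      (P : Fin 11 → Fin 2 → L), aeval (fun ij : Fin 11 × Fin 2 => P ij.1 ij.2) F ≠ 0 →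
      ∀ d : ℕ, √11 * (2 * d + 3) < 11 + 2 * ((∑ i, w i : ℕ) : ℝ) →
        Module.finrank L (Vw L w P d) ≤ 1 ∧
        ∀ f ∈ TH387.EX.V P d w, f ≠ 0 → 3 ∣ d ∧
          (10 - 3 * √11) * ((∑ i, (w i - ⌊(d : ℝ) / √11⌋₊) : ℕ) : ℝ) +
            ((∑ i, (⌊(d : ℝ) / √11⌋₊ - w i) : ℕ) : ℝ) ≤ √11 * d - ((∑ i, w i : ℕ) : ℝ) ∧
          ∀ i, f ∉ TH387.EX.pt (P i 0) (P i 1) ^ (w i + 1) := by
  classical
  have hs3 : 3.3 < √(11 : ℝ) := by
    rw [Real.lt_sqrt (by norm_num)]; norm_num
  have hs4 : √(11 : ℝ) < 3.32 := by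
    rw [Real.sqrt_lt' (by norm_num)]; norm_num
  obtain ⟨W, hW⟩ : ∃ W, W = ∑ i, w i := ⟨_, rfl⟩
  rw [← hW]
  -- the dimension
  obtain ⟨F1, hF1, h1⟩ := dims (n := 11) (w := w)
    (G := fun d => √11 * (2 * d + 3) < 11 + 2 * ((∑ i, w i : ℕ) : ℝ))
    (fun d hd => Or.inr (Or.inr (lin11_one w d hd)))
  -- the classes
  let g : ℕ × (Fin 11 → ℕ) → MvPolynomial (Fin 11 × Fin 2) ℚ := fun x =>
    if h : Emp x.2 (TZ x.1) then (open_bot h).choose else 1
  let T : Finset (ℕ × (Fin 11 → ℕ)) :=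
    Finset.range (W + 5) ×ˢ (insert w (Finset.univ.image fun i => Function.update w i (w i + 1)))
  have hg0 : ∀ x, g x ≠ 0 := by
    intro x
    simp only [g]
    split_ifs with h
    · exact (open_bot h).choose_spec.1
    · exact one_ne_zero
  refine ⟨F1 * ∏ x ∈ T, g x, mul_ne_zero hF1 (Finset.prod_ne_zero_iff.2 fun x _ => hg0 x), ?_⟩
  intro L _ _ P hP' d hd
  rw [map_mul] at hP'
  have hP1 := left_ne_zero_of_mul hP'
  have hP := right_ne_zero_of_mul hP'
  rw [map_prod, Finset.prod_ne_zero_iff] at hP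
  have hdW : d < W + 5 := by
    by_contra hcon
    push Not at hcon
    have e1 : ((W : ℝ) + 5) ≤ d := by exact_mod_cast hcon
    have e2 : (0 : ℝ) ≤ W := Nat.cast_nonneg W
    have e3 : 3.3 * (2 * (d : ℝ) + 3) ≤ √11 * (2 * d + 3) :=
      mul_le_mul_of_nonneg_right hs3.le (by positivity)
    linarith
  have hne : ∀ v ∈ insert w (Finset.univ.image fun i => Function.update w i (w i + 1)),
      ∀ G ∈ TH387.EX.V P d v, G ≠ 0 → ¬ Emp v (TZ d) := by
    intro v hv G hG hG0 hE
    have e1 := hP (d, v) (Finset.mem_product.2 ⟨Finset.mem_range.2 hdW, hv⟩)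
    have e2 : g (d, v) = (open_bot hE).choose := by
      simp only [g]
      rw [dif_pos hE]
    rw [e2] at e1
    have e3 := (open_bot hE).choose_spec.2 P e1
    rw [e3, Submodule.mem_bot] at hG
    exact hG0 hG
  refine ⟨?_, fun f hf hf0 => ?_⟩
  · rcases h1 P hP1 d (by rw [← hW]; exact hd) with e1 | ⟨-, e1⟩
    · rw [e1]
      -- the expected dimension is at most one
      have c1 : (d + 2).choose 2 * 2 = (d + 2) * (d + 1) := by
        rw [Nat.choose_two_right, Nat.div_mul_cancel]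
        · rfl
        · exact (Nat.even_mul_pred_self _).two_dvd
      have c2 : (∑ i, (w i + 1).choose 2) * 2 = ∑ i, (w i * w i) + W := by
        rw [Finset.sum_mul, hW, ← Finset.sum_add_distrib]
        refine Finset.sum_congr rfl fun i _ => ?_
        rw [Nat.choose_two_right, Nat.div_mul_cancel]
        · rw [Nat.add_sub_cancel]
          ring
        · exact (Nat.even_mul_pred_self _).two_dvd
      have c3 : (W : ℝ) * W ≤ 11 * ((∑ i, (w i * w i) : ℕ) : ℝ) := by
        have := sq_sum_le_card_mul_sum_sq (s := (Finset.univ : Finset (Fin 11)))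
          (f := fun i => (w i : ℝ))
        rw [Finset.card_univ, Fintype.card_fin] at this
        rw [hW]
        push_cast
        have e2 : ∑ i, (w i : ℝ) * (w i : ℝ) = ∑ i, (w i : ℝ) ^ 2 :=
          Finset.sum_congr rfl fun i _ => by ring
        rw [e2, ← pow_two]
        exact_mod_cast this
      have hsq := Pool.Agent.TH864.SX.sq11
      have c4 : (√11 * (2 * (d : ℝ) + 3)) * (√11 * (2 * d + 3)) < (11 + 2 * (W : ℝ)) * (11 + 2 * W) :=
        mul_self_lt_mul_self (by positivity) hd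
      have c5 : (√11 * (2 * (d : ℝ) + 3)) * (√11 * (2 * d + 3)) = 11 * ((2 * d + 3) * (2 * d + 3)) := by
        linear_combination ((2 * (d : ℝ) + 3) * (2 * d + 3)) * hsq
      rw [c5] at c4
      have c6 : (8 : ℝ) * ((d + 2).choose 2 : ℕ) = (2 * (d : ℝ) + 3) * (2 * d + 3) - 1 := by
        have : (((d + 2).choose 2 * 2 : ℕ) : ℝ) = (((d + 2) * (d + 1) : ℕ) : ℝ) := by rw [c1]
        push_cast at this ⊢
        linarith
      have c7 : (8 : ℝ) * ((∑ i, (w i + 1).choose 2 : ℕ) : ℝ) =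
          4 * ((∑ i, (w i * w i) : ℕ) : ℝ) + 4 * W := by
        have : (((∑ i, (w i + 1).choose 2) * 2 : ℕ) : ℝ) = ((∑ i, (w i * w i) + W : ℕ) : ℝ) := by
          rw [c2]
        push_cast at this ⊢
        linarith
      have c8 : (((d + 2).choose 2 : ℕ) : ℝ) < ((∑ i, (w i + 1).choose 2 : ℕ) : ℝ) + 2 := by
        have e5 : (11 + 2 * (W : ℝ)) * (11 + 2 * W) = 121 + 44 * W + 4 * (W * W) := by ring
        rw [e5] at c4
        linarith
      have c9 : (d + 2).choose 2 < ∑ i, (w i + 1).choose 2 + 2 := by exact_mod_cast c8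
      omega
    · exact e1.le
  · have e1 := hne w (Finset.mem_insert_self _ _) f hf hf0
    rcases phi_of e1 with e2 | ⟨e2, e3⟩
    · rw [← hW] at e2
      linarith
    rw [← hW] at e3
    refine ⟨e2, e3, fun i hi => ?_⟩
    rw [TH387.EX.mem_V] at hf
    have e4 : f ∈ TH387.EX.V P d (Function.update w i (w i + 1)) := by
      rw [TH387.EX.mem_V]
      refine ⟨hf.1, fun j => ?_⟩
      by_cases hj : j = i
      · subst hj
        rw [Function.update_self]
        exact hi
      · rw [Function.update_of_ne hj]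
        exact hf.2 j
    have e5 := hne _ (Finset.mem_insert_of_mem (Finset.mem_image_of_mem _ (Finset.mem_univ i)))
      f e4 hf0
    have e6 := phi_nonneg e5
    have e7 : ∑ j, Function.update w i (w i + 1) j = W + 1 := by
      rw [Finset.sum_update_of_mem (Finset.mem_univ i), hW,
        ← Finset.add_sum_erase _ _ (Finset.mem_univ i), Finset.sdiff_singleton_eq_erase]
      ring
    rw [e7] at e6
    push_cast at e6
    linarith

end Pool.Agent.U11
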