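import Pool.Agent.U11.Arb

/-! 11 general points of multiplicities `m` and `m + 1`, large degrees; gaps. -/

set_option autoImplicit false

namespace Pool.Agent.U11

open Finset Pool.Agent.TH176.Nag Pool.Agent.TH603.Sur

/-- eleven nearly equal multiplicities, large degrees -/
theorem near11 {ε : ℝ} (hε : 0 < ε) : ∃ d₀ : ℕ, ∀ (w : Fin 11 → ℕ) (m d : ℕ), d₀ ≤ d →
    (∀ i, w i = m ∨ w i = m + 1) →
    ¬ (3 ∣ d ∧ √11 * (2 * d + 3) < 11 + 2 * ((∑ i, w i : ℕ) : ℝ) ∧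
      11 + 2 * ((∑ i, w i : ℕ) : ℝ) < √11 * (2 * d + 3) + ε) →
    Emp w (TZ d) ∨ Sur w (TZ d) := by
  obtain ⟨d₀, hd₀⟩ := Emp_lin11 hε
  refine ⟨d₀, fun w m d hd hw h => ?_⟩
  have hpar : Pool.Agent.TH759.EV.Par 2 1 (Pool.Agent.TH759.EV.LL 11)
      (√((11 : ℕ) : ℝ) * Pool.Agent.TH759.EV.LL 11) 11 :=
    Pool.Agent.TH759.EV.par_of (by norm_num) (by norm_num) (by norm_num) (by norm_num) (by norm_num)
  rcases le_or_gt ((11 : ℝ) + 2 * ((∑ i, w i : ℕ) : ℝ)) (√11 * (2 * d + 3)) with hX | hX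
  · right
    have hmax : ∀ i, max (w i) m = w i := fun i => by
      rcases hw i with h | h <;> omega
    exact Pool.Agent.TH759.EV.Sur_pl hpar (Fintype.card_fin 11) (b := m)
      (fun i => by rcases hw i with h | h <;> omega) (by
      simp only [hmax]
      push_cast at hX ⊢
      exact hX)
  left
  by_cases h3 : 3 ∣ d
  · apply hd₀ w d hd
    by_contra hcon
    push Not at hcon
    exact h ⟨h3, hX, hcon⟩
  · exact Pool.Agent.TH759.EV.Emp_pl hpar (Fintype.card_fin 11) h3 (by push_cast at hX ⊢; exact hX)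

/-- the multiples of an irrational number are away from the integers -/
theorem away {α : ℝ} (hα : Irrational α) (Q : ℕ) : ∃ ε : ℝ, 0 < ε ∧ ∀ q : ℕ, 0 < q → q < Q →
    ∀ z : ℤ, ε ≤ |α * q - z| := by
  induction Q with
  | zero => exact ⟨1, one_pos, fun q _ hq => absurd hq (Nat.not_lt_zero q)⟩
  | succ Q ih =>
    obtain ⟨ε, hε, h⟩ := ih
    rcases Nat.eq_zero_or_pos Q with h0 | h0
    · subst h0
      exact ⟨1, one_pos, fun q h1 h2 => by omega⟩
    refine ⟨min ε |α * Q - round (α * Q)|, lt_min hε ?_, fun q hq hq' z => ?_⟩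
    · rw [abs_pos, sub_ne_zero]
      exact (hα.mul_natCast h0.ne').ne_int _
    · rcases Nat.lt_succ_iff_lt_or_eq.1 hq' with h1 | h1
      · exact (min_le_left _ _).trans (h q hq h1 z)
      · subst h1
        exact (min_le_right _ _).trans (round_le _ _)

theorem irr11 : Irrational (√(11 : ℝ)) := by
  have h0 : Irrational √((11 : ℕ) : ℝ) := by
    rw [irrational_sqrt_natCast_iff]
    rintro ⟨k, hk⟩
    have : k ≤ 3 := by nlinarith
    interval_cases k <;> omega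
  exact_mod_cast h0

/-- **the exceptional degrees are sparse** -/
theorem sparse11 (Q : ℕ) : ∃ ε : ℝ, 0 < ε ∧ ∀ d d' W W' : ℕ, d < d' → d' < d + Q →
    (√11 * (2 * d + 3) < 11 + 2 * (W : ℝ) ∧ 11 + 2 * (W : ℝ) < √11 * (2 * d + 3) + ε) →
    (√11 * (2 * d' + 3) < 11 + 2 * (W' : ℝ) ∧ 11 + 2 * (W' : ℝ) < √11 * (2 * d' + 3) + ε) →
    False := by
  obtain ⟨ε, hε, h⟩ := away irr11 Q
  refine ⟨ε, hε, fun d d' W W' hd hd' h1 h2 => ?_⟩
  obtain ⟨q, rfl⟩ := Nat.exists_eq_add_of_lt hd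
  have h3 := h (q + 1) (by omega) (by omega) ((W' : ℤ) - W)
  have h4 : |√11 * ((q + 1 : ℕ) : ℝ) - (((W' : ℤ) - W : ℤ) : ℝ)| < ε := by
    rw [abs_lt]
    push_cast at h1 h2 ⊢
    constructor <;> nlinarith [h1.1, h1.2, h2.1, h2.2]
  linarith

end Pool.Agent.U11
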