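import Pool.Agent.U11.Block
import Pool.Agent.N388.EFW.Near
import Pool.Agent.N388.EF.TEST2

/-! 11 general points, arbitrary multiplicities, large degrees. -/

set_option autoImplicit false

namespace Pool.Agent.U11

open Finset Pool.Agent.TH176.Nag Pool.Agent.TH603.Sur Pool.Agent.TH603.Cut Pool.Agent.TH641.NW
  Pool.Agent.H932R3
open Pool.Agent.TH864.SX (Slp Blk Fa Fb K11 num11 sq11 K11_lt)
open Pool.Agent.N388.EF (Emp_TZ9')
open Pool.Agent.N388.EFW (ee)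

/-- the emptiness of the block with eleven points, all excesses -/
theorem blk11 {ε : ℝ} (hε : 0 < ε) :
    ∃ m₀ : ℕ, ∀ m x j : ℕ, m₀ ≤ m → 0 ≤ ee K11 m x j →
      ee K11 m x j * (2 * K11 + 2) + j ≤ (1 - ε) * (K11 + 1) → ∀ w : Fin (9 + 2) → ℕ,
      (∀ i, m ≤ w i) → ∑ i, w i = (9 + 2) * m + j → Emp w (Blk 9 K11 (3 * x)) := by
  have hsl : Slp 9 2 K11 := num11.sl
  choose f hf using fun j : ℕ => blk_emp hsl j hε
  refine ⟨∑ j ∈ range 11, f j, fun m x j hm he hsla w hw hs => ?_⟩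
  have hK0 := hsl.K0
  have hKlt : K11 < 9.5 := by
    have hs4 : √(11 : ℝ) < 3.32 := by
      rw [Real.sqrt_lt' (by norm_num)]; norm_num
    unfold K11
    linarith
  have hj : j < 11 := by
    have h1 : (j : ℝ) < 11 := by
      have h2 : 0 ≤ ee K11 m x j * (2 * K11 + 2) := mul_nonneg he (by linarith)
      have h3 : (1 - ε) * (K11 + 1) ≤ K11 + 1 := by nlinarith
      linarith
    exact_mod_cast h1
  have h1 : f j ≤ ∑ j ∈ range 11, f j :=
    single_le_sum (f := f) (fun _ _ => Nat.zero_le _) (mem_range.2 hj)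
  exact hf j m x (h1.trans hm) he hsla w hw hs

/-- **emptiness at eleven points, the linear inequality** -/
theorem Emp_lin11 {ε : ℝ} (hε : 0 < ε) : ∃ d₀ : ℕ, ∀ (w : Fin 11 → ℕ) (d : ℕ), d₀ ≤ d →
    √11 * (2 * d + 3) + ε ≤ 11 + 2 * ((∑ i, w i : ℕ) : ℝ) → Emp w (TZ d) := by
  obtain ⟨m₀, hm₀⟩ := blk11 (half_pos hε)
  refine ⟨4 * (m₀ + 1), fun w d hd hX => ?_⟩
  have hsq := sq11
  have hs0 : 0 ≤ √(11 : ℝ) := Real.sqrt_nonneg _
  have hs3 : 3.3 < √(11 : ℝ) := by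
    rw [Real.lt_sqrt (by norm_num)]; norm_num
  have hs4 : √(11 : ℝ) < 3.32 := by
    rw [Real.sqrt_lt' (by norm_num)]; norm_num
  have hpar : Pool.Agent.TH759.EV.Par 2 1 (Pool.Agent.TH759.EV.LL 11)
      (√((11 : ℕ) : ℝ) * Pool.Agent.TH759.EV.LL 11) 11 :=
    Pool.Agent.TH759.EV.par_of (by norm_num) (by norm_num) (by norm_num) (by norm_num) (by norm_num)
  by_cases h3 : 3 ∣ d
  swap
  · exact Pool.Agent.TH759.EV.Emp_pl hpar (Fintype.card_fin 11) h3 (by push_cast at hX ⊢; linarith)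
  obtain ⟨g, hg⟩ : ∃ g, g = ⌊(d : ℝ) / √11⌋₊ := ⟨_, rfl⟩
  obtain ⟨s, hs⟩ : ∃ s, s = ∑ i, (w i - g) := ⟨_, rfl⟩
  obtain ⟨e, he⟩ : ∃ e : ℝ, e = (3 + √11) / 2 * (d - √11 * g) - s := ⟨_, rfl⟩
  rcases lt_or_ge e 0 with h0 | h0
  · exact Pool.Agent.N388.EFW.Emp_arb11 Pool.Agent.N388.EF.t_TEST2 h3 (by linarith) hg hs he
      (Or.inl h0)
  -- the multiplicity is large
  have hgm : m₀ ≤ g := by
    rw [hg]
    apply Nat.le_floor
    rw [le_div_iff₀ (by linarith)]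
    have h1 : ((4 * (m₀ + 1) : ℕ) : ℝ) ≤ d := by exact_mod_cast hd
    push_cast at h1
    have h2 : (0 : ℝ) ≤ m₀ := Nat.cast_nonneg _
    nlinarith
  obtain ⟨x, rfl⟩ := h3
  push_cast at he hX hg
  -- all multiplicities are at least `g`
  obtain ⟨s', hs'⟩ : ∃ s', s' = ∑ i, (g - w i) := ⟨_, rfl⟩
  have hsum : ∑ i, w i + s' = 11 * g + s := by
    have h1 : ∑ i, (w i + (g - w i)) = ∑ i, (g + (w i - g)) := by
      apply sum_congr rfl
      intro i _
      omega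
    rw [sum_add_distrib, sum_add_distrib, ← hs', ← hs, sum_const, card_univ, Fintype.card_fin,
      smul_eq_mul] at h1
    exact h1
  have hsumR : (∑ i, (w i : ℝ)) + s' = 11 * g + s := by exact_mod_cast hsum
  obtain ⟨δ, hδ⟩ : ∃ δ : ℝ, δ = 3 * (x : ℝ) - √11 * g := ⟨_, rfl⟩
  have h2 : (11 : ℝ) * g = √11 * (√11 * g) := by rw [← mul_assoc, hsq]
  have h3 : √11 * (2 * δ + 3) + ε ≤ 11 + 2 * (s - s') := by
    rw [hδ]
    linarith
  rw [← hδ] at he
  have h5 : (3 + √11) * δ = 2 * e + 2 * s := by linarith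
  have h6 : (3 + √11) * (√11 * (2 * δ + 3) + ε) ≤ (3 + √11) * (11 + 2 * (s - s')) :=
    mul_le_mul_of_nonneg_left h3 (by linarith)
  have h7 : (3 + √11) * (√11 * (2 * δ + 3) + ε) =
      √11 * (2 * (2 * e + 2 * s)) + 9 * √11 + 33 + (3 + √11) * ε := by
    rw [← h5]
    linear_combination 3 * hsq
  rw [h7] at h6
  have hsn : (0 : ℝ) ≤ s := Nat.cast_nonneg s
  have hs'0 : s' = 0 := by
    by_contra hne
    have h1 : (1 : ℝ) ≤ s' := by
      have : 1 ≤ s' := Nat.one_le_iff_ne_zero.2 hne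
      exact_mod_cast this
    have h8 : 0 ≤ (3 + √11) * ε := by positivity
    nlinarith
  subst hs'0
  have hw : ∀ i, g ≤ w i := by
    intro i
    have h1 : ∑ i, (g - w i) = 0 := hs'.symm
    have h2 := (sum_eq_zero_iff.1 h1) i (mem_univ i)
    omega
  have hwsum : ∑ i, w i = (9 + 2) * g + s := by omega
  have hK9 : (9 : ℝ) < K11 := by have := num11.sl.hMK; push_cast at this; exact this
  have e1 : ee K11 g x s = e := by
    rw [he, hδ]
    unfold ee K11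
    linear_combination ((g : ℝ) / 2) * hsq
  refine Emp_TZ9' hK9 K11_lt (hm₀ g x s hgm (by rw [e1]; exact h0) ?_ w hw hwsum)
  rw [e1]
  have hK : K11 = 3 * (3 + √11) / 2 := rfl
  rw [hK]
  push_cast at h6
  -- `4 √11 e + (2 √11 - 6) s ≤ 2 √11 - (3 + √11) ε`
  have h9 : 4 * √11 * e + (2 * √11 - 6) * s ≤ 2 * √11 - (3 + √11) * ε := by nlinarith
  have h10 : (3 + √11) / 4 * (4 * √11 * e + (2 * √11 - 6) * s) ≤
      (3 + √11) / 4 * (2 * √11 - (3 + √11) * ε) :=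
    mul_le_mul_of_nonneg_left h9 (by linarith)
  have h11 : (3 + √11) / 4 * (4 * √11 * e + (2 * √11 - 6) * s) =
      e * (2 * (3 * (3 + √11) / 2) + 2) + s := by
    linear_combination (e + s / 2) * hsq
  have h12 : (3 + √11) / 4 * (2 * √11 - (3 + √11) * ε) =
      (3 * (3 + √11) / 2 + 1) - (20 + 6 * √11) / 4 * ε := by
    linear_combination (1 / 2 - ε / 4) * hsq
  rw [h11, h12] at h10
  have h13 : ε / 2 * (3 * (3 + √11) / 2 + 1) ≤ (20 + 6 * √11) / 4 * ε := by nlinarith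
  linarith

end Pool.Agent.U11
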