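import Pool.Agent.U11.OneUni
import Pool.Agent.TH387.EX.Core

/-! Emptiness bounds the number of monomials; factors of forms are forms. -/

set_option autoImplicit false

namespace Pool.Agent.U11

open MvPolynomial
open Pool.Agent.TH176.Nag Pool.Agent.TH603.Sur Pool.Agent.H932R3 Pool.Agent.H932R2

/-- the rank is at most the number of conditions -/
theorem rk_le {K : Type*} [Field K] {ι : Type*} [Fintype ι] {r : ℕ} {w : ι → ℕ} {c : ι → K}
    {γ : ι → Polynomial K} {M : Set (ℕ × ℕ)} {n : ℕ} (hR : RkI (vIdeal r w c γ) M n) :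
    n ≤ ∑ a, (EE r (w a)).card := by
  classical
  obtain ⟨v, hv, hli⟩ := hR
  have h1 : LinearIndependent K (fun i => condMapV r w c γ (v i)) := by
    rw [Fintype.linearIndependent_iff]
    intro a ha
    apply hli a
    rw [mem_vIdeal_iff, map_sum, ← ha]
    refine Finset.sum_congr rfl fun i _ => ?_
    rw [map_smul]
  have h2 := h1.fintype_card_le_finrank
  rw [Fintype.card_fin, Module.finrank_pi] at h2
  refine h2.trans (le_of_eq ?_)
  rw [Fintype.card_sigma]
  exact Finset.sum_congr rfl fun a _ => Fintype.card_coe _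

/-- emptiness bounds the number of monomials -/
theorem choose_le_of_Emp {n : ℕ} {w : Fin n → ℕ} {e : ℕ} (h : Emp w (TZ e)) :
    (e + 2).choose 2 ≤ ∑ i, (w i + 1).choose 2 := by
  obtain ⟨F, hF, hF'⟩ := Emp_open (TZ_finite e) (fun m hm => ⟨hm.1, hm.2.1⟩) h
  obtain ⟨P, hP⟩ : ∃ P : Fin n × Fin 2 → ℚ, eval P F ≠ 0 := by
    by_contra hcon
    push Not at hcon
    exact hF (MvPolynomial.funext (fun z => by rw [hcon z, map_zero]))
  obtain ⟨h1, h2⟩ := hF' (L := ℚ) P (by
    have e1 : ∀ φ : ℚ →+* ℚ, eval₂ φ P F = eval P F := fun φ => by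
      rw [Subsingleton.elim φ (RingHom.id ℚ), eval₂_id]
    intro h0
    exact hP ((e1 _).symm.trans h0))
  have hcast : castS (Tfin e) ⊆ TZ e := by
    rintro m ⟨p, hp, rfl⟩
    have : p ∈ Tset e := by rw [← coe_Tfin]; exact hp
    have h3 : p.1 + p.2 ≤ e := this
    exact ⟨by simp, by simp, by simp only; omega⟩
  have h3 : RkI (vIdeal 1 w (fun a => P (a, 0)) (fun a => Polynomial.C (P (a, 1)))) (Tset e)
      (Tfin e).card :=
    RkI_of_LM (fun i => h1 (i, 0)) (fun i => h1 (i, 1)) (by rw [coe_Tfin]) fun f hf hL =>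
      h2 f (hf.trans hcast) hL
  have h4 := rk_le h3
  have hN : (Tfin e).card = (e + 2).choose 2 := by
    have h4 := card_Tfin e
    have h5 : (e + 2).choose 2 * 2 = (e + 2) * (e + 1) := by
      rw [Nat.choose_two_right, Nat.div_mul_cancel (Nat.even_mul_pred_self _).two_dvd]
      rfl
    linarith
  rw [hN] at h4
  refine h4.trans (le_of_eq (Finset.sum_congr rfl fun i _ => card_EE_eq (w i)))

/-- no forms at general points -/
theorem open_bot {n : ℕ} {w : Fin n → ℕ} {e : ℕ} (h : Emp w (TZ e)) :
    ∃ F : MvPolynomial (Fin n × Fin 2) ℚ, F ≠ 0 ∧ ∀ {L : Type} [Field L] [CharZero L]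
      (P : Fin n → Fin 2 → L), aeval (fun ij : Fin n × Fin 2 => P ij.1 ij.2) F ≠ 0 →
      TH387.EX.V P e w = ⊥ := by
  obtain ⟨F, hF, hF'⟩ := full_open h
  refine ⟨F, hF, fun {L} _ _ P hP => ?_⟩
  have h1 := hF' P hP e le_rfl
  have h2 : Module.finrank L ↥(TH387.EX.V P e w) = 0 := by
    have h3 : Module.finrank L ↥(TH387.EX.V P e w) =
      (e + 2).choose 2 - ∑ i, (w i + 1).choose 2 := h1
    rw [h3]
    exact Nat.sub_eq_zero_of_le (choose_le_of_Emp h)
  exact Submodule.finrank_eq_zero.1 h2

/-- the grading -/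
noncomputable def psi {A : Type*} [CommRing A] :
    MvPolynomial (Fin 3) A →ₐ[A] Polynomial (MvPolynomial (Fin 3) A) :=
  aeval (fun i => Polynomial.C (X i) * Polynomial.X)

theorem psi_hom {A : Type*} [CommRing A] {f : MvPolynomial (Fin 3) A} {k : ℕ}
    (hf : f.IsHomogeneous k) : psi f = Polynomial.C f * Polynomial.X ^ k := by
  unfold psi
  rw [aeval_def, eval₂_eq']
  conv_rhs => rw [f.as_sum, map_sum, Finset.sum_mul]
  apply Finset.sum_congr rfl
  intro s hs
  have h1 : s.degree = k := by
    have := hf (mem_support_iff.1 hs)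
    rw [Finsupp.degree_eq_weight_one]
    exact this
  have h2 : ∏ i, (Polynomial.C (X i : MvPolynomial (Fin 3) A) * Polynomial.X) ^ s i =
      Polynomial.C (∏ i, (X i : MvPolynomial (Fin 3) A) ^ s i) * Polynomial.X ^ k := by
    rw [map_prod, ← h1, Finsupp.degree_eq_sum, ← Finset.prod_pow_eq_pow_sum,
      ← Finset.prod_mul_distrib]
    apply Finset.prod_congr rfl
    intro i _
    rw [mul_pow, map_pow]
  rw [h2, monomial_eq, Finsupp.prod_fintype _ _ (by simp), map_mul, mul_assoc]
  rfl

theorem psi_coeff {A : Type*} [CommRing A] (f : MvPolynomial (Fin 3) A) (k : ℕ) :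
    (psi f).coeff k = homogeneousComponent k f := by
  conv_lhs => rw [← sum_homogeneousComponent f, map_sum, Polynomial.finsetSum_coeff]
  have h1 : ∀ i ∈ Finset.range (f.totalDegree + 1),
      (psi (homogeneousComponent i f)).coeff k = if k = i then homogeneousComponent i f else 0 := by
    intro i _
    rw [psi_hom (homogeneousComponent_isHomogeneous i f), Polynomial.coeff_C_mul,
      Polynomial.coeff_X_pow]
    split_ifs <;> simp
  rw [Finset.sum_congr rfl h1, Finset.sum_ite_eq]
  split_ifs with h
  · rfl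
  · rw [Finset.mem_range, not_lt] at h
    rw [homogeneousComponent_eq_zero _ _ (by omega)]

/-- a factor of a form is a form -/
theorem hom_factor {A : Type*} [CommRing A] [IsDomain A] {G H : MvPolynomial (Fin 3) A} {d : ℕ}
    (hG : G ≠ 0) (hH : H ≠ 0) (h : (G * H).IsHomogeneous d) : ∃ a, G.IsHomogeneous a := by
  have hne : ∀ {f : MvPolynomial (Fin 3) A}, f ≠ 0 → psi f ≠ 0 := by
    intro f hf h0
    apply hf
    rw [← sum_homogeneousComponent f]
    apply Finset.sum_eq_zero
    intro i _
    rw [← psi_coeff, h0, Polynomial.coeff_zero]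
  have h1 : psi G * psi H = Polynomial.monomial d (G * H) := by
    rw [← map_mul, psi_hom h, Polynomial.C_mul_X_pow_eq_monomial]
  have hGH : G * H ≠ 0 := mul_ne_zero hG hH
  have h2 : (psi G * psi H).natDegree = d := by
    rw [h1, Polynomial.natDegree_monomial_eq _ hGH]
  have h3 : (psi G * psi H).natTrailingDegree = d := by
    rw [h1, Polynomial.natTrailingDegree_monomial hGH]
  rw [Polynomial.natDegree_mul (hne hG) (hne hH)] at h2
  rw [Polynomial.natTrailingDegree_mul (hne hG) (hne hH)] at h3
  have h4 := Polynomial.natTrailingDegree_le_natDegree (psi G)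
  have h5 := Polynomial.natTrailingDegree_le_natDegree (psi H)
  refine ⟨(psi G).natDegree, ?_⟩
  have key : ∀ k, k ≠ (psi G).natDegree → homogeneousComponent k G = 0 := by
    intro k hk
    rw [← psi_coeff]
    rcases Nat.lt_or_ge k (psi G).natDegree with h6 | h6
    · exact Polynomial.coeff_eq_zero_of_lt_natTrailingDegree (by omega)
    · exact Polynomial.coeff_eq_zero_of_natDegree_lt (by omega)
  have : G = homogeneousComponent (psi G).natDegree G := by
    conv_lhs => rw [← sum_homogeneousComponent G]
    by_cases hn : (psi G).natDegree ∈ Finset.range (G.totalDegree + 1)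
    · rw [Finset.sum_eq_single (psi G).natDegree]
      · intro m _ hm
        exact key m hm
      · intro h
        exact absurd hn h
    · rw [Finset.sum_eq_zero]
      · rw [homogeneousComponent_eq_zero _ G (by
            rw [Finset.mem_range, not_lt] at hn
            omega)]
      · intro m hm
        apply key
        rw [Finset.mem_range] at hn hm
        omega
  conv_lhs => rw [this]
  exact homogeneousComponent_isHomogeneous _ _

end Pool.Agent.U11
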