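import Pool.Agent.U11.Fam
import Pool.Agent.U11.Near

/-! The numerical condition in linear form; gaps. -/

set_option autoImplicit false

namespace Pool.Agent.U11

open Finset
open Pool.Agent.TH978.S13 (KN slpN)
open Pool.Agent.N135.QT (sM sM_sq KN_eq)

theorem sM_ge (M : ℕ) : (M : ℝ) ≤ sM M := by
  have h1 := sM_sq M
  have h2 : 0 ≤ sM M := Real.sqrt_nonneg _
  have h3 : (0 : ℝ) ≤ M := Nat.cast_nonneg M
  nlinarith

theorem sM_lt' {M : ℕ} (hM : 1 ≤ M) : sM M < M + 1 := by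
  have h1 := sM_sq M
  have h2 : 0 ≤ sM M := Real.sqrt_nonneg _
  have h3 : (1 : ℝ) ≤ M := by exact_mod_cast hM
  nlinarith

theorem sM_irr {M : ℕ} (hM : 1 ≤ M) : Irrational (sM M) := by
  have h := (slpN hM).1.irr
  rw [KN_eq] at h
  intro ⟨q, hq⟩
  apply h
  refine ⟨((M : ℚ) + q) / 2, ?_⟩
  rw [← hq]
  push_cast
  ring

/-- the condition in linear form -/
theorem goodE_lin {M b D m : ℕ} (hM : 1 ≤ M) {ε : ℝ} (hε : 0 < ε)
    (h : ((M : ℝ) + 2) * (2 * m + 1) + 2 * b ≤ sM M * (2 * D + 1) ∨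
      sM M * (2 * D + 1) + ε ≤ ((M : ℝ) + 2) * (2 * m + 1) + 2 * b) : GoodE (ε / 2) M b D m := by
  unfold GoodE
  rw [KN_eq]
  have hs1 := sM_sq M
  have hs2 := sM_ge M
  have hs3 := sM_lt' hM
  obtain ⟨s, hs⟩ : ∃ s, s = sM M := ⟨_, rfl⟩
  rw [← hs] at hs1 hs2 hs3 h ⊢
  have hMR : (1 : ℝ) ≤ M := by exact_mod_cast hM
  have hp : 0 < (M : ℝ) + 2 - s := by linarith
  have hK : 0 < ((M : ℝ) + s) / 2 + 1 := by linarith
  have key : ((M : ℝ) + 2 - s) * (((M + s) / 2 + 1) -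
      (((M + s) / 2 * D - ((M + s) / 2 + 1) * m - b) * (2 * ((M + s) / 2) + 2) + b)) =
      ((M + s) / 2 + 1) * (((M : ℝ) + 2) * (2 * m + 1) + 2 * b - s * (2 * D + 1)) := by
    linear_combination ((M + s) / 2 * D - ((M + s) / 2 + 1) * m - b - 1 / 2 + (2 * D + 1) / 2) * hs1
  rcases h with h | h
  · right; right
    have h1 : ((M + s) / 2 + 1) * (((M : ℝ) + 2) * (2 * m + 1) + 2 * b - s * (2 * D + 1)) ≤ 0 :=
      mul_nonpos_of_nonneg_of_nonpos hK.le (by linarith)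
    rw [← key] at h1
    have h2 := nonpos_of_mul_nonpos_right h1 hp
    linarith
  · right; left
    have h1 : ((M + s) / 2 + 1) * ε ≤
        ((M + s) / 2 + 1) * (((M : ℝ) + 2) * (2 * m + 1) + 2 * b - s * (2 * D + 1)) :=
      mul_le_mul_of_nonneg_left (by linarith) hK.le
    rw [← key] at h1
    obtain ⟨y, hy⟩ : ∃ y, y = ((M + s) / 2 + 1) -
      (((M + s) / 2 * D - ((M + s) / 2 + 1) * m - b) * (2 * ((M + s) / 2) + 2) + b) := ⟨_, rfl⟩
    rw [← hy] at h1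
    have h2 : 0 < ((M + s) / 2 + 1) * ε := by positivity
    have hy0 : 0 < y := by
      by_contra hcon
      push Not at hcon
      have := mul_nonpos_of_nonneg_of_nonpos hp.le hcon
      linarith
    have h3 : ((M : ℝ) + 2 - s) * y ≤ 2 * y := mul_le_mul_of_nonneg_right (by linarith) hy0.le
    have h4 : ((M + s) / 2 + 1) * (ε / 2) ≤ y := by linarith
    rw [hy] at h4
    linarith

/-- **the exceptional multiplicities are sparse** -/
theorem sparse_fam {M : ℕ} (hM : 1 ≤ M) (b Q : ℕ) : ∃ ε : ℝ, 0 < ε ∧ ∀ m m' D D' : ℕ,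
    m < m' → m' < m + Q →
    (sM M * (2 * D + 1) < ((M : ℝ) + 2) * (2 * m + 1) + 2 * b ∧
      ((M : ℝ) + 2) * (2 * m + 1) + 2 * b < sM M * (2 * D + 1) + ε) →
    (sM M * (2 * D' + 1) < ((M : ℝ) + 2) * (2 * m' + 1) + 2 * b ∧
      ((M : ℝ) + 2) * (2 * m' + 1) + 2 * b < sM M * (2 * D' + 1) + ε) → False := by
  obtain ⟨ε, hε, h⟩ := away (sM_irr hM) ((M + 2) * Q + 1)
  have hs2 := sM_ge M
  have hMR : (1 : ℝ) ≤ M := by exact_mod_cast hM
  refine ⟨min ε 1, lt_min hε one_pos, fun m m' D D' hm hm' h1 h2 => ?_⟩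
  obtain ⟨n, rfl⟩ := Nat.exists_eq_add_of_lt hm
  have hε1 := min_le_left ε 1
  have hε2 := min_le_right ε 1
  push_cast at h1 h2
  have hn : (n : ℝ) + 1 ≤ Q := by
    have : n + 1 ≤ Q := by omega
    exact_mod_cast this
  have hn0 : (0 : ℝ) ≤ n := Nat.cast_nonneg n
  -- `D < D'`
  have h3 : |sM M * ((D' : ℝ) - D) - ((M : ℝ) + 2) * (n + 1)| < min ε 1 / 2 := by
    rw [abs_lt]
    constructor <;> nlinarith [h1.1, h1.2, h2.1, h2.2]
  have h4 := abs_lt.1 h3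
  have hDD : D < D' := by
    by_contra hcon
    push Not at hcon
    have h5 : (D' : ℝ) ≤ D := by exact_mod_cast hcon
    have h6 : sM M * ((D' : ℝ) - D) ≤ 0 :=
      mul_nonpos_of_nonneg_of_nonpos (by linarith) (by linarith)
    have h7 : (3 : ℝ) ≤ ((M : ℝ) + 2) * (n + 1) := by nlinarith
    linarith [h4.1]
  obtain ⟨q, rfl⟩ := Nat.exists_eq_add_of_lt hDD
  push_cast at h4 h3
  have hq : q + 1 < (M + 2) * Q + 1 := by
    have h5 : (q : ℝ) + 1 < (M + 2) * Q + 1 := by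
      have h6 : ((q : ℝ) + 1) ≤ sM M * ((D : ℝ) + q + 1 - D) := by nlinarith
      have h7 : ((M : ℝ) + 2) * (n + 1) ≤ (M + 2) * Q := mul_le_mul_of_nonneg_left hn (by linarith)
      linarith [h4.2]
    exact_mod_cast h5
  have h5 := h (q + 1) (by omega) hq (((M : ℤ) + 2) * (n + 1))
  push_cast at h5
  have e : sM M * ((D : ℝ) + q + 1 - D) = sM M * ((q : ℝ) + 1) := by ring
  rw [e] at h3
  have : 0 < ε := hε
  linarith

end Pool.Agent.U11
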