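import Pool.Agent.U11.OneUni
import Pool.Agent.U11.Lin

/-! One curve in the degree `e`: no curves in the smaller degrees. -/

set_option autoImplicit false

namespace Pool.Agent.U11

open MvPolynomial
open Pool.Agent.TH176.Nag Pool.Agent.TH603.Sur Pool.Agent.H932R3

/-- at most one form of degree `e`: none of smaller degree -/
theorem low_bot {L : Type*} [Field L] {n : ℕ} {w : Fin n → ℕ} {P : Fin n → Fin 2 → L} {d e : ℕ}
    (h : Module.finrank L (Vw L w P e) ≤ 1) (hde : d < e) : Vw L w P d = ⊥ := by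
  rw [Submodule.eq_bot_iff]
  intro f hf
  by_contra hf0
  obtain ⟨v, hv⟩ := finrank_le_one_iff.1 h
  have hmem : ∀ i : Fin 3, f * X i ^ (e - d) ∈ Vw L w P e := by
    intro i
    refine ⟨?_, ?_⟩
    · have h1 := hf.1
      rw [SetLike.mem_coe, mem_homogeneousSubmodule] at h1 ⊢
      have h2 := h1.mul ((isHomogeneous_X L i).pow (e - d))
      rwa [one_mul, Nat.add_sub_cancel' hde.le] at h2
    · exact Ideal.mul_mem_right _ _ hf.2
  obtain ⟨c0, h0⟩ := hv ⟨_, hmem 0⟩
  obtain ⟨c1, h1⟩ := hv ⟨_, hmem 1⟩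
  have h0' : c0 • (v : MvPolynomial (Fin 3) L) = f * X 0 ^ (e - d) := congrArg Subtype.val h0
  have h1' : c1 • (v : MvPolynomial (Fin 3) L) = f * X 1 ^ (e - d) := congrArg Subtype.val h1
  have h2 : f * (c1 • X 0 ^ (e - d) - c0 • X 1 ^ (e - d)) = 0 := by
    rw [mul_sub, mul_smul_comm, mul_smul_comm, ← h0', ← h1', smul_smul, smul_smul, mul_comm c1 c0,
      sub_self]
  have h3 := (mul_eq_zero.1 h2).resolve_left hf0
  have h4 : c1 = 0 := by
    have h5 := congrArg (coeff (Finsupp.single (0 : Fin 3) (e - d))) h3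
    rw [coeff_sub, coeff_smul, coeff_smul, coeff_X_pow, coeff_X_pow, if_pos rfl, if_neg, coeff_zero,
      smul_zero, sub_zero, smul_eq_mul, mul_one] at h5
    · exact h5
    · intro h6
      have h7 := DFunLike.congr_fun h6 (1 : Fin 3)
      simp at h7
      omega
  rw [h4, zero_smul] at h1'
  exact mul_ne_zero hf0 (pow_ne_zero _ (X_ne_zero _)) h1'.symm

/-- above the line the family is good -/
theorem good_above {M b D m : ℕ} (hM : 1 ≤ M)
    (h : ((M : ℝ) + 2) * (2 * m + 1) + 2 * b ≤ N135.QT.sM M * (2 * D + 1)) : N135.QT.Good M b D m := by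
  obtain ⟨hS, hK1, hK2⟩ := Pool.Agent.TH978.S13.slpN hM
  have hK0 := hS.K0
  have h1 := goodE_lin (M := M) (b := b) (D := D) (m := m) hM (ε := 4) (by norm_num) (Or.inl h)
  unfold GoodE at h1
  unfold N135.QT.Good
  rcases h1 with h1 | h1 | h1
  · exact Or.inl h1
  · left
    have hb : (0 : ℝ) ≤ b := Nat.cast_nonneg b
    by_contra hcon
    push Not at hcon
    have h2 : 0 ≤ (Pool.Agent.TH978.S13.KN M * D - (Pool.Agent.TH978.S13.KN M + 1) * m - b) *
        (2 * Pool.Agent.TH978.S13.KN M + 2) := mul_nonneg (by linarith) (by linarith)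
    linarith
  · right; right
    linarith

end Pool.Agent.U11
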