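import Pool.Agent.U11.Chain
import Pool.Agent.U11.Irr5
import Pool.Agent.U11.Irr1

/-! Several blocks of `M + 2` points with arbitrary multiplicities: at most one curve, every degree. -/

set_option autoImplicit false

namespace Pool.Agent.U11

open Finset Pool.Agent.TH176.Nag Pool.Agent.TH603.Sur Pool.Agent.TH603.Cut Pool.Agent.H932R3
open Pool.Agent.TH864.DP (one nxt)
open Pool.Agent.TH978.S13 (Sc Emp_shift Emp_plane9 Emp_equiv KN slpN)
open Pool.Agent.N135.QT (BB sM sM_sq KN_eq)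

/-- different open blocks -/
theorem Emp_chain' {ι : Type} [Finite ι] {h M : ℕ} {x : ℝ} (hM : 1 ≤ M) (hx : Irrational x) (r : ℕ) :
    ∀ W : Fin (r + 1) → ι → ℕ, (∀ t, Emp (W t) (Sc x (x + M) h)) →
    Emp (fun p : Fin (r + 1) × ι => W p.1 p.2) (Sc x (x + ((r + 1) * M : ℕ)) h) := by
  have hMR : (1 : ℝ) ≤ M := by exact_mod_cast hM
  induction r with
  | zero =>
    intro W hW
    have e1 : x + (((0 + 1) * M : ℕ) : ℝ) = x + M := by push_cast; ring
    rw [e1]
    exact Emp_equiv (one ι) (fun _ => rfl) (hW 0)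
  | succ r ih =>
    intro W hW
    have ih' := ih (fun t => W t.castSucc) (fun t => hW _)
    have h2 : Emp (W (Fin.last (r + 1))) (Sc (x + (((r + 1) * M : ℕ) : ℤ))
        (x + M + (((r + 1) * M : ℕ) : ℤ)) h) := Emp_shift _ (hW _)
    have e1 : x + (((r + 1 + 1) * M : ℕ) : ℝ) = x + M + ((((r + 1) * M : ℕ) : ℤ) : ℝ) := by
      push_cast; ring
    have e2 : x + (((r + 1) * M : ℕ) : ℝ) = x + ((((r + 1) * M : ℕ) : ℤ) : ℝ) := by
      push_cast; ring
    rw [e1]
    rw [e2] at ih'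
    have h0' : (0 : ℝ) < ((((r + 1) * M : ℕ) : ℤ) : ℝ) := by
      have : 0 < (r + 1) * M := by positivity
      exact_mod_cast this
    have key := Emp_add' (x := x) (y := x + ((((r + 1) * M : ℕ) : ℤ) : ℝ))
      (z := x + M + ((((r + 1) * M : ℕ) : ℤ) : ℝ)) (by linarith) (by linarith) (hx.add_intCast _)
      ih' h2
    refine Emp_equiv (nxt (r + 1) ι) ?_ key
    rintro (⟨i, y⟩ | y) <;> rfl

/-- **at most one curve** -/
theorem joint_one {M r k D n : ℕ} (hM : 1 ≤ M) (hr : 1 ≤ r) (hk : k + r * M = 9)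
    (φ : (Fin r × Fin (M + 2)) ⊕ Fin k ≃ Fin n) (v : Fin n → ℕ)
    (hu : ∀ i, D ≤ v (φ (Sum.inr i)))
    (hS : ∀ t, sM M * (2 * D + 1) < (M : ℝ) + 2 + 2 * ((∑ i, v (φ (Sum.inl (t, i))) : ℕ) : ℝ)) :
    Emp (Sum.elim v (fun _ : Fin 1 => 1)) (TZ (3 * D)) := by
  obtain ⟨r, rfl⟩ : ∃ r', r = r' + 1 := ⟨r - 1, by omega⟩
  obtain ⟨hSl, hK1, hK2⟩ := slpN hM
  have hK0 := hSl.K0
  obtain ⟨x, hx⟩ : ∃ x : ℝ, x = KN M - M := ⟨_, rfl⟩
  have hirr : Irrational x := by
    rw [hx]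
    exact hSl.irr.sub_natCast M
  have hx0 : 0 < x := by rw [hx]; linarith
  have hx3 : x < 3 := by rw [hx]; linarith
  have hxM : x + M = KN M := by rw [hx]; ring
  have ha : 1 ≤ (r + 1) * M := Nat.mul_pos (Nat.succ_pos r) hM
  have h9 : x + (((r + 1) * M + k : ℕ) : ℝ) = x + 9 := by
    have : (r + 1) * M + k = 9 := by omega
    rw [this]; push_cast; ring
  have hopen : ∀ t, Emp (fun i => v (φ (Sum.inl (t, i)))) (Sc x (x + M) D) := by
    intro t
    rw [hxM, hx]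
    exact bo_lin hM (by simp) (hS _)
  have h3 := Emp_units' ha hirr (Emp_chain' hM hirr r (fun t i => v (φ (Sum.inl (t, i)))) hopen) k
  rw [h9] at h3
  have h4 := Emp_plane9 hirr hx0 hx3 (Emp_apex (by linarith) h3)
  have h5 : Emp (Sum.elim (fun a => v (φ a)) (fun _ : Fin 1 => 1)) (TZ (3 * D)) := by
    refine Emp_emb (g := Equiv.refl _) (Equiv.injective _) ?_ h4
    rintro ((⟨t, i⟩ | i) | i)
    · exact le_rfl
    · exact hu i
    · exact le_rfl
  exact Emp_equiv (Equiv.sumCongr φ (Equiv.refl _)) (by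
    rintro (a | a)
    · rfl
    · rfl) h5

/-- the number of monomials -/
theorem choose_le_one {n : ℕ} {v : Fin n → ℕ} {e : ℕ}
    (h : Emp (Sum.elim v (fun _ : Fin 1 => 1)) (TZ e)) :
    (e + 2).choose 2 ≤ ∑ i, (v i + 1).choose 2 + 1 := by
  have h3 : Emp (Fin.append v (fun _ : Fin 1 => 1)) (TZ e) :=
    Emp_equiv finSumFinEquiv (by
      rintro (i | i)
      · simp
      · simp) h
  have h4 := choose_le_of_Emp h3
  rw [Fin.sum_univ_add] at h4
  simp only [Fin.append_left, Fin.append_right] at h4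
  simpa using h4

end Pool.Agent.U11
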