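import Pool.Agent.U11.Irr2

/-! Unexpected curves through eleven general points are irreducible. -/

set_option autoImplicit false

namespace Pool.Agent.U11

open MvPolynomial
open Pool.Agent.TH176.Nag Pool.Agent.TH603.Sur Pool.Agent.H932R3

/-- **unexpected curves through eleven general points of equal multiplicities are irreducible** with
multiplicity exactly `m` at each of the points -/
theorem irr_open {m : ℕ} (hm : 1 ≤ m) :
    ∃ F : MvPolynomial (Fin 11 × Fin 2) ℚ, F ≠ 0 ∧ ∀ {L : Type} [Field L] [CharZero L]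
      (P : Fin 11 → Fin 2 → L), aeval (fun ij : Fin 11 × Fin 2 => P ij.1 ij.2) F ≠ 0 →
      ∀ d : ℕ, √11 * (2 * d + 3) < 11 + 22 * (m : ℝ) →
        ∀ f ∈ TH387.EX.V P d (fun _ => m), f ≠ 0 →
          Irreducible f ∧ ∀ i, f ∉ TH387.EX.pt (P i 0) (P i 1) ^ (m + 1) := by
  classical
  have hs3 : 3.3 < √(11 : ℝ) := by
    rw [Real.lt_sqrt (by norm_num)]; norm_num
  have hs4 : √(11 : ℝ) < 3.32 := by
    rw [Real.sqrt_lt' (by norm_num)]; norm_num
  let g : ℕ × (Fin 11 → ℕ) → MvPolynomial (Fin 11 × Fin 2) ℚ := fun x =>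
    if h : Emp x.2 (TZ x.1) then (open_bot h).choose else 1
  let T : Finset (ℕ × (Fin 11 → ℕ)) :=
    Finset.range (4 * m + 5) ×ˢ Fintype.piFinset (fun _ => Finset.range (m + 2))
  have hg0 : ∀ x, g x ≠ 0 := by
    intro x
    simp only [g]
    split_ifs with h
    · exact (open_bot h).choose_spec.1
    · exact one_ne_zero
  refine ⟨∏ x ∈ T, g x, Finset.prod_ne_zero_iff.2 fun x _ => hg0 x, ?_⟩
  intro L _ _ P hP d hd f hf hf0
  rw [map_prod, Finset.prod_ne_zero_iff] at hP
  -- nonzero forms have nonempty classes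
  have hne : ∀ (e : ℕ) (w : Fin 11 → ℕ), e < 4 * m + 5 → (∀ i, w i < m + 2) →
      ∀ G ∈ TH387.EX.V P e w, G ≠ 0 → ¬ Emp w (TZ e) := by
    intro e w he hw G hG hG0 hE
    have h1 := hP (e, w) (by
      simp only [T, Finset.mem_product, Finset.mem_range, Fintype.mem_piFinset]
      exact ⟨he, hw⟩)
    have h2 : g (e, w) = (open_bot hE).choose := by
      simp only [g]
      rw [dif_pos hE]
    rw [h2] at h1
    have h3 := (open_bot hE).choose_spec.2 P h1
    rw [h3, Submodule.mem_bot] at hG
    exact hG0 hG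
  have hdm : d < 4 * m + 5 := by
    by_contra hcon
    push Not at hcon
    have h1 : (4 * (m : ℝ) + 5) ≤ d := by exact_mod_cast hcon
    have h2 : (0 : ℝ) ≤ m := Nat.cast_nonneg m
    have h3 : 3.3 * (2 * (d : ℝ) + 3) ≤ √11 * (2 * d + 3) :=
      mul_le_mul_of_nonneg_right hs3.le (by positivity)
    linarith
  rw [TH387.EX.mem_V] at hf
  -- exact multiplicities
  have hexact : ∀ i, f ∉ TH387.EX.pt (P i 0) (P i 1) ^ (m + 1) := by
    intro i hi
    have h1 : f ∈ TH387.EX.V P d (Function.update (fun _ : Fin 11 => m) i (m + 1)) := by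
      rw [TH387.EX.mem_V]
      refine ⟨hf.1, fun j => ?_⟩
      by_cases hj : j = i
      · subst hj
        rw [Function.update_self]
        exact hi
      · rw [Function.update_of_ne hj]
        exact hf.2 j
    have h2 := hne d _ hdm (by
      intro j
      by_cases hj : j = i
      · subst hj
        rw [Function.update_self]
        omega
      · rw [Function.update_of_ne hj]
        omega) f h1 hf0
    have h3 := phi_nonneg h2
    rw [Finset.sum_update_of_mem (Finset.mem_univ i), Finset.sum_const,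
      Finset.card_sdiff_of_subset (Finset.subset_univ _), Finset.card_univ, Fintype.card_fin,
      Finset.card_singleton, smul_eq_mul] at h3
    push_cast at h3
    linarith
  -- degree
  have hd1 : 1 ≤ d := by
    by_contra hcon
    have hd0 : d = 0 := by omega
    subst hd0
    have h2 := hne 0 (fun _ => m) (by omega) (fun _ => by omega) f
      (TH387.EX.mem_V.2 hf) hf0
    have h3 := phi_nonneg h2
    rw [Finset.sum_const, Finset.card_univ, Fintype.card_fin, smul_eq_mul] at h3
    push_cast at h3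
    have h4 : (1 : ℝ) ≤ m := by exact_mod_cast hm
    linarith
  have hunit : ∀ (e : ℕ) (G : MvPolynomial (Fin 3) L), G.IsHomogeneous e → G ≠ 0 →
      (IsUnit G ↔ e = 0) := by
    intro e G hG hG0
    constructor
    · intro hu
      have h1 := (MvPolynomial.isUnit_iff_totalDegree_of_isReduced.1 hu).2
      rw [hG.totalDegree hG0] at h1
      exact h1
    · intro he
      subst he
      have h2 : G.totalDegree = 0 := Nat.le_zero.1 hG.totalDegree_le
      rw [totalDegree_eq_zero_iff_eq_C] at h2
      rw [h2]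
      apply IsUnit.map
      rw [isUnit_iff_ne_zero]
      intro h0
      rw [h0, C_0] at h2
      exact hG0 h2
  refine ⟨⟨?_, ?_⟩, hexact⟩
  · rw [hunit d f hf.1 hf0]
    omega
  · intro G H hGH
    by_contra hcon
    push Not at hcon
    obtain ⟨hGu, hHu⟩ := hcon
    have hG0 : G ≠ 0 := by rintro rfl; rw [zero_mul] at hGH; exact hf0 hGH
    have hH0 : H ≠ 0 := by rintro rfl; rw [mul_zero] at hGH; exact hf0 hGH
    have hfh : (G * H).IsHomogeneous d := by rw [← hGH]; exact hf.1
    obtain ⟨a, hGa⟩ := hom_factor hG0 hH0 hfh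
    obtain ⟨had, hHb⟩ := TH387.EX.hom_of_mul hGa hG0 hH0 hfh
    rw [hunit a G hGa hG0] at hGu
    rw [hunit (d - a) H hHb hH0] at hHu
    have hc : ∀ i, ∃ c ≤ m, G ∈ TH387.EX.pt (P i 0) (P i 1) ^ c ∧
        H ∈ TH387.EX.pt (P i 0) (P i 1) ^ (m - c) := by
      intro i
      have h1 := Nat.findGreatest_le (P := fun c => G ∈ TH387.EX.pt (P i 0) (P i 1) ^ c) m
      have h2 := Nat.findGreatest_spec (P := fun c => G ∈ TH387.EX.pt (P i 0) (P i 1) ^ c)
        (Nat.zero_le m) (by
          change G ∈ TH387.EX.pt (P i 0) (P i 1) ^ 0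
          rw [pow_zero, Ideal.one_eq_top]
          exact Submodule.mem_top)
      refine ⟨_, h1, h2, ?_⟩
      rcases Nat.lt_or_ge (Nat.findGreatest (fun c => G ∈ TH387.EX.pt (P i 0) (P i 1) ^ c) m) m
        with h3 | h3
      · have h4 := Nat.findGreatest_is_greatest
          (P := fun c => G ∈ TH387.EX.pt (P i 0) (P i 1) ^ c) (n := m)
          (Nat.lt_succ_self _) (by omega)
        exact TH387.EX.quot_mem h4 (by rw [← hGH]; exact hf.2 i)
      · rw [Nat.sub_eq_zero_of_le h3, pow_zero, Ideal.one_eq_top]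
        exact Submodule.mem_top
    choose c hc1 hc2 hc3 using hc
    have e1 := hne a c (by omega) (fun i => by have := hc1 i; omega) G
      (TH387.EX.mem_V.2 ⟨hGa, hc2⟩) hG0
    have e2 := hne (d - a) (fun i => m - c i) (by omega) (fun i => by omega) H
      (TH387.EX.mem_V.2 ⟨hHb, hc3⟩) hH0
    exact no_split (m := m) (d := d) (a := a) (b := d - a) hd (by omega) (by omega) (by omega)
      (fun i => by have := hc1 i; omega) e1 e2

end Pool.Agent.U11
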