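import Pool.Agent.U11.OneDim
import Pool.Agent.U11.Arb

/-! The families: expected dimension or at most one, for all multiplicities. -/

set_option autoImplicit false

namespace Pool.Agent.U11

open Finset Pool.Agent.TH176.Nag Pool.Agent.TH603.Sur Pool.Agent.TH603.Cut Pool.Agent.H932R3
open Pool.Agent.TH864.SX (Fb Fa Slp Blk K11 num11 sq11 K11_lt)
open Pool.Agent.TH978.S13 (Sc Emp_shift Sur_shift Emp_add Sur_add Emp_units Sur_units Emp_plane9
  Sur_plane9 Emp_equiv Sur_equiv KN slpN sqN)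
open Pool.Agent.TH864.DP (bl wt3 Emp_copies Sur_copies eqf eqf_spec or_equiv)
open Pool.Agent.N135.QT (BB sM sM_sq sM_lt KN_eq sM_root Good)
open Pool.Agent.N388.EFW (ee)

/-- blocks and units from an open block, with one simple point -/
theorem anti_one {ι : Type} [Finite ι] {v : ι → ℕ} {M r k h : ℕ} (hM : 1 ≤ M)
    (hk : (r + 1) * M + k = 9) (hE : Emp v (Sc (KN M - M) (KN M) h)) :
    Emp (Sum.elim (Sum.elim (fun p : Fin (r + 1) × ι => v p.2) (fun _ : Fin k => h))
      (fun _ : Fin 1 => 1)) (TZ (3 * h)) := by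
  obtain ⟨hS, hK1, hK2⟩ := slpN hM
  have hK0 := hS.K0
  obtain ⟨x, hx⟩ : ∃ x : ℝ, x = KN M - M := ⟨_, rfl⟩
  have hirr : Irrational x := by
    rw [hx]
    exact hS.irr.sub_natCast M
  have hx0 : 0 < x := by rw [hx]; linarith
  have hx3 : x < 3 := by rw [hx]; linarith
  have hxM : x + M = KN M := by rw [hx]; ring
  have ha : 1 ≤ (r + 1) * M := Nat.mul_pos (Nat.succ_pos r) hM
  have h9 : x + (((r + 1) * M + k : ℕ) : ℝ) = x + 9 := by rw [hk]; push_cast; ring
  rw [← hx, ← hxM] at hE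
  have h3 := Emp_units' ha hirr (Emp_copies' hM hirr hE r) k
  rw [h9] at h3
  exact Emp_plane9 hirr hx0 hx3 (Emp_apex (by linarith) h3)

/-- **anticanonical degrees**: `r` groups of `M + 2` points, in each `b` points of multiplicity
`m + 1` and the others of multiplicity `m`, and `k` points of multiplicity `D`; all `m` and `D` -/
theorem joint1 {M r k b m D : ℕ} (hM : 1 ≤ M) (hr : 1 ≤ r) (hk : k + r * M = 9) (hb : b ≤ M + 1)
    (hm : 1 ≤ m) : One (wt3 (k + r * (M + 2)) k (r * b) D m) (TZ (3 * D)) := by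
  by_cases hG : Good M b D m
  · rcases N135.QT.joint2 hM hr hk hb hG with h | h
    · exact Or.inl h
    · exact Or.inr (Or.inl h)
  obtain ⟨r, rfl⟩ : ∃ r', r = r' + 1 := ⟨r - 1, by omega⟩
  obtain ⟨c, hc⟩ : ∃ c, b + c = M + 2 := ⟨M + 2 - b, by omega⟩
  have hn : k + ((r + 1) * b + (r + 1) * c) = k + (r + 1) * (M + 2) := by
    rw [← hc]; ring
  obtain ⟨hS, hK1, hK2⟩ := slpN hM
  have hee : ee (KN M) m D b = KN M * D - (KN M + 1) * m - b := rfl
  unfold Good at hG
  push Not at hG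
  obtain ⟨h1, -, h2⟩ := hG
  have hD : Dt M (KN M) m D b := by
    refine ⟨hS, hm, ?_, ?_⟩
    · rw [hee]; linarith
    · rw [hee]; nlinarith
  have eqv : Fin b ⊕ Fin c ≃ Fin (M + 2) := finSumFinEquiv.trans (finCongr hc)
  have key := hD.emp_open (w := fun i => bl b c m (eqv.symm i)) (by
      intro i
      rcases eqv.symm i with a | a
      · exact Nat.le_succ m
      · exact le_rfl) (by
      rw [Equiv.sum_comp eqv.symm (bl b c m)]
      simp only [bl, Fintype.sum_sum_type, Sum.elim_inl, Sum.elim_inr, sum_const, card_univ,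
        Fintype.card_fin, smul_eq_mul]
      rw [← hc]
      ring)
  have key2 := Emp_equiv (v := bl b c m) eqv.symm (fun _ => rfl) key
  have key3 := anti_one (r := r) (k := k) hM (by rw [add_comm]; exact hk) key2
  refine Or.inr (Or.inr (Emp_equiv (Equiv.sumCongr (eqf (r + 1) b c k _ hn) (Equiv.refl (Fin 1))) ?_
    key3))
  rintro (i | i)
  · exact (eqf_spec (r + 1) b c k _ hn D m i).symm
  · rfl

theorem Emp_empty {ι : Type} (w : ι → ℕ) : Emp w (∅ : Set (ℤ × ℤ)) := by
  refine ⟨ℚ, inferInstance, inferInstance, fun _ => 1, fun _ => 1, fun _ => one_ne_zero,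
    fun _ => one_ne_zero, fun f hf _ => ?_⟩
  rw [Set.subset_empty_iff, Finset.coe_eq_empty, Finsupp.support_eq_empty] at hf
  exact hf

theorem one_zero {ι : Type} [Finite ι] (w : ι → ℕ) :
    Emp (Sum.elim w (fun _ : Fin 1 => 1)) (TZ 0) := by
  classical
  have h0 : Emp w (↑(∅ : Finset (ℤ × ℤ)) : Set (ℤ × ℤ)) := by
    rw [Finset.coe_empty]
    exact Emp_empty w
  have h1 := Emp_union h0 {((0, 0) : ℤ × ℤ)}
  rw [card_singleton] at h1
  refine h1.mono ?_
  rintro ⟨a, b⟩ ⟨g1, g2, g3⟩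
  simp only at g1 g2 g3
  rw [empty_union, coe_singleton, Set.mem_singleton_iff, Prod.mk.injEq]
  push_cast at g3
  omega

/-- **eleven points, arbitrary multiplicities, every degree**: at most one form if
`√11 (2 d + 3) < 11 + 2 ∑ w` -/
theorem lin11_one (w : Fin 11 → ℕ) (d : ℕ)
    (hX : √11 * (2 * d + 3) < 11 + 2 * ((∑ i, w i : ℕ) : ℝ)) :
    Emp (Sum.elim w (fun _ : Fin 1 => 1)) (TZ d) := by
  have hsq := sq11
  have hs0 : 0 ≤ √(11 : ℝ) := Real.sqrt_nonneg _
  have hs3 : 3.3 < √(11 : ℝ) := by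
    rw [Real.lt_sqrt (by norm_num)]; norm_num
  have hs4 : √(11 : ℝ) < 3.32 := by
    rw [Real.sqrt_lt' (by norm_num)]; norm_num
  have hinl : Emp w (TZ d) → Emp (Sum.elim w (fun _ : Fin 1 => 1)) (TZ d) := fun h =>
    Emp_emb Sum.inl Sum.inl_injective (fun i => le_rfl) h
  have hpar : Pool.Agent.TH759.EV.Par 2 1 (Pool.Agent.TH759.EV.LL 11)
      (√((11 : ℕ) : ℝ) * Pool.Agent.TH759.EV.LL 11) 11 :=
    Pool.Agent.TH759.EV.par_of (by norm_num) (by norm_num) (by norm_num) (by norm_num) (by norm_num)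
  by_cases h3 : 3 ∣ d
  swap
  · exact hinl (Pool.Agent.TH759.EV.Emp_pl hpar (Fintype.card_fin 11) h3 (by
      push_cast at hX ⊢; linarith))
  rcases Nat.eq_zero_or_pos d with hd0 | hd0
  · rw [hd0]
    exact one_zero w
  obtain ⟨g, hg⟩ : ∃ g, g = ⌊(d : ℝ) / √11⌋₊ := ⟨_, rfl⟩
  obtain ⟨s, hs⟩ : ∃ s, s = ∑ i, (w i - g) := ⟨_, rfl⟩
  obtain ⟨e, he⟩ : ∃ e : ℝ, e = (3 + √11) / 2 * (d - √11 * g) - s := ⟨_, rfl⟩
  rcases lt_or_ge e 0 with h0 | h0
  · exact hinl (Pool.Agent.N388.EFW.Emp_arb11 Pool.Agent.N388.EF.t_TEST2 h3 (by linarith) hg hs he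
      (Or.inl h0))
  obtain ⟨x, rfl⟩ := h3
  have hx1 : 1 ≤ x := by omega
  push_cast at he hX hg
  -- all multiplicities are at least `g`
  obtain ⟨s', hs'⟩ : ∃ s', s' = ∑ i, (g - w i) := ⟨_, rfl⟩
  have hsum : ∑ i, w i + s' = 11 * g + s := by
    have h1 : ∑ i, (w i + (g - w i)) = ∑ i, (g + (w i - g)) := by
      apply sum_congr rfl
      intro i _
      omega
    rw [sum_add_distrib, sum_add_distrib, ← hs', ← hs, sum_const, card_univ, Fintype.card_fin,
      smul_eq_mul] at h1
    exact h1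
  have hsumR : (∑ i, (w i : ℝ)) + s' = 11 * g + s := by exact_mod_cast hsum
  obtain ⟨δ, hδ⟩ : ∃ δ : ℝ, δ = 3 * (x : ℝ) - √11 * g := ⟨_, rfl⟩
  have h2 : (11 : ℝ) * g = √11 * (√11 * g) := by rw [← mul_assoc, hsq]
  have h3 : √11 * (2 * δ + 3) < 11 + 2 * (s - s') := by
    rw [hδ]
    linarith
  rw [← hδ] at he
  have h5 : (3 + √11) * δ = 2 * e + 2 * s := by linarith
  have h6 : (3 + √11) * (√11 * (2 * δ + 3)) < (3 + √11) * (11 + 2 * (s - s')) :=
    mul_lt_mul_of_pos_left h3 (by linarith)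
  have h7 : (3 + √11) * (√11 * (2 * δ + 3)) =
      √11 * (2 * (2 * e + 2 * s)) + 9 * √11 + 33 := by
    rw [← h5]
    linear_combination 3 * hsq
  rw [h7] at h6
  have hsn : (0 : ℝ) ≤ s := Nat.cast_nonneg s
  have hs'0 : s' = 0 := by
    by_contra hne
    have h1 : (1 : ℝ) ≤ s' := by
      have : 1 ≤ s' := Nat.one_le_iff_ne_zero.2 hne
      exact_mod_cast this
    nlinarith
  subst hs'0
  have hw : ∀ i, g ≤ w i := by
    intro i
    have h1 : ∑ i, (g - w i) = 0 := hs'.symm
    have h2 := (sum_eq_zero_iff.1 h1) i (mem_univ i)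
    omega
  have hwsum : ∑ i, w i = (9 + 2) * g + s := by omega
  have e1 : ee K11 g x s = e := by
    rw [he, hδ]
    unfold ee K11
    linear_combination ((g : ℝ) / 2) * hsq
  push_cast at h6
  -- `4 √11 e + (2 √11 - 6) s < 2 √11`
  have h9 : 4 * √11 * e + (2 * √11 - 6) * s < 2 * √11 := by nlinarith
  have hg0 : 0 < g := by
    by_contra hcon
    have hg00 : g = 0 := by omega
    subst hg00
    have h10 : (3 * (x : ℝ)) / √11 < 1 := by
      by_contra h11
      push Not at h11
      have := Nat.le_floor (α := ℝ) (n := 1) (a := 3 * (x : ℝ) / √11) (by simpa using h11)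
      omega
    rw [div_lt_one (by linarith)] at h10
    have hx2 : x = 1 := by
      have : (x : ℝ) < 2 := by linarith
      have : x < 2 := by exact_mod_cast this
      omega
    subst hx2
    push_cast at hδ
    have h12 : (s : ℝ) < 10 := by
      rw [he, hδ] at h0
      nlinarith
    have h13 : s ≤ 9 := by
      have : s < 10 := by exact_mod_cast h12
      omega
    have h14 : (s : ℝ) ≤ 9 := by exact_mod_cast h13
    rw [he, hδ] at h9
    nlinarith
  have hirr : Irrational (K11 - (9 : ℕ)) := num11.sl.irr.sub_natCast 9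
  have hK9 : (9 : ℝ) < K11 := by have := num11.sl.hMK; push_cast at this; exact this
  have hD : Dt 9 K11 g x s := by
    refine ⟨num11.sl, hg0, by rw [e1]; exact h0, ?_⟩
    rw [e1]
    have hK : K11 = 3 * (3 + √11) / 2 := rfl
    rw [hK]
    have h10 : (3 + √11) / 4 * (4 * √11 * e + (2 * √11 - 6) * s) <
        (3 + √11) / 4 * (2 * √11) :=
      mul_lt_mul_of_pos_left h9 (by linarith)
    have h11 : (3 + √11) / 4 * (4 * √11 * e + (2 * √11 - 6) * s) =
        e * (2 * (3 * (3 + √11) / 2) + 2) + s := by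
      linear_combination (e + s / 2) * hsq
    have h12 : (3 + √11) / 4 * (2 * √11) = 3 * (3 + √11) / 2 + 1 := by
      linear_combination (1 / 2) * hsq
    rw [h11, h12] at h10
    exact h10
  have h20 := hD.emp_open hw hwsum
  have h21 := Emp_apex (by push_cast; linarith) h20
  refine Emp_plane9 (x := K11 - (9 : ℕ)) hirr (by push_cast; linarith) (by
    have := K11_lt
    push_cast
    linarith) ?_
  have e9 : K11 - (9 : ℕ) + 9 = K11 := by push_cast; ring
  rw [e9]
  exact h21

/-- **eleven nearly equal multiplicities, every degree** -/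
theorem near11_one {w : Fin 11 → ℕ} {m : ℕ} (hw : ∀ i, w i = m ∨ w i = m + 1) (d : ℕ) :
    One w (TZ d) := by
  have hpar : Pool.Agent.TH759.EV.Par 2 1 (Pool.Agent.TH759.EV.LL 11)
      (√((11 : ℕ) : ℝ) * Pool.Agent.TH759.EV.LL 11) 11 :=
    Pool.Agent.TH759.EV.par_of (by norm_num) (by norm_num) (by norm_num) (by norm_num) (by norm_num)
  rcases le_or_gt ((11 : ℝ) + 2 * ((∑ i, w i : ℕ) : ℝ)) (√11 * (2 * d + 3)) with hX | hX
  · right; left
    have hmax : ∀ i, max (w i) m = w i := fun i => by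
      rcases hw i with h | h <;> omega
    exact Pool.Agent.TH759.EV.Sur_pl hpar (Fintype.card_fin 11) (b := m)
      (fun i => by rcases hw i with h | h <;> omega) (by
      simp only [hmax]
      push_cast at hX ⊢
      exact hX)
  · exact Or.inr (Or.inr (lin11_one w d hX))

/-- **11, 15 and 27 points** -/
theorem uniform_one {n : ℕ} (hn : n = 11 ∨ n = 15 ∨ n = 27) {m : ℕ} (hm : 1 ≤ m) {d : ℕ}
    (hd : n = 27 → 3 ∣ d) : One (fun _ : Fin n => m) (TZ d) := by
  by_cases h3 : 3 ∣ d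
  · obtain ⟨D, rfl⟩ := h3
    have key : ∀ {M r : ℕ}, M * r = 9 → n = 9 + 2 * r → One (fun _ : Fin n => m) (TZ (3 * D)) := by
      intro M r hMr hn'
      have hM : 1 ≤ M := Nat.pos_of_ne_zero (by rintro rfl; simp at hMr)
      have hr : 1 ≤ r := Nat.pos_of_ne_zero (by rintro rfl; simp at hMr)
      have hn2 : 0 + r * (M + 2) = n := by rw [hn']; nlinarith
      subst hn2
      have h := joint1 (M := M) (r := r) (k := 0) (b := 0) (m := m) (D := D) hM hr
        (by rw [zero_add, mul_comm]; exact hMr) (by omega) hm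
      have e : wt3 (0 + r * (M + 2)) 0 (r * 0) D m = fun _ => m := by
        funext i
        simp [wt3]
      rw [e] at h
      exact h
    rcases hn with rfl | rfl | rfl
    · exact key (M := 9) (r := 1) (by norm_num) (by norm_num)
    · exact key (M := 3) (r := 3) (by norm_num) (by norm_num)
    · exact key (M := 1) (r := 9) (by norm_num) (by norm_num)
  · rcases hn with rfl | rfl | rfl
    · rcases Pool.Agent.TH864.SX.dich' Pool.Agent.TH864.SX.num11 Pool.Agent.TH864.SX.K11_lt m d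
        (Or.inl h3) with h | h
      · exact Or.inl h
      · exact Or.inr (Or.inl h)
    · rcases Pool.Agent.TH469.SX.dich_three (b := 5) Pool.Agent.TH469.SX.slp15
        Pool.Agent.TH469.SX.K15_lt (Pool.Agent.TH469.SX.dich5 m d (Or.inl h3)) with h | h
      · exact Or.inl h
      · exact Or.inr (Or.inl h)
    · exact absurd (hd rfl) h3

end Pool.Agent.U11
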