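import Pool.Agent.U11.QuadGen
import Pool.Agent.U11.OneFam

/-! The subdivisions and one more simple point. -/

set_option autoImplicit false

namespace Pool.Agent.U11

open Finset Pool.Agent.TH176.Nag Pool.Agent.TH603.Sur Pool.Agent.TH763.DB Module Pool.Agent.TH641.UM
  Pool.Agent.TH2.NU Pool.Agent.TH759.EV

theorem cond_one {ι : Type} [Fintype ι] (w : ι → ℕ) :
    cond (Sum.elim w (fun _ : Fin 1 => 1)) = cond w + 1 := by
  unfold Pool.Agent.TH603.Sur.cond
  rw [Fintype.sum_sum_type]
  simp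

/-- simple points may be regrouped -/
theorem Emp_regroup {ι : Type} {w : ι → ℕ} {S : Set (ℤ × ℤ)} {p : ℕ} :
    Emp (Sum.elim (Sum.elim w (fun _ : Fin 1 => 1)) (fun _ : Fin p => 1)) S ↔
      Emp (Sum.elim w (fun _ : Fin (p + 1) => 1)) S := by
  constructor
  · intro h
    refine Pool.Agent.TH978.S13.Emp_equiv ((Equiv.sumAssoc ι (Fin 1) (Fin p)).trans
      (Equiv.sumCongr (Equiv.refl ι) (finSumFinEquiv.trans (finCongr (by omega))))) ?_ h
    rintro ((i | i) | i) <;> rfl
  · intro h
    refine Pool.Agent.TH978.S13.Emp_equiv ((Equiv.sumAssoc ι (Fin 1) (Fin p)).trans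
      (Equiv.sumCongr (Equiv.refl ι) (finSumFinEquiv.trans (finCongr (by omega))))).symm ?_ h
    rintro (i | i)
    · rfl
    · show (1 : ℕ) = Sum.elim (Sum.elim w (fun _ : Fin 1 => 1)) (fun _ : Fin p => 1) _
      rcases hx : ((Equiv.sumAssoc ι (Fin 1) (Fin p)).trans
        (Equiv.sumCongr (Equiv.refl ι) (finSumFinEquiv.trans
          (finCongr (by omega : 1 + p = p + 1))))).symm (Sum.inr i) with (a | a) | a
      · exfalso
        have h2 := congrArg ((Equiv.sumAssoc ι (Fin 1) (Fin p)).trans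
          (Equiv.sumCongr (Equiv.refl ι) (finSumFinEquiv.trans
            (finCongr (by omega : 1 + p = p + 1))))) hx
        rw [Equiv.apply_symm_apply] at h2
        simp at h2
      · rfl
      · rfl

/-- the third alternative in terms of the signs -/
theorem one_sgn {ι : Type} [Fintype ι] {w : ι → ℕ} {d : ℕ} (h : One w (TZ d)) :
    Emp (Sum.elim w (fun _ : Fin 1 => 1)) (TZ d) ∨ Sur (Sum.elim w (fun _ : Fin 1 => 1)) (TZ d) := by
  have key : Emp w (TZ d) ∨ Sur w (TZ d) →
      Emp (Sum.elim w (fun _ : Fin 1 => 1)) (TZ d) ∨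
        Sur (Sum.elim w (fun _ : Fin 1 => 1)) (TZ d) := by
    intro h0
    have h1 := Pool.Agent.TH864.SX.ED_of_or h0
    rcases Nat.lt_or_ge (cond w) ((d + 2).choose 2) with h2 | h2
    · right
      obtain ⟨p, hp⟩ : ∃ p, (d + 2).choose 2 = cond w + (p + 1) :=
        ⟨(d + 2).choose 2 - cond w - 1, by omega⟩
      have h3 := Emp_ones (p := p + 1) (h1.2 h2.le) hp.le
      refine Sur_of_ones (p := p) (Emp_regroup.2 h3) ?_
      rw [cond_one]
      omega
    · left
      exact Emp_emb (ι := ι) (w := w) Sum.inl Sum.inl_injective (fun i => by simp) (h1.1 h2)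
  rcases h with h | h | h
  · exact key (Or.inl h)
  · exact key (Or.inr h)
  · exact Or.inl h

/-- the number of conditions is at most the number of monomials if the conditions are independent -/
theorem cond_le_Sur {ι : Type} [Fintype ι] {w : ι → ℕ} {d : ℕ} (h : Sur w (TZ d)) :
    cond w ≤ (d + 2).choose 2 := by
  obtain ⟨T, hT, hc, -⟩ := h
  rw [← Pool.Agent.TH641.UM.coe_TF] at hT
  rw [← hc, ← Pool.Agent.TH641.UM.card_TF]
  exact card_le_card (by exact_mod_cast hT)

theorem sgn_one {ι : Type} [Fintype ι] {w : ι → ℕ} {d : ℕ}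
    (h : Emp (Sum.elim w (fun _ : Fin 1 => 1)) (TZ d) ∨
      Sur (Sum.elim w (fun _ : Fin 1 => 1)) (TZ d)) : One w (TZ d) := by
  rcases h with h | h
  · exact Or.inr (Or.inr h)
  · right; left
    have h1 := cond_le_Sur h
    rw [cond_one] at h1
    obtain ⟨p, hp⟩ : ∃ p, (d + 2).choose 2 = cond w + 1 + p := ⟨(d + 2).choose 2 - (cond w + 1), by omega⟩
    have h3 := Emp_ones (p := p) h (by rw [cond_one]; omega)
    exact Sur_of_ones (p := p + 1) (Emp_regroup.1 h3) (by omega)

end Pool.Agent.U11
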