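import Pool.Agent.U11.Block
import Pool.Agent.N388.EFW.Fam

/-! Anticanonical degrees, blocks of `M + 2` points, large multiplicities. -/

set_option autoImplicit false

namespace Pool.Agent.U11

open Finset Pool.Agent.TH176.Nag Pool.Agent.TH603.Sur Pool.Agent.TH603.Cut Pool.Agent.H932R3
open Pool.Agent.TH864.SX (Fb Fa Slp Blk)
open Pool.Agent.TH469.SX (Bo Fl)
open Pool.Agent.TH978.S13 (Sc Emp_shift Sur_shift Emp_add Sur_add Emp_units Sur_units Emp_plane9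
  Sur_plane9 Emp_equiv Sur_equiv KN slpN sqN)
open Pool.Agent.TH864.DP (bl wt3 Emp_copies Sur_copies eqf eqf_spec or_equiv)
open Pool.Agent.N135.QT (BB sM sM_sq sM_lt KN_eq sM_root)
open Pool.Agent.N388.EFW (ee)

/-- the numerical condition -/
def GoodE (ε : ℝ) (M b D m : ℕ) : Prop :=
  (KN M * D - (KN M + 1) * m < b) ∨
    (KN M * D - (KN M + 1) * m - b) * (2 * KN M + 2) + b ≤ (1 - ε) * (KN M + 1) ∨
    KN M + 1 ≤ (KN M * D - (KN M + 1) * m - b) * (2 * KN M + 2) + b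

theorem near_bl4 {M b c : ℕ} (hM : 1 ≤ M) (hbc : b + c = M + 2) (hc : 0 < c) {ε : ℝ} (hε : 0 < ε) :
    ∃ m₀ : ℕ, ∀ m D : ℕ, m₀ ≤ m → GoodE ε M b D m →
      Emp (bl b c m) (BB M D (KN M)) ∨ Sur (bl b c m) (Sc (KN M - M) (KN M) D) := by
  classical
  obtain ⟨hS, hK1, hK2⟩ := slpN hM
  have hK0 := hS.K0
  obtain ⟨m₀, h0⟩ := blk_emp hS b hε
  refine ⟨m₀, fun m D hm hG => ?_⟩
  rcases lt_or_ge (KN M * D - (KN M + 1) * m) b with h1 | h1
  · exact N135.QT.near_bl2 hM hbc hc (Or.inl h1)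
  rcases hG with hG | hG | hG
  · exact absurd hG (not_lt.2 h1)
  · left
    have hd : (((3 * D : ℕ) : ℝ)) / 3 = D := by push_cast; ring
    have hee : ee (KN M) m D b = KN M * D - (KN M + 1) * m - b := rfl
    have eqv : Fin b ⊕ Fin c ≃ Fin (M + 2) := finSumFinEquiv.trans (finCongr hbc)
    have key := h0 m D hm (by rw [hee]; linarith) (by rw [hee]; exact hG)
      (fun i => bl b c m (eqv.symm i)) (by
      intro i
      rcases eqv.symm i with a | a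
      · exact Nat.le_succ m
      · exact le_rfl) (by
      rw [Equiv.sum_comp eqv.symm (bl b c m)]
      simp only [bl, Fintype.sum_sum_type, Sum.elim_inl, Sum.elim_inr, sum_const, card_univ,
        Fintype.card_fin, smul_eq_mul]
      rw [← hbc]
      ring)
    have key2 := Emp_equiv (v := bl b c m) eqv.symm (fun _ => rfl) key
    refine key2.mono ?_
    rintro p ⟨g1, g2, g3⟩
    refine ⟨g1, ?_, ?_⟩
    · rw [hd]; exact g2
    · rw [hd]; exact g3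
  · refine N135.QT.near_bl2 hM hbc hc (Or.inr (Or.inr ?_))
    linarith

theorem near_anti4 {M r k b c : ℕ} (hM : 1 ≤ M) (hk : (r + 1) * M + k = 9) (hbc : b + c = M + 2)
    (hc : 0 < c) {ε : ℝ} (hε : 0 < ε) : ∃ m₀ : ℕ, ∀ m h : ℕ, m₀ ≤ m → GoodE ε M b h m →
    Emp (Sum.elim (fun p : Fin (r + 1) × (Fin b ⊕ Fin c) => bl b c m p.2) (fun _ : Fin k => h))
      (TZ (3 * h)) ∨
    Sur (Sum.elim (fun p : Fin (r + 1) × (Fin b ⊕ Fin c) => bl b c m p.2) (fun _ : Fin k => h))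
      (TZ (3 * h)) := by
  obtain ⟨hS, hK1, hK2⟩ := slpN hM
  have hK0 := hS.K0
  obtain ⟨m₀, hm₀⟩ := near_bl4 hM hbc hc hε
  refine ⟨m₀, fun m h hm hG => ?_⟩
  obtain ⟨x, hx⟩ : ∃ x : ℝ, x = KN M - M := ⟨_, rfl⟩
  have hirr : Irrational x := by
    rw [hx]
    exact hS.irr.sub_natCast M
  have hx0 : 0 < x := by rw [hx]; linarith
  have hx3 : x < 3 := by rw [hx]; linarith
  have hxM : x + M = KN M := by rw [hx]; ring
  have ha : 1 ≤ (r + 1) * M := Nat.mul_pos (Nat.succ_pos r) hM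
  have h9 : x + (((r + 1) * M + k : ℕ) : ℝ) = x + 9 := by rw [hk]; push_cast; ring
  rcases hm₀ m h hm hG with hd' | hd'
  · left
    have h2 : Emp (bl b c m) (Sc x (x + M) h ∪ {((0, (h : ℤ)) : ℤ × ℤ)}) := by
      refine hd'.mono ?_
      rintro p (⟨g1, g2, g3⟩ | hp)
      · refine ⟨g1, ?_, ?_⟩
        · rw [← hx]; exact g2.le
        · rw [← hxM]; exact g3.le
      · rw [Set.mem_singleton_iff] at hp
        rw [hp]
        refine ⟨by simp, ?_, ?_⟩ <;> simp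
    have h3 := Emp_units ha hirr (Emp_copies hM hirr h2 r) k
    rw [h9] at h3
    exact Emp_plane9 hirr hx0 hx3 h3
  · right
    rw [← hx, ← hxM] at hd'
    have h3 := Sur_units ha hirr (Sur_copies hM hd' r) k
    rw [h9] at h3
    exact Sur_plane9 hirr hx0 hx3 h3

/-- **anticanonical degrees** -/
theorem joint4 {M r k b : ℕ} (hM : 1 ≤ M) (hr : 1 ≤ r) (hk : k + r * M = 9) (hb : b ≤ M + 1)
    {ε : ℝ} (hε : 0 < ε) : ∃ m₀ : ℕ, ∀ m D : ℕ, m₀ ≤ m → GoodE ε M b D m →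
    Emp (wt3 (k + r * (M + 2)) k (r * b) D m) (TZ (3 * D)) ∨
    Sur (wt3 (k + r * (M + 2)) k (r * b) D m) (TZ (3 * D)) := by
  obtain ⟨r, rfl⟩ : ∃ r', r = r' + 1 := ⟨r - 1, by omega⟩
  obtain ⟨c, hc⟩ : ∃ c, b + c = M + 2 := ⟨M + 2 - b, by omega⟩
  obtain ⟨m₀, hm₀⟩ := near_anti4 (M := M) (r := r) (k := k) hM (by rw [add_comm]; exact hk) hc
    (by omega) hε
  refine ⟨m₀, fun m D hm hG => ?_⟩
  have hn : k + ((r + 1) * b + (r + 1) * c) = k + (r + 1) * (M + 2) := by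
    rw [← hc]; ring
  exact or_equiv (eqf (r + 1) b c k _ hn) (eqf_spec (r + 1) b c k _ hn D m) (hm₀ m D hm hG)

/-- equal multiplicities at `n = 9 + 2 r` points, `M r = 9` -/
theorem dich_unif4 {M r n : ℕ} (hMr : M * r = 9) (hn : n = 9 + 2 * r) {ε : ℝ} (hε : 0 < ε) :
    ∃ m₀ : ℕ, ∀ m D : ℕ, m₀ ≤ m → GoodE ε M 0 D m →
      Emp (fun _ : Fin n => m) (TZ (3 * D)) ∨ Sur (fun _ : Fin n => m) (TZ (3 * D)) := by
  have hM : 1 ≤ M := Nat.pos_of_ne_zero (by rintro rfl; simp at hMr)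
  have hr : 1 ≤ r := Nat.pos_of_ne_zero (by rintro rfl; simp at hMr)
  obtain ⟨m₀, hm₀⟩ := joint4 (M := M) (r := r) (k := 0) (b := 0) hM hr
    (by rw [zero_add, mul_comm]; exact hMr) (by omega) hε
  refine ⟨m₀, fun m D hm hG => ?_⟩
  have hn' : 0 + r * (M + 2) = n := by rw [hn]; nlinarith
  subst hn'
  have h := hm₀ m D hm hG
  have e : wt3 (0 + r * (M + 2)) 0 (r * 0) D m = fun _ => m := by
    funext i
    simp [wt3]
  rw [e] at h
  exact h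

/-- the condition for equal multiplicities in closed form -/
theorem goodE_root {M r n D m : ℕ} (hMr : M * r = 9) (hn : n = 9 + 2 * r) {ε : ℝ} (hε : 0 < ε)
    (h : (3 * D : ℕ) - √(n : ℝ) * m ≤ (√(n : ℝ) - 3) / 2 - ε ∨
      (√(n : ℝ) - 3) / 2 ≤ (3 * D : ℕ) - √(n : ℝ) * m) : GoodE (ε / 2) M 0 D m := by
  have h1 : (M : ℝ) * r = 9 := by exact_mod_cast hMr
  have h2 : √(n : ℝ) * √(n : ℝ) = n := Real.mul_self_sqrt (Nat.cast_nonneg n)
  have h6 : (n : ℝ) = 9 + 2 * r := by rw [hn]; push_cast; ring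
  have hs := sM_root hMr hn
  have hr0 : 0 < r := Nat.pos_of_ne_zero (by rintro rfl; simp at hMr)
  have hM0 : 0 < M := Nat.pos_of_ne_zero (by rintro rfl; simp at hMr)
  have hrR : (0 : ℝ) < r := by exact_mod_cast hr0
  have hMR : (1 : ℝ) ≤ M := by exact_mod_cast hM0
  have hr9 : (r : ℝ) ≤ 9 := by
    have : r ≤ 9 := by
      rw [← hMr]
      exact Nat.le_mul_of_pos_left r hM0
    exact_mod_cast this
  obtain ⟨ρ, hρ⟩ : ∃ ρ, ρ = √(n : ℝ) := ⟨_, rfl⟩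
  rw [← hρ] at h hs h2
  have hρ0 : 0 ≤ ρ := by rw [hρ]; exact Real.sqrt_nonneg _
  have hρ2 : ρ * ρ = 9 + 2 * r := by rw [h2, h6]
  have hρ3 : 3 ≤ ρ := by nlinarith
  unfold GoodE
  rw [KN_eq]
  obtain ⟨s, hsd⟩ : ∃ s, s = sM M := ⟨_, rfl⟩
  rw [← hsd] at hs ⊢
  have hs0 : 0 ≤ s := by rw [hsd]; exact Real.sqrt_nonneg _
  push_cast at h ⊢
  obtain ⟨e, he⟩ : ∃ e, e = (M + s) / 2 * D - ((M + s) / 2 + 1) * m := ⟨_, rfl⟩
  rw [← he]
  have e5 : 2 * r * e = (ρ + 3) * (3 * D - ρ * m) := by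
    rw [he]
    linear_combination (D - m : ℝ) * h1 + (D - m : ℝ) * hs + (m : ℝ) * hρ2
  have e6 : (ρ + 3) * (ρ - 3) = 2 * r := by linear_combination hρ2
  have hK : 0 < (M + s) / 2 + 1 := by linarith
  rcases h with h | h
  · right; left
    have h3 : (ρ + 3) * (3 * D - ρ * m) ≤ (ρ + 3) * ((ρ - 3) / 2 - ε) :=
      mul_le_mul_of_nonneg_left h (by linarith)
    rw [← e5] at h3
    have h4 : (ρ + 3) * ((ρ - 3) / 2 - ε) = r - (ρ + 3) * ε := by linear_combination e6 / 2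
    have h5 : (r / 2) * ε ≤ (ρ + 3) * ε := mul_le_mul_of_nonneg_right (by linarith) hε.le
    have h7 : r * (2 * e) ≤ r * (1 - ε / 2) := by linarith
    have h8 := le_of_mul_le_mul_left h7 hrR
    have h9 := mul_le_mul_of_nonneg_right h8 hK.le
    linarith
  · right; right
    have h3 : (ρ + 3) * ((ρ - 3) / 2) ≤ (ρ + 3) * (3 * D - ρ * m) :=
      mul_le_mul_of_nonneg_left h (by linarith)
    rw [← e5] at h3
    have h4 : (ρ + 3) * ((ρ - 3) / 2) = r := by linear_combination e6 / 2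
    have h7 : r * 1 ≤ r * (2 * e) := by linarith
    have h8 := le_of_mul_le_mul_left h7 hrR
    have h9 := mul_le_mul_of_nonneg_right h8 hK.le
    linarith

/-- **11, 15 and 27 points** -/
theorem uniform4 {n : ℕ} (hn : n = 11 ∨ n = 15 ∨ n = 27) {ε : ℝ} (hε : 0 < ε) :
    ∃ m₀ : ℕ, ∀ m : ℕ, m₀ ≤ m →
    ∃ F : MvPolynomial (Fin n × Fin 2) ℚ, F ≠ 0 ∧ ∀ {L : Type} [Field L] [CharZero L]
      (P : Fin n → Fin 2 → L), MvPolynomial.aeval (fun ij : Fin n × Fin 2 => P ij.1 ij.2) F ≠ 0 →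
      ∀ d : ℕ, ((¬ 3 ∣ d ∧ n ≠ 27) ∨
        (3 ∣ d ∧ (d : ℝ) - √(n : ℝ) * m ≤ (√(n : ℝ) - 3) / 2 - ε) ∨
        (3 ∣ d ∧ (√(n : ℝ) - 3) / 2 ≤ (d : ℝ) - √(n : ℝ) * m)) → ExpDim L (fun _ => m) P d := by
  have key : ∀ {M r : ℕ}, M * r = 9 → n = 9 + 2 * r → ∃ m₀ : ℕ, ∀ m D : ℕ, m₀ ≤ m →
      ((3 * D : ℕ) - √(n : ℝ) * m ≤ (√(n : ℝ) - 3) / 2 - ε ∨
        (√(n : ℝ) - 3) / 2 ≤ (3 * D : ℕ) - √(n : ℝ) * m) →
      Emp (fun _ : Fin n => m) (TZ (3 * D)) ∨ Sur (fun _ : Fin n => m) (TZ (3 * D)) := by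
    intro M r hMr hn'
    obtain ⟨m₀, hm₀⟩ := dich_unif4 hMr hn' (half_pos hε)
    exact ⟨m₀, fun m D hm h => hm₀ m D hm (goodE_root hMr hn' hε h)⟩
  have key2 : ∃ m₀ : ℕ, ∀ m D : ℕ, m₀ ≤ m →
      ((3 * D : ℕ) - √(n : ℝ) * m ≤ (√(n : ℝ) - 3) / 2 - ε ∨
        (√(n : ℝ) - 3) / 2 ≤ (3 * D : ℕ) - √(n : ℝ) * m) →
      Emp (fun _ : Fin n => m) (TZ (3 * D)) ∨ Sur (fun _ : Fin n => m) (TZ (3 * D)) := by
    rcases hn with h | h | h
    · exact key (M := 9) (r := 1) (by norm_num) (by rw [h])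
    · exact key (M := 3) (r := 3) (by norm_num) (by rw [h])
    · exact key (M := 1) (r := 9) (by norm_num) (by rw [h])
  obtain ⟨m₀, hm₀⟩ := key2
  refine ⟨m₀, fun m hm => ?_⟩
  refine Pool.Agent.TH864.SX.expDim_of_or' fun d hd => ?_
  by_cases h3 : 3 ∣ d
  · obtain ⟨D, rfl⟩ := h3
    have h3' : 3 ∣ 3 * D := ⟨D, rfl⟩
    apply hm₀ m D hm
    rcases hd with hd | hd | hd
    · exact absurd h3' hd.1
    · exact Or.inl hd.2
    · exact Or.inr hd.2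
  · have hn27 : n ≠ 27 := by
      rcases hd with hd | hd | hd
      · exact hd.2
      · exact absurd hd.1 h3
      · exact absurd hd.1 h3
    rcases hn with rfl | rfl | rfl
    · exact Pool.Agent.TH864.SX.dich' Pool.Agent.TH864.SX.num11 Pool.Agent.TH864.SX.K11_lt m d (Or.inl h3)
    · exact Pool.Agent.TH469.SX.dich_three (b := 5) Pool.Agent.TH469.SX.slp15
        Pool.Agent.TH469.SX.K15_lt (Pool.Agent.TH469.SX.dich5 m d (Or.inl h3))
    · exact absurd rfl hn27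

end Pool.Agent.U11
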