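import Pool.Agent.R332.TW.Rot

/-! Sets of integers of natural density zero, from shrinking windows of an irrational rotation. -/

set_option autoImplicit false

namespace Pool.Agent.U11

open Finset Filter Topology

/-- **shrinking windows have density zero** -/
theorem density_zero {α : ℝ} (hα : Irrational α) (a : ℝ) (Bad : ℕ → Prop) [DecidablePred Bad]
    (h : ∀ ε : ℝ, 0 < ε → ∃ m₀ : ℕ, ∀ m, m₀ ≤ m → Bad m →
      ∃ z : ℤ, a - ε ≤ (z : ℝ) - α * m ∧ (z : ℝ) - α * m ≤ a) :
    Tendsto (fun M : ℕ => (((Finset.Icc 1 M).filter Bad).card : ℝ) / M) atTop (𝓝 0) := by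
  classical
  rw [Metric.tendsto_atTop]
  intro c hc
  obtain ⟨m₀, hm₀⟩ := h (c / 3) (by positivity)
  have h1 := Pool.Agent.R332.TW.rotation_freq hα a (c₀ := c / 3) (c := c / 2) (by positivity)
    (by linarith)
  obtain ⟨N, hN⟩ := eventually_atTop.1 h1
  obtain ⟨L, hL⟩ := exists_nat_gt (2 * ((m₀ : ℝ) + 1) / c)
  refine ⟨max (max N L) 1, fun M hM => ?_⟩
  have hMN : N ≤ M := (le_max_left _ _).trans ((le_max_left _ _).trans hM)
  have hML : L ≤ M := (le_max_right _ _).trans ((le_max_left _ _).trans hM)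
  have hM1 : 1 ≤ M := (le_max_right _ _).trans hM
  have hM0 : (0 : ℝ) < M := by exact_mod_cast hM1
  have h2 := hN M hMN
  have h3 : ((Finset.Icc 1 M).filter Bad).card ≤ (m₀ + 1) + ((Finset.range M).filter (fun m : ℕ =>
      ∃ z : ℤ, 0 ≤ α * m + a - z ∧ α * m + a - z ≤ c / 3)).card := by
    have e : (Finset.Icc 1 M).filter Bad ⊆ (Finset.range m₀ ∪ {M}) ∪
        (Finset.range M).filter (fun m : ℕ =>
          ∃ z : ℤ, 0 ≤ α * m + a - z ∧ α * m + a - z ≤ c / 3) := by
      intro m hm
      rw [mem_filter, mem_Icc] at hm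
      rw [mem_union, mem_union, mem_range, mem_singleton, mem_filter, mem_range]
      rcases Nat.lt_or_ge m m₀ with h4 | h4
      · exact Or.inl (Or.inl h4)
      · rcases Nat.eq_or_lt_of_le hm.1.2 with h5 | h5
        · exact Or.inl (Or.inr h5)
        · right
          refine ⟨h5, ?_⟩
          obtain ⟨z, hz1, hz2⟩ := hm₀ m h4 hm.2
          exact ⟨z, by linarith, by linarith⟩
    refine (card_le_card e).trans ((card_union_le _ _).trans ?_)
    apply Nat.add_le_add_right
    refine (card_union_le _ _).trans ?_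
    rw [card_range, card_singleton]
  rw [Real.dist_eq, sub_zero, abs_of_nonneg (by positivity), div_lt_iff₀ hM0]
  have h4 : (((Finset.Icc 1 M).filter Bad).card : ℝ) ≤ ((m₀ : ℝ) + 1) +
      (((Finset.range M).filter (fun m : ℕ =>
      ∃ z : ℤ, 0 ≤ α * m + a - z ∧ α * m + a - z ≤ c / 3)).card : ℝ) := by
    exact_mod_cast h3
  have h5 : 2 * ((m₀ : ℝ) + 1) < c * M := by
    rw [div_lt_iff₀ hc] at hL
    have : (L : ℝ) ≤ M := by exact_mod_cast hML
    nlinarith
  linarith

end Pool.Agent.U11
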