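import Pool.Agent.U11.OneFam

/-! Equal multiplicities at 11, 15 and 27 points: the dimensions. -/

set_option autoImplicit false

namespace Pool.Agent.U11

open MvPolynomial Pool.Agent.H932R3

/-- **equal multiplicities**: the expected dimension, or no expected forms and dimension one, in one
short window -/
theorem uniform_dims {n : ℕ} (hn : n = 11 ∨ n = 15 ∨ n = 27) {m : ℕ} (hm : 1 ≤ m) :
    ∃ F : MvPolynomial (Fin n × Fin 2) ℚ, F ≠ 0 ∧ ∀ {L : Type} [Field L] [CharZero L]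
      (P : Fin n → Fin 2 → L), aeval (fun ij : Fin n × Fin 2 => P ij.1 ij.2) F ≠ 0 →
      ∀ d : ℕ, (n = 27 → 3 ∣ d) →
        Module.finrank L (Vw L (fun _ => m) P d) = (d + 2).choose 2 - n * (m + 1).choose 2 ∨
        (3 ∣ d ∧ 3 * (√(n : ℝ) - 3) ≤ (√(n : ℝ) + 3) * (d - √(n : ℝ) * m) ∧
          2 * (d : ℝ) + 3 < √(n : ℝ) * (2 * m + 1) ∧ (d + 2).choose 2 ≤ n * (m + 1).choose 2 ∧
          Module.finrank L (Vw L (fun _ => m) P d) = 1) := by
  obtain ⟨F1, hF1, h1⟩ := dims (n := n) (w := fun _ => m) (G := fun d => n = 27 → 3 ∣ d)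
    (fun d hd => uniform_one hn hm hd)
  obtain ⟨F2, hF2, h2⟩ := N388.EFW.uniform3 hn m
  refine ⟨F1 * F2, mul_ne_zero hF1 hF2, fun {L} _ _ P hP d hd => ?_⟩
  rw [map_mul] at hP
  have h3 := h1 P (left_ne_zero_of_mul hP) d hd
  rw [Finset.sum_const, Finset.card_univ, Fintype.card_fin, smul_eq_mul] at h3
  rcases h3 with h3 | ⟨h3, h4⟩
  · exact Or.inl h3
  by_cases hG : ((¬ 3 ∣ d ∧ n ≠ 27) ∨
        (3 ∣ d ∧ (√(n : ℝ) + 3) * (d - √(n : ℝ) * m) < 3 * (√(n : ℝ) - 3)) ∨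
        (3 ∣ d ∧ √(n : ℝ) * (2 * m + 1) ≤ 2 * d + 3))
  · left
    have h5 := h2 P (right_ne_zero_of_mul hP) d hG
    unfold ExpDim at h5
    rw [Finset.sum_const, Finset.card_univ, Fintype.card_fin, smul_eq_mul] at h5
    exact h5
  · right
    push Not at hG
    obtain ⟨g1, g2, g3⟩ := hG
    have h3d : 3 ∣ d := by
      by_contra hcon
      exact hcon (hd (g1 hcon))
    exact ⟨h3d, g2 h3d, g3 h3d, h3, h4⟩

/-- the expected dimension of a degree divisible by three is never exactly zero with as many forms as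
conditions -/
theorem choose_ne {n : ℕ} (hn : n = 11 ∨ n = 15 ∨ n = 27) {d : ℕ} (h3 : 3 ∣ d) (m : ℕ) :
    (d + 2).choose 2 ≠ n * (m + 1).choose 2 := by
  intro h
  obtain ⟨D, rfl⟩ := h3
  have h1 : (3 * D + 2).choose 2 * 2 = (3 * D + 2) * (3 * D + 1) := by
    rw [Nat.choose_two_right, Nat.div_mul_cancel]
    · rfl
    · exact (Nat.even_mul_pred_self _).two_dvd
  have h2 : (m + 1).choose 2 * 2 = (m + 1) * m := by
    rw [Nat.choose_two_right, Nat.div_mul_cancel]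
    · rfl
    · exact (Nat.even_mul_pred_self _).two_dvd
  have h4 : (3 * D + 2) * (3 * D + 1) = n * ((m + 1) * m) := by
    rw [← h1, h, mul_assoc, h2]
  have h5 : (3 * D + 2) * (3 * D + 1) = 9 * (D * D + D) + 2 := by ring
  have h6 : ((m + 1) * m) % 9 = 0 ∨ ((m + 1) * m) % 9 = 2 ∨ ((m + 1) * m) % 9 = 3 ∨
      ((m + 1) * m) % 9 = 6 := by
    rw [Nat.mul_mod, Nat.add_mod]
    have : m % 9 < 9 := Nat.mod_lt _ (by norm_num)
    interval_cases m % 9 <;> simp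
  obtain ⟨u, hu⟩ : ∃ u, u = (m + 1) * m := ⟨_, rfl⟩
  obtain ⟨t, ht⟩ : ∃ t, t = D * D + D := ⟨_, rfl⟩
  rw [h5, ← ht, ← hu] at h4
  rw [← hu] at h6
  rcases hn with rfl | rfl | rfl <;> omega

/-- **independent conditions**: if the number of conditions is at most the number of monomials, the
conditions are independent -/
theorem uniform_dims' {n : ℕ} (hn : n = 11 ∨ n = 15 ∨ n = 27) {m : ℕ} (hm : 1 ≤ m) :
    ∃ F : MvPolynomial (Fin n × Fin 2) ℚ, F ≠ 0 ∧ ∀ {L : Type} [Field L] [CharZero L]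
      (P : Fin n → Fin 2 → L), aeval (fun ij : Fin n × Fin 2 => P ij.1 ij.2) F ≠ 0 →
      ∀ d : ℕ, (n = 27 → 3 ∣ d) →
        Module.finrank L (Vw L (fun _ => m) P d) = (d + 2).choose 2 - n * (m + 1).choose 2 ∨
        (3 ∣ d ∧ 3 * (√(n : ℝ) - 3) ≤ (√(n : ℝ) + 3) * (d - √(n : ℝ) * m) ∧
          2 * (d : ℝ) + 3 < √(n : ℝ) * (2 * m + 1) ∧ (d + 2).choose 2 < n * (m + 1).choose 2 ∧
          Module.finrank L (Vw L (fun _ => m) P d) = 1) := by
  obtain ⟨F, hF, h1⟩ := uniform_dims hn hm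
  refine ⟨F, hF, fun {L} _ _ P hP d hd => ?_⟩
  rcases h1 P hP d hd with h | ⟨g1, g2, g3, g4, g5⟩
  · exact Or.inl h
  · exact Or.inr ⟨g1, g2, g3, lt_of_le_of_ne g4 (choose_ne hn g1 m), g5⟩

end Pool.Agent.U11
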