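import Pool.Agent.U11.CollOne2

/-! Collisions of eleven points: every multiplicity, every degree, at most one form. -/

set_option autoImplicit false

namespace Pool.Agent.U11

open Polynomial
open Pool.Agent.H932R2 Pool.Agent.H932R3
open Pool.Agent.TH545.CF (entC mem_jetIdeal)
open Pool.Agent.TH864.SX (Slp Blk K11 num11 sq11)
open Pool.Agent.N388.EFW (ee)

universe u

/-- the forms of degree `d` through the collision -/
noncomputable def JV {K : Type u} [Field K] {r : ℕ} (m : ℕ) (c : K) (a : Fin r → K) (d : ℕ) :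
    Submodule K (MvPolynomial (Fin 3) K) :=
  MvPolynomial.homogeneousSubmodule (Fin 3) K d ⊓
      (Submodule.restrictScalars K (jetIdeal m c a)).comap (deh K).toLinearMap

instance JV_fin {K : Type u} [Field K] {r : ℕ} (m : ℕ) (c : K) (a : Fin r → K) (d : ℕ) :
    Module.Finite K (JV m c a d) := by
  have h3 : Module.Finite K ↥(MvPolynomial.homogeneousSubmodule (Fin 3) K d) :=
    Module.Finite.iff_fg.2 (MvPolynomial.homogeneousSubmodule_fg _ _ d)
  exact Submodule.finiteDimensional_of_le (inf_le_left : JV m c a d ≤ _)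

theorem JV_repr {K : Type u} [Field K] {r m d : ℕ} {c : K} {a : Fin r → K}
    {P : MvPolynomial (Fin 3) K} (hP : P ∈ JV m c a d) :
    ∃ v : Fin (Tfin d).card → K, deh K P = ∑ s, v s • mon K (enumM (Tfin d) s) ∧
      (∑ s, v s • mon K (enumM (Tfin d) s)) ∈ jetIdeal m c a := by
  have h2 := deh_mem_mspan (d := d) hP.1
  rw [← coe_Tfin, mem_mspan_iff] at h2
  obtain ⟨v, hv⟩ := h2
  rw [coordMap_apply] at hv
  refine ⟨v, hv.symm, ?_⟩
  rw [hv]
  exact hP.2

theorem JV_le_one {K : Type u} [Field K] {r m d : ℕ} {c : K} {a : Fin r → K}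
    {s0 : Fin (Tfin d).card}
    (h : ∀ v : Fin (Tfin d).card → K,
        (∑ s, v s • mon K (enumM (Tfin d) s)) ∈ jetIdeal m c a → v s0 = 0 → v = 0) :
    Module.finrank K (JV m c a d) ≤ 1 := by
  have hzero : ∀ P ∈ JV m c a d, ∀ v : Fin (Tfin d).card → K,
      deh K P = ∑ s, v s • mon K (enumM (Tfin d) s) → v = 0 → P = 0 := by
    rintro P hP v hv rfl
    refine deh_eq_zero (d := d) hP.1 ?_
    rw [hv]
    simp
  by_cases hz : ∀ P ∈ JV m c a d, P = 0
  · refine _root_.finrank_le_one (0 : JV m c a d) fun w => ⟨0, ?_⟩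
    rw [smul_zero]
    exact (Subtype.ext (hz w.1 w.2)).symm
  push Not at hz
  obtain ⟨P0, hP0, hne⟩ := hz
  obtain ⟨v0, e0, i0⟩ := JV_repr hP0
  have hs0 : v0 s0 ≠ 0 := by
    intro h0
    exact hne (hzero P0 hP0 v0 e0 (h v0 i0 h0))
  refine _root_.finrank_le_one (⟨P0, hP0⟩ : JV m c a d) fun w => ⟨?_, ?_⟩
  · exact (JV_repr w.2).choose s0 / v0 s0
  obtain ⟨e1, i1⟩ := (JV_repr w.2).choose_spec
  obtain ⟨v, hv⟩ : ∃ v, v = (JV_repr w.2).choose := ⟨_, rfl⟩
  rw [← hv] at e1 i1 ⊢
  apply Subtype.ext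
  have hw : v - (v s0 / v0 s0) • v0 = 0 := by
    apply h
    · have e2 : ∑ s, (v - (v s0 / v0 s0) • v0) s • mon K (enumM (Tfin d) s) =
        (∑ s, v s • mon K (enumM (Tfin d) s)) -
          (v s0 / v0 s0) • ∑ s, v0 s • mon K (enumM (Tfin d) s) := by
        rw [Finset.smul_sum, ← Finset.sum_sub_distrib]
        refine Finset.sum_congr rfl fun s _ => ?_
        rw [Pi.sub_apply, Pi.smul_apply, sub_smul, smul_assoc]
      rw [e2]
      exact Submodule.sub_mem (Submodule.restrictScalars K (jetIdeal m c a)) i1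
        (Submodule.smul_mem (Submodule.restrictScalars K (jetIdeal m c a)) _ i0)
    · rw [Pi.sub_apply, Pi.smul_apply, smul_eq_mul, div_mul_cancel₀ _ hs0, sub_self]
  have hmem : w.1 - (v s0 / v0 s0) • P0 ∈ JV m c a d :=
    Submodule.sub_mem _ w.2 (Submodule.smul_mem _ _ hP0)
  have h3 := hzero _ hmem (v - (v s0 / v0 s0) • v0) (by
    rw [map_sub, map_smul, e1, e0, Finset.smul_sum, ← Finset.sum_sub_distrib]
    refine Finset.sum_congr rfl fun s _ => ?_
    rw [Pi.sub_apply, Pi.smul_apply, sub_smul, smul_assoc]) hw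
  exact (sub_eq_zero.1 h3).symm

theorem JV_pos {K : Type u} [Field K] {r m d : ℕ} {c : K} {a : Fin r → K}
    (h : r * (m + 1).choose 2 < (d + 2).choose 2) : 1 ≤ Module.finrank K (JV m c a d) := by
  let A : (Fin (Tfin d).card → K) →ₗ[K] (EE r m → K) :=
    { toFun := fun v p => ∑ s, MvPolynomial.aeval (Fin.cons c a : Fin (r + 1) → K)
        (entC r p.1 (enumM (Tfin d) s)) * v s
      map_add' := fun v w => by
        funext p
        rw [Pi.add_apply, ← Finset.sum_add_distrib]
        refine Finset.sum_congr rfl fun s _ => ?_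
        rw [Pi.add_apply, mul_add]
      map_smul' := fun t v => by
        funext p
        rw [Pi.smul_apply, RingHom.id_apply, smul_eq_mul, Finset.mul_sum]
        refine Finset.sum_congr rfl fun s _ => ?_
        rw [Pi.smul_apply, smul_eq_mul]
        ring }
  have hN : (Tfin d).card = (d + 2).choose 2 := by
    have h4 := card_Tfin d
    have h5 : (d + 2).choose 2 * 2 = (d + 2) * (d + 1) := by
      rw [Nat.choose_two_right, Nat.div_mul_cancel (Nat.even_mul_pred_self _).two_dvd]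
      rfl
    linarith
  have hker : LinearMap.ker A ≠ ⊥ := by
    apply LinearMap.ker_ne_bot_of_finrank_lt
    rw [Module.finrank_fintype_fun_eq_card, Module.finrank_fintype_fun_eq_card, Fintype.card_fin,
      Fintype.card_coe, card_EE_eq', hN]
    exact h
  obtain ⟨v, hv, hv0⟩ := Submodule.exists_mem_ne_zero_of_ne_bot hker
  have hv1 : (∑ s, v s • mon K (enumM (Tfin d) s)) ∈ jetIdeal m c a := by
    rw [mem_jetIdeal]
    intro p
    exact congrFun (LinearMap.mem_ker.1 hv) p
  have h1 : ∑ i, v i • mon K (enumM (Tfin d) i) ∈ mspan K (Tset d) := by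
    rw [← coe_Tfin]
    exact Submodule.sum_mem _ fun i _ => Submodule.smul_mem _ _
      (Submodule.subset_span ⟨_, enumM_mem (Tfin d) i, rfl⟩)
  obtain ⟨F, hF, hF'⟩ := exists_form h1
  have hFV : F ∈ JV m c a d := ⟨hF, by
    show deh K F ∈ jetIdeal m c a
    rw [hF']
    exact hv1⟩
  apply Module.finrank_pos_iff_exists_ne_zero.2
  refine ⟨⟨F, hFV⟩, fun h0 => hv0 ?_⟩
  have h2 : F = 0 := congrArg Subtype.val h0
  rw [h2, map_zero] at hF'
  exact funext fun i => mspan_eq_zero v hF'.symm i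

/-- **collisions of eleven points in characteristic zero**: every multiplicity, every degree -/
theorem eleven_coll_one {m : ℕ} (hm : 1 ≤ m) (k : Type u) [Field k] [CharZero k] :
    ∃ F : MvPolynomial (Fin (11 + 1)) k, F ≠ 0 ∧
      ∀ (c : k) (a : Fin 11 → k), MvPolynomial.eval (Fin.cons c a : Fin (11 + 1) → k) F ≠ 0 →
        ∀ d : ℕ, JetDim 11 m c a d ∨ (3 ∣ d ∧ 3 * (√11 - 3) / (√11 + 3) ≤ (d : ℝ) - √11 * m ∧
          (d : ℝ) - √11 * m < (√11 - 3) / 2 ∧ (d + 2).choose 2 < 11 * (m + 1).choose 2 ∧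
          Module.finrank k (JV m c a d) = 1) := by
  have hsl : Slp 9 2 K11 := num11.sl
  have hs := sq11
  have hs3 : 3.3 < √(11 : ℝ) := by
    rw [Real.lt_sqrt (by norm_num)]; norm_num
  have hs4 : √(11 : ℝ) < 3.32 := by
    rw [Real.sqrt_lt' (by norm_num)]; norm_num
  obtain ⟨F1, hF1, hF1'⟩ := Pool.Agent.N388.EFC.eleven_coll0 (m := m) k
  obtain ⟨F2, hF2, hF2'⟩ : ∃ F : MvPolynomial (Fin (11 + 1)) k, F ≠ 0 ∧
      ∀ (c : k) (a : Fin 11 → k), MvPolynomial.eval (Fin.cons c a : Fin (11 + 1) → k) F ≠ 0 →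
        ∀ x : ℕ, √11 * m < 3 * (x : ℝ) → 3 * (x : ℝ) - √11 * m < (√11 - 3) / 2 →
          Module.finrank k (JV m c a (3 * x)) ≤ 1 := by
    by_cases hex : ∃ x : ℕ, √11 * m < 3 * (x : ℝ) ∧ 3 * (x : ℝ) - √11 * m < (√11 - 3) / 2
    · obtain ⟨x, h1, h2⟩ := hex
      have e1 : ee K11 m x 0 = (3 + √11) / 2 * (3 * x - √11 * m) := by
        unfold ee K11
        push_cast
        linear_combination ((m : ℝ) / 2) * hs
      have e0 : 0 < ee K11 m x 0 := by
        rw [e1]
        apply mul_pos (by positivity)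
        linarith
      have hK0 := hsl.K0
      have h5 : ee K11 m x 0 < 1 / 2 := by
        rw [e1]
        have h3 : (3 + √11) / 2 * (3 * (x : ℝ) - √11 * m) < (3 + √11) / 2 * ((√11 - 3) / 2) :=
          mul_lt_mul_of_pos_left h2 (by positivity)
        have h4 : (3 + √11) / 2 * ((√11 - 3) / 2) = 1 / 2 := by
          linear_combination hs / 4
        linarith
      have hdt : Dt 9 K11 m x 0 := by
        refine ⟨hsl, hm, e0.le, ?_⟩
        have h6 := mul_lt_mul_of_pos_right h5 (by linarith : (0 : ℝ) < 2 * K11 + 2)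
        push_cast
        linarith
      have hMK := hdt.MK
      have hKM := hdt.KM
      push_cast at hMK hKM
      have hsub : Pool.Agent.TH716.CF.EmpG 0 (fun b : Bool => if b then 11 else 1)
          (fun b => if b then m else 1) (Pool.Agent.TH716.CF.Tri (3 * x) (K11 / 3 - 3)) :=
        EmpG_apex (triG_open hdt)
      obtain ⟨L, _, _, c0, a0, ρ, hρ, h0⟩ := key_coll1 (by linarith) (by linarith) hsub
      obtain ⟨s0, hs0⟩ := exists_coord hρ h0
      obtain ⟨F, hF, hF'⟩ := coll_transfer1 (L := k) 0 hs0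
      refine ⟨F, hF, fun c a hc x' h3 h4 => ?_⟩
      have hxx : x' = x := by
        have h7 : (x' : ℝ) < x + 1 := by linarith
        have h8 : (x : ℝ) < x' + 1 := by linarith
        have h9 : x' < x + 1 := by exact_mod_cast h7
        have h10 : x < x' + 1 := by exact_mod_cast h8
        omega
      subst hxx
      exact JV_le_one (hF' c a hc)
    · refine ⟨1, one_ne_zero, fun c a _ x h3 h4 => ?_⟩
      exact absurd ⟨x, h3, h4⟩ hex
  refine ⟨F1 * F2, mul_ne_zero hF1 hF2, fun c a hc d => ?_⟩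
  rw [map_mul] at hc
  by_cases hG : 3 ∣ d ∧ 3 * (√11 - 3) / (√11 + 3) ≤ (d : ℝ) - √11 * m ∧
          (d : ℝ) - √11 * m < (√11 - 3) / 2
  swap
  · exact Or.inl (hF1' c a (left_ne_zero_of_mul hc) d hG)
  obtain ⟨g1, g2, g3⟩ := hG
  have hpos : 0 < 3 * (√11 - 3) / (√11 + 3) := div_pos (by linarith) (by linarith)
  have hle1 : Module.finrank k (JV m c a d) ≤ 1 := by
    obtain ⟨x, rfl⟩ := g1
    push_cast at g2 g3
    exact hF2' c a (right_ne_zero_of_mul hc) x (by linarith) g3
  have hne := choose_ne (n := 11) (Or.inl rfl) g1 m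
  rcases Nat.lt_or_ge ((d + 2).choose 2) (11 * (m + 1).choose 2) with h1 | h1
  · interval_cases h2 : Module.finrank k (JV m c a d)
    · left
      show Module.finrank k (JV m c a d) = _
      omega
    · exact Or.inr ⟨g1, g2, g3, h1, rfl⟩
  · left
    have h2 : 11 * (m + 1).choose 2 < (d + 2).choose 2 := lt_of_le_of_ne h1 (Ne.symm hne)
    have h3 := JV_pos (c := c) (a := a) h2
    show Module.finrank k (JV m c a d) = _
    -- only one form is expected
    have c1 : (d + 2).choose 2 * 2 = (d + 2) * (d + 1) := by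
      rw [Nat.choose_two_right, Nat.div_mul_cancel]
      · rfl
      · exact (Nat.even_mul_pred_self _).two_dvd
    have c2 : (m + 1).choose 2 * 2 = (m + 1) * m := by
      rw [Nat.choose_two_right, Nat.div_mul_cancel]
      · rfl
      · exact (Nat.even_mul_pred_self _).two_dvd
    have c3 : (2 * d + 3) * (2 * d + 3) = 8 * (d + 2).choose 2 + 1 := by nlinarith
    have c4 : 11 * ((2 * m + 1) * (2 * m + 1)) = 8 * (11 * (m + 1).choose 2) + 11 := by nlinarith
    have c5 : (2 * (d : ℝ) + 3) < √11 * (2 * m + 1) := by linarith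
    have c6 : (2 * (d : ℝ) + 3) * (2 * d + 3) < 11 * ((2 * m + 1) * (2 * m + 1)) := by
      have h5 := mul_self_lt_mul_self (by positivity) c5
      have h6 : (√11 * (2 * (m : ℝ) + 1)) * (√11 * (2 * m + 1)) =
          11 * ((2 * m + 1) * (2 * m + 1)) := by
        linear_combination ((2 * (m : ℝ) + 1) * (2 * m + 1)) * hs
      linarith
    have c7 : (2 * d + 3) * (2 * d + 3) < 11 * ((2 * m + 1) * (2 * m + 1)) := by exact_mod_cast c6
    omega

end Pool.Agent.U11
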