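import Pool.Agent.U11.Block
import Pool.Agent.N388.EFC.Eleven

/-! Collisions of `M + 2` points in the block, and of eleven points in the plane, large multiplicities. -/

set_option autoImplicit false

namespace Pool.Agent.U11

open Finset Polynomial
open Pool.Agent.TH864.SX (Slp Blk)
open Pool.Agent.TH716.CF (EmpG Tri key_coll)
open Pool.Agent.N388.EFC (VALG EmpG_refl EmpG_shift)
open Pool.Agent.N388.EFW (ee NN FF mem_FF SS mem_SS cc_in colP colP_coeff)
open Pool.Agent.H932R3 (JetDim jet_full)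
open Pool.Agent.TH545.CF (coll_transfer)

variable {M : ℕ} {K : ℝ} {m x : ℕ}

/-- **the block** -/
theorem blockG (h : Dt M K m x 0) (hap : ∀ b : ℕ × ℕ → ℚ, Ann K m x 0 b → b (0, x) = 0) :
    EmpG 0 (fun _ : Unit => M + 2) (fun _ => m) (Blk M K (3 * x)) := by
  classical
  have hK := h.K0
  have hKM : 0 < K - M := by linarith [h.MK]
  have key := VALG (M + 2) m (SS M K x)
    (fun κ => ⌊ee K m x 0 + (K + 1) * ((m : ℝ) - κ)⌋) (by
      intro κ p hp hκp
      rw [mem_SS] at hp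
      obtain ⟨-, -, h3⟩ := hp
      rw [Int.le_floor]
      have h4 : (κ : ℝ) ≤ p.2 := by exact_mod_cast hκp
      have h5 := h.Kx
      have h6 : K * ((x : ℝ) - p.2) ≤ K * ((x : ℝ) - κ) :=
        mul_le_mul_of_nonneg_left (by linarith) hK.le
      push_cast at h5 ⊢
      rw [mul_sub, h5] at h6
      linarith) (by
      intro c hc
      have hR : ∀ κ ≤ m, ∀ D : ℤ, ee K m x 0 - ((M : ℝ) + 1 - K) * ((m : ℝ) - κ) < D →
          N388.EF.Rel (SS M K x) c κ D := by
        intro κ hκ D hD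
        apply hc κ D
        have h1 : ⌊ee K m x 0 + (K + 1) * ((m : ℝ) - κ)⌋ <
            D + (((M + 2) * (m - κ) : ℕ) : ℤ) := by
          rw [Int.floor_lt]
          push_cast [Nat.cast_sub hκ]
          linarith
        linarith
      have hpos : ∀ κ ≤ m, ∀ D : ℤ, 1 ≤ D → N388.EF.Rel (SS M K x) c κ D := by
        intro κ hκ D hD
        apply hR κ hκ D
        have h1 : (1 : ℝ) ≤ D := by exact_mod_cast hD
        have h2 : (κ : ℝ) ≤ m := by exact_mod_cast hκ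
        have h3 := h.e12
        have h4 : 0 ≤ ((M : ℝ) + 1 - K) * ((m : ℝ) - κ) := mul_nonneg h.lam0.le (by linarith)
        linarith
      choose g hg1 hg2 hg3 using h.quot c hpos
      have hbA : Ann K m x 0 (fun q => (g q.1).coeff q.2) := by
        intro n κ hκ
        apply h.red c g hg2 hg3 n κ
        apply hR κ (h.NN_lt_m hκ).le
        have := h.lt_NN.1 hκ
        push_cast
        linarith
      have hb := h.solve (fun q => (g q.1).coeff q.2) hbA (hap _ hbA)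
      have hg0 : ∀ t, g t = 0 := by
        intro t
        ext l
        rw [coeff_zero]
        by_contra h1
        exact h1 (hb (t, l) (hg2 t l h1))
      rintro ⟨t, j⟩ hp
      have h1 : (colP M K x c t).coeff j = 0 := by
        rw [hg1 t, hg0 t, mul_zero, coeff_zero]
      rw [colP_coeff, cc_in hp] at h1
      exact h1)
  refine key.mono ?_
  rintro ⟨a, b⟩ hab
  obtain ⟨h1, h2, h3⟩ := hab
  simp only at h1 h2 h3
  have e : (((3 * x : ℕ) : ℝ)) / 3 = x := by push_cast; ring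
  rw [e] at h2 h3
  obtain ⟨j', rfl⟩ : ∃ j' : ℕ, b = j' := ⟨b.toNat, by omega⟩
  push_cast at h2 h3
  have hjx : (j' : ℝ) ≤ x := by
    by_contra h4
    push Not at h4
    have h5 : ((x : ℝ) - j') < 0 := by linarith
    have h6 : K * ((x : ℝ) - j') < (K - M) * ((x : ℝ) - j') := by
      have : (0 : ℝ) < M := by exact_mod_cast h.M0
      nlinarith
    linarith
  have ha0 : (0 : ℝ) ≤ a := by
    have : 0 ≤ (K - M) * ((x : ℝ) - j') := mul_nonneg hKM.le (by linarith)
    linarith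
  have ha1 : 0 ≤ a := by exact_mod_cast ha0
  obtain ⟨t, rfl⟩ : ∃ t : ℕ, a = t := ⟨a.toNat, by omega⟩
  push_cast at h2 h3
  refine ⟨(t, j'), ?_, rfl⟩
  rw [mem_SS]
  refine ⟨⟨?_, by exact_mod_cast hjx⟩, h2, h3⟩
  apply Nat.le_floor
  refine h3.trans ?_
  apply mul_le_mul_of_nonneg_left _ hK.le
  have : (0 : ℝ) ≤ j' := Nat.cast_nonneg j'
  linarith

/-- the triangle -/
theorem triG (h : Dt 9 K m x 0) (hap : ∀ b : ℕ × ℕ → ℚ, Ann K m x 0 b → b (0, x) = 0) :
    EmpG 0 (fun _ : Unit => 11) (fun _ => m) (Tri (3 * x) (K / 3 - 3)) := by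
  have h1 := blockG h hap
  have h2 := EmpG_refl (S := {q : ℤ × ℤ | (-q.1, q.2) ∈ Blk 9 K (3 * x)}) h1 (fun q hq => hq)
  have h3 := EmpG_shift (S := {q : ℤ × ℤ | (-(6 * x : ℤ) + q.1, q.2) ∈
    {q : ℤ × ℤ | (-q.1, q.2) ∈ Blk 9 K (3 * x)}}) (-(6 * x : ℤ), 0) h2 (by
    intro q hq
    have e : ((-(6 * x : ℤ), 0) : ℤ × ℤ) + q = (-(6 * x : ℤ) + q.1, q.2) := by
      ext <;> simp
    rw [e]
    exact hq)
  refine h3.shear 6 ?_
  rintro ⟨a, k⟩ ⟨g1, g2, g3⟩
  simp only [Set.mem_setOf_eq] at g1 g2 g3 ⊢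
  push_cast at g2 g3
  refine ⟨g1, ?_, ?_⟩
  · simp only
    push_cast
    linarith
  · simp only
    push_cast
    linarith

universe u

/-- **eleven points, one critical degree** -/
theorem coll_crit {k : Type u} [Field k] [CharZero k] (h : Dt 9 K m x 0)
    (hap : ∀ b : ℕ × ℕ → ℚ, Ann K m x 0 b → b (0, x) = 0) :
    ∃ F : MvPolynomial (Fin (11 + 1)) k, F ≠ 0 ∧
      ∀ (c : k) (a : Fin 11 → k), MvPolynomial.eval (Fin.cons c a : Fin (11 + 1) → k) F ≠ 0 →
        ∀ d' ≤ 3 * x, JetDim 11 m c a d' := by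
  have hMK := h.MK
  have hKM := h.KM
  push_cast at hMK hKM
  obtain ⟨L, _, _, c0, a0, h0⟩ := key_coll (by linarith) (by linarith) (triG h hap)
  obtain ⟨F, hF, hF'⟩ := coll_transfer (L := k) 0 (r := 11) (m := m) (c0 := c0) (a0 := a0)
    (d := 3 * x) (fun P hP hP' => h0 P hP hP')
  refine ⟨F, hF, fun c a hc d' hd' => ?_⟩
  exact jet_full ((hF' c a hc).mono hd').rk d' le_rfl

open Pool.Agent.TH864.SX (K11 num11 sq11)

/-- **collisions of eleven points in characteristic zero, large multiplicities** -/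
theorem eleven_coll4 {ε : ℝ} (hε : 0 < ε) : ∃ m₀ : ℕ, ∀ m : ℕ, m₀ ≤ m →
    ∀ (k : Type u) [Field k] [CharZero k], ∃ F : MvPolynomial (Fin (11 + 1)) k, F ≠ 0 ∧
      ∀ (c : k) (a : Fin 11 → k), MvPolynomial.eval (Fin.cons c a : Fin (11 + 1) → k) F ≠ 0 →
        ∀ d : ℕ, ¬ (3 ∣ d ∧ (√11 - 3) / 2 - ε < (d : ℝ) - √11 * m ∧
          (d : ℝ) - √11 * m < (√11 - 3) / 2) → JetDim 11 m c a d := by
  have hsl : Slp 9 2 K11 := num11.sl
  obtain ⟨m₀, hm₀⟩ := apex hsl 0 hε
  refine ⟨max m₀ 1, fun m hm k _ _ => ?_⟩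
  have hm1 : m₀ ≤ m := (le_max_left _ _).trans hm
  have hm2 : 0 < m := by
    have := (le_max_right m₀ 1).trans hm
    omega
  have hs := sq11
  have hs3 : 3.3 < √(11 : ℝ) := by
    rw [Real.lt_sqrt (by norm_num)]; norm_num
  have hs4 : √(11 : ℝ) < 3.32 := by
    rw [Real.sqrt_lt' (by norm_num)]; norm_num
  obtain ⟨F1, hF1, hF1'⟩ := Pool.Agent.TH518.CW.eleven_coll (m := m) k
  obtain ⟨F2, hF2, hF2'⟩ : ∃ F : MvPolynomial (Fin (11 + 1)) k, F ≠ 0 ∧
      ∀ (c : k) (a : Fin 11 → k), MvPolynomial.eval (Fin.cons c a : Fin (11 + 1) → k) F ≠ 0 →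
        ∀ x : ℕ, √11 * m < 3 * (x : ℝ) → 3 * (x : ℝ) - √11 * m ≤ (√11 - 3) / 2 - ε →
          JetDim 11 m c a (3 * x) := by
    by_cases hex : ∃ x : ℕ, √11 * m < 3 * (x : ℝ) ∧ 3 * (x : ℝ) - √11 * m ≤ (√11 - 3) / 2 - ε
    · obtain ⟨x, h1, h2⟩ := hex
      have e1 : ee K11 m x 0 = (3 + √11) / 2 * (3 * x - √11 * m) := by
        unfold ee K11
        push_cast
        linear_combination ((m : ℝ) / 2) * hs
      have e0 : 0 < ee K11 m x 0 := by
        rw [e1]
        apply mul_pos (by positivity)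
        linarith
      have hK0 := hsl.K0
      have e2 : ee K11 m x 0 * (2 * K11 + 2) + (0 : ℕ) ≤ (1 - ε) * (K11 + 1) := by
        have h3 : (3 + √11) / 2 * (3 * (x : ℝ) - √11 * m) ≤
            (3 + √11) / 2 * ((√11 - 3) / 2 - ε) :=
          mul_le_mul_of_nonneg_left h2 (by positivity)
        have h4 : (3 + √11) / 2 * ((√11 - 3) / 2 - ε) = 1 / 2 - (3 + √11) / 2 * ε := by
          linear_combination hs / 4
        have h5 : ee K11 m x 0 ≤ 1 / 2 - ε / 2 := by
          rw [e1]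
          have : ε / 2 ≤ (3 + √11) / 2 * ε := by nlinarith
          linarith
        have h6 := mul_le_mul_of_nonneg_right h5 (by linarith : (0 : ℝ) ≤ 2 * K11 + 2)
        push_cast
        linarith
      have hdt : Dt 9 K11 m x 0 := by
        refine ⟨hsl, hm2, e0.le, ?_⟩
        have : 0 < ε * (K11 + 1) := by positivity
        linarith
      obtain ⟨F, hF, hF'⟩ := coll_crit (k := k) hdt (hm₀ m x hm1 hdt e2)
      refine ⟨F, hF, fun c a hc x' h3 h4 => hF' c a hc _ ?_⟩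
      have h5 : 3 * (x' : ℝ) - √11 * m < 1 := by linarith
      have h6 : (x' : ℝ) < x + 1 := by linarith
      have h7 : x' < x + 1 := by exact_mod_cast h6
      omega
    · refine ⟨1, one_ne_zero, fun c a _ x h3 h4 => ?_⟩
      exact absurd ⟨x, h3, h4⟩ hex
  refine ⟨F1 * F2, mul_ne_zero hF1 hF2, fun c a hc d hd => ?_⟩
  rw [map_mul] at hc
  by_cases hold : ¬ 3 ∣ d ∨ (d : ℝ) ≤ √((11 : ℕ) : ℝ) * m ∨
      √((11 : ℕ) : ℝ) * (2 * m + 1) ≤ 2 * d + 3
  · exact hF1' c a (left_ne_zero_of_mul hc) d hold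
  push Not at hold
  push_cast at hold
  obtain ⟨h3, h4, h5⟩ := hold
  have hG2 : (d : ℝ) - √11 * m ≤ (√11 - 3) / 2 - ε := by
    by_contra hcon
    push Not at hcon
    exact hd ⟨h3, hcon, by linarith⟩
  obtain ⟨x, rfl⟩ := h3
  push_cast at h4 hG2
  exact hF2' c a (right_ne_zero_of_mul hc) x h4 hG2

end Pool.Agent.U11
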