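import Pool.Agent.U11.Core2

/-! Sums over columns, ultrafilters and rotations. -/

set_option autoImplicit false

namespace Pool.Agent.U11

open Finset Polynomial Filter Topology
open Pool.Agent.U11.Core (shear)

/-- decomposition into the left columns, the middle and the right columns -/
theorem split (F : Finset (ℕ × ℕ)) (m k ρ : ℕ) (hkρ : k + ρ ≤ m) (hF : ∀ q ∈ F, q.1 ≤ m)
    (f : ℕ × ℕ → ℝ) (hf : ∀ q ∈ F, k < q.1 → q.1 + ρ ≤ m → f q = 0) :
    ∑ q ∈ F, f q = ∑ t ∈ range (k + 1), ∑ q ∈ F.filter (fun q => q.1 = t), f q +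
      ∑ s ∈ range ρ, ∑ q ∈ F.filter (fun q => q.1 + s = m), f q := by
  classical
  obtain ⟨n, rfl⟩ : ∃ n, m = k + n + ρ := ⟨m - k - ρ, by omega⟩
  have h1 := Finset.sum_fiberwise_of_maps_to (s := F) (t := range ((k + 1) + (n + ρ)))
    (g := Prod.fst) (fun q hq => by have := hF q hq; rw [mem_range]; omega) f
  rw [← h1, sum_range_add _ (k + 1) (n + ρ)]
  congr 1
  rw [sum_range_add _ n ρ]
  have h2 : ∑ i ∈ range n, ∑ q ∈ F with q.1 = k + 1 + i, f q = 0 := by
    apply sum_eq_zero
    intro i hi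
    rw [mem_range] at hi
    apply sum_eq_zero
    intro q hq
    rw [mem_filter] at hq
    exact hf q hq.1 (by omega) (by omega)
  rw [h2, zero_add, ← sum_range_reflect]
  apply sum_congr rfl
  intro i hi
  rw [mem_range] at hi
  apply sum_congr _ (fun _ _ => rfl)
  ext q
  rw [mem_filter, mem_filter]
  constructor
  · rintro ⟨h3, h4⟩
    exact ⟨h3, by omega⟩
  · rintro ⟨h3, h4⟩
    exact ⟨h3, by omega⟩

/-- the sheared moment of a sum -/
theorem shear_sum {α : Type*} (S : Finset α) (w z : α → ℝ) (τ : ℝ) (c : ℕ) :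
    shear (fun a => ∑ q ∈ S, w q * (z q) ^ a) τ c = ∑ q ∈ S, w q * (z q + τ) ^ c := by
  unfold shear
  have h1 : ∀ q ∈ S, w q * (z q + τ) ^ c =
      ∑ a ∈ range (c + 1), (c.choose a : ℝ) * (w q * (z q) ^ a) * τ ^ (c - a) := by
    intro q _
    rw [add_pow, mul_sum]
    apply sum_congr rfl
    intro a _
    ring
  rw [sum_congr rfl h1, sum_comm]
  apply sum_congr rfl
  intro a _
  rw [mul_sum, sum_mul]

/-- the annihilator of a column -/
theorem col_ann {α : Type*} (A : Finset α) (z : α → ℝ) (c : ℕ) (hA : A.card ≤ c) :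
    ∃ P : ℝ[X], P.Monic ∧ P.natDegree = c ∧ (∀ a ∈ A, P.eval (z a) = 0) := by
  refine ⟨(∏ a ∈ A, (X - C (z a))) * X ^ (c - A.card), ?_, ?_, ?_⟩
  · exact (monic_prod_of_monic _ _ fun a _ => monic_X_sub_C _).mul (monic_X_pow _)
  · rw [Monic.natDegree_mul (monic_prod_of_monic _ _ fun a _ => monic_X_sub_C _) (monic_X_pow _),
      natDegree_prod_of_monic _ _ fun a _ => monic_X_sub_C _, natDegree_X_pow]
    simp only [natDegree_X_sub_C]
    rw [sum_const, smul_eq_mul, mul_one]
    omega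
  · intro a ha
    rw [eval_mul, eval_prod]
    have : ∏ i ∈ A, eval (z a) (X - C (z i)) = 0 := by
      apply prod_eq_zero ha
      simp
    rw [this, zero_mul]

theorem mom_rel {α : Type*} (S : Finset α) (w z : α → ℝ) {c : ℕ} {P : ℝ[X]} (hP : P.natDegree = c)
    (h : ∀ q ∈ S, P.eval (z q) = 0) :
    ∑ a ∈ range (c + 1), P.coeff a * ∑ q ∈ S, w q * (z q) ^ a = 0 := by
  have h1 : ∀ a ∈ range (c + 1), P.coeff a * ∑ q ∈ S, w q * (z q) ^ a =
      ∑ q ∈ S, w q * (P.coeff a * (z q) ^ a) := by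
    intro a _
    rw [mul_sum]
    apply sum_congr rfl
    intro q _
    ring
  rw [sum_congr rfl h1, sum_comm]
  apply sum_eq_zero
  intro q hq
  rw [← mul_sum, ← eval_eq_sum_range' (by omega), h q hq, mul_zero]

/-- a bounded sequence is constant along an ultrafilter -/
theorem const_of_bdd (𝒰 : Ultrafilter ℕ) (f : ℕ → ℕ) (N : ℕ) (hf : ∀ n, f n ≤ N) :
    ∃ a, ∀ᶠ n in (𝒰 : Filter ℕ), f n = a := by
  have h1 : ∀ᶠ n in (𝒰 : Filter ℕ), ∃ a ∈ Set.Iic N, f n = a :=
    Eventually.of_forall fun n => ⟨f n, hf n, rfl⟩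
  obtain ⟨a, -, ha⟩ := (Ultrafilter.eventually_exists_mem_iff (Set.finite_Iic N)).1 h1
  exact ⟨a, ha⟩

/-- an irrational rotation comes back to the end of the circle in bounded time -/
theorem rot {α : ℝ} (hα : Irrational α) {ε : ℝ} (hε : 0 < ε) :
    ∃ N : ℕ, ∀ y : ℝ, ∃ k ≤ N, 1 - ε < Int.fract (y + k * α) := by
  -- a small step
  obtain ⟨n, hn⟩ := exists_nat_gt (1 / ε)
  have hn0 : 0 < n := by
    rcases Nat.eq_zero_or_pos n with h | h
    · subst h
      have : 0 < 1 / ε := by positivity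
      push_cast at hn
      linarith
    · exact h
  obtain ⟨p, hp0, hpn, hp⟩ := Real.exists_nat_abs_mul_sub_round_le α hn0
  obtain ⟨δ, hδ⟩ : ∃ δ : ℝ, δ = p * α - round (p * α) := ⟨_, rfl⟩
  have hδ0 : δ ≠ 0 := by
    intro h0
    rw [h0] at hδ
    have h1 : (p : ℝ) * α = round ((p : ℝ) * α) := by linarith
    have h2 : Irrational ((p : ℝ) * α) := hα.natCast_mul (by omega)
    exact h2 ⟨(round ((p : ℝ) * α) : ℤ), by rw [h1]; simp⟩
  have hδε : |δ| < ε := by
    rw [hδ]
    refine lt_of_le_of_lt hp ?_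
    have h1 : 0 < (n : ℝ) + 1 := by positivity
    rw [div_lt_iff₀ h1]
    have h2 : 1 < ε * n := by
      rw [div_lt_iff₀ hε] at hn
      linarith
    nlinarith
  have habs : 0 < |δ| := abs_pos.2 hδ0
  obtain ⟨S, hS⟩ := exists_nat_gt (1 / |δ| + 1)
  refine ⟨p * S, fun y => ?_⟩
  have hfr : ∀ i : ℕ, Int.fract (y + ((p * i : ℕ) : ℝ) * α) = Int.fract (Int.fract y + i * δ) := by
    intro i
    rw [Int.fract_eq_fract]
    refine ⟨⌊y⌋ + i * round ((p : ℝ) * α), ?_⟩
    rw [hδ]
    have := Int.self_sub_floor y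
    push_cast
    unfold Int.fract
    ring
  have hy0 := Int.fract_nonneg y
  have hy1 := Int.fract_lt_one y
  obtain ⟨z, hz⟩ : ∃ z, z = Int.fract y := ⟨_, rfl⟩
  rw [← hz] at hy0 hy1 hfr
  rcases lt_or_gt_of_ne hδ0 with h | h
  · -- downwards
    obtain ⟨i, hi⟩ : ∃ i, i = ⌊z / |δ|⌋₊ + 1 := ⟨_, rfl⟩
    have h1 : (i : ℝ) * |δ| ≤ z + |δ| := by
      rw [hi]
      push_cast
      have h2 := Nat.floor_le (a := z / |δ|) (by positivity)
      rw [le_div_iff₀ habs] at h2
      linarith
    have h2 : z < i * |δ| := by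
      rw [hi]
      push_cast
      have h2 := Nat.lt_floor_add_one (z / |δ|)
      rw [div_lt_iff₀ habs] at h2
      linarith
    refine ⟨p * i, ?_, ?_⟩
    · apply Nat.mul_le_mul_left
      have h3 : (i : ℝ) < S := by
        have h4 : (i : ℝ) ≤ 1 / |δ| + 1 := by
          have h5 : (i : ℝ) * |δ| ≤ 1 + |δ| := by linarith
          have h6 : (i : ℝ) ≤ (1 + |δ|) / |δ| := by
            rw [le_div_iff₀ habs]
            exact h5
          rw [add_div, div_self habs.ne'] at h6
          exact h6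
        linarith
      have h4 : i < S := by exact_mod_cast h3
      exact h4.le
    · rw [hfr i]
      have h3 : δ = -|δ| := by rw [abs_of_neg h, neg_neg]
      have h4 : Int.fract (z + i * δ) = z + i * δ + 1 := by
        rw [Int.fract_eq_iff]
        refine ⟨?_, ?_, -1, by push_cast; ring⟩
        · rw [h3]
          have : |δ| ≤ 1 := by
            by_contra hcon
            push Not at hcon
            have h6 : |δ| ≤ 1 / 2 := by rw [hδ]; exact abs_sub_round _
            linarith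
          linarith
        · rw [h3]
          linarith
      rw [h4, h3]
      linarith
  · -- upwards
    obtain ⟨i, hi⟩ : ∃ i, i = ⌈(1 - z) / |δ|⌉₊ - 1 := ⟨_, rfl⟩
    have hc0 : 0 < ⌈(1 - z) / |δ|⌉₊ := by
      rw [Nat.ceil_pos]
      apply div_pos _ habs
      linarith
    have hi1 : ((i : ℝ) + 1) = ⌈(1 - z) / |δ|⌉₊ := by
      have : i + 1 = ⌈(1 - z) / |δ|⌉₊ := by omega
      exact_mod_cast this
    have h1 : 1 - z ≤ (i + 1) * |δ| := by
      have h2 := Nat.le_ceil ((1 - z) / |δ|)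
      rw [← hi1, div_le_iff₀ habs] at h2
      exact h2
    have h2 : i * |δ| < 1 - z := by
      have h2 := Nat.ceil_lt_add_one (a := (1 - z) / |δ|) (by
        apply div_nonneg _ habs.le
        linarith)
      rw [← hi1] at h2
      have h3 : (i : ℝ) < (1 - z) / |δ| := by linarith
      rw [lt_div_iff₀ habs] at h3
      exact h3
    refine ⟨p * i, ?_, ?_⟩
    · apply Nat.mul_le_mul_left
      have h3 : (i : ℝ) < S := by
        have h4 : (i : ℝ) ≤ 1 / |δ| := by
          rw [le_div_iff₀ habs]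
          linarith
        linarith
      have h4 : i < S := by exact_mod_cast h3
      exact h4.le
    · rw [hfr i]
      have h3 : |δ| = δ := abs_of_pos h
      rw [h3] at h1 h2 hδε
      have h4 : Int.fract (z + i * δ) = z + i * δ := by
        rw [Int.fract_eq_self]
        constructor
        · have : (0 : ℝ) ≤ i * δ := by positivity
          linarith
        · linarith
      rw [h4]
      linarith

end Pool.Agent.U11
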