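import Pool.Agent.U11.Num
import Pool.Agent.U11.Mom

/-! The apex of the block. -/

set_option autoImplicit false

namespace Pool.Agent.U11

open Finset Polynomial Filter Topology
open Pool.Agent.TH864.SX (Slp Blk)
open Pool.Agent.N388.EFW (ee NN FF mem_FF FF_zero F1 mem_F1 F1_pos inj_col)
open Pool.Agent.N388.EF (t_SPAN t_PEEL)
open Pool.Agent.U11.Core (shear Sys)

/-- the relations -/
def Ann (K : ℝ) (m x j : ℕ) (b : ℕ × ℕ → ℚ) : Prop :=
  ∀ n, ∀ κ < NN K m x j n, ∑ q ∈ FF K m x, b q * (((q.1 + n).choose κ : ℕ) : ℚ) *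
      ((q.2.choose n : ℕ) : ℚ) = 0

variable {M : ℕ} {K : ℝ} {m x j : ℕ}

/-- the polynomial of the middle columns -/
noncomputable def DD (k n : ℕ) : ℝ[X] := ∏ τ ∈ Icc (k + 1) n, (X - C (τ : ℝ))

theorem DD_deg (k n : ℕ) : (DD k n).natDegree = n - k := by
  unfold DD
  rw [natDegree_prod_of_monic _ _ fun a _ => monic_X_sub_C _]
  simp only [natDegree_X_sub_C]
  rw [sum_const, smul_eq_mul, mul_one, Nat.card_Icc]
  omega

theorem DD_zero {k n τ : ℕ} (h1 : k < τ) (h2 : τ ≤ n) : (DD k n).eval (τ : ℝ) = 0 := by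
  unfold DD
  rw [eval_prod]
  apply prod_eq_zero (mem_Icc.2 ⟨h1, h2⟩)
  simp

theorem DD_ne (k n : ℕ) : (DD k n).eval 0 ≠ 0 := by
  unfold DD
  rw [eval_prod, prod_ne_zero_iff]
  intro τ hτ
  rw [mem_Icc] at hτ
  simp only [eval_sub, eval_X, eval_C]
  have : (τ : ℝ) ≠ 0 := by
    have : τ ≠ 0 := by omega
    exact_mod_cast this
  simpa using this

/-- the normalized weights -/
noncomputable def bw (x : ℕ) (D : ℝ[X]) (b : ℕ × ℕ → ℚ) (q : ℕ × ℕ) : ℝ :=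
  (b q : ℝ) * D.eval (q.1 : ℝ) / ((b (0, x) : ℝ) * D.eval 0)

/-- the moments of the left columns -/
noncomputable def XX (K : ℝ) (m x : ℕ) (D : ℝ[X]) (b : ℕ × ℕ → ℚ) (t c : ℕ) : ℝ :=
  ∑ q ∈ (FF K m x).filter (fun q => q.1 = t), bw x D b q * ((x : ℝ) - q.1 - q.2) ^ c

/-- the moments of the right columns -/
noncomputable def YY (K : ℝ) (m x : ℕ) (D : ℝ[X]) (b : ℕ × ℕ → ℚ) (s c : ℕ) : ℝ :=
  ∑ q ∈ (FF K m x).filter (fun q => q.1 + s = m), bw x D b q * ((s : ℝ) - q.2) ^ c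

namespace Dt

theorem rel0 (h : Dt M K m x j) {b : ℕ × ℕ → ℚ} (hb : Ann K m x j b) {c a : ℕ}
    (ha : a < NN K m x j c) :
    ∑ q ∈ FF K m x, (b q : ℝ) * (q.1 : ℝ) ^ a * ((x : ℝ) - q.1 - q.2) ^ c = 0 := by
  have h1 := t_SPAN (FF K m x) b (x : ℚ) (NN K m x j) h.NN_anti hb c (X ^ a) (X ^ c)
    (by rw [degree_X_pow]; exact_mod_cast ha) (by rw [natDegree_X_pow])
  have h2 := congrArg (fun z : ℚ => (z : ℝ)) h1
  simp only [eval_pow, eval_X] at h2
  push_cast at h2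
  exact h2

theorem rel1 (h : Dt M K m x j) {b : ℕ × ℕ → ℚ} (hb : Ann K m x j b) {c : ℕ} {Q : ℝ[X]}
    (hQ : Q.natDegree < NN K m x j c) :
    ∑ q ∈ FF K m x, (b q : ℝ) * Q.eval (q.1 : ℝ) * ((x : ℝ) - q.1 - q.2) ^ c = 0 := by
  have h1 : ∀ q ∈ FF K m x, (b q : ℝ) * Q.eval (q.1 : ℝ) * ((x : ℝ) - q.1 - q.2) ^ c =
      ∑ a ∈ range (NN K m x j c), Q.coeff a *
        ((b q : ℝ) * (q.1 : ℝ) ^ a * ((x : ℝ) - q.1 - q.2) ^ c) := by
    intro q _
    rw [eval_eq_sum_range' hQ, mul_sum, sum_mul]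
    apply sum_congr rfl
    intro a _
    ring
  rw [sum_congr rfl h1, sum_comm]
  apply sum_eq_zero
  intro a ha
  rw [mem_range] at ha
  rw [← mul_sum, h.rel0 hb ha, mul_zero]

theorem rel2 (h : Dt M K m x j) {b : ℕ × ℕ → ℚ} (hb : Ann K m x j b) {c : ℕ} {P : ℝ[X]}
    (hP : P.natDegree < NN K m x j c) (θ : ℝ) :
    ∑ q ∈ FF K m x, (b q : ℝ) * P.eval (q.1 : ℝ) *
      ((x : ℝ) - q.1 - q.2 - θ * q.1) ^ c = 0 := by
  have hN0 : 0 < NN K m x j c := by omega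
  have h1 : ∀ q ∈ FF K m x, (b q : ℝ) * P.eval (q.1 : ℝ) *
      ((x : ℝ) - q.1 - q.2 - θ * q.1) ^ c =
      ∑ i ∈ range (c + 1), (b q : ℝ) * (P * (C (-θ) * X) ^ (c - i) *
        C ((c.choose i : ℕ) : ℝ)).eval (q.1 : ℝ) * ((x : ℝ) - q.1 - q.2) ^ i := by
    intro q _
    rw [sub_eq_add_neg _ (θ * _), add_pow, mul_sum]
    apply sum_congr rfl
    intro i _
    simp only [eval_mul, eval_pow, eval_C, eval_X]
    ring
  rw [sum_congr rfl h1, sum_comm]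
  apply sum_eq_zero
  intro i hi
  rw [mem_range] at hi
  apply h.rel1 hb
  have h2 := N388.EF.SPAN.two (NN K m x j) h.NN_anti c hN0 (c - i) (by omega)
  have h3 : c - (c - i) = i := by omega
  rw [h3] at h2
  have h4 : (P * (C (-θ) * X) ^ (c - i) * C ((c.choose i : ℕ) : ℝ)).natDegree ≤
      P.natDegree + (c - i) := by
    refine natDegree_mul_le.trans ?_
    rw [natDegree_C, add_zero]
    refine natDegree_mul_le.trans (Nat.add_le_add_left ?_ _)
    refine natDegree_pow_le.trans ?_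
    have h6 : (C (-θ) * (X : ℝ[X])).natDegree ≤ 1 := (natDegree_C_mul_le _ _).trans natDegree_X_le
    calc (c - i) * (C (-θ) * (X : ℝ[X])).natDegree ≤ (c - i) * 1 := Nat.mul_le_mul_left _ h6
      _ = c - i := mul_one _
  omega

/-- the equation of the moments -/
theorem mom_eq (h : Dt M K m x j) {b : ℕ × ℕ → ℚ} (hb : Ann K m x j b) {k ρ : ℕ}
    (hkρ : k + ρ ≤ m) {c : ℕ} {p : ℝ[X]} (hp : (DD k (m - ρ) * p).natDegree < NN K m x j c) :
    ∑ t ∈ range (k + 1), p.eval (t : ℝ) * shear (XX K m x (DD k (m - ρ)) b t)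
        (-(((x : ℝ) - m) / m * t)) c +
      ∑ s ∈ range ρ, p.eval ((m : ℝ) - s) * shear (YY K m x (DD k (m - ρ)) b s)
        (((x : ℝ) - m) / m * s) c = 0 := by
  obtain ⟨D, hD⟩ : ∃ D, D = DD k (m - ρ) := ⟨_, rfl⟩
  rw [← hD] at hp ⊢
  obtain ⟨θ, hθ⟩ : ∃ θ : ℝ, θ = ((x : ℝ) - m) / m := ⟨_, rfl⟩
  rw [← hθ]
  have hm0 : (m : ℝ) ≠ 0 := by
    have := h.m0
    positivity
  have hθm : θ * m = (x : ℝ) - m := by rw [hθ]; field_simp
  have h1 := h.rel2 hb hp θ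
  have h2 : ∑ q ∈ FF K m x, bw x D b q * p.eval (q.1 : ℝ) *
      ((x : ℝ) - q.1 - q.2 - θ * q.1) ^ c = 0 := by
    have h3 : ∀ q ∈ FF K m x, bw x D b q * p.eval (q.1 : ℝ) *
        ((x : ℝ) - q.1 - q.2 - θ * q.1) ^ c = ((b (0, x) : ℝ) * D.eval 0)⁻¹ *
        ((b q : ℝ) * (D * p).eval (q.1 : ℝ) * ((x : ℝ) - q.1 - q.2 - θ * q.1) ^ c) := by
      intro q _
      unfold bw
      rw [eval_mul, div_eq_mul_inv]
      ring
    rw [sum_congr rfl h3, ← mul_sum, h1, mul_zero]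
  rw [split (FF K m x) m k ρ hkρ (fun q hq => by rw [mem_FF] at hq; exact hq.1.1) _ (by
    intro q hq h3 h4
    unfold bw
    rw [hD, DD_zero h3 (by omega)]
    simp)] at h2
  rw [← h2]
  congr 1
  · apply sum_congr rfl
    intro t _
    have h3 : shear (XX K m x D b t) (-(θ * t)) c =
        ∑ q ∈ (FF K m x).filter (fun q => q.1 = t), bw x D b q *
          ((x : ℝ) - q.1 - q.2 + -(θ * t)) ^ c :=
      shear_sum _ _ _ _ _
    rw [h3, mul_sum]
    apply sum_congr rfl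
    intro q hq
    rw [mem_filter] at hq
    rw [← hq.2]
    ring
  · apply sum_congr rfl
    intro s _
    have h3 : shear (YY K m x D b s) (θ * s) c =
        ∑ q ∈ (FF K m x).filter (fun q => q.1 + s = m), bw x D b q *
          ((s : ℝ) - q.2 + θ * s) ^ c :=
      shear_sum _ _ _ _ _
    rw [h3, mul_sum]
    apply sum_congr rfl
    intro q hq
    rw [mem_filter] at hq
    have h4 : (q.1 : ℝ) = (m : ℝ) - s := by
      have : (q.1 : ℝ) + s = m := by exact_mod_cast hq.2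
      linarith
    rw [h4]
    have h5 : (s : ℝ) - q.2 + θ * s = (x : ℝ) - ((m : ℝ) - s) - q.2 - θ * ((m : ℝ) - s) := by
      linear_combination hθm
    rw [h5]
    ring

theorem XX_zero (h : Dt M K m x j) {b : ℕ × ℕ → ℚ} (hb0 : b (0, x) ≠ 0) (k n c : ℕ) :
    XX K m x (DD k n) b 0 c = 0 ^ c := by
  classical
  unfold XX
  have hin : ((0, x) : ℕ × ℕ) ∈ FF K m x := by
    apply h.mem_FF_of <;> simp
  have h1 : (FF K m x).filter (fun q => q.1 = 0) = {(0, x)} := by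
    ext ⟨t, l⟩
    rw [mem_filter, mem_singleton]
    constructor
    · rintro ⟨h2, h3⟩
      simp only at h3
      subst h3
      rw [FF_zero h2]
    · rintro h2
      rw [h2]
      exact ⟨hin, rfl⟩
  rw [h1, sum_singleton]
  unfold bw
  have h2 : (b (0, x) : ℝ) ≠ 0 := by exact_mod_cast hb0
  have h3 := DD_ne k n
  simp only [Nat.cast_zero, sub_zero, sub_self]
  rw [div_self (mul_ne_zero h2 h3), one_mul]

end Dt

/-- the left columns -/
theorem left_ann (hsl : Slp M 2 K) {t c : ℕ} (ht : 1 ≤ t) (htc : t ≤ c) :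
    ∃ P : ℝ[X], P.Monic ∧ P.natDegree = c ∧ P.eval (t : ℝ) = 0 ∧
      ∀ (m x j : ℕ), Dt M K m x j → ∀ (D : ℝ[X]) (b : ℕ × ℕ → ℚ),
        ∑ a ∈ range (c + 1), P.coeff a * XX K m x D b t a = 0 := by
  obtain ⟨P, hP1, hP2, hP3⟩ := col_ann (Finset.Icc ⌈(t : ℝ) / K⌉₊ ⌊(t : ℝ) + t / K⌋₊)
    (fun J : ℕ => (J : ℝ)) c (by
      have hK := hsl.K0
      have htR : (0 : ℝ) < t := by exact_mod_cast ht
      have ht0 : (0 : ℝ) ≤ t / K := by positivity
      rw [Nat.card_Icc]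
      have h1 : ⌊(t : ℝ) + t / K⌋₊ = ⌊(t : ℝ) / K⌋₊ + t := by
        rw [add_comm, Nat.floor_add_natCast ht0]
      rw [h1]
      have h2 : ⌊(t : ℝ) / K⌋₊ < ⌈(t : ℝ) / K⌉₊ := by
        rw [Nat.floor_lt ht0]
        refine lt_of_le_of_ne (Nat.le_ceil _) ?_
        intro h3
        rw [div_eq_iff hK.ne'] at h3
        have h4 : ((⌈(t : ℝ) / K⌉₊ : ℕ) : ℝ) ≠ 0 := by
          intro h5
          rw [h5, zero_mul] at h3
          exact htR.ne' h3
        apply hsl.irr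
        refine ⟨(t : ℚ) / ((⌈(t : ℝ) / K⌉₊ : ℕ) : ℚ), ?_⟩
        push_cast
        rw [div_eq_iff h4, mul_comm]
        exact h3
      omega)
  refine ⟨P, hP1, hP2, ?_, ?_⟩
  · apply hP3 t
    have hK : 1 < K := by
      have h1 : (1 : ℝ) ≤ M := by exact_mod_cast hsl.hM
      linarith [hsl.hMK]
    have hK0 := hsl.K0
    have ht0 : (0 : ℝ) ≤ t / K := by positivity
    have ht : (0 : ℝ) ≤ t := Nat.cast_nonneg t
    rw [Finset.mem_Icc]
    constructor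
    · apply Nat.ceil_le.2
      rw [div_le_iff₀ hK0]
      nlinarith
    · apply Nat.le_floor
      linarith
  · intro m x j hD D b
    unfold XX
    apply mom_rel _ _ _ hP2
    rintro ⟨t', l⟩ hq
    rw [mem_filter] at hq
    obtain ⟨hq1, hq2⟩ := hq
    simp only at hq2
    subst hq2
    obtain ⟨J, hJ1, hJ2⟩ := hD.FF_left hq1
    simp only
    rw [hJ2]
    exact hP3 J hJ1

/-- the right columns -/
theorem right_ann {s c r : ℕ} (hs : s + 1 + r ≤ c) :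
    ∃ P : ℝ[X], P.Monic ∧ P.natDegree = c ∧
      ∀ (m x j : ℕ), Dt M K m x j → nn K m x j s = r → ∀ (D : ℝ[X]) (b : ℕ × ℕ → ℚ),
        ∑ a ∈ range (c + 1), P.coeff a * YY K m x D b s a = 0 := by
  obtain ⟨P, hP1, hP2, hP3⟩ := col_ann (Finset.range (s + 1 + r)) (fun l : ℕ => (s : ℝ) - l) c (by
    rw [card_range]
    exact hs)
  refine ⟨P, hP1, hP2, ?_⟩
  intro m x j hD hr D b
  unfold YY
  apply mom_rel _ _ _ hP2
  rintro ⟨t', l⟩ hq
  rw [mem_filter] at hq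
  obtain ⟨hq1, hq2⟩ := hq
  simp only at hq2
  have h1 := hD.FF_right hq2 hq1
  apply hP3 l
  rw [mem_range]
  omega

end Pool.Agent.U11
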