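import Pool.Agent.U11.Apex

/-! The apex of the block, II. -/

set_option autoImplicit false

namespace Pool.Agent.U11

open Finset Polynomial Filter Topology
open Pool.Agent.TH864.SX (Slp Blk)
open Pool.Agent.N388.EFW (ee NN FF mem_FF FF_zero F1 mem_F1 F1_pos inj_col)
open Pool.Agent.N388.EF (t_SPAN t_PEEL)
open Pool.Agent.U11.Core (shear Sys)

variable {M : ℕ} {K : ℝ}

theorem Dt.nn_bdd {m x j : ℕ} (h : Dt M K m x j) (s : ℕ) : nn K m x j s ≤ s + 2 := by
  unfold nn
  apply Nat.floor_le_of_le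
  have hK := h.K0
  have hK1 := h.K1
  rw [div_le_iff₀ hK]
  have h1 := h.ej
  have hs : (0 : ℝ) ≤ s := Nat.cast_nonneg s
  push_cast
  nlinarith

/-- **the apex** -/
theorem apex (hsl : Slp M 2 K) (j : ℕ) {ε : ℝ} (hε : 0 < ε) : ∃ m₀ : ℕ, ∀ m x : ℕ, m₀ ≤ m →
    Dt M K m x j → ee K m x j * (2 * K + 2) + j ≤ (1 - ε) * (K + 1) →
    ∀ b : ℕ × ℕ → ℚ, Ann K m x j b → b (0, x) = 0 := by
  by_contra hcon
  push Not at hcon
  choose m x hm hD hE b hA hB using hcon
  have hK0 : 0 < K := hsl.K0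
  have hK1 : 1 < K := (hD 0).K1
  have hirr : Irrational (1 / (K + 1)) := by
    rw [one_div]
    have h1 : Irrational (K + 1) := by
      have := hsl.irr.add_natCast 1
      simpa using this
    exact h1.inv
  obtain ⟨N, hN⟩ := rot hirr hε
  have hk : ∀ n, ∃ k ≤ N, 1 - ε < Int.fract ((ee K (m n) (x n) j + j) / (K + 1) +
      (k : ℕ) * (1 / (K + 1))) := fun n => hN _
  choose k hkN hk using hk
  -- the slack
  have hsl' : ∀ n, ee K (m n) (x n) j * (2 * K + 2) + j <
      ee K (m n) (x n) j + j + k n - (K + 1) * qq K (m n) (x n) j (k n) := by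
    intro n
    have h1 := hk n
    have hp : 0 < K + 1 := by linarith
    have e1 : (ee K (m n) (x n) j + j) / (K + 1) + (k n : ℕ) * (1 / (K + 1)) =
        (ee K (m n) (x n) j + j + k n) / (K + 1) := by ring
    rw [e1] at h1
    have h2 : (⌊(ee K (m n) (x n) j + j + k n) / (K + 1)⌋ : ℝ) = qq K (m n) (x n) j (k n) := by
      unfold qq
      rw [← Int.natCast_floor_eq_floor ((hD n).qpos (k n))]
      simp
    unfold Int.fract at h1
    rw [h2] at h1
    have h3 := mul_lt_mul_of_pos_right h1 hp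
    rw [sub_mul ((ee K (m n) (x n) j + j + k n) / (K + 1)), div_mul_cancel₀ _ hp.ne'] at h3
    have h4 := hE n
    linarith
  obtain ⟨𝒰, h𝒰⟩ : ∃ 𝒰 : Ultrafilter ℕ, (𝒰 : Filter ℕ) ≤ atTop :=
    ⟨hyperfilter ℕ, Nat.hyperfilter_le_atTop⟩
  obtain ⟨k', hk'⟩ := const_of_bdd 𝒰 k N hkN
  have hq : ∀ c, ∃ a, ∀ᶠ n in (𝒰 : Filter ℕ), qq K (m n) (x n) j c = a := fun c =>
    const_of_bdd 𝒰 _ c (fun n => (hD n).qq_le c)
  choose q hq using hq
  have hr : ∀ s, ∃ a, ∀ᶠ n in (𝒰 : Filter ℕ), nn K (m n) (x n) j s = a := fun s =>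
    const_of_bdd 𝒰 _ (s + 2) (fun n => (hD n).nn_bdd s)
  choose r hr using hr
  have hG : ∀ᶠ n in (𝒰 : Filter ℕ), k n = k' ∧ (∀ c ∈ range (k' + 1), qq K (m n) (x n) j c = q c) ∧
      (∀ s ∈ range (k' + 1), nn K (m n) (x n) j s = r s) ∧ 2 * k' ≤ m n := by
    have h1 : ∀ᶠ n in (𝒰 : Filter ℕ), ∀ c ∈ range (k' + 1), qq K (m n) (x n) j c = q c :=
      (Filter.eventually_all_finset _).2 fun c _ => hq c
    have h2 : ∀ᶠ n in (𝒰 : Filter ℕ), ∀ s ∈ range (k' + 1), nn K (m n) (x n) j s = r s :=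
      (Filter.eventually_all_finset _).2 fun s _ => hr s
    have h3 : ∀ᶠ n in (𝒰 : Filter ℕ), 2 * k' ≤ m n := by
      apply h𝒰
      filter_upwards [eventually_ge_atTop (2 * k')] with n hn
      exact hn.trans (hm n)
    filter_upwards [hk', h1, h2, h3] with n g1 g2 g3 g4
    exact ⟨g1, g2, g3, g4⟩
  obtain ⟨G, hGd⟩ : ∃ G : Set ℕ, G = {n | k n = k' ∧
      (∀ c ∈ range (k' + 1), qq K (m n) (x n) j c = q c) ∧
      (∀ s ∈ range (k' + 1), nn K (m n) (x n) j s = r s) ∧ 2 * k' ≤ m n} := ⟨_, rfl⟩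
  have hGm : G ∈ (𝒰 : Filter ℕ) := by rw [hGd]; exact hG
  obtain ⟨l, hl⟩ : ∃ l : Filter G, l = comap ((↑) : G → ℕ) (𝒰 : Filter ℕ) := ⟨_, rfl⟩
  have hne : l.NeBot := by
    rw [hl]
    exact comap_coe_neBot_of_le_principal (le_principal_iff.2 hGm)
  have hto : Tendsto (fun i : G => (i : ℕ)) l atTop := by
    rw [hl]
    exact (tendsto_comap).mono_right h𝒰
  have hmt : Tendsto (fun i : G => (m i : ℝ)) l atTop := by
    refine tendsto_natCast_atTop_atTop.comp ?_
    exact tendsto_atTop_mono (fun i : G => hm i) hto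
  have hgood : ∀ i : G, k i = k' ∧ (∀ c ∈ range (k' + 1), qq K (m i) (x i) j c = q c) ∧
      (∀ s ∈ range (k' + 1), nn K (m i) (x i) j s = r s) ∧ 2 * k' ≤ m i := by
    have hsub : ∀ n ∈ G, k n = k' ∧ (∀ c ∈ range (k' + 1), qq K (m n) (x n) j c = q c) ∧
        (∀ s ∈ range (k' + 1), nn K (m n) (x n) j s = r s) ∧ 2 * k' ≤ m n := by
      intro n hn
      rw [hGd] at hn
      exact hn
    exact fun i => hsub i i.2
  obtain ⟨i₀⟩ := l.nonempty_of_neBot
  have hqi : ∀ i : G, ∀ c ≤ k', qq K (m i) (x i) j c = q c := fun i c hc =>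
    (hgood i).2.1 c (mem_range.2 (by omega))
  have hri : ∀ i : G, ∀ s ≤ k', nn K (m i) (x i) j s = r s := fun i s hs =>
    (hgood i).2.2.1 s (mem_range.2 (by omega))
  have hq0 : ∀ c ≤ k', q c ≤ c := fun c hc => by
    rw [← hqi i₀ c hc]
    exact (hD i₀).qq_le c
  have hqs : ∀ c ≤ k', c - q c ≤ k' - q k' := fun c hc => by
    rw [← hqi i₀ c hc, ← hqi i₀ k' le_rfl]
    exact (hD i₀).qq_step hc
  have hsys : Sys l k' q (fun i : G => (m i : ℝ)) (fun i : G => ((x i : ℝ) - m i) / m i) (1 / K)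
      (fun i => XX K (m i) (x i) (DD k' (m i - (k' - q k'))) (b i))
      (fun i => YY K (m i) (x i) (DD k' (m i - (k' - q k'))) (b i)) := by
    refine ⟨hq0, ?_, hqs, ?_, hmt, ?_, ?_, ?_, ?_, ?_, ?_, ?_⟩
    · intro c c' hcc hc'
      rw [← hqi i₀ c (by omega), ← hqi i₀ c' hc']
      exact (hD i₀).qq_mono hcc
    · intro i
      have := (hD i).m0
      exact_mod_cast this
    · -- the slope
      have h1 : Tendsto (fun i : G => (K + 1) / K * ((m i : ℝ))⁻¹) l (𝓝 0) := by
        have h2 := (tendsto_inv_atTop_zero.comp hmt).const_mul ((K + 1) / K)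
        rw [mul_zero] at h2
        exact h2
      have h2 : Tendsto (fun i : G => ((x i : ℝ) - m i) / m i - 1 / K) l (𝓝 0) := by
        refine squeeze_zero (fun i => ?_) (fun i => ?_) h1
        · have h3 := (hD i).YR
          have h4 : (0 : ℝ) < m i := by
            have := (hD i).m0
            exact_mod_cast this
          have h5 : ((x i : ℝ) - m i) / m i - 1 / K =
              (ee K (m i) (x i) j + j) / (K * m i) := by
            rw [div_sub_div _ _ h4.ne' hK0.ne', div_eq_div_iff (by positivity) (by positivity)]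
            linear_combination (K * (m i : ℝ)) * h3
          rw [h5]
          have h6 := (hD i).e0
          positivity
        · have h3 := (hD i).YR
          have h4 : (0 : ℝ) < m i := by
            have := (hD i).m0
            exact_mod_cast this
          have h5 : ((x i : ℝ) - m i) / m i - 1 / K =
              (ee K (m i) (x i) j + j) / K * ((m i : ℝ))⁻¹ := by
            field_simp
            linear_combination h3
          rw [h5]
          apply mul_le_mul_of_nonneg_right _ (by positivity)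
          apply div_le_div_of_nonneg_right _ hK0.le
          exact (hD i).ej.le
      have h3 := h2.add_const (1 / K)
      rw [zero_add] at h3
      refine h3.congr ?_
      intro i
      ring
    · intro i
      rw [(hD i).XX_zero (hB i)]
      simp
    · intro i c hc
      rw [(hD i).XX_zero (hB i), zero_pow (by omega)]
    · intro t c ht htc hck
      obtain ⟨P, hP1, hP2, hP3, hP4⟩ := left_ann hsl ht htc
      exact ⟨P, hP1, hP2, hP3, fun i => hP4 _ _ _ (hD i) _ _⟩
    · intro s c hs hck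
      have h1 : s + 1 + r s ≤ c := by
        rw [← hri i₀ s (by omega)]
        apply (hD i₀).nn_le
        rw [hqi i₀ c hck]
        exact hs
      obtain ⟨P, hP1, hP2, hP3⟩ := right_ann (M := M) (K := K) h1
      exact ⟨P, hP1, hP2, fun i => hP3 _ _ _ (hD i) (hri i s (by omega)) _ _⟩
    · intro i c hc p hp
      have h1 := (hgood i).2.2.2
      apply (hD i).mom_eq (hA i) (by omega)
      have h2 := (hD i).NN_ge c
      rw [hqi i c hc.le] at h2
      have h3 := hq0 c hc.le
      have h4 := hqs c hc.le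
      refine lt_of_le_of_lt natDegree_mul_le ?_
      rw [DD_deg]
      omega
    · intro i
      have h1 := (hgood i).2.2.2
      have h2 := (hD i).mom_eq (hA i) (k := k') (ρ := k' - q k') (c := k') (p := 1) (by omega) (by
        rw [mul_one, DD_deg]
        have h3 := hsl' i
        rw [(hgood i).1] at h3
        have h4 := (hD i).NN_gt h3 (by omega)
        rw [hqi i k' le_rfl] at h4
        have h5 := hq0 k' le_rfl
        omega)
      simpa using h2
  refine hsys.false ?_
  intro h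
  rw [div_eq_iff hK0.ne'] at h
  linarith

end Pool.Agent.U11
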