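import Mathlib
import Pool.Agent.U11.OneUni

set_option autoImplicit false

/-!
# The uniform Harbourne-Hirschowitz conjecture for 11 and for 15 points: every multiplicity, every
degree, up to one curve

Let `n = 11` or `n = 15` and let `m ≥ 1` be ANY multiplicity. For `n` general points of the complex
projective plane (one open set for all degrees) and EVERY degree `d` the space of the forms of degree
`d` vanishing to order `m` at the points has the expected dimension, or the expected dimension is zero
and the dimension is one (a single curve). In particular the dimension is the expected one in every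
degree with `(d + 1) (d + 2) / 2 > n m (m + 1) / 2`, and whenever there are two different curves.
The second case is only possible if `3` divides `d` and
`3 (√n - 3) / (√n + 3) ≤ d - √n m < (√n - 3) / 2`. The same is true for `n = 27` in the degrees
divisible by three.
-/

namespace Pool.Agent.Results.MP_d03834_ag.AtMostOneElevenFifteen

open MvPolynomial

/-- the forms of degree `d` which vanish to order at least `m` at all the points
`(P i 0 : P i 1 : 1)` -/
noncomputable def forms {n : ℕ} (m : ℕ) (P : Fin n → Fin 2 → ℂ) (d : ℕ) :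
    Submodule ℂ (MvPolynomial (Fin 3) ℂ) :=
  homogeneousSubmodule (Fin 3) ℂ d ⊓ Submodule.restrictScalars ℂ
    (⨅ i : Fin n, (Ideal.span ({X 0 - C (P i 0) * X 2, X 1 - C (P i 1) * X 2} :
      Set (MvPolynomial (Fin 3) ℂ))) ^ m)

/-- Let `n` be `11`, `15` or `27` and `m ≥ 1`. For all points outside one hypersurface of the space of all
configurations and every degree `d` (for `n = 27`: every `d` divisible by three) the space of the
forms of degree `d` with multiplicity at least `m` at the `n` points has the dimension
`max (0, C(d+2,2) - n C(m+1,2))`, or `3 ∣ d`, `C(d+2,2) ≤ n C(m+1,2)`,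
`3 (√n - 3) ≤ (√n + 3) (d - √n m)`, `2 d + 3 < √n (2 m + 1)` and the dimension is one. -/
theorem result (n : ℕ) (hn : n = 11 ∨ n = 15 ∨ n = 27) (m : ℕ) (hm : 1 ≤ m) :
    ∃ F : MvPolynomial (Fin n × Fin 2) ℂ, F ≠ 0 ∧
      ∀ P : Fin n → Fin 2 → ℂ, eval (fun ij : Fin n × Fin 2 => P ij.1 ij.2) F ≠ 0 →
      ∀ d : ℕ, (n = 27 → 3 ∣ d) →
        Module.finrank ℂ (forms m P d) = (d + 2).choose 2 - n * (m + 1).choose 2 ∨
        (3 ∣ d ∧ 3 * (√(n : ℝ) - 3) ≤ (√(n : ℝ) + 3) * (d - √(n : ℝ) * m) ∧
          2 * (d : ℝ) + 3 < √(n : ℝ) * (2 * m + 1) ∧ (d + 2).choose 2 ≤ n * (m + 1).choose 2 ∧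
          Module.finrank ℂ (forms m P d) = 1) := by
  obtain ⟨F, hF, hF'⟩ := U11.uniform_dims hn hm
  refine ⟨F.map (algebraMap ℚ ℂ), H932R3.map_ne_zero_of hF, fun P hP d hd => ?_⟩
  rw [MvPolynomial.eval_map] at hP
  exact hF' P hP d hd

end Pool.Agent.Results.MP_d03834_ag.AtMostOneElevenFifteen
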