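import Pool.Agent.U11.Lin
import Pool.Agent.TH2.NU.Anti

/-! Blocks of `M + 2` points with arbitrary multiplicities. -/

set_option autoImplicit false

namespace Pool.Agent.U11

open Finset Pool.Agent.TH176.Nag Pool.Agent.TH603.Sur Pool.Agent.TH603.Cut Pool.Agent.TH641.NW
  Pool.Agent.H932R3
open Pool.Agent.TH864.SX (Fb Fa Slp Blk)
open Pool.Agent.TH469.SX (Bo Fl mem_row Emp_slabs)
open Pool.Agent.TH759.EV (row_card_w sum_ge' Sur_rows_w Emp_apex_w)
open Pool.Agent.TH978.S13 (Sc KN slpN)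
open Pool.Agent.N135.QT (BB sM sM_sq KN_eq)
open Pool.Agent.N388.EFW (ee)

variable {ι : Type} [Fintype ι]

/-- emptiness of the block without the apex -/
theorem Emp_fl_w {w : ι → ℕ} {p q M : ℕ} {K A : ℝ} (hpq : p * q = 2) (hK0 : 0 < K)
    (hK : q * (K * (K - M)) = M) (hcard : Fintype.card ι = M + 2 * p)
    (hA : ((M : ℝ) + 2 * p) * (q * A - 1) < q * (K + p) * ((∑ i, w i : ℕ) : ℝ)) :
    Emp w (Fl q K A) := by
  refine Emp_slabs 1 (-(p : ℤ)) 1 0 (by ring) fun k B hB => ?_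
  have hmem : ∀ c ∈ B, (1 ≤ c ∧ (c : ℝ) ≤ A - (K + p) * k) ∨
      (c ≤ 0 ∧ (-c : ℝ) * (q * (K + p) - 1) ≤ A - (K + p) * k - (K + p)) := by
    intro c hc
    obtain ⟨s, T, hT, h1, h2⟩ := hB c hc
    simp only [one_mul, zero_mul, neg_mul, sub_neg_eq_add, zero_add] at h1 h2
    exact mem_row hpq hK0 hT h1 h2
  rcases B.eq_empty_or_nonempty with he | hne
  · rw [he]; simp
  have h5 := row_card_w (W := ((∑ i, w i : ℕ) : ℤ)) hpq hK0 hK (by exact_mod_cast hA) hne (k := k) hmem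
  have h6 := sum_ge' w hcard k
  push_cast at h5 h6
  have h7 : (B.card : ℤ) ≤ ((∑ i, (w i - k) : ℕ) : ℤ) := by
    push_cast
    linarith
  exact_mod_cast h7

omit [Fintype ι] in
/-- the open block -/
theorem Emp_bo {M q : ℕ} {K : ℝ} {d : ℕ} {w : ι → ℕ} (h : Slp M q K) (hE : Emp w (Fb q K d)) :
    Emp w (Bo M K d) := by
  have hM : (0 : ℝ) < M := by exact_mod_cast h.hM
  have hK := h.K0
  have hq : (0 : ℝ) < q := by exact_mod_cast h.hq
  refine Emp_flat (S' := Fb q K d) 1 0 1 0 (by norm_num) ?_ hE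
  rintro ⟨t, j⟩ T k ⟨g1, g2, g2b⟩ ⟨-, -, g3⟩ hk
  simp only at g1 g2 g3 g2b
  have e : ((1 * t + 0 * j, (k : ℤ)) : ℤ × ℤ) = (t, (k : ℤ)) := by simp
  simp only
  rw [e]
  have hkR : (k : ℝ) ≤ T := by exact_mod_cast hk
  have hk0 : (0 : ℝ) ≤ k := Nat.cast_nonneg k
  have hj0 : (0 : ℝ) ≤ j := by exact_mod_cast g1
  push_cast at g2 g3 g2b
  simp only [zero_mul, sub_zero, one_mul] at g2 g3 g2b
  have g2' := h.low.1 g2.le
  have g3' := h.up.1 g3.le
  -- `d / 3 - j ≤ q K t / M`, `q K t / M - q t ≤ d / 3 - (j + T)`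
  have hT : (T : ℝ) ≤ q * t := by linarith
  have hpos : 0 < (d : ℝ) / 3 - j := by
    by_contra hcon
    push Not at hcon
    have h1 : K * ((d : ℝ) / 3 - j) ≤ (K - M) * ((d : ℝ) / 3 - j) := by nlinarith
    linarith
  have ht1 : (0 : ℝ) < t := by
    have h1 : 0 < (K - M) * ((d : ℝ) / 3 - j) := mul_pos (by linarith [h.hMK]) hpos
    linarith
  have ht : 0 < t := by exact_mod_cast ht1
  refine ⟨by simp only; omega, by simp, ?_, ?_⟩
  · simp only
    have h5 : (k : ℝ) ≤ q * t := by linarith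
    have h6 : (k : ℤ) ≤ q * t := by exact_mod_cast h5
    rcases h6.lt_or_eq with h7 | h7
    · exact h7
    · exfalso
      have h8 : (k : ℝ) = q * t := by exact_mod_cast h7
      refine h.ne (d := d) (t := t) (z := j) (by omega) ?_
      linarith
  · simp only
    have h5 : (t : ℝ) ≤ K * ((d : ℝ) / 3 - (j + T)) := g3.le
    have h6 : K * (k : ℝ) ≤ K * (j + T) := mul_le_mul_of_nonneg_left (by linarith) hK.le
    push_cast
    linarith

/-- the linear condition in terms of the slope -/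
theorem lin_slope {M D : ℕ} {W : ℝ} (hM : 1 ≤ M)
    (h : sM M * (2 * D + 1) < (M : ℝ) + 2 + 2 * W) :
    ((M : ℝ) + 2) * (2 * (KN M * D) - 1) < 2 * (KN M + 1) * W := by
  rw [KN_eq]
  have hs1 := sM_sq M
  have hs2 := sM_ge M
  obtain ⟨s, hs⟩ : ∃ s, s = sM M := ⟨_, rfl⟩
  rw [← hs] at hs1 hs2 h ⊢
  have hMR : (1 : ℝ) ≤ M := by exact_mod_cast hM
  have hK : 0 < ((M : ℝ) + s) / 2 + 1 := by linarith
  have h1 := mul_lt_mul_of_pos_left h hK
  have key : ((M + s) / 2 + 1) * (s * (2 * D + 1)) = ((M : ℝ) + 2) * ((M + s) / 2 * (2 * D + 1)) := by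
    linear_combination ((2 * (D : ℝ) + 1) / 2) * hs1
  rw [key] at h1
  linarith

/-- **the block without the apex**, arbitrary multiplicities -/
theorem bo_lin {M D : ℕ} (hM : 1 ≤ M) {w : ι → ℕ} (hc : Fintype.card ι = M + 2)
    (h : sM M * (2 * D + 1) < (M : ℝ) + 2 + 2 * ((∑ i, w i : ℕ) : ℝ)) :
    Emp w (Sc (KN M - M) (KN M) D) := by
  obtain ⟨hS, hK1, hK2⟩ := slpN hM
  have hK0 := hS.K0
  have hKq : ((2 : ℕ) : ℝ) * (KN M * (KN M - M)) = M := hS.eq
  have h1 : Emp w (Fl 2 (KN M) (KN M * (3 * D : ℕ) / 3)) := by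
    refine Emp_fl_w (p := 1) (q := 2) (M := M) (by norm_num) hK0 hKq (by rw [hc]) ?_
    have h2 := lin_slope hM h
    push_cast
    push_cast at h2
    linarith
  have h3 := Emp_bo hS (d := 3 * D) h1
  refine h3.mono ?_
  rintro p ⟨g1, g2, g3⟩
  have hd : (((3 * D : ℕ) : ℝ)) / 3 = D := by push_cast; ring
  refine ⟨g1, ?_, ?_⟩
  · rw [hd]; exact g2
  · rw [hd]; exact g3

/-- the emptiness of the block, all excesses -/
theorem blkM {M : ℕ} (hM : 1 ≤ M) {ε : ℝ} (hε : 0 < ε) :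
    ∃ m₀ : ℕ, ∀ m x j : ℕ, m₀ ≤ m → 0 ≤ ee (KN M) m x j →
      ee (KN M) m x j * (2 * KN M + 2) + j ≤ (1 - ε) * (KN M + 1) → ∀ w : Fin (M + 2) → ℕ,
      (∀ i, m ≤ w i) → ∑ i, w i = (M + 2) * m + j → Emp w (Blk M (KN M) (3 * x)) := by
  obtain ⟨hS, hK1, hK2⟩ := slpN hM
  choose f hf using fun j : ℕ => blk_emp hS j hε
  refine ⟨∑ j ∈ range (M + 2), f j, fun m x j hm he hsla w hw hs => ?_⟩
  have hK0 := hS.K0
  have hj : j < M + 2 := by
    have h1 : (j : ℝ) < M + 2 := by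
      have h2 : 0 ≤ ee (KN M) m x j * (2 * KN M + 2) := mul_nonneg he (by linarith)
      have h3 : (1 - ε) * (KN M + 1) ≤ KN M + 1 := by nlinarith
      linarith
    exact_mod_cast h1
  have h1 : f j ≤ ∑ j ∈ range (M + 2), f j :=
    single_le_sum (f := f) (fun _ _ => Nat.zero_le _) (mem_range.2 hj)
  exact hf j m x (h1.trans hm) he hsla w hw hs

/-- **the block with the apex**, arbitrary multiplicities -/
theorem blk_lin {M : ℕ} (hM : 1 ≤ M) {ε : ℝ} (hε : 0 < ε) : ∃ D₀ : ℕ, ∀ (w : Fin (M + 2) → ℕ)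
    (D : ℕ), D₀ ≤ D → sM M * (2 * D + 1) + ε ≤ (M : ℝ) + 2 + 2 * ((∑ i, w i : ℕ) : ℝ) →
    Emp w (BB M D (KN M)) := by
  obtain ⟨m₀, hm₀⟩ := blkM hM (half_pos hε)
  obtain ⟨hS, hK1, hK2⟩ := slpN hM
  refine ⟨2 * (m₀ + 1), fun w D hD hX => ?_⟩
  have hK0 := hS.K0
  have hMR : (1 : ℝ) ≤ M := by exact_mod_cast hM
  have hKq : ((2 : ℕ) : ℝ) * (KN M * (KN M - M)) = M := hS.eq
  have hKn : KN M = (M + sM M) / 2 := KN_eq M
  have hs1 := sM_sq M
  have hs2 := sM_ge M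
  have hs3 := sM_lt' hM
  have hd : (((3 * D : ℕ) : ℝ)) / 3 = D := by push_cast; ring
  have toB : Emp w (Blk M (KN M) (3 * D)) → Emp w (BB M D (KN M)) := by
    intro hE
    refine hE.mono ?_
    rintro p ⟨g1, g2, g3⟩
    refine ⟨g1, ?_, ?_⟩
    · rw [hd]; exact g2
    · rw [hd]; exact g3
  obtain ⟨g, hg⟩ : ∃ g, g = ⌊KN M * (D : ℝ) / (KN M + 1)⌋₊ := ⟨_, rfl⟩
  have hK1p : 0 < KN M + 1 := by linarith
  have hg1 : (KN M + 1) * (g : ℝ) ≤ KN M * D := by
    have h1 := Nat.floor_le (show 0 ≤ KN M * (D : ℝ) / (KN M + 1) by positivity)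
    rw [← hg, le_div_iff₀ hK1p] at h1
    linarith
  have hg2 : KN M * (D : ℝ) < (KN M + 1) * (g + 1) := by
    have h1 := Nat.lt_floor_add_one (KN M * (D : ℝ) / (KN M + 1))
    rw [← hg, div_lt_iff₀ hK1p] at h1
    linarith
  obtain ⟨j, hj⟩ : ∃ j, j = ∑ i, (w i - g) := ⟨_, rfl⟩
  obtain ⟨j', hj'⟩ : ∃ j', j' = ∑ i, (g - w i) := ⟨_, rfl⟩
  have hsum : ∑ i, w i + j' = (M + 2) * g + j := by
    have h1 : ∑ i, (w i + (g - w i)) = ∑ i, (g + (w i - g)) := by
      apply sum_congr rfl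
      intro i _
      omega
    rw [sum_add_distrib, sum_add_distrib, ← hj, ← hj', sum_const, card_univ, Fintype.card_fin,
      smul_eq_mul] at h1
    exact h1
  rcases lt_or_ge (ee (KN M) g D j) 0 with h0 | h0
  · -- the apex is absorbed
    have hE : Emp w (Fl 2 (KN M) (KN M * D) ∪ {((0, 0) : ℤ × ℤ)}) := by
      refine Emp_apex_w (p := 1) (q := 2) (M := M) (by norm_num) hK0 hKq (by simp) (by positivity)
        ?_ ?_
      · have h2 := lin_slope (D := D) (W := ((∑ i, w i : ℕ) : ℝ)) hM (by linarith)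
        push_cast
        push_cast at h2
        linarith
      · intro g' h1 h2
        have hgg : g' = g := by
          push_cast at h1 h2
          have h3 : (g' : ℝ) < g + 1 := by
            have h5 : (KN M + 1) * (g' : ℝ) < (KN M + 1) * (g + 1) := by linarith
            exact lt_of_mul_lt_mul_left h5 hK1p.le
          have h4 : (g : ℝ) < g' + 1 := by
            have h5 : (KN M + 1) * (g : ℝ) < (KN M + 1) * (g' + 1) := by linarith
            exact lt_of_mul_lt_mul_left h5 hK1p.le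
          have h3' : g' < g + 1 := by exact_mod_cast h3
          have h4' : g < g' + 1 := by exact_mod_cast h4
          omega
        rw [hgg, ← hj]
        unfold ee at h0
        push_cast
        linarith
    apply toB
    refine Pool.Agent.TH864.SX.Emp_blk hS (d := 3 * D) (hE.mono ?_)
    have e : KN M * (D : ℝ) = KN M * (3 * D : ℕ) / 3 := by push_cast; ring
    rw [e]
    exact Pool.Agent.TH469.SX.Fa_sub 2 (KN M) (3 * D)
  -- the multiplicity is large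
  have hgm : m₀ ≤ g := by
    have h1 : ((2 * (m₀ + 1) : ℕ) : ℝ) ≤ D := by exact_mod_cast hD
    push_cast at h1
    have h2 : (m₀ : ℝ) < g + 1 := by
      by_contra hcon
      push Not at hcon
      have h3 : KN M * (2 * ((m₀ : ℝ) + 1)) ≤ KN M * D := mul_le_mul_of_nonneg_left h1 hK0.le
      have h4 : (KN M + 1) * ((g : ℝ) + 1) ≤ (KN M + 1) * m₀ := mul_le_mul_of_nonneg_left hcon hK1p.le
      have h5 : (0 : ℝ) ≤ m₀ := Nat.cast_nonneg _
      nlinarith
    have h3 : m₀ < g + 1 := by exact_mod_cast h2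
    omega
  have hsumR : ((∑ i, w i : ℕ) : ℝ) + j' = (M + 2) * g + j := by exact_mod_cast hsum
  -- the slack
  obtain ⟨s, hs⟩ : ∃ s, s = sM M := ⟨_, rfl⟩
  rw [← hs] at hs1 hs2 hs3 hX hKn
  have key : ((M : ℝ) + 2 - s) * ((KN M + 1) - (ee (KN M) g D j * (2 * KN M + 2) + j)) =
      (KN M + 1) * (((M : ℝ) + 2) * (2 * g + 1) + 2 * j - s * (2 * D + 1)) := by
    unfold ee
    rw [hKn]
    linear_combination ((M + s) / 2 * D - ((M + s) / 2 + 1) * g - j - 1 / 2 + (2 * D + 1) / 2) * hs1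
  have hX2 : ε + 2 * (j' : ℝ) ≤ ((M : ℝ) + 2) * (2 * g + 1) + 2 * j - s * (2 * D + 1) := by
    linarith
  have hX3 := mul_le_mul_of_nonneg_left hX2 hK1p.le
  rw [← key] at hX3
  obtain ⟨y, hy⟩ : ∃ y, y = (KN M + 1) - (ee (KN M) g D j * (2 * KN M + 2) + j) := ⟨_, rfl⟩
  rw [← hy] at hX3
  have hj0 : (0 : ℝ) ≤ j := Nat.cast_nonneg j
  have hj'0 : (0 : ℝ) ≤ j' := Nat.cast_nonneg j'
  have hyK : y ≤ KN M + 1 := by
    rw [hy]
    have : 0 ≤ ee (KN M) g D j * (2 * KN M + 2) := mul_nonneg h0 (by linarith)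
    linarith
  have hp2 : (M : ℝ) + 2 - s ≤ 2 := by linarith
  have hp0 : 0 < (M : ℝ) + 2 - s := by linarith
  have hy0 : 0 < y := by
    by_contra hcon
    push Not at hcon
    have h1 := mul_nonpos_of_nonneg_of_nonpos hp0.le hcon
    have h2 : 0 < (KN M + 1) * (ε + 2 * j') := mul_pos hK1p (by linarith)
    linarith
  have hy2 : ((M : ℝ) + 2 - s) * y ≤ 2 * y := mul_le_mul_of_nonneg_right hp2 hy0.le
  have hj'z : j' = 0 := by
    by_contra hne
    have h1 : (1 : ℝ) ≤ j' := by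
      have : 1 ≤ j' := Nat.one_le_iff_ne_zero.2 hne
      exact_mod_cast this
    have h2 : (KN M + 1) * (ε + 2) ≤ (KN M + 1) * (ε + 2 * j') :=
      mul_le_mul_of_nonneg_left (by linarith) hK1p.le
    have h3 : 0 < (KN M + 1) * ε := mul_pos hK1p hε
    linarith
  subst hj'z
  have hw : ∀ i, g ≤ w i := by
    intro i
    have h1 : ∑ i, (g - w i) = 0 := hj'.symm
    have h2 := (sum_eq_zero_iff.1 h1) i (mem_univ i)
    omega
  have hwsum : ∑ i, w i = (M + 2) * g + j := by omega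
  refine toB (hm₀ g D j hgm h0 ?_ w hw hwsum)
  push_cast at hX3
  have h4 : (KN M + 1) * (ε / 2) ≤ y := by linarith
  rw [hy] at h4
  linarith

/-- **the block without the apex**, independence -/
theorem sur_lin {M D : ℕ} (hM : 1 ≤ M) {w : ι → ℕ} (hc : Fintype.card ι = M + 2) {b : ℕ}
    (hb : ∀ i, w i ≤ b + 1)
    (h : (M : ℝ) + 2 + 2 * ((∑ i, max (w i) b : ℕ) : ℝ) ≤ sM M * (2 * D + 1)) :
    Sur w (Sc (KN M - M) (KN M) D) := by
  obtain ⟨hS, hK1, hK2⟩ := slpN hM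
  have hK0 := hS.K0
  have hMR : (1 : ℝ) ≤ M := by exact_mod_cast hM
  have hKq : ((2 : ℕ) : ℝ) * (KN M * (KN M - M)) = M := hS.eq
  have hK2' : 2 * (KN M * (KN M - M)) = M := by push_cast at hKq; exact hKq
  have hKn : KN M = (M + sM M) / 2 := KN_eq M
  have hs1 := sM_sq M
  have hs2 := sM_ge M
  have hs3 := sM_lt' hM
  have h2K : 0 < 2 * KN M + 1 := by linarith
  have hid : 2 * ((KN M + 1) * (KN M + 1)) = (M + 2) * (2 * KN M + 1) := by linear_combination hK2'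
  obtain ⟨v, hv⟩ : ∃ v : ι → ℕ, v = fun i => max (w i) b := ⟨_, rfl⟩
  have hvw : ∀ i, w i ≤ v i := fun i => by rw [hv]; exact le_max_left _ _
  have hvb : ∀ i, v i = b ∨ v i = b + 1 := fun i => by
    have := hb i
    rw [hv]
    simp only
    omega
  refine Pool.Agent.TH2.NU.Sur_anti hvw ?_
  obtain ⟨n1, hn1⟩ : ∃ n1, n1 = ∑ i, (v i - b) := ⟨_, rfl⟩
  have hSum : ∀ k : ℕ, k ≤ b → ∑ i, (v i - k) = (M + 2) * (b - k) + n1 := by
    intro k hk
    rw [hn1]
    have : (M + 2) * (b - k) = ∑ _i : ι, (b - k) := by simp [hc]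
    rw [this, ← sum_add_distrib]
    refine sum_congr rfl fun i _ => ?_
    rcases hvb i with h | h <;> omega
  have hW : ∑ i, v i = (M + 2) * b + n1 := by
    have := hSum 0 (Nat.zero_le _)
    simpa using this
  have hWR : ((∑ i, max (w i) b : ℕ) : ℝ) = (M + 2) * b + n1 := by
    have h1 : ∑ i, max (w i) b = (M + 2) * b + n1 := by rw [← hW, hv]
    exact_mod_cast h1
  obtain ⟨e, he⟩ : ∃ e : ℝ, e = KN M * D - (KN M + 1) * b := ⟨_, rfl⟩
  have hcond : n1 * (2 * KN M + 1) ≤ (2 * e - 1) * (KN M + 1) := by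
    rw [hWR] at h
    obtain ⟨s, hs⟩ : ∃ s, s = sM M := ⟨_, rfl⟩
    rw [← hs] at hs1 hs2 hs3 h hKn
    have key : ((M : ℝ) + 2 - s) * ((2 * e - 1) * (KN M + 1) - n1 * (2 * KN M + 1)) =
        (KN M + 1) * (s * (2 * D + 1) - (((M : ℝ) + 2) * (2 * b + 1) + 2 * n1)) := by
      rw [he, hKn]
      linear_combination (1 / 2 - (D : ℝ) * (M + s) / 2 + b * ((M + s) / 2 + 1) + n1 -
        (2 * D + 1) / 2) * hs1
    have h1 : 0 ≤ (KN M + 1) * (s * (2 * D + 1) - (((M : ℝ) + 2) * (2 * b + 1) + 2 * n1)) :=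
      mul_nonneg (by linarith) (by linarith)
    rw [← key] at h1
    have h2 := nonneg_of_mul_nonneg_right h1 (by linarith)
    linarith
  have hsur : Sur v (Fl 2 (KN M) (KN M * D)) := by
    refine Sur_rows_w (p := 1) (q := 2) (by norm_num) hK0 fun k hk => ?_
    have hkm : k ≤ b := by
      obtain ⟨i, hi⟩ := hk
      rcases hvb i with h | h <;> omega
    rw [hSum k hkm]
    obtain ⟨Y, hY⟩ : ∃ Y : ℝ, Y = KN M * D - (KN M + (1 : ℕ)) * k := ⟨_, rfl⟩
    obtain ⟨U, hU⟩ : ∃ U : ℤ, U = ⌊(Y - (KN M + (1 : ℕ))) / (((2 : ℕ) : ℝ) * (KN M + (1 : ℕ)) - 1)⌋ :=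
      ⟨_, rfl⟩
    rw [← hY, ← hU]
    have e1 : ((2 : ℕ) : ℝ) * (KN M + (1 : ℕ)) - 1 = 2 * KN M + 1 := by push_cast; ring
    rw [e1] at hU
    have h2 := Int.lt_floor_add_one ((Y - (KN M + (1 : ℕ))) / (2 * KN M + 1))
    rw [← hU, div_lt_iff₀ h2K] at h2
    have h3 := Int.lt_floor_add_one Y
    have h4 := mul_lt_mul_of_pos_right h3 h2K
    have h5 : Y * (2 * KN M + 2) = (M + 2) * (b - k) * (2 * KN M + 1) + 2 * e * (KN M + 1) := by
      rw [hY, he]
      push_cast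
      linear_combination ((b : ℝ) - k) * hid
    have h6 : ((((M + 2) * (b - k) + n1 : ℕ) : ℤ) : ℝ) < ((⌊Y⌋ + U + 2 : ℤ) : ℝ) := by
      push_cast [Nat.cast_sub hkm]
      have h7 : ((M + 2) * ((b : ℝ) - k) + n1) * (2 * KN M + 1) <
          ((⌊Y⌋ : ℝ) + U + 2) * (2 * KN M + 1) := by
        push_cast at h2
        linarith
      exact lt_of_mul_lt_mul_right h7 h2K.le
    have h7 := Int.cast_lt.1 h6
    omega
  have e : KN M * (D : ℝ) = KN M * (3 * D : ℕ) / 3 := by push_cast; ring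
  rw [e] at hsur
  have h1 := Pool.Agent.TH469.SX.Sur_bo hS (d := 3 * D) hsur
  refine h1.mono ?_
  rintro p ⟨g1, g2, g3⟩
  have hd : (((3 * D : ℕ) : ℝ)) / 3 = D := by push_cast; ring
  rw [hd] at g2 g3
  exact ⟨g1, g2, g3⟩

end Pool.Agent.U11
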