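import Pool.Agent.U11.Apex2
import Pool.Agent.N388.EFW.Block

/-! The emptiness of the block with `M + 2` points of multiplicities at least `m`, every system of
negative slack, from the vanishing at the apex. -/

set_option autoImplicit false

namespace Pool.Agent.U11

open Finset Polynomial Pool.Agent.TH176.Nag
open Pool.Agent.TH864.SX (Slp Blk)
open Pool.Agent.N388.EF (t_PSI t_SPAN t_PEEL)
open Pool.Agent.N388.EFW (ee NN FF mem_FF FF_zero F1 mem_F1 F1_pos inj_col SS mem_SS cc cc_in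
  cc_out AA rel_iff tri AA_ne colP colP_coeff sum_cut)

variable {M : ℕ} {K : ℝ} {m x j : ℕ}

namespace Dt

/-- the relations of positive index -/
theorem pos_rel (h : Dt M K m x j) (c : ℕ × ℕ → ℚ)
    (hc : ∀ κ ≤ m, ∀ D : ℤ, 1 ≤ D → N388.EF.Rel (SS M K x) c κ D) {t s : ℕ} (hst : s < t) :
    AA M K x c t s = 0 := by
  obtain ⟨D, rfl⟩ : ∃ D, t = D + s := ⟨t - s, by omega⟩
  have hD : 1 ≤ D := by omega
  have hzero : ∀ s, m < s → AA M K x c (D + s) s = 0 := by
    intro s hs
    by_contra h1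
    have h2 := (AA_ne h.K0 h1).2
    have h3 := h.Kx
    have h4 := h.ej
    have h5 : (1 : ℝ) ≤ D := by exact_mod_cast hD
    have h6 : (m : ℝ) + 1 ≤ s := by exact_mod_cast hs
    have h7 := h.K0
    rw [mul_sub, h3] at h2
    push_cast at h2
    nlinarith
  rcases Nat.lt_or_ge s (m + 1) with hs | hs
  swap
  · exact hzero s hs
  refine tri (m + 1) (fun s => AA M K x c (D + s) s) ?_ s hs
  intro κ hκ
  have h1 := (rel_iff c κ (D : ℤ)).1 (hc κ (by omega) D (by exact_mod_cast hD))
  have e1 : ∑ t ∈ range (⌊K * x⌋₊ + 1), (if (D : ℤ) ≤ (t : ℤ) then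
        AA M K x c t ((t : ℤ) - D).toNat * ((((t : ℤ) - D).toNat.choose κ : ℕ) : ℚ) else 0) =
      ∑ t ∈ range (D + ((m + 1) + (⌊K * x⌋₊ + 1))), (if (D : ℤ) ≤ (t : ℤ) then
        AA M K x c t ((t : ℤ) - D).toNat * ((((t : ℤ) - D).toNat.choose κ : ℕ) : ℚ) else 0) := by
    apply sum_subset
    · intro t ht
      rw [mem_range] at ht ⊢
      omega
    · intro t _ ht
      rw [mem_range] at ht
      have h2 : AA M K x c t ((t : ℤ) - D).toNat = 0 := by
        by_contra h3
        have := (AA_ne h.K0 h3).1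
        omega
      rw [h2, zero_mul]
      split_ifs <;> rfl
  rw [e1, sum_range_add] at h1
  have e2 : ∑ t ∈ range D, (if (D : ℤ) ≤ (t : ℤ) then
        AA M K x c t ((t : ℤ) - D).toNat * ((((t : ℤ) - D).toNat.choose κ : ℕ) : ℚ) else 0) = 0 := by
    apply sum_eq_zero
    intro t ht
    rw [mem_range] at ht
    rw [if_neg (by omega)]
  rw [e2, zero_add] at h1
  rw [← h1]
  have e3 : range (m + 1) ⊆ range ((m + 1) + (⌊K * x⌋₊ + 1)) := by
    intro t ht
    rw [mem_range] at ht ⊢
    omega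
  rw [← sum_subset e3]
  · apply sum_congr rfl
    intro s _
    have e4 : (((D + s : ℕ) : ℤ) - D).toNat = s := by omega
    rw [e4, if_pos (by omega)]
  · intro s _ hs'
    rw [mem_range] at hs'
    have e4 : (((D + s : ℕ) : ℤ) - D).toNat = s := by omega
    rw [e4, if_pos (by omega), hzero s (by omega), zero_mul]

/-- the quotient of a column -/
theorem quot (h : Dt M K m x j) (c : ℕ × ℕ → ℚ)
    (hc : ∀ κ ≤ m, ∀ D : ℤ, 1 ≤ D → N388.EF.Rel (SS M K x) c κ D) (t : ℕ) :
    ∃ g : ℚ[X], colP M K x c t = (X - 1) ^ t * g ∧ (∀ l, g.coeff l ≠ 0 → (t, l) ∈ FF K m x) ∧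
      ∀ n, AA M K x c t (t + n) = ∑ l ∈ range (x + 1), g.coeff l * ((l.choose n : ℕ) : ℚ) := by
  have hK := h.K0
  have hKM : 0 < K - M := by linarith [h.MK]
  have htK : (0 : ℝ) ≤ t / K := by positivity
  obtain ⟨lo, hlo⟩ : ∃ lo : ℕ, lo = ⌈(x : ℝ) - t / (K - M)⌉₊ := ⟨_, rfl⟩
  obtain ⟨hi, hhi⟩ : ∃ hi : ℕ, hi = ⌊(x : ℝ) - t / K⌋₊ := ⟨_, rfl⟩
  have hix : hi ≤ x := by
    rw [hhi]
    apply Nat.floor_le_of_le
    linarith
  have hcut : ∀ (g : ℚ[X]) (n : ℕ), (∀ l, g.coeff l ≠ 0 → l ≤ hi) →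
      ∑ j ∈ range (hi + 1), g.coeff j * ((j.choose n : ℕ) : ℚ) =
      ∑ j ∈ range (x + 1), g.coeff j * ((j.choose n : ℕ) : ℚ) := by
    intro g n hg
    apply sum_cut hix (fun j => g.coeff j * ((j.choose n : ℕ) : ℚ))
    intro j hj
    have : g.coeff j = 0 := by
      by_contra h1
      have := hg j h1
      omega
    simp only [this, zero_mul]
  have hsupp : ∀ j, (colP M K x c t).coeff j ≠ 0 → lo ≤ j ∧ j ≤ hi := by
    intro j hj
    rw [colP_coeff] at hj
    have h1 : (t, j) ∈ SS M K x := by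
      by_contra h2
      exact hj (cc_out h2)
    rw [mem_SS] at h1
    obtain ⟨-, h2, h3⟩ := h1
    simp only at h2 h3
    constructor
    · rw [hlo]
      apply Nat.ceil_le.2
      have h4 : (x : ℝ) - j ≤ t / (K - M) := by
        rw [le_div_iff₀ hKM, mul_comm]
        exact h2
      linarith
    · rw [hhi]
      apply Nat.le_floor
      have h4 : (t : ℝ) / K ≤ x - j := by
        rw [div_le_iff₀ hK, mul_comm]
        exact h3
      linarith
  have hAA : ∀ s, ∑ j ∈ range (hi + 1), (colP M K x c t).coeff j * ((j.choose s : ℕ) : ℚ) =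
      AA M K x c t s := by
    intro s
    rw [hcut _ s (fun l hl => (hsupp l hl).2)]
    unfold AA
    apply sum_congr rfl
    intro j _
    rw [colP_coeff]
  obtain ⟨g, hg1, hg2, hg3⟩ := t_PSI t lo hi (colP M K x c t) hsupp (by
    intro s hs
    rw [hAA]
    exact h.pos_rel c hc hs)
  refine ⟨g, hg1, ?_, ?_⟩
  · intro l hl
    obtain ⟨h1, h2⟩ := hg2 l hl
    have h3 : ((l : ℝ) + t) + t / K ≤ x := by
      rcases Nat.eq_zero_or_pos (l + t) with h4 | h4
      · have h5 : l = 0 := by omega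
        have h6 : t = 0 := by omega
        subst h5 h6
        simp
      · have h5 : l + t ≤ ⌊(x : ℝ) - t / K⌋₊ := by rw [← hhi]; exact h2
        rw [Nat.le_floor_iff' (by omega)] at h5
        push_cast at h5
        linarith
    apply h.mem_FF_of h3
    have h4 : (x : ℝ) - t / (K - M) ≤ l := by
      have h5 : (x : ℝ) - t / (K - M) ≤ lo := by
        rw [hlo]
        exact Nat.le_ceil _
      have h6 : (lo : ℝ) ≤ l := by exact_mod_cast h1
      linarith
    have h5 : (t : ℝ) / (K - M) = 2 * t + t / K := by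
      rw [div_eq_iff hKM.ne']
      have h6 := h.eqK
      have h7 : (2 * (t : ℝ) + t / K) * (K - M) = t * ((K - M) * (2 * K + 1)) / K := by
        field_simp
      rw [h7, h6]
      field_simp
    rw [h5] at h4
    linarith
  · intro n
    rw [← hAA, hg3 n]
    exact hcut g n (fun l hl => by have := (hg2 l hl).2; omega)

/-- the reduced relations -/
theorem red (h : Dt M K m x j) (c : ℕ × ℕ → ℚ) (g : ℕ → ℚ[X])
    (hg2 : ∀ t l, (g t).coeff l ≠ 0 → (t, l) ∈ FF K m x)
    (hg3 : ∀ t n, AA M K x c t (t + n) = ∑ l ∈ range (x + 1), (g t).coeff l * ((l.choose n : ℕ) : ℚ))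
    (n κ : ℕ) (hc : N388.EF.Rel (SS M K x) c κ (-(n : ℤ))) :
    ∑ q ∈ FF K m x, (g q.1).coeff q.2 * (((q.1 + n).choose κ : ℕ) : ℚ) *
      ((q.2.choose n : ℕ) : ℚ) = 0 := by
  classical
  have h1 := N388.EFW.Dat.neg_rel c κ n hc
  have hsub : FF K m x ⊆ range (⌊K * x⌋₊ + 1) ×ˢ range (x + 1) := by
    intro q hq
    rw [mem_FF] at hq
    rw [mem_product, mem_range, mem_range]
    refine ⟨?_, by have := hq.1.2; omega⟩
    have h2 : m ≤ ⌊K * x⌋₊ := by
      apply Nat.le_floor
      rw [h.Kx]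
      have h3 := h.e0
      have h4 := h.K0
      have h5 : (0 : ℝ) ≤ m := Nat.cast_nonneg m
      have h6 : (0 : ℝ) ≤ j := Nat.cast_nonneg j
      nlinarith
    have := hq.1.1
    omega
  rw [sum_subset hsub]
  · rw [sum_product, ← h1]
    apply sum_congr rfl
    intro t _
    rw [hg3 t n, sum_mul]
    apply sum_congr rfl
    intro l _
    ring
  · intro q _ hq
    have h2 : (g q.1).coeff q.2 = 0 := by
      by_contra h3
      exact hq (hg2 _ _ h3)
    rw [h2, zero_mul, zero_mul]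

/-- the whole linear system is solved, from the apex -/
theorem solve (h : Dt M K m x j) (b : ℕ × ℕ → ℚ) (hb : Ann K m x j b) (hapex : b (0, x) = 0) :
    ∀ q ∈ FF K m x, b q = 0 := by
  classical
  have hspan := t_SPAN (FF K m x) b (x : ℚ) (NN K m x j) h.NN_anti hb
  have hrest := t_PEEL (F1 K m x) b (fun q => (x : ℚ) - q.1 - q.2) (NN K m x j) (by
      rintro ⟨t, l⟩ - ⟨t', l'⟩ - h1 h2
      simp only at h1 h2
      subst h1
      have h3 : (l : ℚ) = l' := by linarith
      have h4 : l = l' := by exact_mod_cast h3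
      rw [h4]) (fun c => by convert h.count c) (by
      intro c p hp
      have h1 := hspan c p (X ^ c) hp (by rw [natDegree_X_pow])
      have h2 : ∑ q ∈ F1 K m x, b q * p.eval (q.1 : ℚ) * ((x : ℚ) - q.1 - q.2) ^ c =
          ∑ q ∈ FF K m x, b q * p.eval (q.1 : ℚ) * (X ^ c : ℚ[X]).eval ((x : ℚ) - q.1 - q.2) := by
        unfold F1
        rw [sum_erase]
        · apply sum_congr rfl
          intro q _
          rw [eval_pow, eval_X]
        · rw [hapex, zero_mul, zero_mul]
      rw [h2]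
      exact h1)
  intro q hq
  by_cases h1 : q = (0, x)
  · rw [h1]
    exact hapex
  · exact hrest q (mem_F1.2 ⟨h1, hq⟩)

/-- **the block** -/
theorem emp (h : Dt M K m x j) (hap : ∀ b : ℕ × ℕ → ℚ, Ann K m x j b → b (0, x) = 0)
    {w : Fin (M + 2) → ℕ} (hw : ∀ i, m ≤ w i) (hs : ∑ i, w i = (M + 2) * m + j) :
    Emp w (Blk M K (3 * x)) := by
  classical
  have hK := h.K0
  have hKM : 0 < K - M := by linarith [h.MK]
  have key := N388.EF.VALw (M + 2) w (SS M K x)
    (fun κ => ⌊ee K m x j + j + (K + 1) * ((m : ℝ) - κ)⌋) (by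
      intro κ p hp hκp
      rw [mem_SS] at hp
      obtain ⟨-, -, h3⟩ := hp
      rw [Int.le_floor]
      have h4 : (κ : ℝ) ≤ p.2 := by exact_mod_cast hκp
      have h5 := h.Kx
      have h6 : K * ((x : ℝ) - p.2) ≤ K * ((x : ℝ) - κ) :=
        mul_le_mul_of_nonneg_left (by linarith) hK.le
      push_cast
      rw [mul_sub, h5] at h6
      linarith) (by
      intro c hc
      have hR : ∀ κ ≤ m, ∀ D : ℤ, ee K m x j - ((M : ℝ) + 1 - K) * ((m : ℝ) - κ) < D →
          N388.EF.Rel (SS M K x) c κ D := by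
        intro κ hκ D hD
        apply hc κ D
        have h0 : ∑ i, (w i - κ) = (M + 2) * (m - κ) + j := by
          have h1 : ∑ i, (w i - κ) + ∑ _i : Fin (M + 2), κ = ∑ i, w i := by
            rw [← sum_add_distrib]
            apply sum_congr rfl
            intro i _
            have := hw i
            omega
          rw [sum_const, card_univ, Fintype.card_fin, hs, smul_eq_mul] at h1
          obtain ⟨r, rfl⟩ := Nat.exists_eq_add_of_le hκ
          have e3 : κ + r - κ = r := by omega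
          rw [e3]
          rw [Nat.mul_add] at h1
          omega
        have h1 : ⌊ee K m x j + j + (K + 1) * ((m : ℝ) - κ)⌋ <
            D + ((∑ i, (w i - κ) : ℕ) : ℤ) := by
          rw [h0, Int.floor_lt]
          push_cast [Nat.cast_sub hκ]
          linarith
        linarith
      have hpos : ∀ κ ≤ m, ∀ D : ℤ, 1 ≤ D → N388.EF.Rel (SS M K x) c κ D := by
        intro κ hκ D hD
        apply hR κ hκ D
        have h1 : (1 : ℝ) ≤ D := by exact_mod_cast hD
        have h2 : (κ : ℝ) ≤ m := by exact_mod_cast hκ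
        have h3 := h.e12
        have h4 : 0 ≤ ((M : ℝ) + 1 - K) * ((m : ℝ) - κ) := mul_nonneg h.lam0.le (by linarith)
        linarith
      choose g hg1 hg2 hg3 using h.quot c hpos
      have hbA : Ann K m x j (fun q => (g q.1).coeff q.2) := by
        intro n κ hκ
        apply h.red c g hg2 hg3 n κ
        apply hR κ (h.NN_lt_m hκ).le
        have := h.lt_NN.1 hκ
        push_cast
        linarith
      have hb := h.solve (fun q => (g q.1).coeff q.2) hbA (hap _ hbA)
      have hg0 : ∀ t, g t = 0 := by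
        intro t
        ext l
        rw [coeff_zero]
        by_contra h1
        exact h1 (hb (t, l) (hg2 t l h1))
      rintro ⟨t, j⟩ hp
      have h1 : (colP M K x c t).coeff j = 0 := by
        rw [hg1 t, hg0 t, mul_zero, coeff_zero]
      rw [colP_coeff, cc_in hp] at h1
      exact h1)
  refine key.mono ?_
  rintro ⟨a, b⟩ hab
  obtain ⟨h1, h2, h3⟩ := hab
  simp only at h1 h2 h3
  have e : (((3 * x : ℕ) : ℝ)) / 3 = x := by push_cast; ring
  rw [e] at h2 h3
  obtain ⟨j', rfl⟩ : ∃ j' : ℕ, b = j' := ⟨b.toNat, by omega⟩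
  push_cast at h2 h3
  have hjx : (j' : ℝ) ≤ x := by
    by_contra h4
    push Not at h4
    have h5 : ((x : ℝ) - j') < 0 := by linarith
    have h6 : K * ((x : ℝ) - j') < (K - M) * ((x : ℝ) - j') := by
      have : (0 : ℝ) < M := by exact_mod_cast h.M0
      nlinarith
    linarith
  have ha0 : (0 : ℝ) ≤ a := by
    have : 0 ≤ (K - M) * ((x : ℝ) - j') := mul_nonneg hKM.le (by linarith)
    linarith
  have ha1 : 0 ≤ a := by exact_mod_cast ha0
  obtain ⟨t, rfl⟩ : ∃ t : ℕ, a = t := ⟨a.toNat, by omega⟩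
  push_cast at h2 h3
  refine ⟨(t, j'), ?_, rfl⟩
  rw [mem_SS]
  refine ⟨⟨?_, by exact_mod_cast hjx⟩, h2, h3⟩
  apply Nat.le_floor
  refine h3.trans ?_
  apply mul_le_mul_of_nonneg_left _ hK.le
  have : (0 : ℝ) ≤ j := Nat.cast_nonneg j
  linarith

end Dt

/-- **the emptiness of the block for large multiplicities** -/
theorem blk_emp {M : ℕ} {K : ℝ} (hsl : Slp M 2 K) (j : ℕ) {ε : ℝ} (hε : 0 < ε) :
    ∃ m₀ : ℕ, ∀ m x : ℕ, m₀ ≤ m → 0 ≤ ee K m x j →
      ee K m x j * (2 * K + 2) + j ≤ (1 - ε) * (K + 1) → ∀ w : Fin (M + 2) → ℕ,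
      (∀ i, m ≤ w i) → ∑ i, w i = (M + 2) * m + j → Emp w (Blk M K (3 * x)) := by
  obtain ⟨m₀, h0⟩ := apex hsl j hε
  refine ⟨max m₀ 1, fun m x hm he hsla w hw hs => ?_⟩
  have hK := hsl.K0
  have h1 : Dt M K m x j := by
    refine ⟨hsl, ?_, he, ?_⟩
    · have := (le_max_right m₀ 1).trans hm
      omega
    · have : 0 < ε * (K + 1) := by positivity
      linarith
  exact h1.emp (h0 m x ((le_max_left _ _).trans hm) h1 hsla) hw hs

end Pool.Agent.U11
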