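import Mathlib
import Pool.Agent.U11.Lin

set_option autoImplicit false

/-!
# Families on the boundary `d = m₁ + m₂ + m₃`, blocks of `M + 2` points: arbitrarily short windows

Let `k + r M = 9`, `M, r ≥ 1`, `b ≤ M + 1` and `s = √(M² + 2 M)`. The linear system of plane curves of
degree `3 D` with `k` general points of multiplicity `D`, `r b` general points of multiplicity `m + 1` and
`r (M + 2 - b)` general points of multiplicity `m` has the expected dimension for all `D` and all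
`m ≥ m₀(ε)` unless `0 < (M + 2) (2 m + 1) + 2 b - s (2 D + 1) < ε`. The gaps between the exceptional
`m` tend to infinity.
-/

namespace Pool.Agent.Results.MP_d3128a_ag.BoundaryFamiliesSparse

/-- The points `0, …, k - 1` have multiplicity `D`, the next `r b` ones `m + 1`, the others `m`. For the
points of a nonempty open set the system of degree `3 D` is non-special, i.e. of vector space dimension
`max (vdim + 1, 0)`; so are those of all degrees `d ≤ 3 D` if `vdim ≤ -1` in the degree `3 D`, and those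
of all degrees `d ≥ 3 D` if `vdim ≥ -1` in the degree `3 D`. -/
def NonSpecial (M r k b D m : ℕ) : Prop :=
  ∃ F : MvPolynomial (Fin (k + r * (M + 2)) × Fin 2) ℂ, F ≠ 0 ∧
    ∀ P : Fin (k + r * (M + 2)) → Fin 2 → ℂ,
      MvPolynomial.eval (fun ij : Fin (k + r * (M + 2)) × Fin 2 => P ij.1 ij.2) F ≠ 0 →
      ∀ d : ℕ,
        (d = 3 * D ∨
          (d ≤ 3 * D ∧ Nat.choose (3 * D + 2) 2 ≤ k * Nat.choose (D + 1) 2 +
            r * b * Nat.choose (m + 2) 2 + r * (M + 2 - b) * Nat.choose (m + 1) 2) ∨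
          (3 * D ≤ d ∧ k * Nat.choose (D + 1) 2 + r * b * Nat.choose (m + 2) 2 +
            r * (M + 2 - b) * Nat.choose (m + 1) 2 ≤ Nat.choose (3 * D + 2) 2)) →
        Module.finrank ℂ
          ↥(MvPolynomial.homogeneousSubmodule (Fin 3) ℂ d ⊓
            Submodule.restrictScalars ℂ
              (⨅ i : Fin (k + r * (M + 2)),
                (Ideal.span
                  ({MvPolynomial.X 0 - MvPolynomial.C (P i 0) * MvPolynomial.X 2,
                    MvPolynomial.X 1 - MvPolynomial.C (P i 1) * MvPolynomial.X 2} :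
                    Set (MvPolynomial (Fin 3) ℂ))) ^
                  (if (i : ℕ) < k then D else if (i : ℕ) < k + r * b then m + 1 else m)))
        = Nat.choose (d + 2) 2 - (k * Nat.choose (D + 1) 2 + r * b * Nat.choose (m + 2) 2 +
            r * (M + 2 - b) * Nat.choose (m + 1) 2)

theorem nonSpecial_of {M r k b D m : ℕ} (hb : b ≤ M + 1)
    (h : Pool.Agent.TH176.Nag.Emp
        (TH864.DP.wt3 (k + r * (M + 2)) k (r * b) D m) (TH603.Sur.TZ (3 * D)) ∨
      Pool.Agent.TH603.Sur.Sur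
        (TH864.DP.wt3 (k + r * (M + 2)) k (r * b) D m) (TH603.Sur.TZ (3 * D))) :
    NonSpecial M r k b D m := by
  have hrb : r * b ≤ r * (M + 2) := Nat.mul_le_mul_left _ (by omega)
  have hab : k + r * b ≤ k + r * (M + 2) := by omega
  obtain ⟨F, hF, hF'⟩ := TH864.DP.expDim_fam h
  refine ⟨F.map (algebraMap ℚ ℂ), H932R3.map_ne_zero_of hF, fun P hP d hd => ?_⟩
  rw [MvPolynomial.eval_map] at hP
  have hS := TH864.DP.sum_wt3 hab D m
  have e : k + r * (M + 2) - k - r * b = r * (M + 2 - b) := by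
    rw [Nat.mul_sub]; omega
  rw [e] at hS
  have h1 := hF' P hP d (by
    rw [hS]
    rcases hd with rfl | hd | hd
    · rcases le_total (Nat.choose (3 * D + 2) 2) (k * Nat.choose (D + 1) 2 +
        r * b * Nat.choose (m + 2) 2 + r * (M + 2 - b) * Nat.choose (m + 1) 2) with h2 | h2
      · exact Or.inl ⟨le_rfl, h2⟩
      · exact Or.inr ⟨le_rfl, h2⟩
    · exact Or.inl hd
    · exact Or.inr hd)
  unfold H932R3.ExpDim at h1
  rw [hS] at h1
  exact h1

theorem main {M r k b : ℕ} (hM : 1 ≤ M) (hr : 1 ≤ r) (hk : k + r * M = 9) (hb : b ≤ M + 1)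
    {ε : ℝ} (hε : 0 < ε) : ∃ m₀ : ℕ, ∀ m D : ℕ, m₀ ≤ m →
      ¬ (√((M : ℝ) ^ 2 + 2 * M) * (2 * D + 1) < ((M : ℝ) + 2) * (2 * m + 1) + 2 * b ∧
        ((M : ℝ) + 2) * (2 * m + 1) + 2 * b < √((M : ℝ) ^ 2 + 2 * M) * (2 * D + 1) + ε) →
      NonSpecial M r k b D m := by
  obtain ⟨m₀, hm₀⟩ := U11.joint4 hM hr hk hb (half_pos hε)
  refine ⟨m₀, fun m D hm h => nonSpecial_of hb (hm₀ m D hm (U11.goodE_lin hM hε ?_))⟩
  by_contra hcon
  push Not at hcon
  exact h hcon

/-- **Arbitrarily short windows, and sparse exceptions.** -/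
theorem result (M r k b : ℕ) (hM : 1 ≤ M) (hr : 1 ≤ r) (hk : k + r * M = 9) (hb : b ≤ M + 1) :
    (∀ ε : ℝ, 0 < ε → ∃ m₀ : ℕ, ∀ m D : ℕ, m₀ ≤ m →
      ¬ (√((M : ℝ) ^ 2 + 2 * M) * (2 * D + 1) < ((M : ℝ) + 2) * (2 * m + 1) + 2 * b ∧
        ((M : ℝ) + 2) * (2 * m + 1) + 2 * b < √((M : ℝ) ^ 2 + 2 * M) * (2 * D + 1) + ε) →
      NonSpecial M r k b D m) ∧
    (∀ Q : ℕ, ∃ m₀ : ℕ, ∀ m m' D D' : ℕ, m₀ ≤ m → m < m' → ¬ NonSpecial M r k b D m →
      ¬ NonSpecial M r k b D' m' → m + Q ≤ m') := by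
  refine ⟨fun ε hε => main hM hr hk hb hε, fun Q => ?_⟩
  obtain ⟨ε, hε, hs⟩ := U11.sparse_fam hM b Q
  obtain ⟨m₀, hm₀⟩ := main hM hr hk hb hε
  refine ⟨m₀, fun m m' D D' hm hmm h1 h2 => ?_⟩
  by_contra hcon
  push Not at hcon
  refine hs m m' D D' hmm hcon ?_ ?_
  · by_contra h3
    exact h1 (hm₀ m D hm h3)
  · by_contra h3
    exact h2 (hm₀ m' D' (hm.trans hmm.le) h3)

end Pool.Agent.Results.MP_d3128a_ag.BoundaryFamiliesSparse
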