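import Pool.Agent.U11.BlkLin

/-! Several blocks of `M + 2` points with arbitrary multiplicities in anticanonical degrees. -/

set_option autoImplicit false

namespace Pool.Agent.U11

open Finset Pool.Agent.TH176.Nag Pool.Agent.TH603.Sur Pool.Agent.TH603.Cut Pool.Agent.H932R3
open Pool.Agent.TH864.DP (one nxt)
open Pool.Agent.TH978.S13 (Sc Emp_shift Sur_shift Emp_add Sur_add Emp_units Sur_units Emp_plane9
  Sur_plane9 Emp_equiv Sur_equiv KN slpN)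
open Pool.Agent.N135.QT (BB sM sM_sq KN_eq)

/-- different blocks, emptiness -/
theorem Emp_chain {ι : Type} [Finite ι] {h M : ℕ} {x : ℝ} (hM : 1 ≤ M) (hx : Irrational x) (r : ℕ) :
    ∀ W : Fin (r + 1) → ι → ℕ, Emp (W 0) (Sc x (x + M) h ∪ {((0, (h : ℤ)) : ℤ × ℤ)}) →
    (∀ t, Emp (W t) (Sc x (x + M) h)) →
    Emp (fun p : Fin (r + 1) × ι => W p.1 p.2)
      (Sc x (x + ((r + 1) * M : ℕ)) h ∪ {((0, (h : ℤ)) : ℤ × ℤ)}) := by
  have hMR : (1 : ℝ) ≤ M := by exact_mod_cast hM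
  induction r with
  | zero =>
    intro W h0 _
    have e1 : x + (((0 + 1) * M : ℕ) : ℝ) = x + M := by push_cast; ring
    rw [e1]
    exact Emp_equiv (one ι) (fun _ => rfl) h0
  | succ r ih =>
    intro W h0 hW
    have ih' := ih (fun t => W t.castSucc) h0 (fun t => hW _)
    have h2 : Emp (W (Fin.last (r + 1))) (Sc (x + (((r + 1) * M : ℕ) : ℤ))
        (x + M + (((r + 1) * M : ℕ) : ℤ)) h) := Emp_shift _ (hW _)
    have e1 : x + (((r + 1 + 1) * M : ℕ) : ℝ) = x + M + ((((r + 1) * M : ℕ) : ℤ) : ℝ) := by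
      push_cast; ring
    have e2 : x + (((r + 1) * M : ℕ) : ℝ) = x + ((((r + 1) * M : ℕ) : ℤ) : ℝ) := by
      push_cast; ring
    rw [e1]
    rw [e2] at ih'
    have h0' : (0 : ℝ) < ((((r + 1) * M : ℕ) : ℤ) : ℝ) := by
      have : 0 < (r + 1) * M := by positivity
      exact_mod_cast this
    have key := Emp_add (x := x) (y := x + ((((r + 1) * M : ℕ) : ℤ) : ℝ))
      (z := x + M + ((((r + 1) * M : ℕ) : ℤ) : ℝ)) (by linarith) (by linarith) (hx.add_intCast _)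
      ih' h2
    refine Emp_equiv (nxt (r + 1) ι) ?_ key
    rintro (⟨i, y⟩ | y) <;> rfl

/-- different blocks, independence -/
theorem Sur_chain {ι : Type} [Fintype ι] {h M : ℕ} {x : ℝ} (hM : 1 ≤ M) (r : ℕ) :
    ∀ W : Fin (r + 1) → ι → ℕ, (∀ t, Sur (W t) (Sc x (x + M) h)) →
    Sur (fun p : Fin (r + 1) × ι => W p.1 p.2) (Sc x (x + ((r + 1) * M : ℕ)) h) := by
  have hMR : (1 : ℝ) ≤ M := by exact_mod_cast hM
  induction r with
  | zero =>
    intro W hW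
    have e1 : x + (((0 + 1) * M : ℕ) : ℝ) = x + M := by push_cast; ring
    rw [e1]
    exact Sur_equiv (one ι) (fun _ => rfl) (hW 0)
  | succ r ih =>
    intro W hW
    have ih' := ih (fun t => W t.castSucc) (fun t => hW _)
    have h2 : Sur (W (Fin.last (r + 1))) (Sc (x + (((r + 1) * M : ℕ) : ℤ))
        (x + M + (((r + 1) * M : ℕ) : ℤ)) h) := Sur_shift _ (hW _)
    have e1 : x + (((r + 1 + 1) * M : ℕ) : ℝ) = x + M + ((((r + 1) * M : ℕ) : ℤ) : ℝ) := by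
      push_cast; ring
    have e2 : x + (((r + 1) * M : ℕ) : ℝ) = x + ((((r + 1) * M : ℕ) : ℤ) : ℝ) := by
      push_cast; ring
    rw [e1]
    rw [e2] at ih'
    have h0' : (0 : ℝ) < ((((r + 1) * M : ℕ) : ℤ) : ℝ) := by
      have : 0 < (r + 1) * M := by positivity
      exact_mod_cast this
    have key := Sur_add (x := x) (y := x + ((((r + 1) * M : ℕ) : ℤ) : ℝ))
      (z := x + M + ((((r + 1) * M : ℕ) : ℤ) : ℝ)) (by linarith) (by linarith) ih' h2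
    refine Sur_equiv (nxt (r + 1) ι) ?_ key
    rintro (⟨i, y⟩ | y) <;> rfl

theorem TZ_mono {d d' : ℕ} (h : d ≤ d') : TZ d ⊆ TZ d' := by
  rintro p ⟨h1, h2, h3⟩
  have : (d : ℤ) ≤ d' := by exact_mod_cast h
  exact ⟨h1, h2, by linarith⟩

/-- **emptiness** -/
theorem joint_emp {M r k : ℕ} (hM : 1 ≤ M) (hr : 1 ≤ r) (hk : k + r * M = 9) {ε : ℝ} (hε : 0 < ε) :
    ∃ D₀ : ℕ, ∀ D : ℕ, D₀ ≤ D → ∀ {n : ℕ} (φ : (Fin r × Fin (M + 2)) ⊕ Fin k ≃ Fin n) (v : Fin n → ℕ),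
      (∀ i, D ≤ v (φ (Sum.inr i))) →
      (∀ t, sM M * (2 * D + 1) < (M : ℝ) + 2 + 2 * ((∑ i, v (φ (Sum.inl (t, i))) : ℕ) : ℝ)) →
      (∃ t, sM M * (2 * D + 1) + ε ≤ (M : ℝ) + 2 + 2 * ((∑ i, v (φ (Sum.inl (t, i))) : ℕ) : ℝ)) →
      ∀ d ≤ 3 * D, Emp v (TZ d) := by
  obtain ⟨r, rfl⟩ : ∃ r', r = r' + 1 := ⟨r - 1, by omega⟩
  obtain ⟨D₀, hD₀⟩ := blk_lin hM hε
  refine ⟨D₀, fun D hD n φ v hu hS ⟨t0, ht0⟩ d hd => ?_⟩
  obtain ⟨hSl, hK1, hK2⟩ := slpN hM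
  have hK0 := hSl.K0
  obtain ⟨x, hx⟩ : ∃ x : ℝ, x = KN M - M := ⟨_, rfl⟩
  have hirr : Irrational x := by
    rw [hx]
    exact hSl.irr.sub_natCast M
  have hx0 : 0 < x := by rw [hx]; linarith
  have hx3 : x < 3 := by rw [hx]; linarith
  have hxM : x + M = KN M := by rw [hx]; ring
  have ha : 1 ≤ (r + 1) * M := Nat.mul_pos (Nat.succ_pos r) hM
  have h9 : x + (((r + 1) * M + k : ℕ) : ℝ) = x + 9 := by
    have : (r + 1) * M + k = 9 := by omega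
    rw [this]; push_cast; ring
  obtain ⟨W, hW⟩ : ∃ W : Fin (r + 1) → Fin (M + 2) → ℕ, W = fun t i =>
    v (φ (Sum.inl (Equiv.swap 0 t0 t, i))) := ⟨_, rfl⟩
  have hopen : ∀ t, Emp (W t) (Sc x (x + M) D) := by
    intro t
    rw [hxM, hx, hW]
    exact bo_lin hM (by simp) (hS _)
  have hapex : Emp (W 0) (Sc x (x + M) D ∪ {((0, (D : ℤ)) : ℤ × ℤ)}) := by
    have h1 : Emp (W 0) (BB M D (KN M)) := by
      rw [hW]
      simp only [Equiv.swap_apply_left]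
      exact hD₀ _ D hD ht0
    refine h1.mono ?_
    rintro p (⟨g1, g2, g3⟩ | hp)
    · refine ⟨g1, ?_, ?_⟩
      · rw [← hx]; exact g2.le
      · rw [← hxM]; exact g3.le
    · rw [Set.mem_singleton_iff] at hp
      rw [hp]
      refine ⟨by simp, ?_, ?_⟩ <;> simp
  have h3 := Emp_units ha hirr (Emp_chain hM hirr r W hapex hopen) k
  rw [h9] at h3
  have h4 := Emp_plane9 hirr hx0 hx3 h3
  have h5 : Emp (fun a => v (φ a)) (TZ (3 * D)) := by
    refine Emp_emb (g := Equiv.sumCongr (Equiv.prodCongr (Equiv.swap 0 t0) (Equiv.refl _))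
      (Equiv.refl _)) (Equiv.injective _) ?_ h4
    rintro (⟨t, i⟩ | i)
    · show W t i ≤ v (φ (Sum.inl (Equiv.swap 0 t0 t, i)))
      rw [hW]
    · exact hu i
  exact (Emp_equiv φ (fun _ => rfl) h5).mono (TZ_mono hd)

/-- **independence** -/
theorem joint_sur {M r k : ℕ} (hM : 1 ≤ M) (hr : 1 ≤ r) (hk : k + r * M = 9) {D n : ℕ}
    (φ : (Fin r × Fin (M + 2)) ⊕ Fin k ≃ Fin n) (v : Fin n → ℕ) (hu : ∀ i, v (φ (Sum.inr i)) ≤ D)
    (hS : ∀ t, ∃ b : ℕ, (∀ i, v (φ (Sum.inl (t, i))) ≤ b + 1) ∧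
      (M : ℝ) + 2 + 2 * ((∑ i, max (v (φ (Sum.inl (t, i)))) b : ℕ) : ℝ) ≤ sM M * (2 * D + 1))
    {d : ℕ} (hd : 3 * D ≤ d) : Sur v (TZ d) := by
  obtain ⟨r, rfl⟩ : ∃ r', r = r' + 1 := ⟨r - 1, by omega⟩
  obtain ⟨hSl, hK1, hK2⟩ := slpN hM
  have hK0 := hSl.K0
  obtain ⟨x, hx⟩ : ∃ x : ℝ, x = KN M - M := ⟨_, rfl⟩
  have hirr : Irrational x := by
    rw [hx]
    exact hSl.irr.sub_natCast M
  have hx0 : 0 < x := by rw [hx]; linarith
  have hx3 : x < 3 := by rw [hx]; linarith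
  have hxM : x + M = KN M := by rw [hx]; ring
  have ha : 1 ≤ (r + 1) * M := Nat.mul_pos (Nat.succ_pos r) hM
  have h9 : x + (((r + 1) * M + k : ℕ) : ℝ) = x + 9 := by
    have : (r + 1) * M + k = 9 := by omega
    rw [this]; push_cast; ring
  have hopen : ∀ t, Sur (fun i => v (φ (Sum.inl (t, i)))) (Sc x (x + M) D) := by
    intro t
    obtain ⟨b, hb, hb'⟩ := hS t
    rw [hxM, hx]
    exact sur_lin hM (by simp) hb hb'
  have h3 := Sur_units ha hirr (Sur_chain hM r (fun t i => v (φ (Sum.inl (t, i)))) hopen) k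
  rw [h9] at h3
  have h4 := Sur_plane9 hirr hx0 hx3 h3
  have h5 : Sur (fun a => v (φ a)) (TZ (3 * D)) := by
    refine Pool.Agent.TH2.NU.Sur_anti ?_ h4
    rintro (⟨t, i⟩ | i)
    · exact le_rfl
    · exact hu i
  exact (Sur_equiv φ (fun _ => rfl) h5).mono (TZ_mono hd)

end Pool.Agent.U11
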