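import Pool.Agent.U11.Coll
import Pool.Agent.U11.Irr1

/-! Collisions of eleven points: the block without its apex, one more simple germ. -/

set_option autoImplicit false

namespace Pool.Agent.U11

open Finset Polynomial
open Pool.Agent.TH864.SX (Slp Blk)
open Pool.Agent.TH716.CF (EmpG Tri IsGerm J)
open Pool.Agent.TH603.EL (Lau)
open Pool.Agent.N388.EFC (VALG EmpG_refl EmpG_shift ger al al_isUnit ger_isGerm Psi Psi_single)
open Pool.Agent.N388.EFW (ee NN FF mem_FF SS mem_SS cc_in cc_out colP colP_coeff)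

variable {M : ℕ} {K : ℝ} {m x : ℕ}

/-- **the open block** -/
theorem blockG_open (h : Dt M K m x 0) :
    EmpG 0 (fun _ : Unit => M + 2) (fun _ => m) (Blk M K (3 * x) \ {((0, (x : ℤ)) : ℤ × ℤ)}) := by
  classical
  have hK := h.K0
  have hKM : 0 < K - M := by linarith [h.MK]
  have key := VALG (M + 2) m ((SS M K x).erase (0, x))
    (fun κ => ⌊ee K m x 0 + (K + 1) * ((m : ℝ) - κ)⌋) (by
      intro κ p hp hκp
      replace hp := mem_of_mem_erase hp
      rw [mem_SS] at hp
      obtain ⟨-, -, h3⟩ := hp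
      rw [Int.le_floor]
      have h4 : (κ : ℝ) ≤ p.2 := by exact_mod_cast hκp
      have h5 := h.Kx
      have h6 : K * ((x : ℝ) - p.2) ≤ K * ((x : ℝ) - κ) :=
        mul_le_mul_of_nonneg_left (by linarith) hK.le
      push_cast at h5 ⊢
      rw [mul_sub, h5] at h6
      linarith) (by
      intro c₀ hc₀
      obtain ⟨c, hcd⟩ : ∃ c : ℕ × ℕ → ℚ, c = fun p => if p = (0, x) then 0 else c₀ p := ⟨_, rfl⟩
      have hc : ∀ κ : ℕ, ∀ D : ℤ, ⌊ee K m x 0 + (K + 1) * ((m : ℝ) - κ)⌋ -
          (((M + 2) * (m - κ) : ℕ) : ℤ) < D → N388.EF.Rel (SS M K x) c κ D := by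
        intro κ D hD
        have h1 := hc₀ κ D hD
        unfold N388.EF.Rel at h1 ⊢
        rw [← h1]
        rw [filter_erase, ← sum_erase (s := (SS M K x).filter (fun p => D ≤ (p.1 : ℤ))) (a := (0, x))]
        · apply sum_congr rfl
          intro p hp
          have h2 : p ≠ (0, x) := (mem_erase.1 hp).1
          rw [hcd]
          simp only [h2, if_false]
        · rw [hcd]
          simp
      have hR : ∀ κ ≤ m, ∀ D : ℤ, ee K m x 0 - ((M : ℝ) + 1 - K) * ((m : ℝ) - κ) < D →
          N388.EF.Rel (SS M K x) c κ D := by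
        intro κ hκ D hD
        apply hc κ D
        have h1 : ⌊ee K m x 0 + (K + 1) * ((m : ℝ) - κ)⌋ <
            D + (((M + 2) * (m - κ) : ℕ) : ℤ) := by
          rw [Int.floor_lt]
          push_cast [Nat.cast_sub hκ]
          linarith
        linarith
      have hpos : ∀ κ ≤ m, ∀ D : ℤ, 1 ≤ D → N388.EF.Rel (SS M K x) c κ D := by
        intro κ hκ D hD
        apply hR κ hκ D
        have h1 : (1 : ℝ) ≤ D := by exact_mod_cast hD
        have h2 : (κ : ℝ) ≤ m := by exact_mod_cast hκ
        have h3 := h.e12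
        have h4 : 0 ≤ ((M : ℝ) + 1 - K) * ((m : ℝ) - κ) := mul_nonneg h.lam0.le (by linarith)
        linarith
      choose g hg1 hg2 hg3 using h.quot c hpos
      have hbA : Ann K m x 0 (fun q => (g q.1).coeff q.2) := by
        intro n κ hκ
        apply h.red c g hg2 hg3 n κ
        apply hR κ (h.NN_lt_m hκ).le
        have := h.lt_NN.1 hκ
        push_cast
        linarith
      have hap : (g 0).coeff x = 0 := by
        have h1 := congrArg (fun p : ℚ[X] => p.coeff x) (hg1 0)
        simp only [pow_zero, one_mul] at h1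
        rw [← h1, colP_coeff]
        by_cases h2 : ((0, x) : ℕ × ℕ) ∈ SS M K x
        · rw [cc_in h2, hcd]
          simp
        · rw [cc_out h2]
      have hb := h.solve (fun q => (g q.1).coeff q.2) hbA hap
      have hg0 : ∀ t, g t = 0 := by
        intro t
        ext l
        rw [coeff_zero]
        by_contra h1
        exact h1 (hb (t, l) (hg2 t l h1))
      rintro ⟨t, j⟩ hp
      rw [mem_erase] at hp
      have h1 : (colP M K x c t).coeff j = 0 := by
        rw [hg1 t, hg0 t, mul_zero, coeff_zero]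
      rw [colP_coeff, cc_in hp.2, hcd] at h1
      simp only [hp.1, if_false] at h1
      exact h1)
  refine key.mono ?_
  rintro ⟨a, b⟩ ⟨hab, hne⟩
  obtain ⟨h1, h2, h3⟩ := hab
  simp only at h1 h2 h3
  have e : (((3 * x : ℕ) : ℝ)) / 3 = x := by push_cast; ring
  rw [e] at h2 h3
  obtain ⟨j', rfl⟩ : ∃ j' : ℕ, b = j' := ⟨b.toNat, by omega⟩
  push_cast at h2 h3
  have hjx : (j' : ℝ) ≤ x := by
    by_contra h4
    push Not at h4
    have h5 : ((x : ℝ) - j') < 0 := by linarith
    have h6 : K * ((x : ℝ) - j') < (K - M) * ((x : ℝ) - j') := by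
      have : (0 : ℝ) < M := by exact_mod_cast h.M0
      nlinarith
    linarith
  have ha0 : (0 : ℝ) ≤ a := by
    have : 0 ≤ (K - M) * ((x : ℝ) - j') := mul_nonneg hKM.le (by linarith)
    linarith
  have ha1 : 0 ≤ a := by exact_mod_cast ha0
  obtain ⟨t, rfl⟩ : ∃ t : ℕ, a = t := ⟨a.toNat, by omega⟩
  push_cast at h2 h3
  refine ⟨(t, j'), ?_, rfl⟩
  rw [mem_erase, mem_SS]
  refine ⟨?_, ⟨?_, by exact_mod_cast hjx⟩, h2, h3⟩
  · intro h4
    apply hne
    rw [Prod.mk.injEq] at h4
    rw [h4.1, h4.2]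
    rfl
  · apply Nat.le_floor
    refine h3.trans ?_
    apply mul_le_mul_of_nonneg_left _ hK.le
    have : (0 : ℝ) ≤ j' := Nat.cast_nonneg j'
    linarith

/-- the triangle without its apex -/
theorem triG_open (h : Dt 9 K m x 0) :
    EmpG 0 (fun _ : Unit => 11) (fun _ => m) (Tri (3 * x) (K / 3 - 3) \ {((0, (x : ℤ)) : ℤ × ℤ)}) := by
  have h1 := blockG_open h
  have h2 := EmpG_refl (S := {q : ℤ × ℤ | (-q.1, q.2) ∈ Blk 9 K (3 * x) \ {((0, (x : ℤ)) : ℤ × ℤ)}}) h1
    (fun q hq => hq)
  have h3 := EmpG_shift (S := {q : ℤ × ℤ | (-(6 * x : ℤ) + q.1, q.2) ∈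
    {q : ℤ × ℤ | (-q.1, q.2) ∈ Blk 9 K (3 * x) \ {((0, (x : ℤ)) : ℤ × ℤ)}}}) (-(6 * x : ℤ), 0) h2 (by
    intro q hq
    have e : ((-(6 * x : ℤ), 0) : ℤ × ℤ) + q = (-(6 * x : ℤ) + q.1, q.2) := by
      ext <;> simp
    rw [e]
    exact hq)
  refine h3.shear 6 ?_
  rintro ⟨a, k⟩ ⟨⟨g1, g2, g3⟩, hne⟩
  simp only [Set.mem_ofPred_eq] at g1 g2 g3 ⊢
  push_cast at g2 g3
  refine ⟨⟨g1, ?_, ?_⟩, ?_⟩
  · simp only
    push_cast
    linarith
  · simp only
    push_cast
    linarith
  · intro h4
    apply hne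
    rw [Set.mem_singleton_iff, Prod.mk.injEq] at h4 ⊢
    obtain ⟨h5, h6⟩ := h4
    subst h6
    exact ⟨by linarith, rfl⟩

/-- a nonzero Laurent polynomial does not vanish at a suitable germ -/
theorem exists_germ {L : Type} [Field L] [CharZero L] {f : Lau L} (hf : f ≠ 0) :
    ∃ φ : Lau L →+* PowerSeries L, IsGerm φ ∧ PowerSeries.constantCoeff (φ f) ≠ 0 := by
  classical
  -- the characters
  let χ : ℤ × ℤ → (Lˣ × Lˣ →* L) := fun m =>
    { toFun := fun p => ((p.1 ^ (-m.1) : Lˣ) : L) * ((p.2 ^ m.2 : Lˣ) : L)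
      map_one' := by simp
      map_mul' := fun p q => by
        rw [Prod.fst_mul, Prod.snd_mul, mul_zpow, mul_zpow, Units.val_mul, Units.val_mul]
        ring }
  have hχ : Function.Injective χ := by
    have h2 : ∀ a b : ℤ, ((2 : L) ^ a = 2 ^ b) → a = b := by
      intro a b hab
      have h3 : ((((2 : ℚ) ^ a : ℚ)) : L) = (((2 : ℚ) ^ b : ℚ) : L) := by
        push_cast
        exact hab
      have h4 : (2 : ℚ) ^ a = 2 ^ b := by exact_mod_cast h3
      exact zpow_right_injective₀ (by norm_num) (by norm_num) h4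
    obtain ⟨t, ht⟩ : ∃ t : Lˣ, (t : L) = 2 := ⟨Units.mk0 2 (by norm_num), rfl⟩
    intro a b hab
    have h5 := DFunLike.congr_fun hab (t, 1)
    have h6 := DFunLike.congr_fun hab (1, t)
    simp only [χ, MonoidHom.coe_mk, OneHom.coe_mk, one_zpow, Units.val_one, mul_one, one_mul,
      Units.val_zpow_eq_zpow_val, ht] at h5 h6
    have h7 := h2 _ _ h5
    have h8 := h2 _ _ h6
    ext
    · omega
    · exact h8
  have hli := (linearIndependent_monoidHom (Lˣ × Lˣ) L).comp χ hχ
  obtain ⟨p, hp⟩ : ∃ p : Lˣ × Lˣ, ∑ m ∈ f.coeff.support, f.coeff m * χ m p ≠ 0 := by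
    by_contra hcon
    push Not at hcon
    apply hf
    have h1 := linearIndependent_iff'.1 hli f.coeff.support f.coeff (by
      funext p
      rw [Finset.sum_apply]
      simp only [Pi.smul_apply, smul_eq_mul, Function.comp_apply, Pi.zero_apply]
      exact hcon p)
    ext m
    by_cases hm : m ∈ f.coeff.support
    · rw [h1 m hm]; rfl
    · rw [Finsupp.notMem_support_iff.1 hm]; rfl
  obtain ⟨a, ha⟩ : ∃ a : (PowerSeries L)ˣ, (a : PowerSeries L) = al (p.1 : L) :=
    ⟨(al_isUnit p.1.ne_zero).unit, rfl⟩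
  obtain ⟨b, hb⟩ : ∃ b : (PowerSeries (PowerSeries L))ˣ,
      b = Units.map ((PowerSeries.C (R := PowerSeries L)).comp (PowerSeries.C (R := L))).toMonoidHom p.2 :=
    ⟨_, rfl⟩
  refine ⟨ger a b, ger_isGerm a ha b, ?_⟩
  have e1 : PowerSeries.constantCoeff (ger a b f) = ∑ m ∈ f.coeff.support, f.coeff m * χ m p := by
    have hfs : f = ∑ m ∈ f.coeff.support, AddMonoidAlgebra.single m (f.coeff m) := by
      ext q
      rw [AddMonoidAlgebra.coeff_sum, Finsupp.finsetSum_apply]
      simp only [AddMonoidAlgebra.coeff_single, Finsupp.single_apply]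
      rw [Finset.sum_ite_eq']
      split_ifs with h
      · rfl
      · exact Finsupp.notMem_support_iff.1 h
    conv_lhs => rw [hfs]
    rw [map_sum, map_sum]
    refine Finset.sum_congr rfl fun m _ => ?_
    unfold ger
    rw [RingHom.comp_apply, Psi_single, map_mul, map_mul, map_mul, map_mul,
      PowerSeries.constantCoeff_C, PowerSeries.constantCoeff_C, PowerSeries.constantCoeff_C]
    congr 1
    simp only [χ, MonoidHom.coe_mk, OneHom.coe_mk]
    congr 1
    · have h1 : Units.map (PowerSeries.constantCoeff (R := L)).toMonoidHom a = p.1 := by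
        ext
        rw [Units.coe_map]
        change PowerSeries.constantCoeff (a : PowerSeries L) = _
        rw [ha]
        unfold al
        simp
      rw [← h1, ← map_zpow]
      rfl
    · have h1 : Units.map (PowerSeries.constantCoeff (R := L)).toMonoidHom
          (Units.map (PowerSeries.constantCoeff (R := PowerSeries L)).toMonoidHom b) = p.2 := by
        ext
        rw [hb]
        change PowerSeries.constantCoeff (PowerSeries.constantCoeff
          (PowerSeries.C (PowerSeries.C (p.2 : L)))) = _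
        rw [PowerSeries.constantCoeff_C, PowerSeries.constantCoeff_C]
      rw [← h1, ← map_zpow, ← map_zpow]
      rfl
  rw [e1]
  exact hp

/-- the apex and one simple germ -/
theorem EmpG_apex {r m : ℕ} {S : Set (ℤ × ℤ)} {q : ℤ × ℤ}
    (h : EmpG 0 (fun _ : Unit => r) (fun _ => m) (S \ {q})) :
    EmpG 0 (fun b : Bool => if b then r else 1) (fun b => if b then m else 1) S := by
  classical
  obtain ⟨L, _, _, φ, hφ, hf⟩ := h
  have : CharZero L := CharP.charP_to_charZero L
  have key : ∃ φ1 : Lau L →+* PowerSeries L, IsGerm φ1 ∧ ∀ f : Lau L, (∀ m, f.coeff m ≠ 0 → m ∈ S) →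
      f ∈ J (φ ()) r ^ m → PowerSeries.constantCoeff (φ1 f) = 0 → f = 0 := by
    by_cases hz : ∀ f : Lau L, (∀ m, f.coeff m ≠ 0 → m ∈ S) → f ∈ J (φ ()) r ^ m → f = 0
    · exact ⟨φ (), hφ (), fun f h1 h2 _ => hz f h1 h2⟩
    push Not at hz
    obtain ⟨f0, h1, h2, h3⟩ := hz
    obtain ⟨φ1, hφ1, hc⟩ := exists_germ h3
    refine ⟨φ1, hφ1, fun f g1 g2 g3 => ?_⟩
    have hq : f0.coeff q ≠ 0 := by
      intro hq
      apply h3
      apply hf f0
      · intro m hm
        refine ⟨h1 m hm, ?_⟩
        rintro rfl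
        exact hm hq
      · intro _
        exact h2
    obtain ⟨c, hcd⟩ : ∃ c : L, c = f.coeff q / f0.coeff q := ⟨_, rfl⟩
    have hsub : f - AddMonoidAlgebra.single 0 c * f0 = 0 := by
      apply hf
      · intro m hm
        have e1 : (f - AddMonoidAlgebra.single 0 c * f0).coeff m = f.coeff m - c * f0.coeff m := by
          rw [AddMonoidAlgebra.coeff_sub, Finsupp.sub_apply,
            AddMonoidAlgebra.coeff_single_zero_mul]
        rw [e1] at hm
        refine ⟨?_, ?_⟩
        · by_contra hmS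
          have e2 : f.coeff m = 0 := by by_contra h; exact hmS (g1 m h)
          have e3 : f0.coeff m = 0 := by by_contra h; exact hmS (h1 m h)
          rw [e2, e3] at hm
          simp at hm
        · rintro rfl
          apply hm
          rw [hcd, div_mul_cancel₀ _ hq, sub_self]
      · intro _
        exact Ideal.sub_mem _ g2 (Ideal.mul_mem_left _ _ h2)
    have hfe : f = AddMonoidAlgebra.single 0 c * f0 := sub_eq_zero.1 hsub
    have hc0 : c = 0 := by
      rw [hfe, map_mul, map_mul, hφ1.const, PowerSeries.constantCoeff_C] at g3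
      exact (mul_eq_zero.1 g3).resolve_right hc
    rw [hfe, hc0]
    simp
  obtain ⟨φ1, hφ1, hk⟩ := key
  refine ⟨L, inferInstance, inferInstance, fun b => if b then φ () else φ1, ?_, ?_⟩
  · intro b
    cases b
    · exact hφ1
    · exact hφ ()
  · intro f h1 h2
    apply hk f h1
    · have := h2 true
      simpa using this
    · have := h2 false
      simp only [Bool.false_eq_true, if_false, pow_one] at this
      have h3 : f ∈ Ideal.comap φ1 (Ideal.span {(PowerSeries.X : PowerSeries L) ^ 1}) := this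
      rw [Ideal.mem_comap, Ideal.mem_span_singleton, pow_one, PowerSeries.X_dvd_iff] at h3
      exact h3

end Pool.Agent.U11
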