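import Pool.Agent.U11.CollOne

/-! Collisions of eleven points: the dimension is at most one. -/

set_option autoImplicit false

namespace Pool.Agent.U11

open Polynomial
open Pool.Agent.TH716.CF
open Pool.Agent.TH603.EL
open Pool.Agent.TH545.CF (entC mem_jetIdeal)
open Pool.Agent.H932R2 Pool.Agent.H932R3

section generic
variable {L : Type} [Field L] {R : Type} [CommRing R]

theorem coll_gen1 (inc : L →+* R) (U : ZMod 3 → R) {V : R} (hV : V * U 0 = 1)
    (ψ : R →+* PowerSeries L) (hinc : ∀ c, ψ (inc c) = PowerSeries.C c)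
    (hx : PowerSeries.coeff 1 (ψ (V * U 1)) ≠ 0) {r m d : ℕ} {I I1 : Ideal R} (hI : J ψ r ^ m ≤ I)
    (hE : ∀ g : MvPolynomial (ZMod 3) L, g.IsHomogeneous d → g ≠ 0 →
      MvPolynomial.eval₂Hom inc U g ∈ I → MvPolynomial.eval₂Hom inc U g ∉ I1) :
    ∃ (c : L) (a : Fin r → L), ∀ P : MvPolynomial (Fin 3) L, P.IsHomogeneous d →
        (MvPolynomial.aeval ![C X, X, 1] : MvPolynomial (Fin 3) L →ₐ[L] L[X][X]) P ∈
          (Ideal.span {X - C (∑ j : Fin r, C (a j) * X ^ (j : ℕ)), C ((X - C c) ^ r)} :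
            Ideal L[X][X]) ^ m →
        MvPolynomial.eval₂Hom inc U (MvPolynomial.rename cyc P) ∈ I1 → P = 0 := by
  obtain ⟨c, q, hq, hle⟩ := graph_ideal inc (V * U 1) (V * U 2) ψ hinc hx r
  refine ⟨c, fun j => q.coeff j, ?_⟩
  intro P hP hIP hP1
  by_contra hne
  have hqs : (∑ j : Fin r, C (q.coeff j) * X ^ (j : ℕ) : L[X]) = q := by
    rw [Fin.sum_univ_eq_sum_range (fun j => C (q.coeff j) * X ^ j : ℕ → L[X]) r]
    by_cases hq0 : q = 0
    · rw [hq0]; simp
    · exact (as_sum_range_C_mul_X_pow' _ ((natDegree_lt_iff_degree_lt hq0).2 hq)).symm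
  rw [hqs] at hIP
  have h2 := transfer0 ψ (eval₂RingHom (eval₂RingHom inc (V * U 1)) (V * U 2))
    (Ideal.pow_right_mono hle m hIP)
  have hhom : (MvPolynomial.rename cyc P).IsHomogeneous d := hP.rename_isHomogeneous
  rw [cyc_eq inc U hV, Pool.Agent.TH716.CF.eval_smul hhom] at h2
  refine hE _ hhom ?_ ?_ hP1
  · intro h3
    exact hne (MvPolynomial.rename_injective _ cyc.injective (by rw [h3, map_zero]))
  · have h4 : MvPolynomial.eval₂Hom inc U (MvPolynomial.rename cyc P) =
        U 0 ^ d * (V ^ d * MvPolynomial.eval₂Hom inc U (MvPolynomial.rename cyc P)) := by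
      rw [← mul_assoc, ← mul_pow, mul_comm (U 0) V, hV, one_pow, one_mul]
    rw [h4]
    exact I.mul_mem_left _ (hI h2)

end generic

/-- a collision and one simple point -/
theorem key_coll1 {p : ℕ} {r m d : ℕ} {τ : ℝ} (h0 : 0 < τ) (h1 : τ < 1)
    (h : EmpG p (fun b : Bool => if b then r else 1) (fun b => if b then m else 1) (Tri d τ)) :
    ∃ (L : Type) (_ : Field L) (_ : CharP L p) (c : L) (a : Fin r → L)
      (ρ : MvPolynomial (Fin 3) L →+* L), (∀ t, ρ (MvPolynomial.C t) = t) ∧
      ∀ P : MvPolynomial (Fin 3) L, P.IsHomogeneous d →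
        deh L P ∈ jetIdeal m c a → ρ P = 0 → P = 0 := by
  obtain ⟨K, _, _, φ', hφ', hE⟩ := key_general h0 h1 h
  have hφ : IsGerm (φ' true) := hφ' true
  have hφ1 : IsGerm (φ' false) := hφ' false
  obtain ⟨V, hV⟩ : ∃ V : HR K, V * tube K τ (3 * d + 4) 0 = 1 := by
    rw [tube_zero]
    obtain ⟨u, hu⟩ := theta0_isUnit (K := K) h0 h1
    exact ⟨↑u⁻¹, by rw [← hu]; exact Units.inv_mul u⟩
  have hx : PowerSeries.coeff 1 (hat (φ' true) (V * tube K τ (3 * d + 4) 1)) ≠ 0 := by
    rw [tube_one]
    exact x_der_ne h0 h1 hφ (by rw [← tube_zero K τ (3 * d + 4)]; exact hV)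
  have hle : J (hat (φ' true)) r ^ m ≤ CI (J (φ' true) r ^ m) := by
    rw [J_hat]
    exact CI_pow_le _ _
  obtain ⟨c, a, hca⟩ := coll_gen1 (d := d) incl (tube K τ (3 * d + 4)) hV (hat (φ' true))
    (hat_incl hφ.const) hx (I := CI (J (φ' true) r ^ m)) (I1 := CI (J (φ' false) 1)) hle
    (fun g hg hne hmem hmem1 => hE g hg hne fun i b => by
      cases i
      · simp only [Bool.false_eq_true, if_false, pow_one]
        exact hmem1 b
      · simp only [if_true]
        exact hmem b)
  refine ⟨HK K, inferInstance, inferInstance, c, a,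
    (PowerSeries.constantCoeff (R := HK K)).comp ((hat (φ' false)).comp
      ((MvPolynomial.eval₂Hom incl (tube K τ (3 * d + 4))).comp
        (MvPolynomial.rename cyc : MvPolynomial (Fin 3) (HK K) →ₐ[HK K]
          MvPolynomial (ZMod 3) (HK K)).toRingHom)), ?_, ?_⟩
  · intro t
    rw [RingHom.comp_apply, RingHom.comp_apply, RingHom.comp_apply]
    have e1 : (MvPolynomial.rename cyc : MvPolynomial (Fin 3) (HK K) →ₐ[HK K]
          MvPolynomial (ZMod 3) (HK K)).toRingHom (MvPolynomial.C t) = MvPolynomial.C t :=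
      MvPolynomial.rename_C _ _
    rw [e1, MvPolynomial.coe_eval₂Hom, MvPolynomial.eval₂_C, hat_incl hφ1.const,
      PowerSeries.constantCoeff_C]
  · intro P hP hP1 hP2
    refine hca P hP hP1 ?_
    rw [← J_hat]
    have h3 : PowerSeries.constantCoeff (hat (φ' false) (MvPolynomial.eval₂Hom incl
      (tube K τ (3 * d + 4)) (MvPolynomial.rename cyc P))) = 0 := hP2
    have h4 : (PowerSeries.X : PowerSeries (HK K)) ∣ hat (φ' false) (MvPolynomial.eval₂Hom incl
      (tube K τ (3 * d + 4)) (MvPolynomial.rename cyc P)) := PowerSeries.X_dvd_iff.2 h3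
    unfold J
    rw [Ideal.mem_comap, Ideal.mem_span_singleton, pow_one]
    exact h4

universe u v

/-- one coordinate determines the elements -/
theorem exists_coord {K : Type v} [Field K] {r m d : ℕ} {c0 : K} {a0 : Fin r → K}
    {ρ : MvPolynomial (Fin 3) K →+* K} (hρ : ∀ t, ρ (MvPolynomial.C t) = t)
    (h : ∀ P : MvPolynomial (Fin 3) K, P.IsHomogeneous d → deh K P ∈ jetIdeal m c0 a0 → ρ P = 0 →
      P = 0) : ∃ s0 : Fin (Tfin d).card, ∀ v : Fin (Tfin d).card → K,
        (∑ s, v s • mon K (enumM (Tfin d) s)) ∈ jetIdeal m c0 a0 → v s0 = 0 → v = 0 := by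
  have hcard : 0 < (Tfin d).card := by
    apply Finset.card_pos.2
    refine ⟨(0, 0), ?_⟩
    have : ((0, 0) : ℕ × ℕ) ∈ (↑(Tfin d) : Set (ℕ × ℕ)) := by
      rw [coe_Tfin]
      exact Nat.zero_le d
    exact_mod_cast this
  have hP : ∀ v : Fin (Tfin d).card → K, ∃ P : MvPolynomial (Fin 3) K, P.IsHomogeneous d ∧
      deh K P = ∑ s, v s • mon K (enumM (Tfin d) s) := by
    intro v
    have h1 : ∑ i, v i • mon K (enumM (Tfin d) i) ∈ mspan K (Tset d) := by
      rw [← coe_Tfin]
      exact Submodule.sum_mem _ fun i _ => Submodule.smul_mem _ _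
        (Submodule.subset_span ⟨_, enumM_mem (Tfin d) i, rfl⟩)
    obtain ⟨F, hF, hF'⟩ := exists_form h1
    exact ⟨F, hF, hF'⟩
  by_cases hz : ∀ v : Fin (Tfin d).card → K,
      (∑ s, v s • mon K (enumM (Tfin d) s)) ∈ jetIdeal m c0 a0 → v = 0
  · exact ⟨⟨0, hcard⟩, fun v hv _ => hz v hv⟩
  push Not at hz
  obtain ⟨v0, hv0, hne⟩ := hz
  obtain ⟨s0, hs0⟩ : ∃ s0, v0 s0 ≠ 0 := by
    by_contra hcon
    push Not at hcon
    exact hne (funext hcon)
  refine ⟨s0, fun v hv hvs => ?_⟩
  obtain ⟨P0, hP0, hP0'⟩ := hP v0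
  obtain ⟨P, hP1, hP1'⟩ := hP v
  have hρ0 : ρ P0 ≠ 0 := by
    intro h0
    apply hne
    have h1 := h P0 hP0 (by rw [hP0']; exact hv0) h0
    rw [h1, map_zero] at hP0'
    exact funext fun i => mspan_eq_zero v0 hP0'.symm i
  have hcomb : MvPolynomial.C (ρ P0) * P - MvPolynomial.C (ρ P) * P0 = 0 := by
    apply h
    · exact (hP1.C_mul _).sub (hP0.C_mul _)
    · rw [map_sub, map_mul, map_mul]
      refine Ideal.sub_mem _ (Ideal.mul_mem_left _ _ ?_) (Ideal.mul_mem_left _ _ ?_)
      · rw [hP1']; exact hv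
      · rw [hP0']; exact hv0
    · rw [map_sub, map_mul, map_mul, hρ, hρ]
      ring
  have hdeh : ∑ s, (ρ P0 * v s - ρ P * v0 s) • mon K (enumM (Tfin d) s) = 0 := by
    have h1 := congrArg (deh K) hcomb
    rw [map_sub, map_zero, ← MvPolynomial.smul_eq_C_mul, ← MvPolynomial.smul_eq_C_mul, map_smul,
      map_smul, hP1', hP0', Finset.smul_sum, Finset.smul_sum, ← Finset.sum_sub_distrib] at h1
    rw [← h1]
    refine Finset.sum_congr rfl fun s _ => ?_
    rw [sub_smul, mul_smul, mul_smul]
  have hs : ∀ s, ρ P0 * v s = ρ P * v0 s := fun s => sub_eq_zero.1 (mspan_eq_zero _ hdeh s)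
  have hρP : ρ P = 0 := by
    have h1 := hs s0
    rw [hvs, mul_zero] at h1
    exact (mul_eq_zero.1 h1.symm).resolve_right hs0
  funext s
  have h1 := hs s
  rw [hρP, zero_mul] at h1
  exact (mul_eq_zero.1 h1).resolve_left hρ0

/-- the transfer to general collisions -/
theorem coll_transfer1 {K : Type v} [Field K] {L : Type u} [Field L] (p : ℕ) [CharP K p]
    [CharP L p] {r m d : ℕ} {c0 : K} {a0 : Fin r → K} {s0 : Fin (Tfin d).card}
    (h : ∀ v : Fin (Tfin d).card → K,
        (∑ s, v s • mon K (enumM (Tfin d) s)) ∈ jetIdeal m c0 a0 → v s0 = 0 → v = 0) :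
    ∃ F : MvPolynomial (Fin (r + 1)) L, F ≠ 0 ∧
      ∀ (c : L) (a : Fin r → L), MvPolynomial.eval (Fin.cons c a : Fin (r + 1) → L) F ≠ 0 →
        ∀ v : Fin (Tfin d).card → L,
        (∑ s, v s • mon L (enumM (Tfin d) s)) ∈ jetIdeal m c a → v s0 = 0 → v = 0 := by
  classical
  obtain ⟨b, hb⟩ := Pool.Agent.TH15.Nag.exists_rows
    (fun (q : Option (EE r m)) (s : Fin (Tfin d).card) =>
      match q with
      | some q => MvPolynomial.aeval (Fin.cons c0 a0 : Fin (r + 1) → K)
          (entC r q.1 (enumM (Tfin d) s))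
      | none => if s = s0 then 1 else 0) (by
    intro v hv
    apply h v
    · rw [mem_jetIdeal]
      exact fun q => hv (some q)
    · have h1 := hv none
      simp only [ite_mul, one_mul, zero_mul, Finset.sum_ite_eq', Finset.mem_univ, if_true] at h1
      exact h1)
  let G : Option (EE r m) → Fin (Tfin d).card → MvPolynomial (Fin (r + 1)) ℤ := fun q s =>
    match q with
    | some q => entC r q.1 (enumM (Tfin d) s)
    | none => if s = s0 then 1 else 0
  let D : MvPolynomial (Fin (r + 1)) ℤ :=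
    (Matrix.of fun (j s : Fin (Tfin d).card) => G (b j) s).det
  have hGK : ∀ (q : Option (EE r m)) (s : Fin (Tfin d).card),
      MvPolynomial.aeval (Fin.cons c0 a0 : Fin (r + 1) → K) (G q s) = (match q with
      | some q => MvPolynomial.aeval (Fin.cons c0 a0 : Fin (r + 1) → K)
          (entC r q.1 (enumM (Tfin d) s))
      | none => if s = s0 then 1 else 0) := by
    intro q s
    rcases q with _ | q
    · simp only [G]
      split_ifs <;> simp
    · rfl
  have hDK : MvPolynomial.aeval (Fin.cons c0 a0 : Fin (r + 1) → K) D ≠ 0 := by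
    intro h0
    apply hb
    refine Eq.trans ?_ h0
    show _ = (MvPolynomial.aeval (Fin.cons c0 a0 : Fin (r + 1) → K)) (Matrix.det _)
    rw [AlgHom.map_det]
    congr 1
    ext j s
    exact (hGK (b j) s).symm
  refine ⟨MvPolynomial.map (Int.castRingHom L) D, ?_, fun c a hc => ?_⟩
  · intro h1
    apply hDK
    have h2 : ∀ α, ((MvPolynomial.coeff α D : ℤ) : K) = 0 := by
      intro α
      have h3 := congrArg (MvPolynomial.coeff α) h1
      rw [MvPolynomial.coeff_map, MvPolynomial.coeff_zero, eq_intCast,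
        CharP.intCast_eq_zero_iff L p] at h3
      rw [CharP.intCast_eq_zero_iff K p]
      exact h3
    have h3 : MvPolynomial.map (Int.castRingHom K) D = 0 := by
      ext α
      rw [MvPolynomial.coeff_map, MvPolynomial.coeff_zero]
      exact h2 α
    have h4 : MvPolynomial.aeval (Fin.cons c0 a0 : Fin (r + 1) → K) D =
        MvPolynomial.eval (Fin.cons c0 a0 : Fin (r + 1) → K)
          (MvPolynomial.map (Int.castRingHom K) D) := by
      rw [MvPolynomial.eval_map, MvPolynomial.aeval_def]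
      congr 1
    rw [h4, h3, map_zero]
  · have hdet : (Matrix.of fun (j s : Fin (Tfin d).card) =>
        MvPolynomial.aeval (Fin.cons c a : Fin (r + 1) → L) (G (b j) s)).det ≠ 0 := by
      intro h0
      apply hc
      have h4 : MvPolynomial.eval (Fin.cons c a : Fin (r + 1) → L)
          (MvPolynomial.map (Int.castRingHom L) D) =
          MvPolynomial.aeval (Fin.cons c a : Fin (r + 1) → L) D := by
        rw [MvPolynomial.eval_map, MvPolynomial.aeval_def]
        congr 1
      rw [h4, ← h0]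
      show (MvPolynomial.aeval (Fin.cons c a : Fin (r + 1) → L)) (Matrix.det _) = _
      rw [AlgHom.map_det]
      rfl
    intro v hv hvs
    rw [mem_jetIdeal] at hv
    apply Matrix.eq_zero_of_mulVec_eq_zero hdet
    funext j
    rw [Matrix.mulVec, dotProduct, Pi.zero_apply]
    rcases hbj : b j with _ | q
    · have e1 : ∀ s, (Matrix.of fun (j s : Fin (Tfin d).card) =>
          MvPolynomial.aeval (Fin.cons c a : Fin (r + 1) → L) (G (b j) s)) j s =
          if s = s0 then 1 else 0 := by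
        intro s
        rw [Matrix.of_apply, hbj]
        simp only [G]
        split_ifs <;> simp
      simp only [e1, ite_mul, one_mul, zero_mul, Finset.sum_ite_eq', Finset.mem_univ, if_true]
      exact hvs
    · have e1 : ∀ s, (Matrix.of fun (j s : Fin (Tfin d).card) =>
          MvPolynomial.aeval (Fin.cons c a : Fin (r + 1) → L) (G (b j) s)) j s =
          MvPolynomial.aeval (Fin.cons c a : Fin (r + 1) → L) (entC r q.1 (enumM (Tfin d) s)) := by
        intro s
        rw [Matrix.of_apply, hbj]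
      simp only [e1]
      exact hv q

end Pool.Agent.U11
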