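import Mathlib

/-! The limit of the moments of the columns of the two corners. -/

set_option autoImplicit false

namespace Pool.Agent.U11.Core

open Finset Polynomial Filter Topology

theorem alt_conv (k : ℕ) (f : ℝ → ℝ) :
    ∑ t ∈ range (k + 1), (-1 : ℝ) ^ t * (k.choose t : ℝ) * f (t : ℝ) =
      (-1 : ℝ) ^ k * ∑ t ∈ range (k + 1), ((-1 : ℤ) ^ (k - t) * (k.choose t : ℤ)) •
        f ((0 : ℝ) + t • (1 : ℝ)) := by
  rw [mul_sum]
  apply sum_congr rfl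
  intro t ht
  rw [mem_range] at ht
  have e : (-1 : ℝ) ^ t = (-1) ^ k * (-1) ^ (k - t) := by
    rw [← pow_add]
    have e1 : k + (k - t) = t + 2 * (k - t) := by omega
    rw [e1, pow_add, pow_mul]
    simp
  rw [e, zsmul_eq_mul]
  push_cast
  simp only [nsmul_eq_mul, mul_one, zero_add]
  ring

/-- alternating binomial sums kill polynomials of small degree -/
theorem alt_zero (k : ℕ) (f : ℝ[X]) (hf : f.natDegree < k) :
    ∑ t ∈ range (k + 1), (-1 : ℝ) ^ t * (k.choose t : ℝ) * f.eval (t : ℝ) = 0 := by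
  have h1 := congrFun (Polynomial.fwdDiff_iter_eq_zero_of_degree_lt hf) (0 : ℝ)
  rw [fwdDiff_iter_eq_sum_shift] at h1
  rw [alt_conv k (fun y => f.eval y), h1]
  simp

theorem alt_fact (k : ℕ) :
    ∑ t ∈ range (k + 1), (-1 : ℝ) ^ t * (k.choose t : ℝ) * (t : ℝ) ^ k = (-1) ^ k * k.factorial := by
  have h1 := congrFun (fwdDiff_iter_eq_factorial (R := ℝ) (n := k)) (0 : ℝ)
  rw [fwdDiff_iter_eq_sum_shift] at h1
  rw [alt_conv k (fun y => y ^ k), h1]
  simp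

/-- the moment of index `c` in the sheared coordinate of a column, from the moments `Z a` of the
column; `τ` is the shift -/
noncomputable def shear (Z : ℕ → ℝ) (τ : ℝ) (c : ℕ) : ℝ :=
  ∑ a ∈ range (c + 1), (c.choose a : ℝ) * Z a * τ ^ (c - a)

theorem shear_succ (Z : ℕ → ℝ) (τ : ℝ) (c : ℕ) :
    shear Z τ c = ∑ a ∈ range c, (c.choose a : ℝ) * Z a * τ ^ (c - a) + Z c := by
  unfold shear
  rw [sum_range_succ]
  simp

/-- the limit moment -/
theorem shear_lim (w z τ : ℝ) (c : ℕ) : shear (fun a => w * z ^ a) τ c = w * (z + τ) ^ c := by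
  unfold shear
  rw [add_pow, mul_sum]
  apply sum_congr rfl
  intro a _
  ring

theorem shear_zero (τ : ℝ) (c : ℕ) : shear (fun _ => 0) τ c = 0 := by
  unfold shear
  simp

variable {ι : Type*} {l : Filter ι}

theorem tendsto_shear {Z : ι → ℕ → ℝ} {Z' : ℕ → ℝ} {τ : ι → ℝ} {τ' : ℝ} {c : ℕ}
    (hZ : ∀ a ≤ c, Tendsto (fun i => Z i a) l (𝓝 (Z' a))) (hτ : Tendsto τ l (𝓝 τ')) :
    Tendsto (fun i => shear (Z i) (τ i) c) l (𝓝 (shear Z' τ' c)) := by
  unfold shear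
  apply tendsto_finsetSum
  intro a ha
  rw [mem_range] at ha
  exact ((tendsto_const_nhds.mul (hZ a (by omega))).mul (hτ.pow _))

/-- the last moment from the sheared one -/
theorem tendsto_unshear {Z : ι → ℕ → ℝ} {Z' : ℕ → ℝ} {τ : ι → ℝ} {τ' : ℝ} {c : ℕ}
    (hZ : ∀ a < c, Tendsto (fun i => Z i a) l (𝓝 (Z' a))) (hτ : Tendsto τ l (𝓝 τ'))
    (h : Tendsto (fun i => shear (Z i) (τ i) c) l (𝓝 (shear Z' τ' c))) :
    Tendsto (fun i => Z i c) l (𝓝 (Z' c)) := by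
  have h1 : Tendsto (fun i => ∑ a ∈ range c, (c.choose a : ℝ) * Z i a * (τ i) ^ (c - a)) l
      (𝓝 (∑ a ∈ range c, (c.choose a : ℝ) * Z' a * τ' ^ (c - a))) := by
    apply tendsto_finsetSum
    intro a ha
    rw [mem_range] at ha
    exact ((tendsto_const_nhds.mul (hZ a ha)).mul (hτ.pow _))
  have h2 := h.sub h1
  rw [shear_succ] at h2
  have e : (∑ a ∈ range c, (c.choose a : ℝ) * Z' a * τ' ^ (c - a) + Z' c) -
      (∑ a ∈ range c, (c.choose a : ℝ) * Z' a * τ' ^ (c - a)) = Z' c := by ring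
  rw [e] at h2
  refine h2.congr ?_
  intro i
  rw [shear_succ]
  ring

/-- a column with few points -/
theorem tendsto_dead {Z : ι → ℕ → ℝ} {Z' : ℕ → ℝ} {c : ℕ} {P : ℝ[X]} (hP : P.Monic)
    (hPc : P.natDegree = c) (hZ : ∀ a < c, Tendsto (fun i => Z i a) l (𝓝 (Z' a)))
    (h : ∀ i, ∑ a ∈ range (c + 1), P.coeff a * Z i a = 0)
    (h' : ∑ a ∈ range (c + 1), P.coeff a * Z' a = 0) :
    Tendsto (fun i => Z i c) l (𝓝 (Z' c)) := by
  have hc : P.coeff c = 1 := by rw [← hPc]; exact hP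
  have h1 : Tendsto (fun i => -∑ a ∈ range c, P.coeff a * Z i a) l
      (𝓝 (-∑ a ∈ range c, P.coeff a * Z' a)) := by
    apply Tendsto.neg
    apply tendsto_finsetSum
    intro a ha
    rw [mem_range] at ha
    exact tendsto_const_nhds.mul (hZ a ha)
  rw [sum_range_succ, hc, one_mul] at h'
  have e : -∑ a ∈ range c, P.coeff a * Z' a = Z' c := by linarith
  rw [e] at h1
  refine h1.congr ?_
  intro i
  have h2 := h i
  rw [sum_range_succ, hc, one_mul] at h2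
  linarith

theorem shear_smul (r : ℝ) (Z : ℕ → ℝ) (τ : ℝ) (c : ℕ) :
    shear (fun a => r * Z a) τ c = r * shear Z τ c := by
  unfold shear
  rw [mul_sum]
  apply sum_congr rfl
  intro a _
  ring

/-- the weights of the limit functional -/
noncomputable def ww (k t : ℕ) : ℝ := (-1 : ℝ) ^ t * (k.choose t : ℝ)

/-- the system of the moments of the columns of the two corners -/
structure Sys (l : Filter ι) (k : ℕ) (q : ℕ → ℕ) (m θ : ι → ℝ) (θ' : ℝ)
    (X Y : ι → ℕ → ℕ → ℝ) : Prop where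
  q0 : ∀ c ≤ k, q c ≤ c
  qm : ∀ c c', c ≤ c' → c' ≤ k → q c ≤ q c'
  qs : ∀ c ≤ k, c - q c ≤ k - q k
  mp : ∀ i, 0 < m i
  mt : Tendsto m l atTop
  θt : Tendsto θ l (𝓝 θ')
  X0 : ∀ i, X i 0 0 = 1
  X0' : ∀ i c, 1 ≤ c → X i 0 c = 0
  Xc : ∀ t c, 1 ≤ t → t ≤ c → c ≤ k → ∃ P : ℝ[X], P.Monic ∧ P.natDegree = c ∧
    P.eval (t : ℝ) = 0 ∧ ∀ i, ∑ a ∈ range (c + 1), P.coeff a * X i t a = 0
  Yc : ∀ s c, s < c - q c → c ≤ k → ∃ P : ℝ[X], P.Monic ∧ P.natDegree = c ∧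
    ∀ i, ∑ a ∈ range (c + 1), P.coeff a * Y i s a = 0
  eq : ∀ i, ∀ c < k, ∀ p : ℝ[X], p.natDegree + 1 ≤ (k - c) + ((k - q k) - (c - q c)) →
    ∑ t ∈ range (k + 1), p.eval (t : ℝ) * shear (X i t) (-(θ i * t)) c +
      ∑ s ∈ range (k - q k), p.eval (m i - s) * shear (Y i s) (θ i * s) c = 0
  eqk : ∀ i, ∑ t ∈ range (k + 1), shear (X i t) (-(θ i * t)) k +
      ∑ s ∈ range (k - q k), shear (Y i s) (θ i * s) k = 0

theorem tendsto_prod_one {u : ι → ℝ} (hu : Tendsto u l (𝓝 0)) (S : Finset ℕ) (z : ℝ) :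
    Tendsto (fun i => ∏ a ∈ S, (1 - u i * (z + a))) l (𝓝 1) := by
  have h1 : Tendsto (fun i => ∏ a ∈ S, (1 - u i * (z + a))) l (𝓝 (∏ _a ∈ S, (1 : ℝ))) := by
    apply tendsto_finsetProd
    intro a _
    have h2 : Tendsto (fun i => 1 - u i * (z + a)) l (𝓝 (1 - 0 * (z + a))) :=
      tendsto_const_nhds.sub (hu.mul tendsto_const_nhds)
    simpa using h2
  simpa using h1

theorem tendsto_scale {m y : ι → ℝ} (hm : ∀ i, 0 < m i) (hu : Tendsto (fun i => (m i)⁻¹) l (𝓝 0))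
    {R R' : ℕ} (hR : R ≤ R') (h : Tendsto (fun i => (m i) ^ R' * y i) l (𝓝 0)) :
    Tendsto (fun i => (m i) ^ R * y i) l (𝓝 0) := by
  have h1 := h.mul (hu.pow (R' - R))
  rw [zero_mul] at h1
  refine h1.congr ?_
  intro i
  obtain ⟨j, rfl⟩ := Nat.exists_eq_add_of_le hR
  have h2 := (hm i).ne'
  rw [Nat.add_sub_cancel_left, pow_add, inv_pow]
  field_simp

end Pool.Agent.U11.Core
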