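import Pool.Agent.U11.Core

/-! The limit of the moments of the columns of the two corners, II. -/

set_option autoImplicit false

namespace Pool.Agent.U11.Core

open Finset Polynomial Filter Topology

variable {ι : Type*} {l : Filter ι}

namespace Sys

variable {k : ℕ} {q : ℕ → ℕ} {m θ : ι → ℝ} {θ' : ℝ} {X Y : ι → ℕ → ℕ → ℝ}

theorem ut (h : Sys l k q m θ θ' X Y) : Tendsto (fun i => (m i)⁻¹) l (𝓝 0) :=
  tendsto_inv_atTop_zero.comp h.mt

theorem left_alive (h : Sys l k q m θ θ' X Y) {c : ℕ} (hc : c < k) {t₀ : ℕ} (ht : c < t₀)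
    (htk : t₀ ≤ k)
    (hL : ∀ t ≤ c, Tendsto (fun i => shear (X i t) (-(θ i * t)) c) l
      (𝓝 (ww k t * ((t : ℝ) - θ' * t) ^ c)))
    (hR : ∀ s < c - q c, Tendsto (fun i => (m i) ^ (q k - q c) * shear (Y i s) (θ i * s) c) l
      (𝓝 0)) :
    Tendsto (fun i => shear (X i t₀) (-(θ i * t₀)) c) l
      (𝓝 (ww k t₀ * ((t₀ : ℝ) - θ' * t₀) ^ c)) := by
  classical
  obtain ⟨S, hS⟩ : ∃ S : Finset ℕ, S = (Ioc c k).erase t₀ := ⟨_, rfl⟩
  obtain ⟨T, hT⟩ : ∃ T : Finset ℕ, T = Ico (c - q c) (k - q k) := ⟨_, rfl⟩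
  have hSc : S.card + 1 = k - c := by
    rw [hS, card_erase_of_mem (mem_Ioc.2 ⟨ht, htk⟩), Nat.card_Ioc]
    omega
  have hTc : T.card = (k - q k) - (c - q c) := by
    rw [hT, Nat.card_Ico]
  have q1 := h.q0 c hc.le
  have q2 := h.q0 k le_rfl
  have q3 := h.qm c k hc.le le_rfl
  have q4 := h.qs c hc.le
  obtain ⟨p, hp⟩ : ∃ p : ι → ℝ[X], p = fun i => (∏ a ∈ S, (Polynomial.X - C (a : ℝ))) *
      ∏ a ∈ T, (1 - C (m i)⁻¹ * (Polynomial.X + C (a : ℝ))) := ⟨_, rfl⟩
  have hdeg1 : (∏ a ∈ S, ((Polynomial.X : ℝ[X]) - C (a : ℝ))).natDegree ≤ S.card := by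
    refine (natDegree_prod_le _ _).trans ?_
    simp only [natDegree_X_sub_C]
    simp
  have hdeg : ∀ i, (p i).natDegree + 1 ≤ (k - c) + ((k - q k) - (c - q c)) := by
    intro i
    have h2 : (∏ a ∈ T, ((1 : ℝ[X]) - C (m i)⁻¹ * (Polynomial.X + C (a : ℝ)))).natDegree ≤
        T.card := by
      refine (natDegree_prod_le _ _).trans ?_
      refine (sum_le_card_nsmul _ _ 1 ?_).trans (by simp)
      intro a _
      compute_degree
    have h3 : (p i).natDegree ≤ S.card + T.card := by
      rw [hp]
      exact natDegree_mul_le.trans (Nat.add_le_add hdeg1 h2)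
    omega
  have heval : ∀ i z, (p i).eval z = (∏ a ∈ S, (z - (a : ℝ))) *
      ∏ a ∈ T, (1 - (m i)⁻¹ * (z + a)) := by
    intro i z
    rw [hp]
    simp only [eval_mul, eval_prod, eval_sub, eval_X, eval_C, eval_one, eval_add]
  have hlim : ∀ z : ℝ, Tendsto (fun i => (p i).eval z) l (𝓝 (∏ a ∈ S, (z - (a : ℝ)))) := by
    intro z
    have h1 := (tendsto_const_nhds (x := ∏ a ∈ S, (z - (a : ℝ)))).mul
      (tendsto_prod_one h.ut T z)
    rw [mul_one] at h1
    refine h1.congr ?_
    intro i
    rw [heval]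
  -- the second sum
  have h2 : Tendsto (fun i => ∑ s ∈ range (k - q k), (p i).eval (m i - s) *
      shear (Y i s) (θ i * s) c) l (𝓝 0) := by
    have h3 : Tendsto (fun i => ∑ s ∈ range (k - q k), (p i).eval (m i - s) *
        shear (Y i s) (θ i * s) c) l (𝓝 (∑ _s ∈ range (k - q k), (0 : ℝ))) := by
      apply tendsto_finsetSum
      intro s hs
      rw [mem_range] at hs
      rcases Nat.lt_or_ge s (c - q c) with h4 | h4
      · have h5 := ((h.ut.mul (tendsto_prod_one h.ut S (s : ℝ))).mul
          (tendsto_const_nhds (x := ∏ a ∈ T, ((s : ℝ) - (a : ℝ))))).mul (hR s h4)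
        rw [mul_zero] at h5
        refine h5.congr ?_
        intro i
        have hm := (h.mp i).ne'
        rw [heval]
        have e1 : ∏ a ∈ S, (m i - (s : ℝ) - (a : ℝ)) =
            (m i) ^ S.card * ∏ a ∈ S, (1 - (m i)⁻¹ * ((s : ℝ) + a)) := by
          rw [← prod_const, ← prod_mul_distrib]
          apply prod_congr rfl
          intro a _
          field_simp
          ring
        have e2 : ∏ a ∈ T, (1 - (m i)⁻¹ * (m i - (s : ℝ) + a)) =
            ((m i)⁻¹) ^ T.card * ∏ a ∈ T, ((s : ℝ) - (a : ℝ)) := by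
          rw [← prod_const, ← prod_mul_distrib]
          apply prod_congr rfl
          intro a _
          field_simp
          ring
        rw [e1, e2]
        have e3 : (m i) ^ S.card * ((m i)⁻¹) ^ T.card = (m i)⁻¹ * (m i) ^ (q k - q c) := by
          have e4 : S.card + 1 = T.card + (q k - q c) := by omega
          rw [inv_pow]
          have e5 : (m i) ^ S.card * (m i) = (m i) ^ T.card * (m i) ^ (q k - q c) := by
            rw [← pow_succ, ← pow_add, e4]
          have hT0 : (m i) ^ T.card ≠ 0 := pow_ne_zero _ hm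
          field_simp
          linarith
        linear_combination -((∏ a ∈ S, (1 - (m i)⁻¹ * ((s : ℝ) + a))) *
          (∏ a ∈ T, ((s : ℝ) - (a : ℝ))) * shear (Y i s) (θ i * s) c) * e3
      · have h5 : ∀ i, (p i).eval (m i - s) = 0 := by
          intro i
          rw [heval]
          have h6 : ∏ a ∈ T, (1 - (m i)⁻¹ * (m i - (s : ℝ) + a)) = 0 := by
            apply prod_eq_zero (i := s)
            · rw [hT, mem_Ico]
              exact ⟨h4, hs⟩
            · have hm := (h.mp i).ne'
              rw [sub_add_cancel, inv_mul_cancel₀ hm, sub_self]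
          rw [h6, mul_zero]
        simp only [h5, zero_mul]
        exact tendsto_const_nhds
    simpa using h3
  -- the first sum
  have h3 : Tendsto (fun i => ∑ t ∈ (range (k + 1)).erase t₀, (p i).eval (t : ℝ) *
      shear (X i t) (-(θ i * t)) c) l (𝓝 (∑ t ∈ (range (k + 1)).erase t₀,
        (∏ a ∈ S, ((t : ℝ) - (a : ℝ))) * (ww k t * ((t : ℝ) - θ' * t) ^ c))) := by
    apply tendsto_finsetSum
    intro t ht'
    rw [mem_erase, mem_range] at ht'
    rcases Nat.lt_or_ge c t with h4 | h4
    · have h5 : ∏ a ∈ S, ((t : ℝ) - (a : ℝ)) = 0 := by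
        apply prod_eq_zero (i := t)
        · rw [hS, mem_erase, mem_Ioc]
          exact ⟨ht'.1, h4, by omega⟩
        · exact sub_self _
      have h6 : ∀ i, (p i).eval (t : ℝ) = 0 := by
        intro i
        rw [heval, h5, zero_mul]
      simp only [h5, h6, zero_mul]
      exact tendsto_const_nhds
    · exact (hlim _).mul (hL t h4)
  have hid : ∑ t ∈ range (k + 1), (∏ a ∈ S, ((t : ℝ) - (a : ℝ))) *
      (ww k t * ((t : ℝ) - θ' * t) ^ c) = 0 := by
    have h4 := alt_zero k ((∏ a ∈ S, ((Polynomial.X : ℝ[X]) - C (a : ℝ))) *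
      (C (1 - θ') * Polynomial.X) ^ c) (by
        refine lt_of_le_of_lt natDegree_mul_le ?_
        have h5 : ((C (1 - θ') * (Polynomial.X : ℝ[X])) ^ c).natDegree ≤ c := by
          refine natDegree_pow_le.trans ?_
          have h6 : (C (1 - θ') * (Polynomial.X : ℝ[X])).natDegree ≤ 1 := 
            (natDegree_C_mul_le _ _).trans natDegree_X_le
          calc c * (C (1 - θ') * (Polynomial.X : ℝ[X])).natDegree ≤ c * 1 :=
                Nat.mul_le_mul_left _ h6
            _ = c := mul_one _
        omega)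
    rw [← h4]
    apply sum_congr rfl
    intro t _
    unfold ww
    simp only [eval_mul, eval_prod, eval_sub, eval_X, eval_C, eval_pow]
    ring
  have ht0 : t₀ ∈ range (k + 1) := mem_range.2 (by omega)
  rw [← add_sum_erase _ _ ht0] at hid
  have h4 : Tendsto (fun i => (p i).eval (t₀ : ℝ) * shear (X i t₀) (-(θ i * t₀)) c) l
      (𝓝 ((∏ a ∈ S, ((t₀ : ℝ) - (a : ℝ))) * (ww k t₀ * ((t₀ : ℝ) - θ' * t₀) ^ c))) := by
    have h5 := (h3.add h2).neg
    have e : -(∑ t ∈ (range (k + 1)).erase t₀,
        (∏ a ∈ S, ((t : ℝ) - (a : ℝ))) * (ww k t * ((t : ℝ) - θ' * t) ^ c) + 0) =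
        (∏ a ∈ S, ((t₀ : ℝ) - (a : ℝ))) * (ww k t₀ * ((t₀ : ℝ) - θ' * t₀) ^ c) := by
      linarith
    rw [e] at h5
    refine h5.congr ?_
    intro i
    have h6 := h.eq i c hc (p i) (hdeg i)
    rw [← add_sum_erase _ _ ht0] at h6
    linarith
  have hne : ∏ a ∈ S, ((t₀ : ℝ) - (a : ℝ)) ≠ 0 := by
    rw [prod_ne_zero_iff]
    intro a ha
    rw [hS, mem_erase] at ha
    intro h5
    apply ha.1
    have : (t₀ : ℝ) = a := by linarith
    exact_mod_cast this.symm
  have h5 := h4.div (hlim (t₀ : ℝ)) hne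
  rw [mul_div_cancel_left₀ _ hne] at h5
  refine h5.congr' ?_
  filter_upwards [(hlim (t₀ : ℝ)).eventually_ne hne] with i hi
  simp only [Pi.div_apply]
  rw [mul_div_cancel_left₀ _ hi]

theorem right_alive (h : Sys l k q m θ θ' X Y) {c : ℕ} (hc : c < k) {s₀ : ℕ} (hs : c - q c ≤ s₀)
    (hsk : s₀ < k - q k)
    (hL : ∀ t ≤ c, ∃ z : ℝ, Tendsto (fun i => shear (X i t) (-(θ i * t)) c) l (𝓝 z))
    (hR : ∀ s < c - q c, Tendsto (fun i => (m i) ^ (q k - q c) * shear (Y i s) (θ i * s) c) l
      (𝓝 0)) :
    Tendsto (fun i => (m i) ^ (q k - q c) * shear (Y i s₀) (θ i * s₀) c) l (𝓝 0) := by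
  classical
  obtain ⟨S, hS⟩ : ∃ S : Finset ℕ, S = Ioc c k := ⟨_, rfl⟩
  obtain ⟨T, hT⟩ : ∃ T : Finset ℕ, T = (Ico (c - q c) (k - q k)).erase s₀ := ⟨_, rfl⟩
  have hSc : S.card = k - c := by rw [hS, Nat.card_Ioc]
  have hTc : T.card + 1 = (k - q k) - (c - q c) := by
    rw [hT, card_erase_of_mem (mem_Ico.2 ⟨hs, hsk⟩), Nat.card_Ico]
    omega
  have q1 := h.q0 c hc.le
  have q2 := h.q0 k le_rfl
  have q3 := h.qm c k hc.le le_rfl
  have q4 := h.qs c hc.le
  obtain ⟨p, hp⟩ : ∃ p : ι → ℝ[X], p = fun i =>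
      (∏ a ∈ S, (C (m i)⁻¹ * (Polynomial.X - C (a : ℝ)))) *
      ∏ a ∈ T, (Polynomial.X - C (m i - (a : ℝ))) := ⟨_, rfl⟩
  have hdeg : ∀ i, (p i).natDegree + 1 ≤ (k - c) + ((k - q k) - (c - q c)) := by
    intro i
    have h1 : (∏ a ∈ S, (C (m i)⁻¹ * ((Polynomial.X : ℝ[X]) - C (a : ℝ)))).natDegree ≤
        S.card := by
      refine (natDegree_prod_le _ _).trans ?_
      refine (sum_le_card_nsmul _ _ 1 ?_).trans (by simp)
      intro a _
      compute_degree
    have h2 : (∏ a ∈ T, ((Polynomial.X : ℝ[X]) - C (m i - (a : ℝ)))).natDegree ≤ T.card := by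
      refine (natDegree_prod_le _ _).trans ?_
      simp only [natDegree_X_sub_C]
      simp
    have h3 : (p i).natDegree ≤ S.card + T.card := by
      rw [hp]
      exact natDegree_mul_le.trans (Nat.add_le_add h1 h2)
    omega
  have heval : ∀ i z, (p i).eval z = (∏ a ∈ S, ((m i)⁻¹ * (z - (a : ℝ)))) *
      ∏ a ∈ T, (z - (m i - a)) := by
    intro i z
    rw [hp]
    simp only [eval_mul, eval_prod, eval_sub, eval_X, eval_C]
  -- the values at the right columns
  have hev : ∀ i (s : ℕ), (p i).eval (m i - s) = (∏ a ∈ S, (1 - (m i)⁻¹ * ((s : ℝ) + a))) *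
      ∏ a ∈ T, ((a : ℝ) - s) := by
    intro i s
    have hm := (h.mp i).ne'
    rw [heval]
    congr 1
    · apply prod_congr rfl
      intro a _
      field_simp
      ring
    · apply prod_congr rfl
      intro a _
      ring
  have hlim : ∀ s : ℕ, Tendsto (fun i => (p i).eval (m i - s)) l
      (𝓝 (∏ a ∈ T, ((a : ℝ) - s))) := by
    intro s
    have h1 := (tendsto_prod_one h.ut S (s : ℝ)).mul
      (tendsto_const_nhds (x := ∏ a ∈ T, ((a : ℝ) - s)))
    rw [one_mul] at h1
    refine h1.congr ?_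
    intro i
    rw [hev]
  -- the first sum
  have h2 : Tendsto (fun i => ∑ t ∈ range (k + 1), (m i) ^ (q k - q c) * ((p i).eval (t : ℝ) *
      shear (X i t) (-(θ i * t)) c)) l (𝓝 0) := by
    have h3 : Tendsto (fun i => ∑ t ∈ range (k + 1), (m i) ^ (q k - q c) *
        ((p i).eval (t : ℝ) * shear (X i t) (-(θ i * t)) c)) l
        (𝓝 (∑ _t ∈ range (k + 1), (0 : ℝ))) := by
      apply tendsto_finsetSum
      intro t ht
      rw [mem_range] at ht
      rcases Nat.lt_or_ge c t with h4 | h4
      · have h5 : ∀ i, (p i).eval (t : ℝ) = 0 := by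
          intro i
          rw [heval]
          have h6 : ∏ a ∈ S, ((m i)⁻¹ * ((t : ℝ) - (a : ℝ))) = 0 := by
            apply prod_eq_zero (i := t)
            · rw [hS, mem_Ioc]
              exact ⟨h4, by omega⟩
            · rw [sub_self, mul_zero]
          rw [h6, zero_mul]
        simp only [h5, zero_mul, mul_zero]
        exact tendsto_const_nhds
      · obtain ⟨z, hz⟩ := hL t h4
        have h5 := ((h.ut.mul (tendsto_prod_one h.ut T (t : ℝ))).mul
          (tendsto_const_nhds (x := (-1 : ℝ) ^ T.card * ∏ a ∈ S, ((t : ℝ) - (a : ℝ))))).mul hz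
        rw [zero_mul, zero_mul, zero_mul] at h5
        refine h5.congr ?_
        intro i
        have hm := (h.mp i).ne'
        rw [heval]
        have e1 : ∏ a ∈ S, ((m i)⁻¹ * ((t : ℝ) - (a : ℝ))) =
            ((m i)⁻¹) ^ S.card * ∏ a ∈ S, ((t : ℝ) - (a : ℝ)) := by
          rw [prod_mul_distrib, prod_const]
        have e2 : ∏ a ∈ T, ((t : ℝ) - (m i - a)) =
            (-1 : ℝ) ^ T.card * ((m i) ^ T.card * ∏ a ∈ T, (1 - (m i)⁻¹ * ((t : ℝ) + a))) := by
          rw [← prod_const, ← prod_const, ← prod_mul_distrib, ← prod_mul_distrib]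
          apply prod_congr rfl
          intro a _
          field_simp
          ring
        rw [e1, e2]
        have e3 : (m i) ^ (q k - q c) * ((m i)⁻¹) ^ S.card * (m i) ^ T.card = (m i)⁻¹ := by
          have e4 : S.card = T.card + (q k - q c) + 1 := by omega
          rw [inv_pow, e4, pow_succ, pow_add]
          have h6 : (m i) ^ T.card ≠ 0 := pow_ne_zero _ hm
          have h7 : (m i) ^ (q k - q c) ≠ 0 := pow_ne_zero _ hm
          field_simp
        linear_combination -((∏ a ∈ T, (1 - (m i)⁻¹ * ((t : ℝ) + a))) * ((-1 : ℝ) ^ T.card *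
          ∏ a ∈ S, ((t : ℝ) - (a : ℝ))) * shear (X i t) (-(θ i * t)) c) * e3
    simpa using h3
  -- the second sum
  have h3 : Tendsto (fun i => ∑ s ∈ (range (k - q k)).erase s₀, (p i).eval (m i - s) *
      ((m i) ^ (q k - q c) * shear (Y i s) (θ i * s) c)) l (𝓝 0) := by
    have h4 : Tendsto (fun i => ∑ s ∈ (range (k - q k)).erase s₀, (p i).eval (m i - s) *
        ((m i) ^ (q k - q c) * shear (Y i s) (θ i * s) c)) l
        (𝓝 (∑ _s ∈ (range (k - q k)).erase s₀, (0 : ℝ))) := by
      apply tendsto_finsetSum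
      intro s hs'
      rw [mem_erase, mem_range] at hs'
      rcases Nat.lt_or_ge s (c - q c) with h4 | h4
      · have h5 := (hlim s).mul (hR s h4)
        rw [mul_zero] at h5
        exact h5
      · have h5 : ∀ i, (p i).eval (m i - s) = 0 := by
          intro i
          rw [hev]
          have h6 : ∏ a ∈ T, ((a : ℝ) - s) = 0 := by
            apply prod_eq_zero (i := s)
            · rw [hT, mem_erase, mem_Ico]
              exact ⟨hs'.1, h4, hs'.2⟩
            · exact sub_self _
          rw [h6, mul_zero]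
        simp only [h5, zero_mul]
        exact tendsto_const_nhds
    simpa using h4
  have hs0 : s₀ ∈ range (k - q k) := mem_range.2 hsk
  have h4 : Tendsto (fun i => (p i).eval (m i - s₀) *
      ((m i) ^ (q k - q c) * shear (Y i s₀) (θ i * s₀) c)) l (𝓝 0) := by
    have h5 := (h2.add h3).neg
    rw [add_zero, neg_zero] at h5
    refine h5.congr ?_
    intro i
    have h6 := h.eq i c hc (p i) (hdeg i)
    rw [← add_sum_erase _ _ hs0] at h6
    have h7 : ∑ t ∈ range (k + 1), (m i) ^ (q k - q c) * ((p i).eval (t : ℝ) *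
        shear (X i t) (-(θ i * t)) c) = (m i) ^ (q k - q c) *
        ∑ t ∈ range (k + 1), (p i).eval (t : ℝ) * shear (X i t) (-(θ i * t)) c := by
      rw [mul_sum]
    have h8 : ∑ s ∈ (range (k - q k)).erase s₀, (p i).eval (m i - s) *
        ((m i) ^ (q k - q c) * shear (Y i s) (θ i * s) c) = (m i) ^ (q k - q c) *
        ∑ s ∈ (range (k - q k)).erase s₀, (p i).eval (m i - s) *
          shear (Y i s) (θ i * s) c := by
      rw [mul_sum]
      apply sum_congr rfl
      intro s _
      ring
    rw [h7, h8]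
    linear_combination -(m i) ^ (q k - q c) * h6
  have hne : ∏ a ∈ T, ((a : ℝ) - s₀) ≠ 0 := by
    rw [prod_ne_zero_iff]
    intro a ha
    rw [hT, mem_erase] at ha
    intro h5
    apply ha.1
    have : (a : ℝ) = s₀ := by linarith
    exact_mod_cast this
  have h5 := h4.div (hlim s₀) hne
  rw [zero_div] at h5
  refine h5.congr' ?_
  filter_upwards [(hlim s₀).eventually_ne hne] with i hi
  simp only [Pi.div_apply]
  rw [mul_div_cancel_left₀ _ hi]

/-- the induction -/
theorem claim (h : Sys l k q m θ θ' X Y) : ∀ c ≤ k,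
    (∀ t ≤ k, Tendsto (fun i => X i t c) l (𝓝 (ww k t * (t : ℝ) ^ c))) ∧
    (∀ s < k - q k, Tendsto (fun i => (m i) ^ (q k - q c) * Y i s c) l (𝓝 0)) := by
  intro c
  induction c using Nat.strong_induction_on with
  | _ c ih =>
    intro hck
    -- the dead columns
    have hdL : ∀ t ≤ c, Tendsto (fun i => X i t c) l (𝓝 (ww k t * (t : ℝ) ^ c)) := by
      intro t htc
      rcases Nat.eq_zero_or_pos t with h1 | h1
      · subst h1
        rcases Nat.eq_zero_or_pos c with h2 | h2
        · subst h2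
          simp only [h.X0]
          have : ww k 0 * ((0 : ℕ) : ℝ) ^ 0 = 1 := by unfold ww; simp
          rw [this]
          exact tendsto_const_nhds
        · have h3 : ∀ i, X i 0 c = 0 := fun i => h.X0' i c h2
          simp only [h3]
          have : ww k 0 * ((0 : ℕ) : ℝ) ^ c = 0 := by
            rw [Nat.cast_zero, zero_pow (by omega), mul_zero]
          rw [this]
          exact tendsto_const_nhds
      · obtain ⟨P, hP1, hP2, hP3, hP4⟩ := h.Xc t c h1 htc hck
        refine tendsto_dead (Z := fun i a => X i t a) (Z' := fun a => ww k t * (t : ℝ) ^ a)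
          hP1 hP2 (fun a ha => (ih a ha (by omega)).1 t (by omega)) hP4 ?_
        rw [eval_eq_sum_range' (n := c + 1) (by omega)] at hP3
        have : ∑ a ∈ range (c + 1), P.coeff a * (ww k t * (t : ℝ) ^ a) =
            ww k t * ∑ a ∈ range (c + 1), P.coeff a * (t : ℝ) ^ a := by
          rw [mul_sum]
          apply sum_congr rfl
          intro a _
          ring
        rw [this, hP3, mul_zero]
    have hlow : ∀ s < k - q k, ∀ a < c, Tendsto (fun i => (m i) ^ (q k - q c) * Y i s a) l (𝓝 0) := by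
      intro s hs a ha
      have h1 := h.qm a c ha.le hck
      exact tendsto_scale h.mp h.ut (by omega) ((ih a ha (by omega)).2 s hs)
    have hdR : ∀ s < c - q c, Tendsto (fun i => (m i) ^ (q k - q c) * Y i s c) l (𝓝 0) := by
      intro s hs
      obtain ⟨P, hP1, hP2, hP4⟩ := h.Yc s c hs hck
      have hs' : s < k - q k := lt_of_lt_of_le hs (h.qs c hck)
      refine tendsto_dead (Z := fun i a => (m i) ^ (q k - q c) * Y i s a) (Z' := fun _ => 0)
          hP1 hP2 (fun a ha => hlow s hs' a ha) ?_ (by simp)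
      intro i
      have : ∑ a ∈ range (c + 1), P.coeff a * ((m i) ^ (q k - q c) * Y i s a) =
          (m i) ^ (q k - q c) * ∑ a ∈ range (c + 1), P.coeff a * Y i s a := by
        rw [mul_sum]
        apply sum_congr rfl
        intro a _
        ring
      rw [this, hP4 i, mul_zero]
    have hτL : ∀ t : ℕ, Tendsto (fun i => -(θ i * t)) l (𝓝 (-(θ' * t))) := fun t =>
      (h.θt.mul tendsto_const_nhds).neg
    have hτR : ∀ s : ℕ, Tendsto (fun i => θ i * s) l (𝓝 (θ' * s)) := fun s =>
      h.θt.mul tendsto_const_nhds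
    have hsL : ∀ t ≤ c, Tendsto (fun i => shear (X i t) (-(θ i * t)) c) l
        (𝓝 (ww k t * ((t : ℝ) - θ' * t) ^ c)) := by
      intro t htc
      have h1 := tendsto_shear (Z := fun i => X i t) (Z' := fun a => ww k t * (t : ℝ) ^ a)
        (c := c) (by
          intro a ha
          rcases Nat.eq_or_lt_of_le ha with h2 | h2
          · subst h2
            exact hdL t htc
          · exact (ih a h2 (by omega)).1 t (by omega)) (hτL t)
      rw [shear_lim, ← sub_eq_add_neg] at h1
      exact h1
    have hsR : ∀ s < c - q c, Tendsto (fun i => (m i) ^ (q k - q c) *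
        shear (Y i s) (θ i * s) c) l (𝓝 0) := by
      intro s hs
      have hs' : s < k - q k := lt_of_lt_of_le hs (h.qs c hck)
      have h1 := tendsto_shear (Z := fun i a => (m i) ^ (q k - q c) * Y i s a)
        (Z' := fun _ => 0) (c := c) (by
          intro a ha
          rcases Nat.eq_or_lt_of_le ha with h2 | h2
          · subst h2
            exact hdR s hs
          · exact hlow s hs' a h2) (hτR s)
      rw [shear_zero] at h1
      refine h1.congr ?_
      intro i
      rw [shear_smul]
    constructor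
    · intro t htk
      rcases Nat.lt_or_ge c t with h1 | h1
      · have hck' : c < k := by omega
        refine tendsto_unshear (Z := fun i => X i t) (Z' := fun a => ww k t * (t : ℝ) ^ a)
          (fun a ha => (ih a ha (by omega)).1 t htk) (hτL t) ?_
        rw [shear_lim, ← sub_eq_add_neg]
        exact h.left_alive hck' h1 htk hsL hsR
      · exact hdL t h1
    · intro s hsk
      rcases Nat.lt_or_ge s (c - q c) with h1 | h1
      · exact hdR s h1
      · have hck' : c < k := by
          rcases Nat.eq_or_lt_of_le hck with h2 | h2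
          · subst h2
            omega
          · exact h2
        refine tendsto_unshear (Z := fun i a => (m i) ^ (q k - q c) * Y i s a)
          (Z' := fun _ => 0) (fun a ha => hlow s hsk a ha) (hτR s) ?_
        rw [shear_zero]
        refine (h.right_alive hck' h1 hsk (fun t ht => ⟨_, hsL t ht⟩) hsR).congr ?_
        intro i
        rw [shear_smul]

/-- **there is no such system** -/
theorem false [l.NeBot] (h : Sys l k q m θ θ' X Y) (hθ : θ' ≠ 1) : False := by
  have hτL : ∀ t : ℕ, Tendsto (fun i => -(θ i * t)) l (𝓝 (-(θ' * t))) := fun t =>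
    (h.θt.mul tendsto_const_nhds).neg
  have hτR : ∀ s : ℕ, Tendsto (fun i => θ i * s) l (𝓝 (θ' * s)) := fun s =>
    h.θt.mul tendsto_const_nhds
  have h1 : Tendsto (fun i => ∑ t ∈ range (k + 1), shear (X i t) (-(θ i * t)) k +
      ∑ s ∈ range (k - q k), shear (Y i s) (θ i * s) k) l
      (𝓝 (∑ t ∈ range (k + 1), ww k t * ((t : ℝ) - θ' * t) ^ k +
        ∑ _s ∈ range (k - q k), (0 : ℝ))) := by
    apply Tendsto.add
    · apply tendsto_finsetSum
      intro t ht
      rw [mem_range] at ht
      have h2 := tendsto_shear (Z := fun i => X i t) (Z' := fun a => ww k t * (t : ℝ) ^ a)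
        (c := k) (fun a ha => (h.claim a ha).1 t (by omega)) (hτL t)
      rw [shear_lim, ← sub_eq_add_neg] at h2
      exact h2
    · apply tendsto_finsetSum
      intro s hs
      rw [mem_range] at hs
      have h2 := tendsto_shear (Z := fun i => Y i s) (Z' := fun _ => 0)
        (c := k) (fun a ha => by
          have h3 := tendsto_scale h.mp h.ut (Nat.zero_le _) ((h.claim a ha).2 s hs)
          refine h3.congr ?_
          intro i
          rw [pow_zero, one_mul]) (hτR s)
      rw [shear_zero] at h2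
      exact h2
  simp only [h.eqk] at h1
  have h2 := tendsto_nhds_unique h1 tendsto_const_nhds
  rw [sum_const_zero, add_zero] at h2
  have h3 : ∑ t ∈ range (k + 1), ww k t * ((t : ℝ) - θ' * t) ^ k =
      (1 - θ') ^ k * ((-1) ^ k * k.factorial) := by
    rw [← alt_fact, mul_sum]
    apply sum_congr rfl
    intro t _
    unfold ww
    have : (t : ℝ) - θ' * t = (1 - θ') * t := by ring
    rw [this, mul_pow]
    ring
  rw [h3] at h2
  have h4 : (1 - θ') ^ k * ((-1 : ℝ) ^ k * k.factorial) ≠ 0 := by
    apply mul_ne_zero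
    · apply pow_ne_zero
      intro h5
      apply hθ
      linarith
    · apply mul_ne_zero
      · apply pow_ne_zero
        norm_num
      · exact_mod_cast (Nat.factorial_pos k).ne'
  exact h4 h2

end Sys

end Pool.Agent.U11.Core
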