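import Mathlib
import Pool.Agent.U11.Arb

set_option autoImplicit false

/-!
# The Harbourne-Hirschowitz conjecture at eleven points: a sharp linear inequality

For every `ε > 0` there is `d₀` such that for ALL multiplicities `w i` at 11 general points of the complex
projective plane and all `d ≥ d₀` with `√11 (2 d + 3) + ε ≤ 11 + 2 ∑ w i` there is no curve of degree `d`
with multiplicity at least `w i` at the points; the linear system is not special.
-/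

namespace Pool.Agent.Results.MP_6b2d39_ag.ElevenPointsLinear

open MvPolynomial

/-- Forms of degree `d` vanishing to order at least `w i` at the points `(P i 0 : P i 1 : 1)`. -/
noncomputable def forms {n : ℕ} (P : Fin n → Fin 2 → ℂ) (d : ℕ) (w : Fin n → ℕ) :
    Submodule ℂ (MvPolynomial (Fin 3) ℂ) :=
  homogeneousSubmodule (Fin 3) ℂ d ⊓
    Submodule.restrictScalars ℂ
      (⨅ i : Fin n, (Ideal.span {X 0 - C (P i 0) * X 2, X 1 - C (P i 1) * X 2} :
        Ideal (MvPolynomial (Fin 3) ℂ)) ^ (w i))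

/-- The system of the forms of degree `d` with multiplicities `w` at the points `P` is empty and not
special: its vector space dimension is `0`, and `(d + 2) (d + 1) / 2 ≤ ∑ (w i + 1) (w i) / 2`. -/
def EmptyNonSpecial {n : ℕ} (P : Fin n → Fin 2 → ℂ) (d : ℕ) (w : Fin n → ℕ) : Prop :=
  Module.finrank ℂ ↥(forms P d w) = 0 ∧
    ((d + 2).choose 2 : ℤ) - ∑ i, ((w i + 1).choose 2 : ℤ) ≤ 0

theorem choose_two (a : ℕ) : 8 * ((a + 1).choose 2 : ℝ) = (2 * a + 1) ^ 2 - 1 := by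
  have h1 : 2 * (a + 1).choose 2 = (a + 1) * a := by
    have := Nat.triangle_succ a
    rw [Nat.choose_two_right]
    have h2 : 2 ∣ (a + 1) * a := by
      rw [mul_comm]
      exact (Nat.even_mul_succ_self a).two_dvd
    exact Nat.mul_div_cancel' h2
  have h2 : 2 * ((a + 1).choose 2 : ℝ) = ((a : ℝ) + 1) * a := by exact_mod_cast h1
  linear_combination 4 * h2

/-- the number of conditions is large enough -/
theorem count_le {ε : ℝ} (hε : 0 < ε) {w : Fin 11 → ℕ} {d : ℕ} (hd : 20 / ε ≤ d)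
    (h : √11 * (2 * (d : ℝ) + 3) + ε ≤ 11 + 2 * ∑ i, (w i : ℝ)) :
    (d + 2).choose 2 ≤ ∑ i, (w i + 1).choose 2 := by
  have hs := Real.mul_self_sqrt (show (0 : ℝ) ≤ 11 by norm_num)
  have hs4 : √(11 : ℝ) < 3.32 := by
    rw [Real.sqrt_lt' (by norm_num)]; norm_num
  have hs0 : 0 < √(11 : ℝ) := by positivity
  have h1 : (11 + 2 * ∑ i, (w i : ℝ)) ^ 2 ≤ 11 * ∑ i, (2 * (w i : ℝ) + 1) ^ 2 := by
    have h2 := sq_sum_le_card_mul_sum_sq (s := (Finset.univ : Finset (Fin 11)))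
      (f := fun i => 2 * (w i : ℝ) + 1)
    rw [Finset.card_univ, Fintype.card_fin] at h2
    have h3 : ∑ i, (2 * (w i : ℝ) + 1) = 11 + 2 * ∑ i, (w i : ℝ) := by
      rw [Finset.sum_add_distrib, ← Finset.mul_sum]
      simp
      ring
    rw [h3] at h2
    push_cast at h2
    exact h2
  have h2 : ∑ i, (2 * (w i : ℝ) + 1) ^ 2 = 8 * (∑ i, ((w i + 1).choose 2 : ℝ)) + 11 := by
    have h3 : ∀ i ∈ (Finset.univ : Finset (Fin 11)), (2 * (w i : ℝ) + 1) ^ 2 =
        8 * ((w i + 1).choose 2 : ℝ) + 1 := by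
      intro i _
      have := choose_two (w i)
      linarith
    rw [Finset.sum_congr rfl h3, Finset.sum_add_distrib, ← Finset.mul_sum]
    simp
  have h3 : (√11 * (2 * (d : ℝ) + 3) + ε) ^ 2 ≤ (11 + 2 * ∑ i, (w i : ℝ)) ^ 2 := by
    apply pow_le_pow_left₀ _ h
    have : (0 : ℝ) ≤ d := Nat.cast_nonneg d
    positivity
  have h4 : 20 ≤ d * ε := by
    rw [div_le_iff₀ hε] at hd
    exact hd
  have h5 := choose_two (d + 1)
  have hd0 : (0 : ℝ) ≤ d := Nat.cast_nonneg d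
  have h6 : 110 ≤ 2 * √11 * (2 * (d : ℝ) + 3) * ε := by
    have hs3 : 3.3 < √(11 : ℝ) := by
      rw [Real.lt_sqrt (by norm_num)]; norm_num
    have h7 : 40 ≤ (2 * (d : ℝ) + 3) * ε := by nlinarith
    nlinarith
  have h7 : (√11 * (2 * (d : ℝ) + 3) + ε) ^ 2 =
      11 * (2 * (d : ℝ) + 3) ^ 2 + 2 * √11 * (2 * (d : ℝ) + 3) * ε + ε ^ 2 := by
    linear_combination (2 * (d : ℝ) + 3) ^ 2 * hs
  have h8 : ((d + 2).choose 2 : ℝ) ≤ ∑ i, ((w i + 1).choose 2 : ℝ) := by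
    push_cast at h5
    have e : d + 1 + 1 = d + 2 := rfl
    rw [e] at h5
    nlinarith [sq_nonneg ε]
  exact_mod_cast h8

theorem result (ε : ℝ) (hε : 0 < ε) : ∃ d₀ : ℕ, ∀ w : Fin 11 → ℕ,
    ∃ F : MvPolynomial (Fin 11 × Fin 2) ℂ, F ≠ 0 ∧
      ∀ P : Fin 11 → Fin 2 → ℂ, eval (fun ij : Fin 11 × Fin 2 => P ij.1 ij.2) F ≠ 0 →
        ∀ d : ℕ, d₀ ≤ d → √11 * (2 * (d : ℝ) + 3) + ε ≤ 11 + 2 * ∑ i, (w i : ℝ) →
          EmptyNonSpecial P d w := by
  obtain ⟨d₁, hd₁⟩ := U11.Emp_lin11 hε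
  obtain ⟨d₂, hd₂⟩ := exists_nat_ge (20 / ε)
  refine ⟨max d₁ d₂, fun w => ?_⟩
  obtain ⟨F, hF, hF'⟩ := Pool.Agent.TH864.SX.expDim_of_or' (w := w)
    (G := fun d => max d₁ d₂ ≤ d ∧ √11 * (2 * (d : ℝ) + 3) + ε ≤ 11 + 2 * ∑ i, (w i : ℝ))
    (fun d hd => Or.inl (hd₁ w d ((le_max_left _ _).trans hd.1) (by push_cast; exact hd.2)))
  refine ⟨F.map (algebraMap ℚ ℂ), H932R3.map_ne_zero_of hF, fun P hP d hd h => ?_⟩
  rw [MvPolynomial.eval_map] at hP
  have h1 := hF' P hP d ⟨hd, h⟩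
  have h2 : (20 : ℝ) / ε ≤ d := by
    have h3 : ((d₂ : ℕ) : ℝ) ≤ d := by exact_mod_cast (le_max_right d₁ d₂).trans hd
    linarith
  have h3 := count_le hε h2 h
  unfold Pool.Agent.H932R3.ExpDim at h1
  refine ⟨?_, ?_⟩
  · unfold forms
    rw [h1]
    omega
  · have h4 : (((d + 2).choose 2 : ℕ) : ℤ) ≤ ((∑ i, (w i + 1).choose 2 : ℕ) : ℤ) := by
      exact_mod_cast h3
    push_cast at h4
    linarith

end Pool.Agent.Results.MP_6b2d39_ag.ElevenPointsLinear
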