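import Mathlib
import Pool.Agent.U11.Chain

set_option autoImplicit false

/-!
# Very general points in groups of `M + 2`, arbitrary multiplicities

Let `k + r M = 9`, `M, r ≥ 1`, `s = √(M² + 2 M)`, and divide `n = k + r (M + 2) = 9 + 2 r` very general
points of the complex projective plane into `r` groups of `M + 2` points and `k` single points. For a
vector `v` of ARBITRARY multiplicities let `S t = M + 2 + 2 * (sum of the multiplicities in the group t)`.
* If the single points have multiplicity at least `D`, `S t > s (2 D + 1)` for all `t` and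
  `S t ≥ s (2 D + 1) + ε` for one `t`, and `D ≥ D₀ (ε)`, then `dim = edim` in every degree `d ≤ 3 D`.
* If the single points have multiplicity at most `D` and for every `t` there is `b` such that the
  multiplicities in the group `t` are at most `b + 1` and `S t ≤ s (2 D + 1)` after raising them to at
  least `b`, then `dim = edim` in every degree `d ≥ 3 D`.
-/

namespace Pool.Agent.Results.MP_6e81d8_ag.GroupsArbitraryMultiplicities

/-- The vector space of the forms of degree `d` in three variables over `ℂ` with multiplicity at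
least `m i` at the point `(P i 0 : P i 1 : 1)` for every `i`. -/
noncomputable def forms {n : ℕ} (P : Fin n → Fin 2 → ℂ) (d : ℕ) (m : Fin n → ℕ) :
    Submodule ℂ (MvPolynomial (Fin 3) ℂ) :=
  MvPolynomial.homogeneousSubmodule (Fin 3) ℂ d ⊓
    Submodule.restrictScalars ℂ
      (⨅ i : Fin n,
        (Ideal.span
          ({MvPolynomial.X 0 - MvPolynomial.C (P i 0) * MvPolynomial.X 2,
            MvPolynomial.X 1 - MvPolynomial.C (P i 1) * MvPolynomial.X 2} :
            Set (MvPolynomial (Fin 3) ℂ))) ^ (m i))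

/-- The projective dimension of the linear system `|d H - m 0 E 0 - ⋯|`. -/
noncomputable def dim {n : ℕ} (P : Fin n → Fin 2 → ℂ) (d : ℕ) (m : Fin n → ℕ) : ℤ :=
  (Module.finrank ℂ ↥(forms P d m) : ℤ) - 1

/-- The virtual dimension. -/
def vdim {n : ℕ} (d : ℕ) (m : Fin n → ℕ) : ℤ :=
  ((d + 2).choose 2 : ℤ) - 1 - ∑ i, ((m i + 1).choose 2 : ℤ)

/-- The expected dimension. -/
def edim {n : ℕ} (d : ℕ) (m : Fin n → ℕ) : ℤ := max (vdim d m) (-1)

/-- The division `φ` of the points into `r` groups of `M + 2` points and `k` single points: the single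
points have multiplicity at least `D`, and `S t = M + 2 + 2 ∑ (multiplicities in the group t)` is larger
than `√(M² + 2 M) (2 D + 1)` for every `t`, for one `t` by at least `ε`. -/
def Large {M r k n : ℕ} (D : ℕ) (ε : ℝ) (φ : (Fin r × Fin (M + 2)) ⊕ Fin k ≃ Fin n)
    (v : Fin n → ℕ) : Prop :=
  (∀ i, D ≤ v (φ (Sum.inr i))) ∧
  (∀ t, √((M : ℝ) ^ 2 + 2 * M) * (2 * D + 1) <
    (M : ℝ) + 2 + 2 * ∑ i, (v (φ (Sum.inl (t, i))) : ℝ)) ∧
  (∃ t, √((M : ℝ) ^ 2 + 2 * M) * (2 * D + 1) + ε ≤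
    (M : ℝ) + 2 + 2 * ∑ i, (v (φ (Sum.inl (t, i))) : ℝ))

/-- The division `φ` of the points into `r` groups of `M + 2` points and `k` single points: the single
points have multiplicity at most `D`, and for every group `t` there is `b` such that its multiplicities
are at most `b + 1` and `M + 2 + 2 ∑ max (multiplicity, b) ≤ √(M² + 2 M) (2 D + 1)`. -/
def Small {M r k n : ℕ} (D : ℕ) (φ : (Fin r × Fin (M + 2)) ⊕ Fin k ≃ Fin n)
    (v : Fin n → ℕ) : Prop :=
  (∀ i, v (φ (Sum.inr i)) ≤ D) ∧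
  (∀ t, ∃ b : ℕ, (∀ i, v (φ (Sum.inl (t, i))) ≤ b + 1) ∧
    (M : ℝ) + 2 + 2 * ∑ i, ((max (v (φ (Sum.inl (t, i)))) b : ℕ) : ℝ) ≤
      √((M : ℝ) ^ 2 + 2 * M) * (2 * D + 1))

theorem dim_of {n : ℕ} {P : Fin n → Fin 2 → ℂ} {d : ℕ} {m : Fin n → ℕ}
    (h : H932R3.ExpDim ℂ m P d) : dim P d m = edim d m := by
  unfold H932R3.ExpDim at h
  have h2 : ∑ i, ((m i + 1).choose 2 : ℤ) = ((∑ i, Nat.choose (m i + 1) 2 : ℕ) : ℤ) := by
    push_cast
    rfl
  unfold dim edim vdim forms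
  rw [h, h2]
  omega

open Pool.Agent.TH176.Nag Pool.Agent.TH603.Sur in
/-- **Very general points in groups, arbitrary multiplicities.** -/
theorem result (M r k : ℕ) (hM : 1 ≤ M) (hr : 1 ≤ r) (hk : k + r * M = 9) :
    ∃ Φ : ℕ → MvPolynomial (Fin (k + r * (M + 2)) × Fin 2) ℂ, (∀ a, Φ a ≠ 0) ∧
      (∀ P : Fin (k + r * (M + 2)) → Fin 2 → ℂ,
        (∀ a, MvPolynomial.eval (fun ij : Fin (k + r * (M + 2)) × Fin 2 => P ij.1 ij.2) (Φ a) ≠ 0) →
        ∀ (φ : (Fin r × Fin (M + 2)) ⊕ Fin k ≃ Fin (k + r * (M + 2)))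
          (v : Fin (k + r * (M + 2)) → ℕ) (D d : ℕ), 3 * D ≤ d → Small D φ v →
          dim P d v = edim d v) ∧
      (∀ ε : ℝ, 0 < ε → ∃ D₀ : ℕ, ∀ P : Fin (k + r * (M + 2)) → Fin 2 → ℂ,
        (∀ a, MvPolynomial.eval (fun ij : Fin (k + r * (M + 2)) × Fin 2 => P ij.1 ij.2) (Φ a) ≠ 0) →
        ∀ (φ : (Fin r × Fin (M + 2)) ⊕ Fin k ≃ Fin (k + r * (M + 2)))
          (v : Fin (k + r * (M + 2)) → ℕ) (D d : ℕ), D₀ ≤ D → d ≤ 3 * D → Large D ε φ v →
          dim P d v = edim d v) := by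
  choose F hF hF' using fun w : Fin (k + r * (M + 2)) → ℕ =>
    Pool.Agent.TH864.SX.expDim_of_or' (w := w) (G := fun d => Emp w (TZ d) ∨ Sur w (TZ d))
      (fun d hd => hd)
  obtain ⟨enum, henum⟩ := exists_surjective_nat (Fin (k + r * (M + 2)) → ℕ)
  have key : ∀ P : Fin (k + r * (M + 2)) → Fin 2 → ℂ,
      (∀ a, MvPolynomial.eval (fun ij : Fin (k + r * (M + 2)) × Fin 2 => P ij.1 ij.2)
        ((F (enum a)).map (algebraMap ℚ ℂ)) ≠ 0) →
      ∀ (v : Fin (k + r * (M + 2)) → ℕ) (d : ℕ), Emp v (TZ d) ∨ Sur v (TZ d) →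
        dim P d v = edim d v := by
    intro P hP v d hd
    obtain ⟨a, rfl⟩ := henum v
    have hPk := hP a
    rw [MvPolynomial.eval_map] at hPk
    exact dim_of (hF' (enum a) P hPk d hd)
  refine ⟨fun a => (F (enum a)).map (algebraMap ℚ ℂ), fun a => H932R3.map_ne_zero_of (hF _), ?_, ?_⟩
  · intro P hP φ v D d hd ⟨h1, h2⟩
    refine key P hP v d (Or.inr (U11.joint_sur hM hr hk φ v h1 (fun t => ?_) hd))
    obtain ⟨b, hb, hb'⟩ := h2 t
    refine ⟨b, hb, ?_⟩
    push_cast at hb' ⊢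
    exact hb'
  · intro ε hε
    obtain ⟨D₀, hD₀⟩ := U11.joint_emp hM hr hk hε
    refine ⟨D₀, fun P hP φ v D d hD hd ⟨h1, h2, t0, h3⟩ => key P hP v d (Or.inl ?_)⟩
    refine hD₀ D hD φ v h1 (fun t => ?_) ⟨t0, ?_⟩ d hd
    · have := h2 t
      push_cast
      exact this
    · push_cast
      exact h3

end Pool.Agent.Results.MP_6e81d8_ag.GroupsArbitraryMultiplicities
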