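import Pool.Agent.U11.Irr1

/-! The numbers of a decomposition of an unexpected curve through eleven points. -/

set_option autoImplicit false

namespace Pool.Agent.U11

open Finset
open Pool.Agent.TH176.Nag Pool.Agent.TH603.Sur Pool.Agent.H932R3
open Pool.Agent.TH864.SX (sq11)

/-- the classes at eleven points which are not empty -/
theorem phi_of {w : Fin 11 → ℕ} {d : ℕ} (h : ¬ Emp w (TZ d)) :
    (11 + 2 * ((∑ i, w i : ℕ) : ℝ) ≤ √11 * (2 * d + 3)) ∨
    (3 ∣ d ∧ (10 - 3 * √11) * ((∑ i, (w i - ⌊(d : ℝ) / √11⌋₊) : ℕ) : ℝ) +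
      ((∑ i, (⌊(d : ℝ) / √11⌋₊ - w i) : ℕ) : ℝ) ≤ √11 * d - ((∑ i, w i : ℕ) : ℝ)) := by
  have hsq := sq11
  have hs0 : 0 ≤ √(11 : ℝ) := Real.sqrt_nonneg _
  have hs4 : √(11 : ℝ) < 3.32 := by
    rw [Real.sqrt_lt' (by norm_num)]; norm_num
  rcases le_or_gt (11 + 2 * ((∑ i, w i : ℕ) : ℝ)) (√11 * (2 * d + 3)) with hX | hX
  · exact Or.inl hX
  right
  have hpar : Pool.Agent.TH759.EV.Par 2 1 (Pool.Agent.TH759.EV.LL 11)
      (√((11 : ℕ) : ℝ) * Pool.Agent.TH759.EV.LL 11) 11 :=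
    Pool.Agent.TH759.EV.par_of (by norm_num) (by norm_num) (by norm_num) (by norm_num) (by norm_num)
  by_cases h3 : 3 ∣ d
  swap
  · exact absurd (Pool.Agent.TH759.EV.Emp_pl hpar (Fintype.card_fin 11) h3 (by
      push_cast at hX ⊢; linarith)) h
  refine ⟨h3, ?_⟩
  obtain ⟨g, hg⟩ : ∃ g, g = ⌊(d : ℝ) / √11⌋₊ := ⟨_, rfl⟩
  obtain ⟨s, hs⟩ : ∃ s, s = ∑ i, (w i - g) := ⟨_, rfl⟩
  obtain ⟨e, he⟩ : ∃ e : ℝ, e = (3 + √11) / 2 * (d - √11 * g) - s := ⟨_, rfl⟩
  rcases lt_or_ge e 0 with h0 | h0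
  · exact absurd (Pool.Agent.N388.EFW.Emp_arb11 Pool.Agent.N388.EF.t_TEST2 h3 (by linarith) hg hs he
      (Or.inl h0)) h
  obtain ⟨s', hs'⟩ : ∃ s', s' = ∑ i, (g - w i) := ⟨_, rfl⟩
  have hsum : ∑ i, w i + s' = 11 * g + s := by
    have h1 : ∑ i, (w i + (g - w i)) = ∑ i, (g + (w i - g)) := by
      apply sum_congr rfl
      intro i _
      omega
    rw [sum_add_distrib, sum_add_distrib, ← hs', ← hs, sum_const, card_univ, Fintype.card_fin,
      smul_eq_mul] at h1
    exact h1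
  have hsumR : ((∑ i, w i : ℕ) : ℝ) + s' = 11 * g + s := by exact_mod_cast hsum
  rw [← hg, ← hs, ← hs']
  have h1 : (11 - 3 * √11) * s ≤ (11 - 3 * √11) * ((3 + √11) / 2 * (d - √11 * g)) :=
    mul_le_mul_of_nonneg_left (by linarith) (by linarith)
  have h2 : (11 - 3 * √11) * ((3 + √11) / 2 * (d - √11 * g)) = √11 * (d - √11 * g) := by
    linear_combination (-(3 : ℝ) / 2 * (d - √11 * g)) * hsq
  rw [h2] at h1
  have h4 : √11 * (d - √11 * g) = √11 * d - 11 * g := by linear_combination (-(g : ℝ)) * hsq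
  rw [h4] at h1
  linarith

/-- a nonempty class has nonnegative slack -/
theorem phi_nonneg {w : Fin 11 → ℕ} {d : ℕ} (h : ¬ Emp w (TZ d)) :
    ((∑ i, w i : ℕ) : ℝ) ≤ √11 * d := by
  have hs4 : √(11 : ℝ) < 3.32 := by
    rw [Real.sqrt_lt' (by norm_num)]; norm_num
  rcases phi_of h with h1 | ⟨-, h1⟩
  · linarith
  · have h2 : (0 : ℝ) ≤ (10 - 3 * √11) * ((∑ i, (w i - ⌊(d : ℝ) / √11⌋₊) : ℕ) : ℝ) :=
      mul_nonneg (by linarith) (Nat.cast_nonneg _)
    have h3 : (0 : ℝ) ≤ ((∑ i, (⌊(d : ℝ) / √11⌋₊ - w i) : ℕ) : ℝ) := Nat.cast_nonneg _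
    linarith

/-- the number of conditions is at most the number of monomials if the conditions are independent -/
theorem cond_le_of_Sur {ι : Type} [Fintype ι] {w : ι → ℕ} {d : ℕ} (h : Sur w (TZ d)) :
    cond w ≤ (d + 2).choose 2 := by
  obtain ⟨T, hT, hc, -⟩ := h
  rw [← TH641.UM.coe_TF] at hT
  rw [← hc, ← TH641.UM.card_TF]
  exact card_le_card (by exact_mod_cast hT)

/-- small Pell values -/
theorem pell_small : ∀ g < 9, 1 ≤ g → ∀ y < 64, y * y + 2 ≠ 11 * ((2 * g + 1) * (2 * g + 1)) := by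
  decide

/-- **equal multiplicities**: the first possible slack -/
theorem uni_lower {g x : ℕ} (hg : 1 ≤ g) (h : ¬ Emp (fun _ : Fin 11 => g) (TZ (3 * x)))
    (hX : √11 * (2 * (3 * x : ℕ) + 3) < 11 * (2 * (g : ℝ) + 1)) :
    3 * (√11 - 3) ≤ (√11 + 3) * (3 * x - √11 * g) := by
  have hsq := sq11
  have hs0 : 0 ≤ √(11 : ℝ) := Real.sqrt_nonneg _
  have hs3 : 3.3 < √(11 : ℝ) := by
    rw [Real.lt_sqrt (by norm_num)]; norm_num
  by_contra hcon
  push Not at hcon
  have hd := N388.EFW.dich_unif (M := 9) (r := 1) (n := 11) (D := x) (m := g) (by norm_num)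
    (by norm_num) (N388.EFW.good_root (M := 9) (r := 1) (n := 11) (by norm_num) (by norm_num) (Or.inl (by
      push_cast
      linarith)))
  rcases hd with hd | hd
  · exact h hd
  have h1 := cond_le_of_Sur hd
  have h2 : cond (fun _ : Fin 11 => g) = 11 * (g + 1).choose 2 := by
    unfold Pool.Agent.TH603.Sur.cond
    rw [sum_const, card_univ, Fintype.card_fin, smul_eq_mul]
  rw [h2] at h1
  have h3 := choose_ne (n := 11) (Or.inl rfl) (dvd_mul_right 3 x) g
  have h4 : 11 * (g + 1).choose 2 + 1 ≤ (3 * x + 2).choose 2 := by omega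
  have c1 : (3 * x + 2).choose 2 * 2 = (3 * x + 2) * (3 * x + 1) := by
    rw [Nat.choose_two_right, Nat.div_mul_cancel]
    · rfl
    · exact (Nat.even_mul_pred_self _).two_dvd
  have c2 : (g + 1).choose 2 * 2 = (g + 1) * g := by
    rw [Nat.choose_two_right, Nat.div_mul_cancel]
    · rfl
    · exact (Nat.even_mul_pred_self _).two_dvd
  obtain ⟨y, hy⟩ : ∃ y, y = 6 * x + 3 := ⟨_, rfl⟩
  obtain ⟨z, hz⟩ : ∃ z, z = 2 * g + 1 := ⟨_, rfl⟩
  have c3 : y * y = 8 * (3 * x + 2).choose 2 + 1 := by rw [hy]; nlinarith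
  have c4 : 11 * (z * z) = 8 * (11 * (g + 1).choose 2) + 11 := by rw [hz]; nlinarith
  -- `y < √11 z`
  have hyz : √11 * (y : ℝ) < 11 * z := by
    rw [hy, hz]
    push_cast at hX ⊢
    linarith
  have hy0 : (0 : ℝ) < y := by rw [hy]; positivity
  have hz0 : (0 : ℝ) < z := by rw [hz]; positivity
  have hyz2 : (y : ℝ) < √11 * z := by
    have : √11 * (y : ℝ) < √11 * (√11 * z) := by rw [← mul_assoc, hsq]; exact hyz
    exact lt_of_mul_lt_mul_left this hs0
  have hyz3 : (y : ℝ) * y < 11 * (z * z) := by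
    have h5 : (y : ℝ) * y < (√11 * z) * (√11 * z) := mul_self_lt_mul_self hy0.le hyz2
    have h6 : (√11 * z) * (√11 * z) = 11 * (z * z) := by linear_combination ((z : ℝ) * z) * hsq
    linarith
  have hyz4 : y * y < 11 * (z * z) := by exact_mod_cast hyz3
  have hpell : y * y + 2 = 11 * (z * z) := by omega
  -- size
  have h7 : 20 - 6 * √11 < (√11 + 3) * (√11 * z - y) := by
    have e7 : (√11 + 3) * (√11 * z - y) = 2 - 2 * ((√11 + 3) * (3 * x - √11 * g)) := by
      rw [hy, hz]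
      push_cast
      linear_combination hsq
    rw [e7]
    linarith
  have h8 : (√11 * z - y) * (√11 * z + y) = 2 := by
    have h9 : (y : ℝ) * y + 2 = 11 * (z * z) := by exact_mod_cast hpell
    linear_combination ((z : ℝ) * z) * hsq - h9
  have h10 : √11 * z + y < 63 + 19 * √11 := by
    have h11 : 0 < √11 * z + y := by positivity
    have h12 := mul_lt_mul_of_pos_right h7 h11
    have h13 : (√11 + 3) * (√11 * z - y) * (√11 * z + y) = (√11 + 3) * 2 := by
      rw [mul_assoc, h8]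
    rw [h13] at h12
    have h14 : (20 - 6 * √11) * (√11 * z + y) * (10 + 3 * √11) = 2 * (√11 * z + y) := by
      linear_combination (-(18 : ℝ) * (√11 * z + y)) * hsq
    have h15 : (20 - 6 * √11) * (√11 * z + y) * (10 + 3 * √11) <
        (√11 + 3) * 2 * (10 + 3 * √11) := mul_lt_mul_of_pos_right h12 (by positivity)
    rw [h14] at h15
    have h16 : (√11 + 3) * 2 * (10 + 3 * √11) = 2 * (63 + 19 * √11) := by
      linear_combination 6 * hsq
    rw [h16] at h15
    linarith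
  have hz19 : z < 19 := by
    by_contra hcon2
    push Not at hcon2
    have h17 : (19 : ℝ) ≤ z := by exact_mod_cast hcon2
    have h18 : 63 ≤ y := by
      by_contra hcon3
      push Not at hcon3
      have u1 : y * y ≤ 62 * 62 := Nat.mul_self_le_mul_self (by omega)
      have u2 : 19 * 19 ≤ z * z := Nat.mul_self_le_mul_self hcon2
      omega
    have h19 : (63 : ℝ) ≤ y := by exact_mod_cast h18
    have h20 := mul_le_mul_of_nonneg_left h17 hs0
    linarith
  have hy64 : y < 64 := by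
    by_contra hcon3
    push Not at hcon3
    have u1 : 64 * 64 ≤ y * y := Nat.mul_self_le_mul_self hcon3
    have u2 : z * z ≤ 18 * 18 := Nat.mul_self_le_mul_self (by omega)
    omega
  have := pell_small g (by omega) hg y hy64
  rw [← hz] at this
  exact this hpell

/-- **no decomposition** -/
theorem no_split {m d a b : ℕ} {c c' : Fin 11 → ℕ}
    (hX : √11 * (2 * d + 3) < 11 + 22 * (m : ℝ)) (hab : a + b = d) (ha : 1 ≤ a) (hb : 1 ≤ b)
    (hc : ∀ i, c i + c' i = m) (h1 : ¬ Emp c (TZ a)) (h2 : ¬ Emp c' (TZ b)) : False := by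
  have hsq := sq11
  have hs0 : 0 ≤ √(11 : ℝ) := Real.sqrt_nonneg _
  have hs3 : 3.3 < √(11 : ℝ) := by
    rw [Real.lt_sqrt (by norm_num)]; norm_num
  have hs4 : √(11 : ℝ) < 3.32 := by
    rw [Real.sqrt_lt' (by norm_num)]; norm_num
  have hsum : ∑ i, c i + ∑ i, c' i = 11 * m := by
    rw [← sum_add_distrib, sum_congr rfl (fun i _ => hc i), sum_const, card_univ, Fintype.card_fin,
      smul_eq_mul]
  have hsumR : ((∑ i, c i : ℕ) : ℝ) + ((∑ i, c' i : ℕ) : ℝ) = 11 * m := by exact_mod_cast hsum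
  have habR : (a : ℝ) + b = d := by exact_mod_cast hab
  have hX' : √11 * (2 * ((a : ℝ) + b) + 3) < 11 + 22 * (m : ℝ) := by rw [habR]; exact hX
  have p1 := phi_nonneg h1
  have p2 := phi_nonneg h2
  rcases phi_of h1 with q1 | ⟨a3, q1⟩
  · linarith
  rcases phi_of h2 with q2 | ⟨b3, q2⟩
  · linarith
  obtain ⟨g, hg⟩ : ∃ g, g = ⌊(a : ℝ) / √11⌋₊ := ⟨_, rfl⟩
  obtain ⟨g', hg'⟩ : ∃ g', g' = ⌊(b : ℝ) / √11⌋₊ := ⟨_, rfl⟩
  rw [← hg] at q1
  rw [← hg'] at q2
  obtain ⟨s, hs⟩ : ∃ s, s = ∑ i, (c i - g) := ⟨_, rfl⟩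
  obtain ⟨t, ht⟩ : ∃ t, t = ∑ i, (g - c i) := ⟨_, rfl⟩
  obtain ⟨s', hs'⟩ : ∃ s', s' = ∑ i, (c' i - g') := ⟨_, rfl⟩
  obtain ⟨t', ht'⟩ : ∃ t', t' = ∑ i, (g' - c' i) := ⟨_, rfl⟩
  rw [← hs, ← ht] at q1
  rw [← hs', ← ht'] at q2
  have hsn : (0 : ℝ) ≤ s := Nat.cast_nonneg _
  have hsn' : (0 : ℝ) ≤ s' := Nat.cast_nonneg _
  have hc0 : 0 < 10 - 3 * √(11 : ℝ) := by linarith
  have htt : t + t' = 0 := by
    by_contra hne
    have h3 : (1 : ℝ) ≤ t + t' := by
      have : 1 ≤ t + t' := by omega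
      exact_mod_cast this
    have h4 : 0 ≤ (10 - 3 * √11) * (s : ℝ) := mul_nonneg hc0.le hsn
    have h5 : 0 ≤ (10 - 3 * √11) * (s' : ℝ) := mul_nonneg hc0.le hsn'
    linarith
  have ht0 : t = 0 := by omega
  have ht0' : t' = 0 := by omega
  have hcg : ∀ i, g ≤ c i := by
    intro i
    have h3 : ∑ i, (g - c i) = 0 := by omega
    have h4 := (sum_eq_zero_iff.1 h3) i (mem_univ i)
    omega
  have hcg' : ∀ i, g' ≤ c' i := by
    intro i
    have h3 : ∑ i, (g' - c' i) = 0 := by omega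
    have h4 := (sum_eq_zero_iff.1 h3) i (mem_univ i)
    omega
  have hgm : g + g' ≤ m := by
    have := hcg 0
    have := hcg' 0
    have := hc 0
    omega
  have hss : s + s' = 11 * (m - g - g') := by
    rw [hs, hs', ← sum_add_distrib]
    have h3 : ∀ i ∈ (univ : Finset (Fin 11)), (c i - g) + (c' i - g') = m - g - g' := by
      intro i _
      have := hcg i
      have := hcg' i
      have := hc i
      omega
    rw [sum_congr rfl h3, sum_const, card_univ, Fintype.card_fin, smul_eq_mul]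
  subst ht0 ht0'
  rw [Nat.cast_zero] at q1 q2
  rcases Nat.eq_zero_or_pos (m - g - g') with h0 | h0
  swap
  · -- not uniform: `11 (10 - 3 √11) > (11 - 3 √11) / 2`
    have h3 : (11 : ℝ) ≤ s + s' := by
      have : 11 ≤ s + s' := by omega
      exact_mod_cast this
    have h4 : (10 - 3 * √11) * 11 ≤ (10 - 3 * √11) * ((s : ℝ) + s') :=
      mul_le_mul_of_nonneg_left h3 hc0.le
    have h5 : 63 * √(11 : ℝ) < 209 := by nlinarith
    linarith
  · -- uniform
    have hs00 : s = 0 := by omega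
    have hs00' : s' = 0 := by omega
    have hcg2 : ∀ i, c i = g := by
      intro i
      have h3 : ∑ i, (c i - g) = 0 := by omega
      have h4 := (sum_eq_zero_iff.1 h3) i (mem_univ i)
      have := hcg i
      omega
    have hcg2' : ∀ i, c' i = g' := by
      intro i
      have h3 : ∑ i, (c' i - g') = 0 := by omega
      have h4 := (sum_eq_zero_iff.1 h3) i (mem_univ i)
      have := hcg' i
      omega
    have ec : c = fun _ => g := funext hcg2
    have ec' : c' = fun _ => g' := funext hcg2'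
    rw [ec] at h1
    rw [ec'] at h2
    have hmg : g + g' = m := by omega
    have hmgR : (g : ℝ) + g' = m := by exact_mod_cast hmg
    obtain ⟨x, rfl⟩ := a3
    obtain ⟨x', rfl⟩ := b3
    have e1 : ((∑ i, c i : ℕ) : ℝ) = 11 * g := by
      rw [ec, sum_const, card_univ, Fintype.card_fin, smul_eq_mul]
      push_cast
      ring
    have e1' : ((∑ i, c' i : ℕ) : ℝ) = 11 * g' := by
      rw [ec', sum_const, card_univ, Fintype.card_fin, smul_eq_mul]
      push_cast
      ring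
    rw [e1] at p1
    rw [e1'] at p2
    push_cast at p1 p2 hX'
    -- the two slacks
    have key : ∀ {g x : ℕ}, 1 ≤ 3 * x → ¬ Emp (fun _ : Fin 11 => g) (TZ (3 * x)) →
        √11 * (2 * (3 * (x : ℝ)) + 3) < 11 * (2 * (g : ℝ) + 1) →
        30 * √11 - 99 ≤ √11 * (3 * (x : ℝ)) - 11 * g := by
      intro g x hx hE hlt
      have hg1 : 1 ≤ g := by
        by_contra hcon
        have : g = 0 := by omega
        subst this
        have h3 : (1 : ℝ) ≤ x := by
          have : 1 ≤ x := by omega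
          exact_mod_cast this
        push_cast at hlt
        have h4 := mul_le_mul_of_nonneg_left (show (9 : ℝ) ≤ 2 * (3 * (x : ℝ)) + 3 by linarith) hs0
        linarith
      have h3 := uni_lower hg1 hE (by push_cast; exact hlt)
      obtain ⟨δ, hδ⟩ : ∃ δ : ℝ, δ = 3 * x - √11 * g := ⟨_, rfl⟩
      rw [← hδ] at h3
      have h4 : (3 * (√11 - 3)) * (30 * √11 - 99) ≤ (√11 + 3) * δ * (30 * √11 - 99) :=
        mul_le_mul_of_nonneg_right h3 (by linarith)
      have h5 : (√11 + 3) * δ * (30 * √11 - 99) = (3 * √11 - 9) * (√11 * δ) := by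
        linear_combination (27 * δ) * hsq
      have h6 : (3 * (√11 - 3)) * (30 * √11 - 99) = (3 * √11 - 9) * (30 * √11 - 99) := by ring
      rw [h5, h6] at h4
      have h7 := le_of_mul_le_mul_left h4 (by linarith)
      have h8 : √11 * δ = √11 * (3 * x) - 11 * g := by
        rw [hδ]
        linear_combination (-(g : ℝ)) * hsq
      rw [h8] at h7
      exact h7
    have k1 := key (g := g) (x := x) ha h1 (by linarith)
    have k2 := key (g := g') (x := x') hb h2 (by linarith)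
    have hs5 : 3.31 < √(11 : ℝ) := by
      rw [Real.lt_sqrt (by norm_num)]; norm_num
    have e9 : √11 * (2 * (3 * (x : ℝ) + 3 * (x' : ℝ)) + 3) =
        2 * (√11 * (3 * (x : ℝ))) + 2 * (√11 * (3 * (x' : ℝ))) + 3 * √11 := by ring
    rw [e9] at hX'
    linarith

end Pool.Agent.U11
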