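import Pool.Agent.N388.EFW.Rels
import Pool.Agent.N388.EF.SPAN
import Pool.Agent.N388.EF.PEEL

/-! The numbers of the block with `M + 2` points: every system of negative slack. -/

set_option autoImplicit false

namespace Pool.Agent.U11

open Finset
open Pool.Agent.TH864.SX (Slp Blk)
open Pool.Agent.N388.EFW (ee NN FF mem_FF FF_zero F1 mem_F1 F1_pos inj_col)

/-- the data -/
structure Dt (M : ℕ) (K : ℝ) (m x j : ℕ) : Prop where
  sl : Slp M 2 K
  m0 : 0 < m
  e0 : 0 ≤ ee K m x j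
  sla : ee K m x j * (2 * K + 2) + j < K + 1

/-- the number of steps of the right columns -/
noncomputable def qq (K : ℝ) (m x j c : ℕ) : ℕ := ⌊(ee K m x j + j + c) / (K + 1)⌋₊

/-- the excess of a right column -/
noncomputable def nn (K : ℝ) (m x j s : ℕ) : ℕ := ⌊(ee K m x j + j + s) / K⌋₊

variable {M : ℕ} {K : ℝ} {m x j : ℕ}

namespace Dt

theorem K0 (h : Dt M K m x j) : 0 < K := h.sl.K0

theorem MK (h : Dt M K m x j) : (M : ℝ) < K := h.sl.hMK

theorem M0 (h : Dt M K m x j) : 0 < M := h.sl.hM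

theorem K1 (h : Dt M K m x j) : 1 < K := by
  have h1 : (1 : ℝ) ≤ M := by exact_mod_cast h.M0
  linarith [h.MK]

theorem eq (h : Dt M K m x j) : 2 * (K * (K - M)) = M := by
  have := h.sl.eq; push_cast at this; exact this

theorem eqK (h : Dt M K m x j) : (K - M) * (2 * K + 1) = K := by
  have := h.eq; linear_combination this

theorem lam (h : Dt M K m x j) : ((M : ℝ) + 1 - K) * (2 * K + 1) = K + 1 := by
  have := h.eq; linear_combination -this

theorem p1 (h : Dt M K m x j) : 0 < 2 * K + 1 := by linarith [h.K0]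

theorem KM (h : Dt M K m x j) : K - M < 1 / 2 := by
  have h1 := h.eqK
  have h2 := h.p1
  have h3 := h.K0
  by_contra hcon
  push Not at hcon
  have := mul_le_mul_of_nonneg_right hcon h2.le
  linarith

theorem e12 (h : Dt M K m x j) : ee K m x j < 1 / 2 := by
  have h1 := h.sla
  have hj : (0 : ℝ) ≤ j := Nat.cast_nonneg j
  have h2 : ee K m x j * (2 * (K + 1)) < 1 / 2 * (2 * (K + 1)) := by linarith
  exact lt_of_mul_lt_mul_right h2 (by linarith [h.K0])

theorem ej (h : Dt M K m x j) : ee K m x j + j < K + 1 := by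
  have h1 := h.sla
  have h2 := mul_nonneg h.e0 h.p1.le
  linarith

theorem Kx (_h : Dt M K m x j) : K * x = ee K m x j + j + (K + 1) * m := by unfold ee; ring

theorem xm (h : Dt M K m x j) : m < x := by
  have h1 := h.Kx
  have h2 := h.e0
  have h3 := h.K0
  have h5R : (0 : ℝ) < m := by exact_mod_cast h.m0
  have hj : (0 : ℝ) ≤ j := Nat.cast_nonneg j
  have h6 : K * (m : ℝ) < K * x := by rw [h1]; nlinarith
  have h7 := lt_of_mul_lt_mul_left h6 h3.le
  exact_mod_cast h7

theorem YR (h : Dt M K m x j) : K * ((x : ℝ) - m) = ee K m x j + j + m := by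
  have := h.Kx
  linarith

/-- the number of conditions -/
theorem lt_NN (h : Dt M K m x j) {κ c : ℕ} : κ < NN K m x j c ↔
    (c : ℝ) < ((M : ℝ) + 1 - K) * ((m : ℝ) - κ) - ee K m x j := by
  unfold NN
  rw [Nat.lt_ceil]
  have h1 := h.lam
  have h2 := h.p1
  have h3 : 0 < K + 1 := by linarith [h.K0]
  have key : ((M : ℝ) + 1 - K) * ((m : ℝ) - κ) - ee K m x j - c =
      (K + 1) / (2 * K + 1) * ((m : ℝ) - (ee K m x j + c) * (2 * K + 1) / (K + 1) - κ) := by
    have h4 : (M : ℝ) + 1 - K = (K + 1) / (2 * K + 1) := by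
      rw [eq_div_iff h2.ne']; exact h1
    rw [h4]
    have h5 := h2.ne'
    have h6 := h3.ne'
    have h7 : (K + 1) / (2 * K + 1) * ((m : ℝ) - (ee K m x j + c) * (2 * K + 1) / (K + 1) - κ) =
        (K + 1) / (2 * K + 1) * ((m : ℝ) - κ) -
          (ee K m x j + c) * (((K + 1) / (2 * K + 1)) * ((2 * K + 1) / (K + 1))) := by ring
    have h8 : ((K + 1) / (2 * K + 1)) * ((2 * K + 1) / (K + 1)) = 1 := by
      rw [div_mul_div_comm, mul_comm (2 * K + 1) (K + 1)]
      exact div_self (mul_ne_zero h6 h5)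
    rw [h7, h8]
    ring
  have h5 : 0 < (K + 1) / (2 * K + 1) := div_pos h3 h2
  constructor
  · intro h6
    have h7 : 0 < (m : ℝ) - (ee K m x j + c) * (2 * K + 1) / (K + 1) - κ := by linarith
    have h8 := mul_pos h5 h7
    rw [← key] at h8
    linarith
  · intro h6
    have h7 : 0 < ((M : ℝ) + 1 - K) * ((m : ℝ) - κ) - ee K m x j - c := by linarith
    rw [key] at h7
    have h8 := (mul_pos_iff_of_pos_left h5).1 h7
    linarith

theorem lam0 (h : Dt M K m x j) : 0 < (M : ℝ) + 1 - K := by linarith [h.KM]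

theorem lam1 (h : Dt M K m x j) : (M : ℝ) + 1 - K < 1 := by linarith [h.MK]

theorem NN_lt_m (h : Dt M K m x j) {κ c : ℕ} (hκ : κ < NN K m x j c) : κ < m := by
  have h1 := h.lt_NN.1 hκ
  have h2 := h.lam0
  have h3 := h.e0
  have hc : (0 : ℝ) ≤ c := Nat.cast_nonneg c
  have h4 : 0 < ((M : ℝ) + 1 - K) * ((m : ℝ) - κ) := by linarith
  have h5 := (mul_pos_iff_of_pos_left h2).1 h4
  have : (κ : ℝ) < m := by linarith
  exact_mod_cast this

/-- strictly decreasing -/
theorem NN_anti (h : Dt M K m x j) (c : ℕ) (hc : 0 < NN K m x j (c + 1)) :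
    NN K m x j (c + 1) < NN K m x j c := by
  have h2 : NN K m x j (c + 1) - 1 < NN K m x j (c + 1) := by omega
  have h3 := h.lt_NN.1 h2
  rw [h.lt_NN]
  have h4 : ((NN K m x j (c + 1) - 1 : ℕ) : ℝ) = (NN K m x j (c + 1) : ℝ) - 1 := by
    rw [Nat.cast_sub (by omega)]; simp
  rw [h4] at h3
  push_cast at h3
  have h5 := h.lam1
  nlinarith

theorem qpos (h : Dt M K m x j) (c : ℕ) : 0 ≤ (ee K m x j + j + c) / (K + 1) := by
  have h1 := h.e0
  have h2 := h.K0
  positivity

theorem qq_le' (h : Dt M K m x j) (c : ℕ) : (K + 1) * (qq K m x j c : ℝ) ≤ ee K m x j + j + c := by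
  have h2 : 0 < K + 1 := by linarith [h.K0]
  have h1 := Nat.floor_le (h.qpos c)
  rw [le_div_iff₀ h2] at h1
  unfold qq
  linarith

theorem qq_lt' (h : Dt M K m x j) (c : ℕ) : ee K m x j + j + c < (K + 1) * ((qq K m x j c : ℝ) + 1) := by
  have h2 : 0 < K + 1 := by linarith [h.K0]
  have h1 := Nat.lt_floor_add_one ((ee K m x j + j + c) / (K + 1))
  rw [div_lt_iff₀ h2] at h1
  unfold qq
  linarith

theorem qq_le (h : Dt M K m x j) (c : ℕ) : qq K m x j c ≤ c := by
  have h1 := h.qq_le' c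
  have h2 := h.ej
  have h3 := h.K0
  by_contra hcon
  push Not at hcon
  have h4 : (c : ℝ) + 1 ≤ qq K m x j c := by exact_mod_cast hcon
  have hc : (0 : ℝ) ≤ c := Nat.cast_nonneg c
  nlinarith

theorem qq_mono (h : Dt M K m x j) {c c' : ℕ} (hc : c ≤ c') : qq K m x j c ≤ qq K m x j c' := by
  unfold qq
  apply Nat.floor_le_floor
  have h2 : 0 < K + 1 := by linarith [h.K0]
  have h3 : (c : ℝ) ≤ c' := by exact_mod_cast hc
  apply div_le_div_of_nonneg_right _ h2.le
  linarith

theorem qq_step (h : Dt M K m x j) {c c' : ℕ} (hc : c ≤ c') :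
    c - qq K m x j c ≤ c' - qq K m x j c' := by
  have h1 := h.qq_le c
  have h2 := h.qq_le c'
  have h3 : qq K m x j c' ≤ qq K m x j c + (c' - c) := by
    obtain ⟨n, rfl⟩ := Nat.exists_eq_add_of_le hc
    have h4 := h.qq_le' (c + n)
    have h5 := h.qq_lt' c
    have h6 := h.K0
    by_contra hcon
    push Not at hcon
    have h7 : (qq K m x j c : ℝ) + n + 1 ≤ qq K m x j (c + n) := by
      have : qq K m x j c + n + 1 ≤ qq K m x j (c + n) := by omega
      exact_mod_cast this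
    have hn : (0 : ℝ) ≤ n := Nat.cast_nonneg n
    push_cast at h4
    nlinarith
  omega

/-- the short right columns -/
theorem nn_le (h : Dt M K m x j) {s c : ℕ} (hs : s < c - qq K m x j c) : s + 1 + nn K m x j s ≤ c := by
  have h1 := h.qq_lt' c
  have h2 : qq K m x j c + 1 ≤ c - s := by omega
  have h3 : (qq K m x j c : ℝ) + 1 ≤ (c : ℝ) - s := by
    have h4 : ((qq K m x j c + 1 : ℕ) : ℝ) ≤ ((c - s : ℕ) : ℝ) := by exact_mod_cast h2
    rw [Nat.cast_sub (by omega)] at h4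
    push_cast at h4
    exact h4
  have hK := h.K0
  have h4 : nn K m x j s < c - s := by
    unfold nn
    rw [Nat.floor_lt (by have := h.e0; positivity), div_lt_iff₀ hK, Nat.cast_sub (by omega)]
    nlinarith
  omega

/-- enough conditions -/
theorem NN_ge (h : Dt M K m x j) (c : ℕ) : m + qq K m x j c ≤ NN K m x j c + 2 * c := by
  by_contra hcon
  push Not at hcon
  obtain ⟨κ, hκ⟩ : ∃ κ : ℕ, κ + 1 + 2 * c = m + qq K m x j c := ⟨m + qq K m x j c - 1 - 2 * c, by omega⟩
  have h1 : κ < NN K m x j c := by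
    rw [h.lt_NN]
    have h2 : (κ : ℝ) = m + qq K m x j c - 2 * c - 1 := by
      have : (κ : ℝ) + 1 + 2 * c = m + qq K m x j c := by exact_mod_cast hκ
      linarith
    rw [h2]
    have h3 := h.qq_le' c
    have h4 := h.sla
    have h5 := h.lam
    refine lt_of_mul_lt_mul_right ?_ h.p1.le
    have e3 : (((M : ℝ) + 1 - K) * ((m : ℝ) - (m + qq K m x j c - 2 * c - 1)) -
        ee K m x j) * (2 * K + 1)
        = (K + 1) * (2 * c + 1 - qq K m x j c) - ee K m x j * (2 * K + 1) := by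
      linear_combination ((2 : ℝ) * c + 1 - qq K m x j c) * h5
    rw [e3]
    linarith
  omega

/-- the slack -/
theorem NN_gt (h : Dt M K m x j) {k : ℕ} (hk : ee K m x j * (2 * K + 2) + j <
    ee K m x j + j + k - (K + 1) * qq K m x j k) (hkm : 2 * k ≤ m + qq K m x j k) :
    m + qq K m x j k < NN K m x j k + 2 * k := by
  by_contra hcon
  push Not at hcon
  obtain ⟨κ, hκ⟩ : ∃ κ : ℕ, κ + 2 * k = m + qq K m x j k := ⟨m + qq K m x j k - 2 * k, by omega⟩
  have h1 : κ < NN K m x j k := by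
    rw [h.lt_NN]
    have h2 : (κ : ℝ) = m + qq K m x j k - 2 * k := by
      have : (κ : ℝ) + 2 * k = m + qq K m x j k := by exact_mod_cast hκ
      linarith
    rw [h2]
    have h5 := h.lam
    refine lt_of_mul_lt_mul_right ?_ h.p1.le
    have e3 : (((M : ℝ) + 1 - K) * ((m : ℝ) - (m + qq K m x j k - 2 * k)) -
        ee K m x j) * (2 * K + 1)
        = (K + 1) * (2 * k - qq K m x j k) - ee K m x j * (2 * K + 1) := by
      linear_combination ((2 : ℝ) * k - qq K m x j k) * h5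
    rw [e3]
    linarith
  omega

/-- membership from the two inequalities -/
theorem mem_FF_of (h : Dt M K m x j) {t l : ℕ} (h1 : (l : ℝ) + t + t / K ≤ x)
    (h2 : (x : ℝ) ≤ l + 2 * t + t / K) : (t, l) ∈ FF K m x := by
  rw [mem_FF]
  have hK := h.K0
  have ht : (0 : ℝ) ≤ t / K := by positivity
  refine ⟨⟨?_, ?_⟩, h1, h2⟩
  · simp only
    have h3 : (t : ℝ) + t / K ≤ x := by
      have : (0 : ℝ) ≤ l := Nat.cast_nonneg l
      linarith
    have h4 : K * (t + t / K) ≤ K * x := mul_le_mul_of_nonneg_left h3 hK.le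
    have e : K * ((t : ℝ) + t / K) = (K + 1) * t := by field_simp
    rw [e, h.Kx] at h4
    have h5 : (t : ℝ) < m + 1 := by
      have h6 := h.ej
      have h7 : (K + 1) * (t : ℝ) < (K + 1) * (m + 1) := by linarith
      exact lt_of_mul_lt_mul_left h7 (by linarith)
    have h6 : t < m + 1 := by exact_mod_cast h5
    omega
  · simp only
    have h3 : (l : ℝ) ≤ x := by
      have : (0 : ℝ) ≤ t := Nat.cast_nonneg t
      linarith
    exact_mod_cast h3

/-- a left column -/
theorem FF_left (h : Dt M K m x j) {t l : ℕ} (h1 : (t, l) ∈ FF K m x) :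
    ∃ J : ℕ, J ∈ Finset.Icc ⌈(t : ℝ) / K⌉₊ ⌊(t : ℝ) + t / K⌋₊ ∧ (x : ℝ) - t - l = J := by
  rw [mem_FF] at h1
  obtain ⟨-, h2, h3⟩ := h1
  simp only at h2 h3
  have hK := h.K0
  have ht : (0 : ℝ) ≤ t / K := by positivity
  have h4 : t + l ≤ x := by
    have : ((t + l : ℕ) : ℝ) ≤ x := by push_cast; linarith
    exact_mod_cast this
  have e : ((x - t - l : ℕ) : ℝ) = (x : ℝ) - t - l := by
    rw [Nat.cast_sub (by omega), Nat.cast_sub (by omega)]
  refine ⟨x - t - l, ?_, e.symm⟩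
  rw [Finset.mem_Icc]
  constructor
  · apply Nat.ceil_le.2
    rw [e]
    linarith
  · apply Nat.le_floor
    rw [e]
    linarith

theorem left_card (h : Dt M K m x j) {t : ℕ} (ht : 1 ≤ t) :
    (Finset.Icc ⌈(t : ℝ) / K⌉₊ ⌊(t : ℝ) + t / K⌋₊).card ≤ t := by
  have hK := h.K0
  have htR : (0 : ℝ) < t := by exact_mod_cast ht
  have ht0 : (0 : ℝ) ≤ t / K := by positivity
  rw [Nat.card_Icc]
  have h1 : ⌊(t : ℝ) + t / K⌋₊ = ⌊(t : ℝ) / K⌋₊ + t := by
    rw [add_comm, Nat.floor_add_natCast ht0]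
  rw [h1]
  have h2 : ⌊(t : ℝ) / K⌋₊ < ⌈(t : ℝ) / K⌉₊ := by
    rw [Nat.floor_lt ht0]
    refine lt_of_le_of_ne (Nat.le_ceil _) ?_
    intro h3
    rw [div_eq_iff hK.ne'] at h3
    have h4 : ((⌈(t : ℝ) / K⌉₊ : ℕ) : ℝ) ≠ 0 := by
      intro h5
      rw [h5, zero_mul] at h3
      exact htR.ne' h3
    apply h.sl.irr
    refine ⟨(t : ℚ) / ((⌈(t : ℝ) / K⌉₊ : ℕ) : ℚ), ?_⟩
    push_cast
    rw [div_eq_iff h4, mul_comm]
    exact h3
  omega

theorem left_diag (h : Dt M K m x j) (t : ℕ) :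
    t ∈ Finset.Icc ⌈(t : ℝ) / K⌉₊ ⌊(t : ℝ) + t / K⌋₊ := by
  have hK := h.K1
  have hK0 := h.K0
  have ht0 : (0 : ℝ) ≤ t / K := by positivity
  have ht : (0 : ℝ) ≤ t := Nat.cast_nonneg t
  rw [Finset.mem_Icc]
  constructor
  · apply Nat.ceil_le.2
    rw [div_le_iff₀ hK0]
    nlinarith
  · apply Nat.le_floor
    linarith

/-- a right column -/
theorem FF_right (h : Dt M K m x j) {s t l : ℕ} (hs : t + s = m) (h1 : (t, l) ∈ FF K m x) :
    l < s + 1 + nn K m x j s := by
  rw [mem_FF] at h1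
  obtain ⟨-, h2, -⟩ := h1
  simp only at h2
  have hK := h.K0
  have hY := h.YR
  have e1 : (t : ℝ) = (m : ℝ) - s := by
    have : (t : ℝ) + s = m := by exact_mod_cast hs
    linarith
  rw [e1] at h2
  have h3 : (x : ℝ) - m = (ee K m x j + j + m) / K := by
    rw [eq_div_iff hK.ne', mul_comm]
    exact hY
  have h4 : (l : ℝ) ≤ s + (ee K m x j + j + s) / K := by
    have e2 : (ee K m x j + j + m) / K = (ee K m x j + j + s) / K + ((m : ℝ) - s) / K := by
      rw [← add_div]
      congr 1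
      ring
    linarith
  have h5 : l - s ≤ nn K m x j s := by
    rcases Nat.lt_or_ge l s with h6 | h6
    · omega
    · unfold nn
      apply Nat.le_floor
      rw [Nat.cast_sub h6]
      linarith
  omega

theorem irr' (h : Dt M K m x j) {t : ℕ} (ht : 1 ≤ t) (n : ℕ) :
    (x : ℝ) - 2 * t - t / K ≠ n := by
  intro h1
  have hK := h.K0
  have htR : (t : ℝ) ≠ 0 := by
    have : 0 < t := ht
    positivity
  have h2 : ((x : ℝ) - 2 * t - n) * K = t := by
    have h3 : (x : ℝ) - 2 * t - n = t / K := by linarith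
    rw [h3]
    exact div_mul_cancel₀ _ hK.ne'
  have h3 : ((x : ℝ) - 2 * t - n) ≠ 0 := by
    intro h4
    rw [h4, zero_mul] at h2
    exact htR h2.symm
  apply h.sl.irr
  refine ⟨(t : ℚ) / ((x : ℚ) - 2 * t - n), ?_⟩
  push_cast
  rw [div_eq_iff h3, mul_comm]
  exact h2.symm

theorem col_le (h : Dt M K m x j) {t : ℕ} (ht : 1 ≤ t) :
    ((F1 K m x).filter (fun q => q.1 = t)).card ≤ t := by
  classical
  rw [← card_image_of_injOn (inj_col (F1 K m x) t)]
  obtain ⟨α, hα⟩ : ∃ α : ℝ, α = (x : ℝ) - 2 * t - t / K := ⟨_, rfl⟩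
  have h1 : α < (⌈α⌉₊ : ℝ) := by
    refine lt_of_le_of_ne (Nat.le_ceil α) ?_
    rw [hα]
    exact h.irr' ht _
  have h2 : (((F1 K m x).filter (fun q => q.1 = t)).image Prod.snd) ⊆ Finset.Ico ⌈α⌉₊ (⌈α⌉₊ + t) := by
    intro l hl
    simp only [mem_image, mem_filter] at hl
    obtain ⟨⟨a, b⟩, ⟨hq, ha⟩, rfl⟩ := hl
    simp only at ha
    subst ha
    rw [mem_F1, mem_FF] at hq
    obtain ⟨-, -, h3, h4⟩ := hq
    simp only at h3 h4
    rw [mem_Ico]
    constructor
    · apply Nat.ceil_le.2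
      rw [hα]
      linarith
    · have h5 : (b : ℝ) < ((⌈α⌉₊ + a : ℕ) : ℝ) := by
        push_cast
        linarith
      exact_mod_cast h5
  have h3 := card_le_card h2
  rw [Nat.card_Ico] at h3
  omega

theorem col_le' (_h : Dt M K m x j) {t c : ℕ}
    (hc : c < ((F1 K m x).filter (fun q => q.1 = t)).card) : (c : ℝ) ≤ (x : ℝ) - t - t / K := by
  classical
  obtain ⟨α, hα⟩ : ∃ α : ℝ, α = (x : ℝ) - t - t / K := ⟨_, rfl⟩
  rw [← hα]
  have hle : ∀ q ∈ (F1 K m x).filter (fun q => q.1 = t), (q.2 : ℝ) ≤ α := by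
    rintro ⟨a, b⟩ hq
    simp only [mem_filter] at hq
    obtain ⟨hq, ha⟩ := hq
    subst ha
    rw [mem_F1, mem_FF] at hq
    obtain ⟨-, -, h3, h4⟩ := hq
    simp only at h3 h4 ⊢
    linarith
  obtain ⟨q0, hq0⟩ := card_pos.1 (lt_of_le_of_lt (Nat.zero_le c) hc)
  have hα0 : 0 ≤ α := (Nat.cast_nonneg _).trans (hle q0 hq0)
  rw [← card_image_of_injOn (inj_col (F1 K m x) t)] at hc
  have h2 : (((F1 K m x).filter (fun q => q.1 = t)).image Prod.snd) ⊆ Finset.range (⌊α⌋₊ + 1) := by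
    intro l hl
    rw [mem_image] at hl
    obtain ⟨q, hq, rfl⟩ := hl
    rw [mem_range, Nat.lt_succ_iff]
    exact Nat.le_floor (hle q hq)
  have h3 := card_le_card h2
  rw [card_range] at h3
  have h4 : c ≤ ⌊α⌋₊ := by omega
  exact ((Nat.cast_le.2 h4)).trans (Nat.floor_le hα0)

theorem count (h : Dt M K m x j) (c : ℕ) :
    (((F1 K m x).image Prod.fst).filter
      (fun t => c < ((F1 K m x).filter (fun q => q.1 = t)).card)).card ≤ NN K m x j c := by
  classical
  have hK := h.K0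
  obtain ⟨U, hU⟩ : ∃ U : ℕ, U = ⌊((x : ℝ) - c) * K / (K + 1)⌋₊ := ⟨_, rfl⟩
  have hsub : (((F1 K m x).image Prod.fst).filter
      (fun t => c < ((F1 K m x).filter (fun q => q.1 = t)).card)) ⊆ Finset.Icc (c + 1) U := by
    intro t ht
    rw [mem_filter, mem_image] at ht
    obtain ⟨⟨q, hq, rfl⟩, hc⟩ := ht
    have h1 := F1_pos hq
    have h2 := h.col_le h1
    have h3 := h.col_le' hc
    rw [mem_Icc]
    refine ⟨by omega, ?_⟩
    rw [hU]
    apply Nat.le_floor
    rw [le_div_iff₀ (by linarith)]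
    have h4 : ((q.1 : ℝ) + q.1 / K) * K = q.1 * (K + 1) := by field_simp
    rw [← h4]
    exact mul_le_mul_of_nonneg_right (by linarith) hK.le
  have h1 := card_le_card hsub
  rw [Nat.card_Icc] at h1
  rcases Nat.lt_or_ge c U with hcU | hcU
  · have h2 : U - c - 1 < NN K m x j c := by
      unfold NN
      rw [Nat.lt_ceil]
      have e1 : ((U - c - 1 : ℕ) : ℝ) = (U : ℝ) - c - 1 := by
        rw [Nat.cast_sub (by omega), Nat.cast_sub hcU.le]
        simp
      rw [e1]
      have hα0 : (0 : ℝ) ≤ ((x : ℝ) - c) * K / (K + 1) := by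
        by_contra hcon
        push Not at hcon
        rw [Nat.floor_of_nonpos hcon.le] at hU
        omega
      have h3 : (U : ℝ) ≤ ((x : ℝ) - c) * K / (K + 1) := by
        rw [hU]
        exact Nat.floor_le hα0
      have hK1 : 0 < K + 1 := by linarith
      rw [le_div_iff₀ hK1] at h3
      have h5 : (ee K m x j + c) * (2 * K + 1) / (K + 1) < (m : ℝ) - U + c + 1 := by
        rw [div_lt_iff₀ hK1]
        have h6 := h.Kx
        have h7 := h.sla
        have h8 : ((x : ℝ) - c) * K = ee K m x j + j + (K + 1) * m - c * K := by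
          rw [sub_mul, mul_comm (x : ℝ) K, h6]
        rw [h8] at h3
        nlinarith
      linarith
    omega
  · omega

end Dt

end Pool.Agent.U11
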