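import Pool.Agent.U11.Block
import Pool.Agent.N388.EFW.Fam

/-! The block without its apex is empty for every system of negative slack: the dimension is at most
one. -/

set_option autoImplicit false

namespace Pool.Agent.U11

open Finset Polynomial Pool.Agent.TH176.Nag Pool.Agent.TH603.Sur Pool.Agent.TH603.Cut
open Pool.Agent.TH864.SX (Slp Blk)
open Pool.Agent.TH978.S13 (Sc Sc_pos Sc_finite Emp_shift Emp_unit Emp_equiv Emp_plane9 KN slpN)
open Pool.Agent.TH864.DP (bl one nxt)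
open Pool.Agent.N388.EFW (ee NN FF mem_FF F1 SS mem_SS cc cc_in cc_out AA AA_ne colP colP_coeff)

variable {M : ℕ} {K : ℝ} {m x j : ℕ}

/-- **the open block** -/
theorem Dt.emp_open (h : Dt M K m x j) {w : Fin (M + 2) → ℕ} (hw : ∀ i, m ≤ w i)
    (hs : ∑ i, w i = (M + 2) * m + j) : Emp w (Sc (K - M) K x) := by
  classical
  have hK := h.K0
  have hKM : 0 < K - M := by linarith [h.MK]
  have hMR : (0 : ℝ) < M := by exact_mod_cast h.M0
  have key := N388.EF.VALw (M + 2) w ((SS M K x).erase (0, x))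
    (fun κ => ⌊ee K m x j + j + (K + 1) * ((m : ℝ) - κ)⌋) (by
      intro κ p hp hκp
      replace hp := mem_of_mem_erase hp
      rw [mem_SS] at hp
      obtain ⟨-, -, h3⟩ := hp
      rw [Int.le_floor]
      have h4 : (κ : ℝ) ≤ p.2 := by exact_mod_cast hκp
      have h5 := h.Kx
      have h6 : K * ((x : ℝ) - p.2) ≤ K * ((x : ℝ) - κ) :=
        mul_le_mul_of_nonneg_left (by linarith) hK.le
      push_cast
      rw [mul_sub, h5] at h6
      linarith) (by
      intro c₀ hc₀
      obtain ⟨c, hcd⟩ : ∃ c : ℕ × ℕ → ℚ, c = fun p => if p = (0, x) then 0 else c₀ p := ⟨_, rfl⟩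
      have hc : ∀ κ : ℕ, ∀ D : ℤ, ⌊ee K m x j + j + (K + 1) * ((m : ℝ) - κ)⌋ -
          ((∑ i, (w i - κ) : ℕ) : ℤ) < D → N388.EF.Rel (SS M K x) c κ D := by
        intro κ D hD
        have h1 := hc₀ κ D hD
        unfold N388.EF.Rel at h1 ⊢
        rw [← h1]
        rw [filter_erase, ← sum_erase (s := (SS M K x).filter (fun p => D ≤ (p.1 : ℤ))) (a := (0, x))]
        · apply sum_congr rfl
          intro p hp
          have h2 : p ≠ (0, x) := (mem_erase.1 hp).1
          rw [hcd]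
          simp only [h2, if_false]
        · rw [hcd]
          simp
      have hR : ∀ κ ≤ m, ∀ D : ℤ, ee K m x j - ((M : ℝ) + 1 - K) * ((m : ℝ) - κ) < D →
          N388.EF.Rel (SS M K x) c κ D := by
        intro κ hκ D hD
        apply hc κ D
        have h0 : ∑ i, (w i - κ) = (M + 2) * (m - κ) + j := by
          have h1 : ∑ i, (w i - κ) + ∑ _i : Fin (M + 2), κ = ∑ i, w i := by
            rw [← sum_add_distrib]
            apply sum_congr rfl
            intro i _
            have := hw i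
            omega
          rw [sum_const, card_univ, Fintype.card_fin, hs, smul_eq_mul] at h1
          obtain ⟨r, rfl⟩ := Nat.exists_eq_add_of_le hκ
          have e3 : κ + r - κ = r := by omega
          rw [e3]
          rw [Nat.mul_add] at h1
          omega
        have h1 : ⌊ee K m x j + j + (K + 1) * ((m : ℝ) - κ)⌋ <
            D + ((∑ i, (w i - κ) : ℕ) : ℤ) := by
          rw [h0, Int.floor_lt]
          push_cast [Nat.cast_sub hκ]
          linarith
        linarith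
      have hpos : ∀ κ ≤ m, ∀ D : ℤ, 1 ≤ D → N388.EF.Rel (SS M K x) c κ D := by
        intro κ hκ D hD
        apply hR κ hκ D
        have h1 : (1 : ℝ) ≤ D := by exact_mod_cast hD
        have h2 : (κ : ℝ) ≤ m := by exact_mod_cast hκ
        have h3 := h.e12
        have h4 : 0 ≤ ((M : ℝ) + 1 - K) * ((m : ℝ) - κ) := mul_nonneg h.lam0.le (by linarith)
        linarith
      choose g hg1 hg2 hg3 using h.quot c hpos
      have hbA : Ann K m x j (fun q => (g q.1).coeff q.2) := by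
        intro n κ hκ
        apply h.red c g hg2 hg3 n κ
        apply hR κ (h.NN_lt_m hκ).le
        have := h.lt_NN.1 hκ
        push_cast
        linarith
      have hap : (g 0).coeff x = 0 := by
        have h1 := congrArg (fun p : ℚ[X] => p.coeff x) (hg1 0)
        simp only [pow_zero, one_mul] at h1
        rw [← h1, colP_coeff]
        by_cases h2 : ((0, x) : ℕ × ℕ) ∈ SS M K x
        · rw [cc_in h2, hcd]
          simp
        · rw [cc_out h2]
      have hb := h.solve (fun q => (g q.1).coeff q.2) hbA hap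
      have hg0 : ∀ t, g t = 0 := by
        intro t
        ext l
        rw [coeff_zero]
        by_contra h1
        exact h1 (hb (t, l) (hg2 t l h1))
      rintro ⟨t, j⟩ hp
      rw [mem_erase] at hp
      have h1 : (colP M K x c t).coeff j = 0 := by
        rw [hg1 t, hg0 t, mul_zero, coeff_zero]
      rw [colP_coeff, cc_in hp.2, hcd] at h1
      simp only [hp.1, if_false] at h1
      exact h1)
  refine key.mono ?_
  rintro ⟨a, b⟩ hab
  have hxb := Sc_pos (by linarith) hab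
  obtain ⟨h1, h2, h3⟩ := hab
  simp only at h1 h2 h3 hxb
  obtain ⟨j', rfl⟩ : ∃ j' : ℕ, b = j' := ⟨b.toNat, by omega⟩
  push_cast at h2 h3 hxb
  have ha0 : (0 : ℝ) ≤ a := by
    have : 0 ≤ (K - M) * ((x : ℝ) - j') := mul_nonneg hKM.le hxb.le
    linarith
  have ha1 : 0 ≤ a := by exact_mod_cast ha0
  obtain ⟨t, rfl⟩ : ∃ t : ℕ, a = t := ⟨a.toNat, by omega⟩
  push_cast at h2 h3
  have hjx : j' < x := by
    have : (j' : ℝ) < x := by linarith
    exact_mod_cast this
  refine ⟨(t, j'), ?_, rfl⟩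
  rw [mem_erase, mem_SS]
  refine ⟨?_, ⟨?_, hjx.le⟩, h2.le, h3.le⟩
  · intro h4
    have := congrArg Prod.snd h4
    simp only at this
    omega
  · apply Nat.le_floor
    refine h3.le.trans ?_
    apply mul_le_mul_of_nonneg_left _ hK.le
    have : (0 : ℝ) ≤ j' := Nat.cast_nonneg j'
    linarith

/-- the apex and one simple point -/
theorem Emp_apex {ι : Type} [Finite ι] {w : ι → ℕ} {x y : ℝ} {h : ℕ} (hxy : x < y)
    (hE : Emp w (Sc x y h)) :
    Emp (Sum.elim w (fun _ : Fin 1 => 1)) (Sc x y h ∪ {((0, (h : ℤ)) : ℤ × ℤ)}) := by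
  classical
  obtain ⟨T, hT⟩ := (Sc_finite hxy h).exists_finset_coe
  rw [← hT] at hE ⊢
  have h1 := Emp_union hE {((0, (h : ℤ)) : ℤ × ℤ)}
  rw [card_singleton] at h1
  refine h1.mono ?_
  rw [coe_union, coe_singleton]

/-- adding an open sector -/
theorem Emp_add' {ι κ : Type} [Finite ι] [Finite κ] {w : ι → ℕ} {v : κ → ℕ} {x y z : ℝ} {h : ℕ}
    (hxy : x < y) (hyz : y < z) (hy : Irrational y)
    (h1 : Emp w (Sc x y h)) (h2 : Emp v (Sc y z h)) : Emp (Sum.elim w v) (Sc x z h) := by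
  refine (TH469.SX.cut_E (S := Sc x y h) (T := Sc y z h) (Sc_finite hxy h) (Sc_finite hyz h) (-y) ?_
    h1 h2).mono ?_
  · rintro p ⟨-, -, g3⟩ p' ⟨-, g2, -⟩
    linarith
  · intro p hp
    have h0 := Sc_pos (hxy.trans hyz) hp
    obtain ⟨g1, g2, g3⟩ := hp
    rcases lt_trichotomy (p.1 : ℝ) (y * ((h : ℝ) - p.2)) with g | g | g
    · exact Or.inl ⟨g1, g2, g⟩
    · exfalso
      apply hy
      refine ⟨(p.1 : ℚ) / ((h : ℚ) - p.2), ?_⟩
      push_cast
      rw [div_eq_iff h0.ne']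
      exact g
    · exact Or.inr ⟨g1, g, g3⟩

/-- `r + 1` open blocks -/
theorem Emp_copies' {ι : Type} [Finite ι] {w : ι → ℕ} {h M : ℕ} {x : ℝ} (hM : 1 ≤ M)
    (hx : Irrational x) (hE : Emp w (Sc x (x + M) h)) (r : ℕ) :
    Emp (fun p : Fin (r + 1) × ι => w p.2) (Sc x (x + ((r + 1) * M : ℕ)) h) := by
  have hMR : (1 : ℝ) ≤ M := by exact_mod_cast hM
  induction r with
  | zero =>
    have e1 : x + (((0 + 1) * M : ℕ) : ℝ) = x + M := by push_cast; ring
    rw [e1]
    exact Emp_equiv (one ι) (fun _ => rfl) hE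
  | succ r ih =>
    have h2 : Emp w (Sc (x + (((r + 1) * M : ℕ) : ℤ)) (x + M + (((r + 1) * M : ℕ) : ℤ)) h) :=
      Emp_shift _ hE
    have e1 : x + (((r + 1 + 1) * M : ℕ) : ℝ) = x + M + ((((r + 1) * M : ℕ) : ℤ) : ℝ) := by
      push_cast; ring
    have e2 : x + (((r + 1) * M : ℕ) : ℝ) = x + ((((r + 1) * M : ℕ) : ℤ) : ℝ) := by
      push_cast; ring
    rw [e1]
    rw [e2] at ih
    have h0 : (0 : ℝ) < ((((r + 1) * M : ℕ) : ℤ) : ℝ) := by
      have : 0 < (r + 1) * M := by positivity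
      exact_mod_cast this
    have key := Emp_add' (x := x) (y := x + ((((r + 1) * M : ℕ) : ℤ) : ℝ))
      (z := x + M + ((((r + 1) * M : ℕ) : ℤ) : ℝ)) (by linarith) (by linarith) (hx.add_intCast _) ih h2
    refine Emp_equiv (nxt (r + 1) ι) ?_ key
    rintro (⟨i, y⟩ | y) <;> rfl

/-- adding `k` points of multiplicity `h` -/
theorem Emp_units' {ι : Type} [Finite ι] {w : ι → ℕ} {h : ℕ} {x : ℝ} {a : ℕ} (ha : 1 ≤ a)
    (hx : Irrational x) (hE : Emp w (Sc x (x + a) h)) (k : ℕ) :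
    Emp (Sum.elim w (fun _ : Fin k => h)) (Sc x (x + (a + k : ℕ)) h) := by
  induction k with
  | zero =>
    have e1 : x + ((a + 0 : ℕ) : ℝ) = x + a := by push_cast; ring
    rw [e1]
    exact Emp_equiv (Equiv.sumEmpty ι (Fin 0)).symm (fun _ => rfl) hE
  | succ k ih =>
    have h2 : Emp (fun _ : Fin 1 => h) (Sc (x + (((a + k : ℕ) : ℤ) : ℝ)) (x + 1 + (((a + k : ℕ) : ℤ) : ℝ)) h) :=
      Emp_shift _ (Emp_unit x h)
    have e1 : x + ((a + (k + 1) : ℕ) : ℝ) = x + 1 + (((a + k : ℕ) : ℤ) : ℝ) := by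
      push_cast; ring
    have e2 : x + ((a + k : ℕ) : ℝ) = x + (((a + k : ℕ) : ℤ) : ℝ) := by
      push_cast; ring
    rw [e1]
    rw [e2] at ih
    have h0 : (0 : ℝ) < (((a + k : ℕ) : ℤ) : ℝ) := by
      have : 0 < a + k := by omega
      exact_mod_cast this
    have key := Emp_add' (x := x) (y := x + (((a + k : ℕ) : ℤ) : ℝ))
      (z := x + 1 + (((a + k : ℕ) : ℤ) : ℝ)) (by linarith) (by linarith) (hx.add_intCast _) ih h2
    refine Emp_equiv ((Equiv.sumAssoc ι (Fin k) (Fin 1)).trans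
      (Equiv.sumCongr (Equiv.refl ι) finSumFinEquiv)) ?_ key
    rintro ((i | i) | i) <;> rfl

/-- the dimension is the expected one or at most one -/
def One {ι : Type} [Fintype ι] (w : ι → ℕ) (S : Set (ℤ × ℤ)) : Prop :=
  Emp w S ∨ Sur w S ∨ Emp (Sum.elim w (fun _ : Fin 1 => 1)) S

/-- **anticanonical degrees, arbitrary excess**: `r + 1` groups of `M + 2` points of multiplicities
at least `m` with the sum `(M + 2) m + j`, and `k` points of multiplicity `h` -/
theorem anti_open {M r k j : ℕ} (hM : 1 ≤ M) (hk : (r + 1) * M + k = 9) {m h : ℕ} (hm : 0 < m)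
    (he : 0 ≤ ee (KN M) m h j) (hsla : ee (KN M) m h j * (2 * KN M + 2) + j < KN M + 1)
    {w : Fin (M + 2) → ℕ} (hw : ∀ i, m ≤ w i) (hs : ∑ i, w i = (M + 2) * m + j) :
    Emp (Sum.elim (Sum.elim (fun p : Fin (r + 1) × Fin (M + 2) => w p.2) (fun _ : Fin k => h))
      (fun _ : Fin 1 => 1)) (TZ (3 * h)) := by
  obtain ⟨hS, hK1, hK2⟩ := slpN hM
  have hK0 := hS.K0
  obtain ⟨x, hx⟩ : ∃ x : ℝ, x = KN M - M := ⟨_, rfl⟩
  have hirr : Irrational x := by
    rw [hx]
    exact hS.irr.sub_natCast M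
  have hx0 : 0 < x := by rw [hx]; linarith
  have hx3 : x < 3 := by rw [hx]; linarith
  have hxM : x + M = KN M := by rw [hx]; ring
  have ha : 1 ≤ (r + 1) * M := Nat.mul_pos (Nat.succ_pos r) hM
  have h9 : x + (((r + 1) * M + k : ℕ) : ℝ) = x + 9 := by rw [hk]; push_cast; ring
  have hD : Dt M (KN M) m h j := ⟨hS, hm, he, hsla⟩
  have h2 := hD.emp_open hw hs
  rw [← hx, ← hxM] at h2
  have h3 := Emp_units' ha hirr (Emp_copies' hM hirr h2 r) k
  rw [h9] at h3
  exact Emp_plane9 hirr hx0 hx3 (Emp_apex (by linarith) h3)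

end Pool.Agent.U11
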