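import Pool.Agent.U11.One
import Pool.Agent.TH864.SX.Eleven

/-! From the dichotomies to the dimensions: expected, or zero expected and one. -/

set_option autoImplicit false

namespace Pool.Agent.U11

open MvPolynomial
open Pool.Agent.TH176.Nag Pool.Agent.TH603.Sur Pool.Agent.H932R3
open Pool.Agent.TH978.S13 (Emp_equiv)

/-- the space of the forms of degree `d` with multiplicity at least `w i` at `P i` -/
noncomputable def Vw (L : Type*) [Field L] {n : ℕ} (w : Fin n → ℕ) (P : Fin n → Fin 2 → L) (d : ℕ) :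
    Submodule L (MvPolynomial (Fin 3) L) :=
  homogeneousSubmodule (Fin 3) L d ⊓ Submodule.restrictScalars L
    (⨅ i : Fin n, (Ideal.span ({X 0 - C (P i 0) * X 2, X 1 - C (P i 1) * X 2} :
      Set (MvPolynomial (Fin 3) L))) ^ (w i))

instance Vw_fin {L : Type*} [Field L] {n : ℕ} (w : Fin n → ℕ) (P : Fin n → Fin 2 → L) (d : ℕ) :
    Module.Finite L (Vw L w P d) := by
  have h3 : Module.Finite L ↥(homogeneousSubmodule (Fin 3) L d) :=
    Module.Finite.iff_fg.2 (homogeneousSubmodule_fg _ _ d)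
  exact Submodule.finiteDimensional_of_le (inf_le_left : Vw L w P d ≤ _)

/-- modulo the ideal of a point every polynomial is a polynomial in `X 2` -/
theorem sub_mem {L : Type*} [Field L] (a b : L) (f : MvPolynomial (Fin 3) L) :
    f - aeval (R := L) (fun i => C ((![a, b, 1] : Fin 3 → L) i) * X 2) f ∈
      Ideal.span ({X 0 - C a * X 2, X 1 - C b * X 2} : Set (MvPolynomial (Fin 3) L)) := by
  induction f using MvPolynomial.induction_on with
  | C c => simp [algebraMap_eq]
  | add p q hp hq =>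
    rw [map_add, add_sub_add_comm]
    exact add_mem hp hq
  | mul_X p i hp =>
    rw [map_mul, aeval_X]
    have e : p * X i - aeval (R := L) (fun i => C ((![a, b, 1] : Fin 3 → L) i) * X 2) p *
        (C ((![a, b, 1] : Fin 3 → L) i) * X 2) =
        (p - aeval (R := L) (fun i => C ((![a, b, 1] : Fin 3 → L) i) * X 2) p) * X i +
        aeval (R := L) (fun i => C ((![a, b, 1] : Fin 3 → L) i) * X 2) p *
          (X i - C ((![a, b, 1] : Fin 3 → L) i) * X 2) := by ring
    rw [e]
    refine add_mem (Ideal.mul_mem_right _ _ hp) (Ideal.mul_mem_left _ _ ?_)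
    fin_cases i
    · exact Ideal.subset_span (by simp)
    · exact Ideal.subset_span (by simp)
    · simp

theorem hom_aeval {L : Type*} [Field L] (v : Fin 3 → L) {d : ℕ} {f : MvPolynomial (Fin 3) L}
    (hf : f.IsHomogeneous d) :
    aeval (R := L) (fun i => (C (v i) * X 2 : MvPolynomial (Fin 3) L)) f = C (eval v f) * X 2 ^ d := by
  rw [aeval_def, eval₂_eq', eval_eq', map_sum, Finset.sum_mul]
  apply Finset.sum_congr rfl
  intro s hs
  have h1 : s.degree = d := by
    have := hf (mem_support_iff.1 hs)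
    rw [Finsupp.degree_eq_weight_one]
    exact this
  have h2 : ∏ i, (C (v i) * X 2 : MvPolynomial (Fin 3) L) ^ s i = C (∏ i, v i ^ s i) * X 2 ^ d := by
    rw [map_prod, ← h1, Finsupp.degree_eq_sum, ← Finset.prod_pow_eq_pow_sum, ← Finset.prod_mul_distrib]
    apply Finset.prod_congr rfl
    intro i _
    rw [mul_pow, map_pow]
  rw [h2, algebraMap_eq, map_mul, mul_assoc]

/-- a form vanishing at the point lies in the ideal of the point -/
theorem mem_point {L : Type*} [Field L] (a b : L) {d : ℕ} {f : MvPolynomial (Fin 3) L}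
    (hf : f.IsHomogeneous d) (h0 : eval (![a, b, 1] : Fin 3 → L) f = 0) :
    f ∈ Ideal.span ({X 0 - C a * X 2, X 1 - C b * X 2} : Set (MvPolynomial (Fin 3) L)) := by
  have h1 := sub_mem a b f
  rw [hom_aeval _ hf, h0] at h1
  simpa using h1

/-- one simple point more: from no forms to at most one -/
theorem finrank_le_one {L : Type*} [Field L] {n : ℕ} {w : Fin n → ℕ} {P : Fin n → Fin 2 → L} {d : ℕ}
    {q : Fin 2 → L}
    (h : Module.finrank L (Vw L (Fin.append w (fun _ : Fin 1 => 1)) (Fin.append P (fun _ : Fin 1 => q)) d)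
      = 0) : Module.finrank L (Vw L w P d) ≤ 1 := by
  have hbot : Vw L (Fin.append w (fun _ : Fin 1 => 1)) (Fin.append P (fun _ : Fin 1 => q)) d = ⊥ :=
    Submodule.finrank_eq_zero.1 h
  let ev : Vw L w P d →ₗ[L] L :=
    ((aeval (R := L) (![q 0, q 1, 1] : Fin 3 → L)).toLinearMap).comp (Vw L w P d).subtype
  have hinj : Function.Injective ev := by
    rw [← LinearMap.ker_eq_bot, LinearMap.ker_eq_bot']
    rintro ⟨f, hf⟩ h0
    have h1 : eval (![q 0, q 1, 1] : Fin 3 → L) f = 0 := by
      have : ev ⟨f, hf⟩ = eval (![q 0, q 1, 1] : Fin 3 → L) f := by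
        simp only [ev, LinearMap.comp_apply, Submodule.subtype_apply, AlgHom.toLinearMap_apply]
        rw [MvPolynomial.aeval_eq_eval]
      rw [← this]
      exact h0
    have h2 : f ∈ Vw L (Fin.append w (fun _ : Fin 1 => 1)) (Fin.append P (fun _ : Fin 1 => q)) d := by
      unfold Vw at hf ⊢
      rw [Submodule.mem_inf, Submodule.restrictScalars_mem, Ideal.mem_iInf] at hf ⊢
      refine ⟨hf.1, fun i => ?_⟩
      refine Fin.addCases (fun i => ?_) (fun i => ?_) i
      · rw [Fin.append_left, Fin.append_left]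
        exact hf.2 i
      · rw [Fin.append_right, Fin.append_right, pow_one]
        exact mem_point _ _ ((mem_homogeneousSubmodule _ _).1 hf.1) h1
    rw [hbot, Submodule.mem_bot] at h2
    exact Subtype.ext h2
  have h3 := LinearMap.finrank_le_finrank_of_injective hinj
  rwa [Module.finrank_self] at h3

/-- specialisation of the last point to a rational point -/
theorem spec_last {n : ℕ} {F : MvPolynomial (Fin (n + 1) × Fin 2) ℚ} (hF : F ≠ 0) :
    ∃ (q : Fin 2 → ℚ) (G : MvPolynomial (Fin n × Fin 2) ℚ), G ≠ 0 ∧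
      ∀ {L : Type} [Field L] [CharZero L] (P : Fin n → Fin 2 → L),
        aeval (fun ij : Fin n × Fin 2 => P ij.1 ij.2) G =
          aeval (fun ij : Fin (n + 1) × Fin 2 => Fin.append P (fun _ : Fin 1 => fun j => ((q j : ℚ) : L))
            ij.1 ij.2) F := by
  obtain ⟨z, hz⟩ : ∃ z : Fin (n + 1) × Fin 2 → ℚ, eval z F ≠ 0 := by
    by_contra hcon
    push Not at hcon
    exact hF (MvPolynomial.funext (fun z => by rw [hcon z, map_zero]))
  obtain ⟨q, hq⟩ : ∃ q : Fin 2 → ℚ, q = fun j => z (Fin.natAdd n (0 : Fin 1), j) := ⟨_, rfl⟩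
  have key : ∀ {L : Type} [Field L] [CharZero L] (P : Fin n → Fin 2 → L),
      aeval (fun ij : Fin n × Fin 2 => P ij.1 ij.2)
        (aeval (R := ℚ) (fun ij : Fin (n + 1) × Fin 2 => Fin.append
          (fun (i : Fin n) (j : Fin 2) => (X (i, j) : MvPolynomial (Fin n × Fin 2) ℚ))
          (fun _ : Fin 1 => fun j => C (q j)) ij.1 ij.2) F) =
      aeval (fun ij : Fin (n + 1) × Fin 2 => Fin.append P (fun _ : Fin 1 => fun j => ((q j : ℚ) : L))
            ij.1 ij.2) F := by
    intro L _ _ P
    rw [← AlgHom.comp_apply, MvPolynomial.comp_aeval]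
    congr 2
    funext ij
    obtain ⟨i, j⟩ := ij
    simp only
    refine Fin.addCases (fun i => ?_) (fun i => ?_) i
    · rw [Fin.append_left, Fin.append_left, aeval_X]
    · rw [Fin.append_right, Fin.append_right, aeval_C]
      simp
  refine ⟨q, _, ?_, key⟩
  intro h0
  have h1 := key (L := ℚ) (fun i j => z (Fin.castAdd 1 i, j))
  rw [h0, map_zero] at h1
  apply hz
  rw [← MvPolynomial.aeval_eq_eval, h1]
  congr 2
  funext ij
  obtain ⟨i, j⟩ := ij
  simp only
  refine Fin.addCases (fun i => ?_) (fun i => ?_) i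
  · rw [Fin.append_left]
  · rw [Fin.append_right, hq]
    have : i = 0 := Subsingleton.elim _ _
    subst this
    simp

/-- **the dimensions**: the expected one, or the expected one is zero and the dimension is one -/
theorem dims {n : ℕ} {w : Fin n → ℕ} {G : ℕ → Prop} (h : ∀ d, G d → One w (TZ d)) :
    ∃ F : MvPolynomial (Fin n × Fin 2) ℚ, F ≠ 0 ∧ ∀ {L : Type} [Field L] [CharZero L]
      (P : Fin n → Fin 2 → L), aeval (fun ij : Fin n × Fin 2 => P ij.1 ij.2) F ≠ 0 →
      ∀ d, G d → Module.finrank L (Vw L w P d) = (d + 2).choose 2 - ∑ i, (w i + 1).choose 2 ∨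
        ((d + 2).choose 2 ≤ ∑ i, (w i + 1).choose 2 ∧ Module.finrank L (Vw L w P d) = 1) := by
  classical
  obtain ⟨F1, hF1, h1⟩ := TH864.SX.expDim_of_or' (w := w) (G := fun d => Emp w (TZ d) ∨ Sur w (TZ d))
    (fun d hd => hd)
  have p2 : ∃ F : MvPolynomial (Fin n × Fin 2) ℚ, F ≠ 0 ∧ ∀ {L : Type} [Field L] [CharZero L]
      (P : Fin n → Fin 2 → L), aeval (fun ij : Fin n × Fin 2 => P ij.1 ij.2) F ≠ 0 →
      ∀ d, Emp (Sum.elim w (fun _ : Fin 1 => 1)) (TZ d) ∧ (d + 2).choose 2 ≤ cond w →
        Module.finrank L (Vw L w P d) ≤ 1 := by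
    by_cases hex : ∃ d, Emp (Sum.elim w (fun _ : Fin 1 => 1)) (TZ d) ∧ (d + 2).choose 2 ≤ cond w
    · obtain ⟨d0, hd0⟩ := hex
      have hN : ∀ d, Emp (Sum.elim w (fun _ : Fin 1 => 1)) (TZ d) ∧ (d + 2).choose 2 ≤ cond w →
          d ≤ cond w := by
        intro d hd
        refine le_trans ?_ hd.2
        rw [Nat.choose_two_right, Nat.le_div_iff_mul_le (by norm_num)]
        have : d + 2 - 1 = d + 1 := by omega
        rw [this]
        nlinarith
      have h2 := Nat.findGreatest_spec (P := fun d => Emp (Sum.elim w (fun _ : Fin 1 => 1)) (TZ d) ∧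
        (d + 2).choose 2 ≤ cond w) (hN d0 hd0) hd0
      have h3 : Emp (Fin.append w (fun _ : Fin 1 => 1)) (TZ (Nat.findGreatest (fun d =>
          Emp (Sum.elim w (fun _ : Fin 1 => 1)) (TZ d) ∧ (d + 2).choose 2 ≤ cond w) (cond w))) :=
        Emp_equiv finSumFinEquiv (by
          rintro (i | i)
          · simp
          · simp) h2.1
      obtain ⟨F, hF, hF'⟩ := full_open h3
      obtain ⟨q, F2, hF2, hG⟩ := spec_last hF
      refine ⟨F2, hF2, fun {L} _ _ P hP d hd => ?_⟩
      rw [hG P] at hP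
      have h4 := hF' _ hP d (Nat.le_findGreatest (hN d hd) hd)
      apply finrank_le_one (q := fun j => ((q j : ℚ) : L))
      have h5 : ∑ i, (Fin.append w (fun _ : Fin 1 => 1) i + 1).choose 2 = cond w + 1 := by
        rw [Fin.sum_univ_add]
        simp only [Fin.append_left, Fin.append_right]
        unfold Pool.Agent.TH603.Sur.cond
        simp
      unfold ExpDim at h4
      rw [h5] at h4
      unfold Vw
      rw [h4]
      omega
    · exact ⟨1, one_ne_zero, fun {L} _ _ P _ d hd => absurd ⟨d, hd⟩ hex⟩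
  obtain ⟨F2, hF2, h2⟩ := p2
  refine ⟨F1 * F2, mul_ne_zero hF1 hF2, fun {L} _ _ P hP d hd => ?_⟩
  rw [map_mul] at hP
  have hc : cond w = ∑ i, (w i + 1).choose 2 := rfl
  rcases h d hd with h3 | h3 | h3
  · exact Or.inl (h1 P (left_ne_zero_of_mul hP) d (Or.inl h3))
  · exact Or.inl (h1 P (left_ne_zero_of_mul hP) d (Or.inr h3))
  · rcases Nat.lt_or_ge (cond w) ((d + 2).choose 2) with h4 | h4
    · exact Or.inl (h1 P (left_ne_zero_of_mul hP) d (Or.inr (TH641.UM.Sur_of_ones h3 h4)))
    · have h5 := h2 P (right_ne_zero_of_mul hP) d ⟨h3, h4⟩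
      rw [hc] at h4
      interval_cases h6 : Module.finrank L (Vw L w P d)
      · left
        omega
      · exact Or.inr ⟨h4, rfl⟩

end Pool.Agent.U11
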