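import Mathlib
import Pool.Agent.U11.Fam
import Pool.Agent.TH387.EX.Core
import Pool.Agent.R724.SH.Beatty

set_option autoImplicit false

/-!
# The equivalence of Q1 for 11 and for 15 points: the open fractional parts

Let `r = 11` or `r = 15` and `α = (√r + 3) / (r - 9)`. For every `ε > 0` and all large `m`, for a general
set `Y` of `r` points of the complex projective plane (one nonempty open set for all degrees) the scheme
`m Y` is `AH₂(d)` and the equivalence of Q1 holds in every degree `d`, unless `m = ⌊3 j α⌋` and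
`d = 3 (m + j)` for some `j ≥ 1` for which the fractional part of `3 j α` lies between `1 / 2 - ε` and
`1 / 2`. In every degree, no form exceptional for `Y` divides all elements of `[I_Y ^ (m)]_d` when this
space is not zero.
-/

namespace Pool.Agent.Results.MP_8707bd_ag.OpenFractionalParts

open MvPolynomial Pool.Agent.TH387.EX

/-- `α = (√r + 3) / (r - 9) = 1 / (√r - 3)` -/
noncomputable def alpha (r : ℕ) : ℝ := (Real.sqrt r + 3) / ((r : ℝ) - 9)

/-- the pair `(m, d)` is `(⌊3 j α⌋, 3 (m + j))` and the fractional part of `3 j α` lies between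
`1 / 2 - ε` and `1 / 2` -/
def Open (r : ℕ) (ε : ℝ) (m d : ℕ) : Prop :=
  ∃ j : ℕ, 1 ≤ j ∧ m = ⌊3 * (j : ℝ) * alpha r⌋₊ ∧ d = 3 * (m + j) ∧
    1 / 2 - ε < Int.fract (3 * (j : ℝ) * alpha r) ∧ Int.fract (3 * (j : ℝ) * alpha r) < 1 / 2

/-- the window in terms of fractional parts -/
theorem open_of {r m d : ℕ} (hr : 10 ≤ r) {ε : ℝ} (hε : ε ≤ 1 / 4) (h3 : 3 ∣ d)
    (h1 : (√(r : ℝ) - 3) / 2 - ε * (√(r : ℝ) - 3) < (d : ℝ) - √(r : ℝ) * m)
    (h2 : (d : ℝ) - √(r : ℝ) * m < (√(r : ℝ) - 3) / 2) : Open r ε m d := by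
  have hs := R724.SH.sqrt_gt hr
  have h4 : Real.sqrt r * m < d := by nlinarith
  obtain ⟨j, hj, hj1, hj2, hj3⟩ := R724.SH.beatty3 hr h3 h4 (by linarith)
  refine ⟨j, hj, hj1, hj3, ?_, hj2⟩
  have hα := R724.SH.alpha_mul hr
  have hα0 := R724.SH.alpha_pos hr
  have h5 : Int.fract (3 * (j : ℝ) * R724.SH.alpha r) = 3 * (j : ℝ) * R724.SH.alpha r - m := by
    have h6 : (0 : ℝ) ≤ 3 * (j : ℝ) * R724.SH.alpha r := by positivity
    have h7 : (⌊3 * (j : ℝ) * R724.SH.alpha r⌋ : ℤ) = (m : ℤ) := by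
      rw [hj1]
      exact (Int.natCast_floor_eq_floor h6).symm
    unfold Int.fract
    rw [h7]
    simp
  have h6 : (d : ℝ) - √(r : ℝ) * m = (√(r : ℝ) - 3) *
      Int.fract (3 * (j : ℝ) * R724.SH.alpha r) := by
    rw [h5, hj3]
    push_cast
    linear_combination (-3 * (j : ℝ)) * hα
  rw [h6] at h1
  have h7 : (√(r : ℝ) - 3) * (1 / 2 - ε) < (√(r : ℝ) - 3) *
      Int.fract (3 * (j : ℝ) * R724.SH.alpha r) := by linarith
  exact lt_of_mul_lt_mul_left h7 (by linarith)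

theorem result (r : ℕ) (hr : r = 11 ∨ r = 15) (ε : ℝ) (hε : 0 < ε) :
    ∃ m₀ : ℕ, ∀ m : ℕ, m₀ ≤ m →
    ∃ Φ : MvPolynomial (Fin r × Fin 2) ℂ, Φ ≠ 0 ∧ ∀ Y : Fin r → Fin 2 → ℂ,
      MvPolynomial.eval (fun ij : Fin r × Fin 2 => Y ij.1 ij.2) Φ ≠ 0 → ∀ d : ℕ,
        (¬ Open r ε m d → IsAH Y m d ∧ Equivalence Y m d) ∧
          (part (fat Y m) d ≠ ⊥ → ∀ F, IsExceptional Y F → ∃ G ∈ part (fat Y m) d, ¬ F ∣ G) := by
  have hr10 : 10 ≤ r := by omega
  have hs := R724.SH.sqrt_gt hr10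
  obtain ⟨η, hη⟩ : ∃ η : ℝ, η = min ε (1 / 4) := ⟨_, rfl⟩
  have hη0 : 0 < η := by rw [hη]; exact lt_min hε (by norm_num)
  have hη1 : η ≤ 1 / 4 := by rw [hη]; exact min_le_right _ _
  have hη2 : η ≤ ε := by rw [hη]; exact min_le_left _ _
  obtain ⟨m₀, hm₀⟩ := U11.uniform4 (n := r) (ε := η * (√(r : ℝ) - 3)) (by omega)
    (mul_pos hη0 (by linarith))
  refine ⟨m₀, fun m hm => ?_⟩
  obtain ⟨F, hF, hF'⟩ := hm₀ m hm
  obtain ⟨Φ, hΦ, hΦ'⟩ := core hr10 (S := {d : ℕ | ¬ Open r ε m d}) (m := m)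
    ⟨F, hF, fun P hP d hd => hF' P hP d (by
      by_cases h3 : 3 ∣ d
      · right
        rcases le_or_gt ((d : ℝ) - √(r : ℝ) * m)
          ((√(r : ℝ) - 3) / 2 - η * (√(r : ℝ) - 3)) with h4 | h4
        · exact Or.inl ⟨h3, h4⟩
        · right
          refine ⟨h3, ?_⟩
          by_contra hcon
          push Not at hcon
          apply hd
          obtain ⟨j, hj, hj1, hj2, hj3, hj4⟩ := open_of hr10 hη1 h3 h4 hcon
          exact ⟨j, hj, hj1, hj2, by linarith, hj4⟩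
      · exact Or.inl ⟨h3, by omega⟩)⟩
  refine ⟨Φ, hΦ, fun Y hY d => ?_⟩
  obtain ⟨h1, _, h3⟩ := hΦ' Y hY
  exact ⟨fun hd => h1 d hd, h3 d⟩

end Pool.Agent.Results.MP_8707bd_ag.OpenFractionalParts
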