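import Pool.Agent.TH759.EV.Quad
import Pool.Agent.U11.Near

/-! Nearly equal multiplicities: from `N` points to `4 N` points, one degree at a time. -/

set_option autoImplicit false

namespace Pool.Agent.U11

open Finset Pool.Agent.TH176.Nag Pool.Agent.TH603.Sur Pool.Agent.TH763.DB Module Pool.Agent.TH641.UM
  Pool.Agent.TH2.NU Pool.Agent.TH759.EV

/-- the sign theorem in the degree `d` -/
abbrev Sgd (d : ℕ) (M : Multiset ℕ) : Prop := Sgn M d

theorem Sgn_or {M : Multiset ℕ} {d : ℕ} (h : Sgn M d) : EmpM M (TZ d) ∨ SurM M (TZ d) := by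
  rcases le_total ((d + 2).choose 2) (Pool.Agent.TH2.NU.condM M) with h1 | h1
  · exact Or.inl (h.1 h1)
  · exact Or.inr (h.2 h1)

/-- exact clusters -/
theorem SgR {a b d : ℕ} (hb : 1 ≤ b) {M : Multiset ℕ} (h : Sgd d (a • {b} + M)) :
    Sgd d (a • r4 b + M) := by
  have e : Pool.Agent.TH2.NU.condM (a • r4 b + M) = Pool.Agent.TH2.NU.condM (a • {b} + M) := by
    rw [condM_add, condM_add, condM_smul, condM_smul, condM_single, condM_r4 hb]
  refine ⟨fun h1 => exM' hb (h.1 (by rw [← e]; exact h1)), fun h1 => exMS hb (h.2 (by rw [← e]; exact h1))⟩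

/-- doubling without a window -/
theorem SgQ {a b d : ℕ} (hb : 1 ≤ b) {M : Multiset ℕ} (h1 : Sgd d (a • {b} + M))
    (h2 : Sgd d (a • {b + 1} + M)) : Sgd d (a • q4 b + M) := by
  rcases Nat.eq_zero_or_pos a with rfl | ha
  · simpa using h1
  rcases Sgn_or h1 with h3 | h3
  · have h4 := Emp_rq (exM' hb h3)
    have h5 := Pool.Agent.TH864.SX.ED_of_or (Or.inl ((EmpM_iff (ms_toList _) _).1 h4))
    rw [cond_condM, ms_toList] at h5
    exact ⟨fun h => (EmpM_iff (ms_toList _) _).2 (h5.1 h), fun h => (SurM_iff (ms_toList _) _).2 (h5.2 h)⟩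
  · rcases Sgn_or h2 with h4 | h4
    · exact Sgn_dbl ha h3 h4
    · have h5 := Sur_rq (exMS (by omega) h4)
      have h6 := Pool.Agent.TH864.SX.ED_of_or (Or.inr ((SurM_iff (ms_toList _) _).1 h5))
      rw [cond_condM, ms_toList] at h6
      exact ⟨fun h => (EmpM_iff (ms_toList _) _).2 (h6.1 h), fun h => (SurM_iff (ms_toList _) _).2 (h6.2 h)⟩

/-- nearly equal multiplicities at `N` points, one degree -/
def NUd (N d : ℕ) : Prop := ∀ b : ℕ, 1 ≤ b → ∀ x y : ℕ, x + y = N → Sgd d (x • {b} + y • {b + 1})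

theorem NUd_quad {N d : ℕ} (h : NUd N d) : NUd (4 * N) d := by
  intro m hm x y hxy
  rcases le_or_gt y N with h1 | h1
  · -- `N - y` clusters `q4 (2 m)`, `y` clusters `r4 (2 m + 1)`
    have e : x • {m} + y • {m + 1} = (N - y) • q4 (2 * m) + y • r4 (2 * m + 1) := by
      rw [q4_even, r4_odd, show x = (N - y) * 4 + y * 3 by omega]
      simp only [smul_add, smul_smul, add_smul]
      abel
    rw [e]
    have hA : ∀ c : ℕ, c = 2 * m ∨ c = 2 * m + 1 → Sgd d ((N - y) • {c} + y • r4 (2 * m + 1)) := by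
      intro c hc
      rw [add_comm]
      apply SgR (by omega)
      rw [add_comm]
      rcases hc with rfl | rfl
      · exact h (2 * m) (by omega) _ _ (by omega)
      · rw [← add_smul]
        have := h (2 * m + 1) (by omega) (N - y + y) 0 (by omega)
        rwa [zero_smul, add_zero] at this
    exact SgQ (by omega) (hA _ (Or.inl rfl)) (hA _ (Or.inr rfl))
  rcases le_or_gt y (3 * N) with h2 | h2
  · -- `a` clusters `q4 (2 m + 1)`, `p` clusters `r4 (2 m + 1)`, `r` clusters `r4 (2 m + 2)`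
    obtain ⟨a, p, r, h3, h4⟩ : ∃ a p r : ℕ, a + p + r = N ∧ 2 * a + p + 3 * r = y :=
      ⟨(y - N) % 2, N - (y - N) % 2 - (y - N) / 2, (y - N) / 2, by omega, by omega⟩
    have e : x • {m} + y • {m + 1} =
        a • q4 (2 * m + 1) + (p • r4 (2 * m + 1) + r • r4 (2 * m + 2)) := by
      rw [q4_odd, r4_odd, r4_even, show x = a * 2 + p * 3 + r by omega,
        show y = a * 2 + p + r * 3 by omega]
      simp only [smul_add, smul_smul, add_smul]
      abel
    rw [e]
    have hA : ∀ c : ℕ, c = 2 * m + 1 ∨ c = 2 * m + 2 →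
        Sgd d (a • {c} + (p • r4 (2 * m + 1) + r • r4 (2 * m + 2))) := by
      intro c hc
      have e1 : a • {c} + (p • r4 (2 * m + 1) + r • r4 (2 * m + 2)) =
        p • r4 (2 * m + 1) + (a • {c} + r • r4 (2 * m + 2)) := by abel
      rw [e1]
      apply SgR (by omega)
      have e2 : p • {2 * m + 1} + (a • {c} + r • r4 (2 * m + 2)) =
        r • r4 (2 * m + 2) + (p • {2 * m + 1} + a • {c}) := by abel
      rw [e2]
      apply SgR (by omega)
      rcases hc with rfl | rfl
      · have e3 : r • ({2 * m + 2} : Multiset ℕ) + (p • {2 * m + 1} + a • {2 * m + 1}) =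
          (p + a) • {2 * m + 1} + r • {2 * m + 1 + 1} := by rw [add_smul]; abel
        rw [e3]
        exact h (2 * m + 1) (by omega) _ _ (by omega)
      · have e3 : r • ({2 * m + 2} : Multiset ℕ) + (p • {2 * m + 1} + a • {2 * m + 2}) =
          p • {2 * m + 1} + (r + a) • {2 * m + 1 + 1} := by rw [add_smul]; abel
        rw [e3]
        exact h (2 * m + 1) (by omega) _ _ (by omega)
    exact SgQ (by omega) (hA _ (Or.inl rfl)) (hA _ (Or.inr rfl))
  · -- `a` clusters `q4 (2 m + 2)`, `r` clusters `r4 (2 m + 2)`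
    obtain ⟨a, r, h3, h4⟩ : ∃ a r : ℕ, a + r = N ∧ 4 * a + 3 * r = y :=
      ⟨y - 3 * N, 4 * N - y, by omega, by omega⟩
    have e : x • {m} + y • {m + 1} = a • q4 (2 * (m + 1)) + r • r4 (2 * m + 2) := by
      rw [q4_even, r4_even, show x = r by omega, show y = a * 4 + r * 3 by omega]
      simp only [smul_add, smul_smul, add_smul]
      abel
    rw [e]
    have hA : ∀ c : ℕ, c = 2 * (m + 1) ∨ c = 2 * (m + 1) + 1 → Sgd d (a • {c} + r • r4 (2 * m + 2)) := by
      intro c hc
      rw [add_comm]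
      apply SgR (by omega)
      rcases hc with rfl | rfl
      · have e3 : r • ({2 * m + 2} : Multiset ℕ) + a • {2 * (m + 1)} =
          (r + a) • {2 * m + 2} + 0 • {2 * m + 2 + 1} := by
          rw [add_smul, zero_smul, add_zero]; rfl
        rw [e3]
        exact h (2 * m + 2) (by omega) _ _ (by omega)
      · have e3 : r • ({2 * m + 2} : Multiset ℕ) + a • {2 * (m + 1) + 1} =
          r • ({2 * m + 2} : Multiset ℕ) + a • {2 * m + 2 + 1} := rfl
        rw [e3]
        exact h (2 * m + 2) (by omega) _ _ (by omega)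
    exact SgQ (by omega) (hA _ (Or.inl rfl)) (hA _ (Or.inr rfl))

theorem NUd_pow {N d : ℕ} (h : NUd N d) (k : ℕ) : NUd (N * 4 ^ k) d := by
  induction k with
  | zero => simpa using h
  | succ k ih =>
    have := NUd_quad ih
    rwa [show 4 * (N * 4 ^ k) = N * 4 ^ (k + 1) by ring] at this

/-- near-uniform families and multisets -/
theorem NUd_fam {N d : ℕ} (h : NUd N d) {m : ℕ} (hm : 1 ≤ m) {ι : Type} [Fintype ι]
    (hc : Fintype.card ι = N) {w : ι → ℕ} (hw : ∀ i, w i = m ∨ w i = m + 1) :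
    Emp w (TZ d) ∨ Sur w (TZ d) := by
  classical
  obtain ⟨y, hy⟩ : ∃ y : ℕ, y = ∑ i, (w i - m) := ⟨_, rfl⟩
  have h1 : ∑ i, w i = N * m + y := by
    have : N * m = ∑ _i : ι, m := by simp [hc]
    rw [this, hy, ← sum_add_distrib]
    exact sum_congr rfl fun i _ => by rcases hw i with h | h <;> omega
  have hyN : y ≤ N := by
    have : N = ∑ _i : ι, 1 := by simp [hc]
    rw [hy, this]
    exact sum_le_sum fun i _ => by rcases hw i with h | h <;> omega
  have e : ms w = (N - y) • {m} + y • {m + 1} := by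
    have h2 : ms w = ms (Sum.elim (fun _ : Fin (N - y) => m) (fun _ : Fin y => m + 1)) := by
      refine ms_eq hw ?_ ?_ ?_
      · rintro (i | i)
        · exact Or.inl rfl
        · exact Or.inr rfl
      · rw [hc, Fintype.card_sum, Fintype.card_fin, Fintype.card_fin]; omega
      · rw [h1, Fintype.sum_sum_type]
        simp only [Sum.elim_inl, Sum.elim_inr, sum_const, card_univ, Fintype.card_fin, smul_eq_mul]
        obtain ⟨z, hz⟩ : ∃ z, N = y + z := ⟨N - y, by omega⟩
        rw [hz, Nat.add_sub_cancel_left]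
        ring
    rw [h2, ms_sum, ms_fin, ms_fin]
  have h3 := Sgn_or (h m hm (N - y) y (by omega))
  rw [← e, EmpM_iff rfl, SurM_iff rfl] at h3
  exact h3

theorem NUd_of {N d : ℕ} (h0 : ∀ (w : Fin N → ℕ) (m : ℕ), (∀ i, w i = m ∨ w i = m + 1) →
    Emp w (TZ d) ∨ Sur w (TZ d)) : NUd N d := by
  intro b hb x y hxy
  have e : x • {b} + y • {b + 1} = ms (Sum.elim (fun _ : Fin x => b) (fun _ : Fin y => b + 1)) := by
    rw [ms_sum, ms_fin, ms_fin]
  have hc : Fintype.card (Fin x ⊕ Fin y) = N := by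
    rw [Fintype.card_sum, Fintype.card_fin, Fintype.card_fin]; exact hxy
  let f := Fintype.equivFinOfCardEq hc
  have h1 := h0 (fun i => Sum.elim (fun _ : Fin x => b) (fun _ : Fin y => b + 1) (f.symm i)) b (by
    intro i
    rcases f.symm i with j | j
    · exact Or.inl rfl
    · exact Or.inr rfl)
  have h2 := Pool.Agent.TH864.SX.ED_of_or h1
  have h3 : ms (fun i => Sum.elim (fun _ : Fin x => b) (fun _ : Fin y => b + 1) (f.symm i)) =
      x • {b} + y • {b + 1} := by
    rw [e]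
    unfold ms
    exact Equiv.sum_comp f.symm (fun j => ({Sum.elim (fun _ : Fin x => b) (fun _ : Fin y => b + 1) j} : Multiset ℕ))
  rw [cond_condM, h3] at h2
  exact ⟨fun h => (EmpM_iff h3 _).2 (h2.1 h), fun h => (SurM_iff h3 _).2 (h2.2 h)⟩

/-- the exceptional degrees -/
def BadE (ε : ℝ) (d : ℕ) : Prop := 3 ∣ d ∧ ∃ W : ℕ, √11 * (2 * d + 3) < 11 + 2 * (W : ℝ) ∧
  11 + 2 * (W : ℝ) < √11 * (2 * d + 3) + ε

/-- **`11 * 4 ^ k` nearly equal multiplicities** -/
theorem NUd_eleven {ε : ℝ} (hε : 0 < ε) : ∃ d₀ : ℕ, ∀ d : ℕ, d₀ ≤ d → ¬ BadE ε d → ∀ k : ℕ,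
    NUd (11 * 4 ^ k) d := by
  obtain ⟨d₀, hd₀⟩ := near11 hε
  refine ⟨d₀, fun d hd hb k => NUd_pow (NUd_of fun w m hw => hd₀ w m d hd hw ?_) k⟩
  rintro ⟨h1, h2, h3⟩
  exact hb ⟨h1, _, h2, h3⟩

end Pool.Agent.U11
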