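import Pool.Agent.U11.Quad

/-! Nearly equal multiplicities from subdivisions. -/

set_option autoImplicit false

namespace Pool.Agent.U11

open Finset Pool.Agent.TH176.Nag Pool.Agent.TH603.Sur Pool.Agent.TH763.DB Module Pool.Agent.TH641.UM
  Pool.Agent.TH2.NU Pool.Agent.TH759.EV

theorem quad_gen (T : Multiset ℕ → Prop)
    (hR : ∀ {a b : ℕ} {M : Multiset ℕ}, 1 ≤ b → T (a • {b} + M) → T (a • r4 b + M))
    (hQ : ∀ {a b : ℕ} {M : Multiset ℕ}, 1 ≤ b → T (a • {b} + M) → T (a • {b + 1} + M) →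
      T (a • q4 b + M)) {N : ℕ}
    (h : ∀ b : ℕ, 1 ≤ b → ∀ x y : ℕ, x + y = N → T (x • {b} + y • {b + 1})) :
    ∀ b : ℕ, 1 ≤ b → ∀ x y : ℕ, x + y = 4 * N → T (x • {b} + y • {b + 1}) := by
  intro m hm x y hxy
  rcases le_or_gt y N with h1 | h1
  · -- `N - y` clusters `q4 (2 m)`, `y` clusters `r4 (2 m + 1)`
    have e : x • {m} + y • {m + 1} = (N - y) • q4 (2 * m) + y • r4 (2 * m + 1) := by
      rw [q4_even, r4_odd, show x = (N - y) * 4 + y * 3 by omega]
      simp only [smul_add, smul_smul, add_smul]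
      abel
    rw [e]
    have hA : ∀ c : ℕ, c = 2 * m ∨ c = 2 * m + 1 → T ((N - y) • {c} + y • r4 (2 * m + 1)) := by
      intro c hc
      rw [add_comm]
      apply hR (by omega)
      rw [add_comm]
      rcases hc with rfl | rfl
      · exact h (2 * m) (by omega) _ _ (by omega)
      · rw [← add_smul]
        have := h (2 * m + 1) (by omega) (N - y + y) 0 (by omega)
        rwa [zero_smul, add_zero] at this
    exact hQ (by omega) (hA _ (Or.inl rfl)) (hA _ (Or.inr rfl))
  rcases le_or_gt y (3 * N) with h2 | h2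
  · -- `a` clusters `q4 (2 m + 1)`, `p` clusters `r4 (2 m + 1)`, `r` clusters `r4 (2 m + 2)`
    obtain ⟨a, p, r, h3, h4⟩ : ∃ a p r : ℕ, a + p + r = N ∧ 2 * a + p + 3 * r = y :=
      ⟨(y - N) % 2, N - (y - N) % 2 - (y - N) / 2, (y - N) / 2, by omega, by omega⟩
    have e : x • {m} + y • {m + 1} =
        a • q4 (2 * m + 1) + (p • r4 (2 * m + 1) + r • r4 (2 * m + 2)) := by
      rw [q4_odd, r4_odd, r4_even, show x = a * 2 + p * 3 + r by omega,
        show y = a * 2 + p + r * 3 by omega]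
      simp only [smul_add, smul_smul, add_smul]
      abel
    rw [e]
    have hA : ∀ c : ℕ, c = 2 * m + 1 ∨ c = 2 * m + 2 →
        T (a • {c} + (p • r4 (2 * m + 1) + r • r4 (2 * m + 2))) := by
      intro c hc
      have e1 : a • {c} + (p • r4 (2 * m + 1) + r • r4 (2 * m + 2)) =
        p • r4 (2 * m + 1) + (a • {c} + r • r4 (2 * m + 2)) := by abel
      rw [e1]
      apply hR (by omega)
      have e2 : p • {2 * m + 1} + (a • {c} + r • r4 (2 * m + 2)) =
        r • r4 (2 * m + 2) + (p • {2 * m + 1} + a • {c}) := by abel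
      rw [e2]
      apply hR (by omega)
      rcases hc with rfl | rfl
      · have e3 : r • ({2 * m + 2} : Multiset ℕ) + (p • {2 * m + 1} + a • {2 * m + 1}) =
          (p + a) • {2 * m + 1} + r • {2 * m + 1 + 1} := by rw [add_smul]; abel
        rw [e3]
        exact h (2 * m + 1) (by omega) _ _ (by omega)
      · have e3 : r • ({2 * m + 2} : Multiset ℕ) + (p • {2 * m + 1} + a • {2 * m + 2}) =
          p • {2 * m + 1} + (r + a) • {2 * m + 1 + 1} := by rw [add_smul]; abel
        rw [e3]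
        exact h (2 * m + 1) (by omega) _ _ (by omega)
    exact hQ (by omega) (hA _ (Or.inl rfl)) (hA _ (Or.inr rfl))
  · -- `a` clusters `q4 (2 m + 2)`, `r` clusters `r4 (2 m + 2)`
    obtain ⟨a, r, h3, h4⟩ : ∃ a r : ℕ, a + r = N ∧ 4 * a + 3 * r = y :=
      ⟨y - 3 * N, 4 * N - y, by omega, by omega⟩
    have e : x • {m} + y • {m + 1} = a • q4 (2 * (m + 1)) + r • r4 (2 * m + 2) := by
      rw [q4_even, r4_even, show x = r by omega, show y = a * 4 + r * 3 by omega]
      simp only [smul_add, smul_smul, add_smul]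
      abel
    rw [e]
    have hA : ∀ c : ℕ, c = 2 * (m + 1) ∨ c = 2 * (m + 1) + 1 → T (a • {c} + r • r4 (2 * m + 2)) := by
      intro c hc
      rw [add_comm]
      apply hR (by omega)
      rcases hc with rfl | rfl
      · have e3 : r • ({2 * m + 2} : Multiset ℕ) + a • {2 * (m + 1)} =
          (r + a) • {2 * m + 2} + 0 • {2 * m + 2 + 1} := by
          rw [add_smul, zero_smul, add_zero]; rfl
        rw [e3]
        exact h (2 * m + 2) (by omega) _ _ (by omega)
      · have e3 : r • ({2 * m + 2} : Multiset ℕ) + a • {2 * (m + 1) + 1} =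
          r • ({2 * m + 2} : Multiset ℕ) + a • {2 * m + 2 + 1} := rfl
        rw [e3]
        exact h (2 * m + 2) (by omega) _ _ (by omega)
    exact hQ (by omega) (hA _ (Or.inl rfl)) (hA _ (Or.inr rfl))

end Pool.Agent.U11
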