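import Mathlib
import Pool.Agent.U11.Near

set_option autoImplicit false

/-!
# Eleven points, near-uniform classes: the bad degrees have gaps tending to infinity

Let `w i ∈ {m, m + 1}`, `m ≥ 1` arbitrary, be multiplicities at 11 general points of the complex
projective plane. For every `ε > 0` there is `d₀` such that in every degree `d ≥ d₀` the class
`d H - ∑ w i E i` has `h⁰ = max (0, χ)` unless `3 ∣ d` and `0 < 11 + 2 ∑ w i - √11 (2 d + 3) < ε`.
Consequently the gaps between the consecutive degrees in which some of these classes is not as expected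
tend to infinity.
-/

namespace Pool.Agent.Results.MP_70e04f_ag.SparseBadDegrees

open MvPolynomial

/-- Forms of degree `d` vanishing to order at least `w i` at the points `(P i 0 : P i 1 : 1)`. -/
noncomputable def forms {n : ℕ} (P : Fin n → Fin 2 → ℂ) (d : ℕ) (w : Fin n → ℕ) :
    Submodule ℂ (MvPolynomial (Fin 3) ℂ) :=
  homogeneousSubmodule (Fin 3) ℂ d ⊓
    Submodule.restrictScalars ℂ
      (⨅ i : Fin n, (Ideal.span {X 0 - C (P i 0) * X 2, X 1 - C (P i 1) * X 2} :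
        Ideal (MvPolynomial (Fin 3) ℂ)) ^ (w i))

/-- `h⁰(d H - ∑ w i E i) = max (0, χ(d H - ∑ w i E i))` on the blow-up of the plane at the points
`P`. -/
def Expected {n : ℕ} (P : Fin n → Fin 2 → ℂ) (d : ℕ) (w : Fin n → ℕ) : Prop :=
  (Module.finrank ℂ ↥(forms P d w) : ℤ) =
    max 0 (((d + 2).choose 2 : ℤ) - ∑ i, ((w i + 1).choose 2 : ℤ))

/-- For points `P` of a nonempty open set (the complement of a hypersurface `F = 0` of the space of
all `P`), `h⁰ = max (0, χ)` in the degree `d`. -/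
def General {n : ℕ} (w : Fin n → ℕ) (d : ℕ) : Prop :=
  ∃ F : MvPolynomial (Fin n × Fin 2) ℂ, F ≠ 0 ∧
    ∀ P : Fin n → Fin 2 → ℂ, eval (fun ij : Fin n × Fin 2 => P ij.1 ij.2) F ≠ 0 → Expected P d w

/-- The degree `d` is good: all vectors of eleven positive multiplicities which take at most two
consecutive values `m`, `m + 1` are as expected in the degree `d`. -/
def Good (d : ℕ) : Prop :=
  ∀ m : ℕ, 0 < m → ∀ w : Fin 11 → ℕ, (∀ i, w i = m ∨ w i = m + 1) → General w d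

open Pool.Agent.TH176.Nag Pool.Agent.TH603.Sur in
theorem general_of {n : ℕ} {w : Fin n → ℕ} {d : ℕ}
    (h : Emp w (TZ d) ∨ Sur w (TZ d)) : General w d := by
  obtain ⟨F, hF, hF'⟩ := Pool.Agent.TH864.SX.expDim_of_or' (w := w) (G := fun d' => d' = d)
    (fun d' hd' => by rw [hd']; exact h)
  refine ⟨F.map (algebraMap ℚ ℂ), Pool.Agent.H932R3.map_ne_zero_of hF, fun P hP => ?_⟩
  rw [MvPolynomial.eval_map] at hP
  have h1 := hF' P hP d rfl
  unfold Pool.Agent.H932R3.ExpDim at h1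
  unfold Expected forms
  rw [h1]
  have e : ∑ i, ((w i + 1).choose 2 : ℤ) = ((∑ i, (w i + 1).choose 2 : ℕ) : ℤ) := by
    push_cast
    rfl
  rw [e]
  omega

/-- **Eleven points: near-uniform classes in all degrees but a sequence with gaps tending to
infinity.** -/
theorem result :
    (∀ ε : ℝ, 0 < ε → ∃ d₀ : ℕ, ∀ d : ℕ, d₀ ≤ d → ∀ m : ℕ, 0 < m → ∀ w : Fin 11 → ℕ,
      (∀ i, w i = m ∨ w i = m + 1) →
      ¬ (3 ∣ d ∧ √11 * (2 * d + 3) < 11 + 2 * ∑ i, (w i : ℝ) ∧
        11 + 2 * ∑ i, (w i : ℝ) < √11 * (2 * d + 3) + ε) → General w d) ∧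
    (∀ Q : ℕ, ∃ d₀ : ℕ, ∀ d d' : ℕ, d₀ ≤ d → d < d' → ¬ Good d → ¬ Good d' →
      3 ∣ d ∧ 3 ∣ d' ∧ d + Q ≤ d') := by
  constructor
  · intro ε hε
    obtain ⟨d₀, hd₀⟩ := Pool.Agent.U11.near11 hε
    refine ⟨d₀, fun d hd m hm w hw h => general_of (hd₀ w m d hd hw ?_)⟩
    push_cast
    exact h
  · intro Q
    obtain ⟨ε, hε, hs⟩ := Pool.Agent.U11.sparse11 Q
    obtain ⟨d₀, hd₀⟩ := Pool.Agent.U11.near11 hε
    refine ⟨d₀, fun d d' hd hdd' hb hb' => ?_⟩
    have key : ∀ a : ℕ, d₀ ≤ a → ¬ Good a → 3 ∣ a ∧ ∃ W : ℕ, √11 * (2 * a + 3) < 11 + 2 * (W : ℝ) ∧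
        11 + 2 * (W : ℝ) < √11 * (2 * a + 3) + ε := by
      intro a ha hba
      unfold Good at hba
      push Not at hba
      obtain ⟨m, hm, w, hw, hg⟩ := hba
      by_contra hcon
      apply hg
      refine general_of (hd₀ w m a ha hw ?_)
      rintro ⟨h1, h2, h3⟩
      exact hcon ⟨h1, ∑ i, w i, h2, h3⟩
    obtain ⟨h1, W, h2⟩ := key d hd hb
    obtain ⟨h3, W', h4⟩ := key d' (hd.trans hdd'.le) hb'
    refine ⟨h1, h3, ?_⟩
    by_contra hcon
    push Not at hcon
    exact hs d d' W W' hdd' hcon h2 h4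

end Pool.Agent.Results.MP_70e04f_ag.SparseBadDegrees
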